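import Pool.Agent.Helper64.BX.Basic

/-! BEC exact P3 (MP_436ed3_co), piece Pm.  Paper: /team-store/BECX_P3_paper.md, (B4).
Tutte's theorem (`SimpleGraph.tutte`) for the complement graph induced on B'. If there is no perfect matching take S with more than |S| odd components, hence ≥ |S| + 2 (parity,
`SimpleGraph.odd_ncard_oddComponents`). A component has ≥ 2M - |S| - (1+ε) M vertices (all vertices outside it and outside S are G-neighbours of each of its vertices). So |S| = 0 (then B' is
disconnected: D1 = a component, D2 = the rest) or |S| > (1-γ) M (then one vertex of every component gives a set without H-edges of size > (1-γ) M).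
-/

set_option autoImplicit false

namespace Pool.Agent.Helper64.BX

open Finset Classical

/-- a fixed point free involution along the complement gives a tiling by pairs -/
theorem tl_two_of_partner {V : Type} (G : SimpleGraph V) (B' : Finset V) (M : ℕ)
    (hM : B'.card = 2 * M) (p : V → V) (h1 : ∀ x ∈ B', p x ∈ B') (h2 : ∀ x ∈ B', p (p x) = x)
    (h3 : ∀ x ∈ B', HA G x (p x)) : Tl G 2 M B' := by
  set P : Finset (Finset V) := B'.image fun x => {x, p x} with hP
  have hc : ∀ c ∈ P, c.card = 2 := by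
    intro c hc
    rw [hP, mem_image] at hc
    obtain ⟨x, hx, rfl⟩ := hc
    exact card_pair (h3 x hx).1
  have heq : ∀ x ∈ B', ∀ z ∈ ({x, p x} : Finset V), ({z, p z} : Finset V) = {x, p x} := by
    intro x hx z hz
    rw [mem_insert, mem_singleton] at hz
    rcases hz with rfl | rfl
    · rfl
    · rw [h2 x hx]; exact pair_comm _ _
  have hd : ∀ c ∈ P, ∀ c' ∈ P, c ≠ c' → Disjoint c c' := by
    intro c hc c' hc' hne
    rw [hP, mem_image] at hc hc'
    obtain ⟨x, hx, rfl⟩ := hc
    obtain ⟨y, hy, rfl⟩ := hc'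
    rw [disjoint_left]
    intro z hz hz'
    exact hne ((heq x hx z hz).symm.trans (heq y hy z hz'))
  have hPI : ∀ c ∈ P, Ind G c := by
    intro c hc x hx y hy hxy
    rw [hP, mem_image] at hc
    obtain ⟨a, ha, rfl⟩ := hc
    rw [mem_insert, mem_singleton] at hx hy
    have h4 := (h3 a ha).2
    rcases hx with rfl | rfl <;> rcases hy with rfl | rfl
    · exact G.irrefl hxy
    · exact h4 hxy
    · exact h4 hxy.symm
    · exact G.irrefl hxy
  have hU : P.biUnion id = B' := by
    ext z
    simp only [mem_biUnion, id]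
    constructor
    · rintro ⟨c, hc, hz⟩
      rw [hP, mem_image] at hc
      obtain ⟨x, hx, rfl⟩ := hc
      rw [mem_insert, mem_singleton] at hz
      rcases hz with rfl | rfl
      · exact hx
      · exact h1 x hx
    · intro hz
      exact ⟨{z, p z}, mem_image_of_mem _ hz, by simp⟩
  have hPM : P.card = M := by
    have h4 : (P.biUnion id).card = P.card * 2 := by
      rw [card_biUnion (t := id) (fun c hc c' hc' hne => hd c hc c' hc' hne)]
      exact sum_const_nat hc
    rw [hU, hM] at h4
    omega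
  subst hPM
  refine ⟨fun i => (P.equivFin.symm i : Finset V), ?_, ?_, ?_, ?_⟩
  · intro i
    exact hc _ (P.equivFin.symm i).2
  · intro i
    exact hPI _ (P.equivFin.symm i).2
  · intro i j hij
    exact hd _ (P.equivFin.symm i).2 _ (P.equivFin.symm j).2
      (fun h => hij (P.equivFin.symm.injective (Subtype.ext h)))
  · ext z
    simp only [mem_biUnion, mem_univ, true_and]
    constructor
    · rintro ⟨i, hi⟩
      rw [← hU]
      exact mem_biUnion.2 ⟨_, (P.equivFin.symm i).2, hi⟩
    · intro hz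
      rw [← hU, mem_biUnion] at hz
      obtain ⟨c, hc', hz⟩ := hz
      exact ⟨P.equivFin ⟨c, hc'⟩, by simpa using hz⟩

/-- Tutte: a dense graph without large independent sets has a perfect matching or is disconnected -/
theorem tutte_dense {X : Type} [Fintype X] (H : SimpleGraph X) (M : ℕ) (γ : ℝ) (h0 : 0 < γ)
    (h1 : γ < 1) (hM : 1 ≤ M) (hX : Fintype.card X = 2 * M)
    (hdeg : ∀ x, ((univ.filter fun y => x ≠ y ∧ ¬ H.Adj x y).card : ℝ) ≤ (1 + γ / 4) * M)
    (hind : ∀ Z : Finset X, (∀ x ∈ Z, ∀ y ∈ Z, ¬ H.Adj x y) → (Z.card : ℝ) < (1 - γ) * M) :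
    (∃ M' : H.Subgraph, M'.IsPerfectMatching) ∨
      ∃ D : Finset X, D.Nonempty ∧ (univ \ D).Nonempty ∧ ∀ x ∈ D, ∀ y, y ∉ D → ¬ H.Adj x y := by
  by_cases hpm : ∃ M' : H.Subgraph, M'.IsPerfectMatching
  · exact Or.inl hpm
  refine Or.inr ?_
  rw [SimpleGraph.tutte] at hpm
  push Not at hpm
  obtain ⟨u, hu⟩ := hpm
  unfold SimpleGraph.IsTutteViolator at hu
  set K := ((⊤ : H.Subgraph).deleteVerts u).coe with hK
  have hverts : ((⊤ : H.Subgraph).deleteVerts u).verts = uᶜ := by
    rw [SimpleGraph.Subgraph.deleteVerts_verts]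
    ext x; simp
  have hcardY : Nat.card ((⊤ : H.Subgraph).deleteVerts u).verts + u.ncard = 2 * M := by
    rw [hverts, Nat.card_coe_set_eq]
    have := Set.ncard_add_ncard_compl u (Set.toFinite _) (Set.toFinite _)
    rw [Nat.card_eq_fintype_card, hX] at this
    omega
  have hpar := K.odd_ncard_oddComponents
  have hodd : u.ncard + 2 ≤ K.oddComponents.ncard := by
    by_contra hcon
    have h3 : K.oddComponents.ncard = u.ncard + 1 := by omega
    rw [h3] at hpar
    rcases Nat.even_or_odd u.ncard with he | ho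
    · have h4 : Odd (Nat.card ((⊤ : H.Subgraph).deleteVerts u).verts) := hpar.1 he.add_one
      obtain ⟨a, ha⟩ := h4
      obtain ⟨b, hb⟩ := he
      omega
    · have h4 : ¬ Odd (Nat.card ((⊤ : H.Subgraph).deleteVerts u).verts) := by
        intro h5
        have := hpar.2 h5
        obtain ⟨a, ha⟩ := this
        obtain ⟨b, hb⟩ := ho
        omega
      rw [Nat.not_odd_iff_even] at h4
      obtain ⟨a, ha⟩ := h4
      obtain ⟨b, hb⟩ := ho
      omega
  have : Fintype ((⊤ : H.Subgraph).deleteVerts u).verts := Fintype.ofFinite _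
  have : Fintype K.ConnectedComponent := Fintype.ofFinite _
  have hcomp : u.ncard + 2 ≤ Fintype.card K.ConnectedComponent := by
    refine hodd.trans ?_
    have := Set.ncard_le_card K.oddComponents
    rw [Nat.card_eq_fintype_card] at this
    exact this
  -- representatives
  have hrep : ∀ C : K.ConnectedComponent, ∃ y, K.connectedComponentMk y = C := fun C =>
    ⟨C.out, Quot.out_eq C⟩
  choose r hr using hrep
  have hrinj : Function.Injective fun C => (r C : X) := by
    intro C C' h
    have h3 : r C = r C' := Subtype.ext h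
    rw [← hr C, ← hr C', h3]
  have hadj : ∀ y z : ((⊤ : H.Subgraph).deleteVerts u).verts, H.Adj y z →
      K.connectedComponentMk y = K.connectedComponentMk z := by
    intro y z hyz
    refine SimpleGraph.ConnectedComponent.sound (SimpleGraph.Adj.reachable ?_)
    rw [hK, SimpleGraph.Subgraph.coe_adj, SimpleGraph.Subgraph.deleteVerts_adj]
    refine ⟨trivial, y.2.2, trivial, z.2.2, ?_⟩
    rw [SimpleGraph.Subgraph.top_adj]
    exact hyz
  have hZ : (Fintype.card K.ConnectedComponent : ℝ) < (1 - γ) * M := by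
    have h3 := hind (univ.image fun C => (r C : X)) (by
      intro x hx y hy hxy
      rw [mem_image] at hx hy
      obtain ⟨C, -, rfl⟩ := hx
      obtain ⟨C', -, rfl⟩ := hy
      have h4 := hadj _ _ hxy
      rw [hr, hr] at h4
      subst h4
      exact H.irrefl hxy)
    rw [card_image_of_injective _ hrinj, card_univ] at h3
    exact h3
  have hfib : ∀ C : K.ConnectedComponent,
      (Fintype.card ((⊤ : H.Subgraph).deleteVerts u).verts : ℝ) - (1 + γ / 4) * M ≤
        (univ.filter fun y => K.connectedComponentMk y = C).card := by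
    intro C
    have h3 : (univ.filter fun y => ¬ K.connectedComponentMk y = C).card ≤
        (univ.filter fun y => (r C : X) ≠ y ∧ ¬ H.Adj (r C : X) y).card := by
      refine card_le_card_of_injOn Subtype.val ?_ (fun x _ y _ hxy => Subtype.ext hxy)
      intro y hy
      simp only [coe_filter, mem_univ, true_and, Set.mem_ofPred_eq] at hy ⊢
      constructor
      · intro h4
        apply hy
        rw [← hr C]
        congr 1
        exact (Subtype.ext h4).symm
      · intro h4
        exact hy ((hadj _ _ h4).symm.trans (hr C))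
    have h4 := card_filter_add_card_filter_not (s := (univ : Finset ((⊤ : H.Subgraph).deleteVerts u).verts))
      (fun y => K.connectedComponentMk y = C)
    rw [card_univ] at h4
    have h5 := hdeg (r C)
    have h6 : ((univ.filter fun y => ¬ K.connectedComponentMk y = C).card : ℝ) ≤ (1 + γ / 4) * M :=
      le_trans (by exact_mod_cast h3) h5
    have h7 : ((univ.filter fun y => K.connectedComponentMk y = C).card : ℝ) +
        (univ.filter fun y => ¬ K.connectedComponentMk y = C).card =
        Fintype.card ((⊤ : H.Subgraph).deleteVerts u).verts := by exact_mod_cast h4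
    linarith
  have hsum : ∑ C : K.ConnectedComponent,
      ((univ.filter fun y => K.connectedComponentMk y = C).card : ℝ) =
      Fintype.card ((⊤ : H.Subgraph).deleteVerts u).verts := by
    have h3 := card_eq_sum_card_fiberwise (s := (univ : Finset ((⊤ : H.Subgraph).deleteVerts u).verts))
      (t := (univ : Finset K.ConnectedComponent)) (f := fun y => K.connectedComponentMk y)
      (fun _ _ => mem_univ _)
    rw [card_univ] at h3
    rw [h3]
    push_cast
    rfl
  rw [Nat.card_eq_fintype_card] at hcardY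
  have hY : (Fintype.card ((⊤ : H.Subgraph).deleteVerts u).verts : ℝ) = 2 * M - u.ncard := by
    have : (Fintype.card ((⊤ : H.Subgraph).deleteVerts u).verts : ℝ) + u.ncard = 2 * M := by
      exact_mod_cast hcardY
    linarith
  have hbig : (Fintype.card K.ConnectedComponent : ℝ) *
      ((2 * M - u.ncard : ℝ) - (1 + γ / 4) * M) ≤ 2 * M - u.ncard := by
    rw [← hY, ← hsum]
    calc (Fintype.card K.ConnectedComponent : ℝ) * _ = ∑ _C : K.ConnectedComponent,
          ((Fintype.card ((⊤ : H.Subgraph).deleteVerts u).verts : ℝ) - (1 + γ / 4) * M) := by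
          rw [sum_const, card_univ, nsmul_eq_mul, hsum]
      _ ≤ _ := sum_le_sum fun C _ => hfib C
  have hcR : ((u.ncard : ℝ) + 2) ≤ Fintype.card K.ConnectedComponent := by exact_mod_cast hcomp
  have hM1 : (1 : ℝ) ≤ M := by exact_mod_cast hM
  have hs0 : (0 : ℝ) ≤ u.ncard := Nat.cast_nonneg _
  rcases Nat.eq_zero_or_pos u.ncard with hz | hpos
  · -- the graph is disconnected
    have hue : u = ∅ := (Set.ncard_eq_zero (Set.toFinite _)).1 hz
    have hall : ∀ x : X, x ∈ ((⊤ : H.Subgraph).deleteVerts u).verts := by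
      intro x
      rw [hverts, hue]
      simp
    have h3 : 1 < Fintype.card K.ConnectedComponent := by omega
    obtain ⟨C, C', hne⟩ := Fintype.one_lt_card_iff.1 h3
    refine ⟨univ.filter fun x => K.connectedComponentMk ⟨x, hall x⟩ = C, ?_, ?_, ?_⟩
    · exact ⟨(r C : X), by simp [hr C]⟩
    · refine ⟨(r C' : X), ?_⟩
      simp only [mem_sdiff, mem_univ, mem_filter, true_and]
      intro h4
      have h5 : K.connectedComponentMk (r C') = C := h4
      rw [hr] at h5
      exact hne h5.symm
    · intro x hx y hy hxy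
      rw [mem_filter] at hx hy
      apply hy
      refine ⟨mem_univ _, ?_⟩
      rw [← hx.2]
      exact (hadj ⟨x, hall x⟩ ⟨y, hall y⟩ hxy).symm
  · exfalso
    have hp1 : (1 : ℝ) ≤ u.ncard := by exact_mod_cast hpos
    have h4 : (0 : ℝ) ≤ (2 * M - u.ncard : ℝ) - (1 + γ / 4) * M := by nlinarith
    have h5 : ((u.ncard : ℝ) + 2) * ((2 * M - u.ncard : ℝ) - (1 + γ / 4) * M) ≤ 2 * M - u.ncard :=
      le_trans (mul_le_mul_of_nonneg_right hcR h4) hbig
    have h6 : (u.ncard : ℝ) + 2 < (1 - γ) * M := lt_of_le_of_lt hcR hZ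
    -- (σ+2)((1-γ/4)M - σ) ≤ 2M - σ
    have h7 : (u.ncard : ℝ) * ((3 * γ / 4) * M) ≤
        (u.ncard : ℝ) * ((1 - γ / 4) * M - u.ncard - 1) := by
      apply mul_le_mul_of_nonneg_left _ hs0
      nlinarith
    have h8 : (3 * γ / 4) * M ≤ (u.ncard : ℝ) * ((3 * γ / 4) * M) := by
      have : (0 : ℝ) ≤ (3 * γ / 4) * M := by positivity
      nlinarith
    nlinarith [mul_pos h0 (lt_of_lt_of_le one_pos hM1)]

theorem pm (γ : ℝ) (h0 : 0 < γ) (h1 : γ < 1) :
    ∃ ε : ℝ, 0 < ε ∧ ∃ M₀ : ℕ, ∀ (V : Type) (G : SimpleGraph V) (B' : Finset V) (M : ℕ),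
      M₀ ≤ M → B'.card = 2 * M → (∀ v ∈ B', (dg G v B' : ℝ) ≤ (1 + ε) * M) →
      (∀ Z, Z ⊆ B' → (1 - γ) * (M : ℝ) ≤ Z.card → ∃ x ∈ Z, ∃ y ∈ Z, HA G x y) →
      Tl G 2 M B' ∨ ∃ D1 D2 : Finset V, D1 ∪ D2 = B' ∧ D1.Nonempty ∧ D2.Nonempty ∧
        Disjoint D1 D2 ∧ ∀ x ∈ D1, ∀ y ∈ D2, G.Adj x y := by
  refine ⟨γ / 4, by positivity, 1, ?_⟩
  intro V G B' M hM hB hdeg hind
  let H : SimpleGraph {x // x ∈ B'} :=
    { Adj := fun x y => HA G x y
      symm := ⟨fun _ _ h => h.symm⟩
      loopless := ⟨fun _ h => h.1 rfl⟩ }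
  have hH : ∀ x y, H.Adj x y ↔ HA G x y := fun _ _ => Iff.rfl
  have key := tutte_dense H M γ h0 h1 hM (by rw [Fintype.card_coe, hB]) (by
    intro x
    refine le_trans ?_ (hdeg x x.2)
    unfold dg
    have : (univ.filter fun y => x ≠ y ∧ ¬ H.Adj x y).card ≤ (B'.filter fun u => G.Adj x u).card := by
      refine card_le_card_of_injOn Subtype.val ?_ (fun x _ y _ hxy => Subtype.ext hxy)
      intro y hy
      simp only [coe_filter, mem_univ, true_and, Set.mem_ofPred_eq] at hy ⊢
      refine ⟨y.2, ?_⟩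
      by_contra hxy
      exact hy.2 ((hH x y).2 ⟨fun h => hy.1 (Subtype.ext h), hxy⟩)
    exact_mod_cast this) (by
    intro Z hZ
    by_contra hcon
    push Not at hcon
    obtain ⟨x, hx, y, hy, hxy⟩ := hind (Z.map (Function.Embedding.subtype _)) (by
      intro x hx
      rw [mem_map] at hx
      obtain ⟨a, _, rfl⟩ := hx
      exact a.2) (by rw [card_map]; exact hcon)
    rw [mem_map] at hx hy
    obtain ⟨a, ha, rfl⟩ := hx
    obtain ⟨b, hb, rfl⟩ := hy
    exact hZ a ha b hb ((hH a b).2 hxy))
  rcases key with ⟨M', hM'⟩ | ⟨D, hD1, hD2, hD3⟩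
  · refine Or.inl ?_
    rw [SimpleGraph.Subgraph.isPerfectMatching_iff] at hM'
    choose p hp hp' using hM'
    refine tl_two_of_partner G B' M hB (fun x => if h : x ∈ B' then (p ⟨x, h⟩ : V) else x) ?_ ?_ ?_
    · intro x hx
      simp only [hx, dite_true]
      exact (p ⟨x, hx⟩).2
    · intro x hx
      simp only [hx, dite_true]
      have h2 : p (p ⟨x, hx⟩) = ⟨x, hx⟩ := (hp' (p ⟨x, hx⟩) ⟨x, hx⟩ (hp ⟨x, hx⟩).symm).symm
      have h3 : ((p ⟨x, hx⟩ : {x // x ∈ B'}) : V) ∈ B' := (p ⟨x, hx⟩).2
      simp only [h3, dite_true]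
      have h4 : (⟨((p ⟨x, hx⟩ : {x // x ∈ B'}) : V), h3⟩ : {x // x ∈ B'}) = p ⟨x, hx⟩ := rfl
      rw [h4, h2]
    · intro x hx
      simp only [hx, dite_true]
      exact (hH _ _).1 (M'.adj_sub (hp ⟨x, hx⟩))
  · refine Or.inr ⟨D.map (Function.Embedding.subtype _), (univ \ D).map (Function.Embedding.subtype _),
      ?_, ?_, ?_, ?_, ?_⟩
    · ext x
      simp only [mem_union, mem_map, mem_sdiff, mem_univ, true_and, Function.Embedding.subtype_apply]
      constructor
      · rintro (⟨a, _, rfl⟩ | ⟨a, _, rfl⟩) <;> exact a.2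
      · intro hx
        by_cases h : (⟨x, hx⟩ : {x // x ∈ B'}) ∈ D
        · exact Or.inl ⟨_, h, rfl⟩
        · exact Or.inr ⟨_, h, rfl⟩
    · exact hD1.map
    · obtain ⟨z, hz⟩ := hD2
      exact ⟨z, mem_map.2 ⟨z, by simpa using hz, rfl⟩⟩
    · rw [disjoint_left]
      intro x hx hx'
      rw [mem_map] at hx hx'
      obtain ⟨a, ha, rfl⟩ := hx
      obtain ⟨b, hb, hab⟩ := hx'
      have : b = a := Subtype.ext hab
      subst this
      exact (mem_sdiff.1 hb).2 ha
    · intro x hx y hy
      rw [mem_map] at hx hy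
      obtain ⟨a, ha, rfl⟩ := hx
      obtain ⟨b, hb, rfl⟩ := hy
      have hb' := (mem_sdiff.1 hb).2
      by_contra hcon
      refine hD3 a ha b hb' ((hH a b).2 ⟨?_, hcon⟩)
      intro h
      have : a = b := Subtype.ext h
      subst this
      exact hb' ha

end Pool.Agent.Helper64.BX
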