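import Pool.Agent.Helper64.BX.Basic

/-! BEC exact P3 (MP_436ed3_co), piece Stage2, part A: sizes -/

set_option autoImplicit false

namespace Pool.Agent.Helper64.BX

open Finset Classical

variable {V : Type}

/-- `N` is large compared with `cd q * n` -/
theorem cls_N [Fintype V] {G : SimpleGraph V} {q t s d N : ℕ} {w : ℝ} {A AT : Fin t → Finset V}
    {B BT : Finset V} (hC : Cls G q t s d N w A AT B BT) :
    3000 * (q : ℝ) ^ 2 * (cd q * Fintype.card V) ≤ N := by
  have hq2 := hC.q2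
  have hq : (2 : ℝ) ≤ q := by exact_mod_cast hq2
  have hq0 : (0 : ℝ) < q := by linarith
  have hN := hC.hN
  have h1 : Fintype.card V < q * N + q := by
    rw [hN]
    have := Nat.lt_div_mul_add (a := Fintype.card V) (b := q) (by omega)
    rw [mul_comm]
    exact this
  have h2 : (Fintype.card V : ℝ) ≤ q * N + q := by exact_mod_cast h1.le
  have hb := hC.big
  set n : ℝ := (Fintype.card V : ℝ) with hn
  have hcd : cd q * n * (3200 * (q : ℝ) ^ 3) = n := by
    unfold cd cc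
    field_simp
    ring
  set x : ℝ := cd q * n with hx
  have hx0 : 0 < x := by linarith
  -- x * 3200 q^3 ≤ q N + q ≤ q N + x
  have h3 : x * (3200 * (q : ℝ) ^ 3) ≤ q * N + x := by rw [hcd]; linarith
  have h4 : x * (3200 * (q : ℝ) ^ 2) * q ≤ (N + x) * q := by nlinarith
  have h5 : x * (3200 * (q : ℝ) ^ 2) ≤ N + x := le_of_mul_le_mul_right h4 hq0
  have h6 : (1 : ℝ) ≤ (q : ℝ) ^ 2 := by nlinarith
  nlinarith

theorem cls_N_le [Fintype V] {G : SimpleGraph V} {q t s d N : ℕ} {w : ℝ}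
    {A AT : Fin t → Finset V} {B BT : Finset V} (hC : Cls G q t s d N w A AT B BT) :
    q * N ≤ Fintype.card V := by
  rw [hC.hN]
  exact Nat.mul_div_le _ _

theorem cls_BT [Fintype V] {G : SimpleGraph V} {q t s d N : ℕ} {w : ℝ}
    {A AT : Fin t → Finset V} {B BT : Finset V} (hC : Cls G q t s d N w A AT B BT) :
    (s : ℝ) * N - 2 * w * Fintype.card V ≤ BT.card := by
  have h1 := hC.cardB1
  have h2 := hC.smB
  have h3 : ((B \ BT).card : ℝ) + BT.card = B.card := by
    exact_mod_cast card_sdiff_add_card_eq_card hC.subB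
  linarith

/-- sizes of the two parts, s = 2 -/
theorem D_sizes [Fintype V] {G : SimpleGraph V} {q t d N : ℕ} {w : ℝ} {A AT : Fin t → Finset V}
    {B BT : Finset V} (hC : Cls G q t 2 d N w A AT B BT) (D1 D2 : Finset V)
    (hD1n : D1.Nonempty) (hD2n : D2.Nonempty) (hdis : Disjoint D1 D2)
    (hcross : ∀ x ∈ D1, ∀ y ∈ D2, G.Adj x y) (κ : ℝ)
    (hDD : ((BT \ (D1 ∪ D2)).card : ℝ) ≤ κ * Fintype.card V) :
    D1.card ≤ d ∧ D2.card ≤ d ∧
      (N : ℝ) - (2 * w + κ) * Fintype.card V ≤ D1.card ∧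
      (N : ℝ) - (2 * w + κ) * Fintype.card V ≤ D2.card ∧
      (∀ v ∈ D1, (dg G v D1 : ℝ) ≤ (2 * w + κ) * Fintype.card V) ∧
      (∀ v ∈ D2, (dg G v D2 : ℝ) ≤ (2 * w + κ) * Fintype.card V) := by
  have hd : (d : ℝ) ≤ N := by exact_mod_cast hC.dN
  have h1 : ∀ x ∈ D1, dg G x D2 = D2.card := by
    intro x hx
    unfold dg
    rw [filter_true_of_mem (fun y hy => hcross x hx y hy)]
  have h2 : ∀ y ∈ D2, dg G y D1 = D1.card := by
    intro y hy
    unfold dg
    rw [filter_true_of_mem (fun x hx => (hcross x hx y hy).symm)]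
  have h3 : ∀ x ∈ D1, dg G x D1 + D2.card ≤ d := by
    intro x hx
    rw [← h1 x hx, ← dg_union_disj x hdis]
    exact (dg_mono (subset_univ _)).trans (hC.deg x)
  have h4 : ∀ y ∈ D2, D1.card + dg G y D2 ≤ d := by
    intro y hy
    rw [← h2 y hy, ← dg_union_disj y hdis]
    exact (dg_mono (subset_univ _)).trans (hC.deg y)
  obtain ⟨x0, hx0⟩ := hD1n
  obtain ⟨y0, hy0⟩ := hD2n
  have h5 := h3 x0 hx0
  have h6 := h4 y0 hy0
  have h7 := cls_BT hC
  have h8 : BT.card ≤ (BT \ (D1 ∪ D2)).card + (D1.card + D2.card) := by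
    rw [← card_union_of_disjoint hdis]
    have := card_le_card (show BT ⊆ (BT \ (D1 ∪ D2)) ∪ (D1 ∪ D2) by
      intro x hx
      by_cases h : x ∈ D1 ∪ D2
      · exact mem_union_right _ h
      · exact mem_union_left _ (mem_sdiff.2 ⟨hx, h⟩))
    exact this.trans (card_union_le _ _)
  have h8' : (BT.card : ℝ) ≤ (BT \ (D1 ∪ D2)).card + (D1.card + D2.card) := by exact_mod_cast h8
  have h9 : (D1.card : ℝ) ≤ d := by exact_mod_cast (by omega : D1.card ≤ d)
  have h10 : (D2.card : ℝ) ≤ d := by exact_mod_cast (by omega : D2.card ≤ d)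
  push_cast at h7
  have e1 : (N : ℝ) - (2 * w + κ) * Fintype.card V ≤ D1.card := by linarith
  have e2 : (N : ℝ) - (2 * w + κ) * Fintype.card V ≤ D2.card := by linarith
  refine ⟨by omega, by omega, e1, e2, ?_, ?_⟩
  · intro v hv
    have : ((dg G v D1 : ℕ) : ℝ) + D2.card ≤ d := by exact_mod_cast h3 v hv
    linarith
  · intro v hv
    have : (D1.card : ℝ) + dg G v D2 ≤ d := by exact_mod_cast h4 v hv
    linarith

end Pool.Agent.Helper64.BX
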