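import Pool.Agent.Helper64.BX.Basic
import Pool.Agent.Helper64.BX.St.Stage2A

/-! BEC exact P3 (MP_436ed3_co), piece Emb.  Paper: /team-store/BECX_P3_paper.md, R embedding.
Induction on a finset of W (place the vertices one after the other). A new vertex of class i goes to AT i \ X: its placed R-neighbours lie in AT j (j ≠ i) or BT (resp. D1) and have ≤ cd q n
G-neighbours in A i each (at most q - 1 of them). A new vertex of class none: neighbours in AT j have ≤ cd q n G-neighbours in B; `embR`: at most s - 1 neighbours in BT, each ≤ d ≤ N G-neighbours;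
`embD`: all neighbours in D1 have ≤ K G-neighbours in D1, q K small.
-/

set_option autoImplicit false

namespace Pool.Agent.Helper64.BX

open Finset Classical

variable {V : Type}

/-- greedy embedding with prescribed target sets -/
theorem emb_greedy {W : Type} [Fintype W] (R : SimpleGraph W) (G : SimpleGraph V)
    (T : W → Finset V) (X : Finset V) (c : W → W → ℕ)
    (hc : ∀ a b v, R.Adj a b → v ∈ T b → dg G v (T a) ≤ c a b)
    (hT : ∀ a, ∑ b ∈ univ.filter (fun b => R.Adj a b), c a b + X.card + Fintype.card W ≤
      (T a).card) :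
    ∃ f : W → V, Function.Injective f ∧ (∀ a, f a ∉ X) ∧ (∀ a, f a ∈ T a) ∧
      ∀ a b, R.Adj a b → ¬ G.Adj (f a) (f b) := by
  have hne : ∀ a, (T a).Nonempty := by
    intro a
    rw [← card_pos]
    have h1 := hT a
    have h2 : 0 < Fintype.card W := Fintype.card_pos_iff.2 ⟨a⟩
    omega
  choose f0 hf0 using hne
  have key : ∀ P : Finset W, ∃ f : W → V, (∀ a ∈ P, f a ∈ T a ∧ f a ∉ X) ∧
      (∀ a ∈ P, ∀ b ∈ P, a ≠ b → f a ≠ f b) ∧
      ∀ a ∈ P, ∀ b ∈ P, R.Adj a b → ¬ G.Adj (f a) (f b) := by
    intro P
    induction P using Finset.induction_on with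
    | empty => exact ⟨f0, by simp, by simp, by simp⟩
    | insert a P haP ih =>
      obtain ⟨f, h1, h2, h3⟩ := ih
      have hbad : (((P.filter fun b => R.Adj a b).biUnion fun b =>
          (T a).filter fun v => G.Adj (f b) v) ∪ X ∪ P.image f).card < (T a).card := by
        have e1 : ((P.filter fun b => R.Adj a b).biUnion fun b =>
            (T a).filter fun v => G.Adj (f b) v).card ≤
            ∑ b ∈ univ.filter (fun b => R.Adj a b), c a b := by
          refine card_biUnion_le.trans ?_
          refine (sum_le_sum (fun b hb => ?_)).trans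
            (sum_le_sum_of_subset (filter_subset_filter _ (subset_univ P)))
          rw [mem_filter] at hb
          exact hc a b (f b) hb.2 (h1 b hb.1).1
        have e2 := card_union_le (((P.filter fun b => R.Adj a b).biUnion fun b =>
          (T a).filter fun v => G.Adj (f b) v) ∪ X) (P.image f)
        have e3 := card_union_le ((P.filter fun b => R.Adj a b).biUnion fun b =>
          (T a).filter fun v => G.Adj (f b) v) X
        have e4 : (P.image f).card ≤ P.card := card_image_le
        have e5 : P.card < Fintype.card W := by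
          have : (insert a P).card ≤ Fintype.card W := card_le_univ _
          rw [card_insert_of_notMem haP] at this
          omega
        have e6 := hT a
        omega
      obtain ⟨v, hvT, hv⟩ := exists_mem_notMem_of_card_lt_card hbad
      rw [mem_union, mem_union, not_or, not_or] at hv
      obtain ⟨⟨hv1, hv2⟩, hv3⟩ := hv
      have hadj : ∀ b ∈ P, R.Adj a b → ¬ G.Adj (f b) v := by
        intro b hb hab hbv
        exact hv1 (mem_biUnion.2 ⟨b, mem_filter.2 ⟨hb, hab⟩, mem_filter.2 ⟨hvT, hbv⟩⟩)
      have hnev : ∀ b ∈ P, f b ≠ v := fun b hb h => hv3 (h ▸ mem_image_of_mem f hb)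
      have hup : ∀ b ∈ P, Function.update f a v b = f b := fun b hb =>
        Function.update_of_ne (fun h => haP (by rw [← h]; exact hb)) _ _
      refine ⟨Function.update f a v, ?_, ?_, ?_⟩
      · intro b hb
        rw [mem_insert] at hb
        rcases hb with rfl | hb
        · rw [Function.update_self]; exact ⟨hvT, hv2⟩
        · rw [hup b hb]; exact h1 b hb
      · intro b hb b' hb' hne
        rw [mem_insert] at hb hb'
        rcases hb with rfl | hb <;> rcases hb' with rfl | hb'
        · exact absurd rfl hne
        · rw [Function.update_self, hup b' hb']; exact (hnev b' hb').symm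
        · rw [Function.update_self, hup b hb]; exact hnev b hb
        · rw [hup b hb, hup b' hb']; exact h2 b hb b' hb' hne
      · intro b hb b' hb' hbb'
        rw [mem_insert] at hb hb'
        rcases hb with rfl | hb <;> rcases hb' with rfl | hb'
        · exact absurd hbb' R.irrefl
        · rw [Function.update_self, hup b' hb']
          exact fun h => hadj b' hb' hbb' h.symm
        · rw [Function.update_self, hup b hb]
          exact hadj b hb hbb'.symm
        · rw [hup b hb, hup b' hb']; exact h3 b hb b' hb' hbb'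
  obtain ⟨f, h1, h2, h3⟩ := key univ
  refine ⟨f, ?_, fun a => (h1 a (mem_univ _)).2, fun a => (h1 a (mem_univ _)).1,
    fun a b => h3 a (mem_univ _) b (mem_univ _)⟩
  intro a b hab
  by_contra hne
  exact h2 a (mem_univ _) b (mem_univ _) hne hab

/-- degrees of a typical vertex of `A j` outside `A j` -/
theorem emb_typA [Fintype V] {G : SimpleGraph V} {q t s d N : ℕ} {w : ℝ}
    {A AT : Fin t → Finset V} {B BT : Finset V} (hC : Cls G q t s d N w A AT B BT) {j : Fin t}
    {v : V} (hv : v ∈ AT j) {S : Finset V} (hS : Disjoint (A j) S) :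
    dg G v S ≤ ⌊cd q * Fintype.card V⌋₊ := by
  apply Nat.le_floor
  refine le_trans ?_ (hC.typA j v hv)
  have : dg G v S ≤ dg G v (univ \ A j) := by
    apply dg_mono
    intro u hu
    rw [mem_sdiff]
    exact ⟨mem_univ _, fun h => disjoint_left.1 hS h hu⟩
  exact_mod_cast this

theorem emb_AT [Fintype V] {G : SimpleGraph V} {q t s d N : ℕ} {w : ℝ}
    {A AT : Fin t → Finset V} {B BT : Finset V} (hC : Cls G q t s d N w A AT B BT) (i : Fin t) :
    (N : ℝ) - 2 * (cd q * Fintype.card V) ≤ (AT i).card := by
  have h1 := hC.cardA1 i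
  have h2 := hC.smA i
  have h3 : ((A i \ AT i).card : ℝ) + (AT i).card = (A i).card := by
    exact_mod_cast card_sdiff_add_card_eq_card (hC.subA i)
  have h4 : w * (Fintype.card V : ℝ) ≤ cd q * Fintype.card V :=
    mul_le_mul_of_nonneg_right hC.w1 (Nat.cast_nonneg _)
  linarith

/-- common part of the two embeddings -/
theorem emb_core [Fintype V] {G : SimpleGraph V} {q t s d N : ℕ} {w : ℝ}
    {A AT : Fin t → Finset V} {B BT : Finset V} (hC : Cls G q t s d N w A AT B BT) {W : Type}
    [Fintype W] (R : SimpleGraph W) (col : W → Option (Fin t))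
    (hcol : ∀ a b, R.Adj a b → col a = col b → col a = none)
    (hdeg : ∀ a, dg R a univ + 1 ≤ q) (D : Finset V) (hD : D ⊆ BT) (k : ℕ)
    (hk : ∀ v ∈ D, dg G v D ≤ k)
    (X : Finset V) (hX : (X.card : ℝ) + Fintype.card W ≤ cd q * Fintype.card V)
    (hB : ∀ a, col a = none → dg R a (univ.filter fun b => col b = none) * k +
      q * ⌊cd q * Fintype.card V⌋₊ ≤ D.card) :
    ∃ f : W → V, Function.Injective f ∧ (∀ a, f a ∉ X) ∧
      (∀ a i, col a = some i → f a ∈ AT i) ∧ (∀ a, col a = none → f a ∈ D) ∧
      ∀ a b, R.Adj a b → ¬ G.Adj (f a) (f b) := by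
  set y : ℕ := ⌊cd q * Fintype.card V⌋₊ with hy
  have hXW : X.card + Fintype.card W ≤ y := by
    apply Nat.le_floor
    push_cast
    exact hX
  have hq2 := hC.q2
  have hq : (2 : ℝ) ≤ q := by exact_mod_cast hq2
  have hx0 : (0 : ℝ) ≤ cd q * Fintype.card V := le_trans (by positivity) hX
  have hyr : (y : ℝ) ≤ cd q * Fintype.card V := Nat.floor_le hx0
  have hbase := cls_N hC
  set T : W → Finset V := fun a => match col a with
    | none => D
    | some i => AT i with hTdef
  have hT0 : ∀ a, col a = none → T a = D := by
    intro a ha; simp only [hTdef, ha]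
  have hT1 : ∀ a i, col a = some i → T a = AT i := by
    intro a i ha; simp only [hTdef, ha]
  suffices hsuf : ∃ f : W → V, Function.Injective f ∧ (∀ a, f a ∉ X) ∧ (∀ a, f a ∈ T a) ∧
      ∀ a b, R.Adj a b → ¬ G.Adj (f a) (f b) by
    obtain ⟨f, hf1, hf2, hf3, hf4⟩ := hsuf
    refine ⟨f, hf1, hf2, fun a i ha => ?_, fun a ha => ?_, hf4⟩
    · have := hf3 a; rwa [hT1 a i ha] at this
    · have := hf3 a; rwa [hT0 a ha] at this
  refine emb_greedy R G T X (fun a b => if col a = none ∧ col b = none then k else y) ?_ ?_
  · intro a b v hab hv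
    cases hca : col a with
    | none =>
      rw [hT0 a hca]
      cases hcb : col b with
      | none =>
        rw [hT0 b hcb] at hv
        simp only [and_self, if_true]
        exact hk v hv
      | some j =>
        rw [hT1 b j hcb] at hv
        simp only [reduceCtorEq, and_false, if_false]
        exact emb_typA hC hv ((hC.disjB j).mono_right (hD.trans hC.subB))
    | some i =>
      rw [hT1 a i hca]
      simp only [reduceCtorEq, false_and, if_false]
      cases hcb : col b with
      | none =>
        rw [hT0 b hcb] at hv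
        apply Nat.le_floor
        refine le_trans ?_ (hC.typB v (hD hv) i)
        exact_mod_cast dg_mono (hC.subA i)
      | some j =>
        rw [hT1 b j hcb] at hv
        have hij : j ≠ i := by
          rintro rfl
          have := hcol a b hab (hca.trans hcb.symm)
          rw [hca] at this
          cases this
        exact emb_typA hC hv ((hC.disjA j i hij).mono_right (hC.subA i))
  · intro a
    have hdeg' : (univ.filter fun b => R.Adj a b).card + 1 ≤ q := hdeg a
    cases hca : col a with
    | none =>
      rw [hT0 a hca]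
      have h1 : ∑ b ∈ univ.filter (fun b => R.Adj a b),
          (if (none : Option (Fin t)) = none ∧ col b = none then k else y) ≤
          dg R a (univ.filter fun b => col b = none) * k +
            (univ.filter fun b => R.Adj a b).card * y := by
        have h2 : ∀ b ∈ univ.filter (fun b => R.Adj a b),
            (if (none : Option (Fin t)) = none ∧ col b = none then k else y) ≤
            (if col b = none then k else 0) + y := by
          intro b _
          by_cases hb : col b = none
          · simp [hb]
          · simp [hb]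
        refine (sum_le_sum h2).trans ?_
        rw [sum_add_distrib, sum_const, smul_eq_mul, ← sum_filter, sum_const, smul_eq_mul]
        refine Nat.add_le_add_right (Nat.mul_le_mul_right _ (le_of_eq ?_)) _
        unfold dg
        congr 1
        ext b
        simp only [mem_filter, mem_univ, true_and]
        exact and_comm
      have h3 := hB a hca
      have h4 : (univ.filter fun b => R.Adj a b).card * y + y ≤ q * y := by
        have := Nat.mul_le_mul_right y hdeg'
        rw [add_mul, one_mul] at this
        exact this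
      omega
    | some i =>
      rw [hT1 a i hca]
      have h1 : ∑ b ∈ univ.filter (fun b => R.Adj a b),
          (if some i = none ∧ col b = none then k else y) =
            (univ.filter fun b => R.Adj a b).card * y := by
        rw [sum_congr rfl (g := fun _ => y) (fun b _ => by simp), sum_const, smul_eq_mul]
      rw [h1]
      have h4 : (univ.filter fun b => R.Adj a b).card * y + y ≤ q * y := by
        have := Nat.mul_le_mul_right y hdeg'
        rw [add_mul, one_mul] at this
        exact this
      have h5 : q * y ≤ (AT i).card := by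
        have h6 := emb_AT hC i
        have h7 : ((q * y : ℕ) : ℝ) ≤ (AT i).card := by
          push_cast
          have h8 : (q : ℝ) * y ≤ q * (cd q * Fintype.card V) :=
            mul_le_mul_of_nonneg_left hyr (by linarith)
          have h9 : (q : ℝ) * (cd q * Fintype.card V) + 2 * (cd q * Fintype.card V) ≤
              3000 * (q : ℝ) ^ 2 * (cd q * Fintype.card V) := by
            have : (q : ℝ) + 2 ≤ 3000 * (q : ℝ) ^ 2 := by nlinarith
            nlinarith
          linarith
        exact_mod_cast h7
      omega

theorem embR [Fintype V] {G : SimpleGraph V} {q t s d N : ℕ} {w : ℝ} {A AT : Fin t → Finset V}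
    {B BT : Finset V} (hC : Cls G q t s d N w A AT B BT) {W : Type} [Fintype W]
    (R : SimpleGraph W) (col : W → Option (Fin t))
    (hcol : ∀ a b, R.Adj a b → col a = col b → col a = none)
    (hdeg : ∀ a, dg R a univ + 1 ≤ q)
    (hB : ∀ a, col a = none → dg R a (univ.filter fun b => col b = none) + 1 ≤ s)
    (X : Finset V) (hX : (X.card : ℝ) + Fintype.card W ≤ cd q * Fintype.card V) :
    ∃ f : W → V, Function.Injective f ∧ (∀ a, f a ∉ X) ∧
      (∀ a i, col a = some i → f a ∈ AT i) ∧ (∀ a, col a = none → f a ∈ BT) ∧
      ∀ a b, R.Adj a b → ¬ G.Adj (f a) (f b) := by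
  refine emb_core hC R col hcol hdeg BT (Subset.refl _) d
    (fun v _ => (dg_mono (subset_univ _)).trans (hC.deg v)) X hX ?_
  intro a ha
  have hq2 := hC.q2
  have hq : (2 : ℝ) ≤ q := by exact_mod_cast hq2
  have hx0 : (0 : ℝ) ≤ cd q * Fintype.card V := le_trans (by positivity) hX
  have hyr : ((⌊cd q * Fintype.card V⌋₊ : ℕ) : ℝ) ≤ cd q * Fintype.card V := Nat.floor_le hx0
  have hbase := cls_N hC
  have h1 := hB a ha
  have h2 := cls_BT hC
  have h3 : w * (Fintype.card V : ℝ) ≤ cd q * Fintype.card V :=
    mul_le_mul_of_nonneg_right hC.w1 (Nat.cast_nonneg _)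
  have hdN : (d : ℝ) ≤ N := by exact_mod_cast hC.dN
  have h4 : ((dg R a (univ.filter fun b => col b = none) * d +
      q * ⌊cd q * Fintype.card V⌋₊ : ℕ) : ℝ) ≤ BT.card := by
    push_cast
    have h5 : (dg R a (univ.filter fun b => col b = none) : ℝ) + 1 ≤ s := by exact_mod_cast h1
    have h6 : (dg R a (univ.filter fun b => col b = none) : ℝ) * d ≤ (s - 1) * N := by
      have h7 : (0 : ℝ) ≤ dg R a (univ.filter fun b => col b = none) := Nat.cast_nonneg _
      have h8 : (0 : ℝ) ≤ d := Nat.cast_nonneg _
      exact mul_le_mul (by linarith) hdN h8 (by linarith)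
    have h8 : (q : ℝ) * ⌊cd q * Fintype.card V⌋₊ ≤ q * (cd q * Fintype.card V) :=
      mul_le_mul_of_nonneg_left hyr (by linarith)
    have h9 : (q : ℝ) * (cd q * Fintype.card V) + 2 * (cd q * Fintype.card V) ≤
        3000 * (q : ℝ) ^ 2 * (cd q * Fintype.card V) := by
      have : (q : ℝ) + 2 ≤ 3000 * (q : ℝ) ^ 2 := by nlinarith
      nlinarith
    linarith
  exact_mod_cast h4

theorem embD [Fintype V] {G : SimpleGraph V} {q t s d N : ℕ} {w : ℝ} {A AT : Fin t → Finset V}
    {B BT : Finset V} (hC : Cls G q t s d N w A AT B BT) {W : Type} [Fintype W]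
    (R : SimpleGraph W) (col : W → Option (Fin t))
    (hcol : ∀ a b, R.Adj a b → col a = col b → col a = none)
    (hdeg : ∀ a, dg R a univ + 1 ≤ q) (D1 : Finset V) (hD : D1 ⊆ BT) (K : ℝ)
    (hK0 : 0 ≤ K)
    (hK : ∀ v ∈ D1, (dg G v D1 : ℝ) ≤ K)
    (hD1 : q * K + (q + 2) * (cd q * Fintype.card V) < D1.card)
    (X : Finset V) (hX : (X.card : ℝ) + Fintype.card W ≤ cd q * Fintype.card V) :
    ∃ f : W → V, Function.Injective f ∧ (∀ a, f a ∉ X) ∧
      (∀ a i, col a = some i → f a ∈ AT i) ∧ (∀ a, col a = none → f a ∈ D1) ∧
      ∀ a b, R.Adj a b → ¬ G.Adj (f a) (f b) := by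
  refine emb_core hC R col hcol hdeg D1 hD ⌊K⌋₊ (fun v hv => Nat.le_floor (hK v hv)) X hX ?_
  intro a _
  have hq2 := hC.q2
  have hq : (2 : ℝ) ≤ q := by exact_mod_cast hq2
  have hx0 : (0 : ℝ) ≤ cd q * Fintype.card V := le_trans (by positivity) hX
  have hyr : ((⌊cd q * Fintype.card V⌋₊ : ℕ) : ℝ) ≤ cd q * Fintype.card V := Nat.floor_le hx0
  have hkr : ((⌊K⌋₊ : ℕ) : ℝ) ≤ K := Nat.floor_le hK0
  have h1 : dg R a (univ.filter fun b => col b = none) ≤ dg R a univ := dg_mono (subset_univ _)
  have h2 := hdeg a
  have h4 : ((dg R a (univ.filter fun b => col b = none) * ⌊K⌋₊ +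
      q * ⌊cd q * Fintype.card V⌋₊ : ℕ) : ℝ) ≤ D1.card := by
    push_cast
    have h5 : (dg R a (univ.filter fun b => col b = none) : ℝ) ≤ q := by
      exact_mod_cast (by omega : dg R a (univ.filter fun b => col b = none) ≤ q)
    have h6 : (dg R a (univ.filter fun b => col b = none) : ℝ) * ⌊K⌋₊ ≤ q * K :=
      mul_le_mul h5 hkr (Nat.cast_nonneg _) (by linarith)
    have h8 : (q : ℝ) * ⌊cd q * Fintype.card V⌋₊ ≤ q * (cd q * Fintype.card V) :=
      mul_le_mul_of_nonneg_left hyr (by linarith)
    linarith
  exact_mod_cast h4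

end Pool.Agent.Helper64.BX
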