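import Pool.Agent.Helper64.BX.Basic

/-! BEC exact P3 (MP_436ed3_co), piece Mat.  Paper: /team-store/BECX_P3_paper.md, (B3).
Maximum family of disjoint H-edges in A; if it has fewer than x members there are two uncovered vertices u, v; all their H-neighbours are covered; an edge {a,b} of the family receives at least
3 H-edges from {u,v}: replace it by {u,a},{v,b}. `pm_clique`: `mat` with 2x = |D|, then `tl_of_family`.
-/

set_option autoImplicit false

namespace Pool.Agent.Helper64.BX

open Finset Classical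

variable {V : Type}

/-- family of pairwise disjoint independent pairs of `A` -/
def MatGd (G : SimpleGraph V) (A : Finset V) (Mt : Finset (Finset V)) : Prop :=
  (∀ e ∈ Mt, e ⊆ A ∧ e.card = 2 ∧ Ind G e) ∧ ∀ e ∈ Mt, ∀ e' ∈ Mt, e ≠ e' → Disjoint e e'

theorem matGd_insert {G : SimpleGraph V} {A : Finset V} {Mt : Finset (Finset V)}
    (h : MatGd G A Mt) {a b : V} (ha : a ∈ A) (hb : b ∈ A) (hab : HA G a b)
    (ha' : a ∉ Mt.biUnion id) (hb' : b ∉ Mt.biUnion id) :
    MatGd G A (insert {a, b} Mt) ∧ (insert {a, b} Mt : Finset (Finset V)).card = Mt.card + 1 := by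
  have hd : ∀ e ∈ Mt, Disjoint ({a, b} : Finset V) e := by
    intro e he
    rw [disjoint_left]
    intro z hz hze
    rw [mem_insert, mem_singleton] at hz
    rcases hz with rfl | rfl
    · exact ha' (mem_biUnion.mpr ⟨e, he, hze⟩)
    · exact hb' (mem_biUnion.mpr ⟨e, he, hze⟩)
  refine ⟨⟨?_, ?_⟩, ?_⟩
  · intro e he
    rw [mem_insert] at he
    rcases he with rfl | he
    · refine ⟨?_, card_pair hab.1, ?_⟩
      · intro z hz
        rw [mem_insert, mem_singleton] at hz
        rcases hz with rfl | rfl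
        · exact ha
        · exact hb
      · intro z hz w hw
        rw [mem_insert, mem_singleton] at hz hw
        rcases hz with rfl | rfl <;> rcases hw with rfl | rfl
        · exact G.irrefl
        · exact hab.2
        · exact fun h' => hab.2 h'.symm
        · exact G.irrefl
    · exact h.1 e he
  · intro e he e' he' hne
    rw [mem_insert] at he he'
    rcases he with rfl | he <;> rcases he' with rfl | he'
    · exact absurd rfl hne
    · exact hd e' he'
    · exact (hd e he).symm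
    · exact h.2 e he e' he' hne
  · refine card_insert_of_notMem ?_
    intro hmem
    exact ha' (mem_biUnion.mpr ⟨_, hmem, mem_insert_self a {b}⟩)

theorem matGd_erase {G : SimpleGraph V} {A : Finset V} {Mt : Finset (Finset V)}
    (h : MatGd G A Mt) (e : Finset V) : MatGd G A (Mt.erase e) :=
  ⟨fun f hf => h.1 f (mem_of_mem_erase hf), fun f hf f' hf' hne =>
    h.2 f (mem_of_mem_erase hf) f' (mem_of_mem_erase hf') hne⟩

/-- exchange step -/
theorem mat_exch {G : SimpleGraph V} {A : Finset V} {Mt : Finset (Finset V)}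
    (h : MatGd G A Mt) {u v a b : V} (hu : u ∈ A) (hv : v ∈ A) (huv : u ≠ v)
    (hu' : u ∉ Mt.biUnion id) (hv' : v ∉ Mt.biUnion id) (hab : a ≠ b)
    (he : ({a, b} : Finset V) ∈ Mt) (hua : HA G u a) (hvb : HA G v b) :
    ∃ Mt', MatGd G A Mt' ∧ Mt'.card = Mt.card + 1 := by
  have hA := (h.1 _ he).1
  have haA : a ∈ A := hA (mem_insert_self _ _)
  have hbA : b ∈ A := hA (by simp)
  have haC : a ∈ Mt.biUnion id := mem_biUnion.mpr ⟨_, he, by simp⟩
  have hbC : b ∈ Mt.biUnion id := mem_biUnion.mpr ⟨_, he, by simp⟩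
  have hsub : ∀ z, z ∈ (Mt.erase {a, b}).biUnion id → z ∈ Mt.biUnion id := by
    intro z hz
    rw [mem_biUnion] at hz ⊢
    obtain ⟨f, hf, hzf⟩ := hz
    exact ⟨f, mem_of_mem_erase hf, hzf⟩
  have hnot : ∀ z ∈ ({a, b} : Finset V), z ∉ (Mt.erase {a, b}).biUnion id := by
    intro z hz hz'
    rw [mem_biUnion] at hz'
    obtain ⟨f, hf, hzf⟩ := hz'
    have := h.2 _ he f (mem_of_mem_erase hf) (ne_of_mem_erase hf).symm
    rw [disjoint_left] at this
    exact this hz hzf
  have h0 := matGd_erase h {a, b}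
  have h1 := matGd_insert h0 hu haA hua (fun hz => hu' (hsub u hz)) (hnot a (by simp))
  have key : ∀ z, z ≠ u → z ≠ a → z ∉ (Mt.erase {a, b}).biUnion id →
      z ∉ (insert {u, a} (Mt.erase {a, b}) : Finset (Finset V)).biUnion id := by
    intro z hzu hza hz hz'
    rw [mem_biUnion] at hz'
    obtain ⟨f, hf, hzf⟩ := hz'
    rw [mem_insert] at hf
    rcases hf with rfl | hf
    · simp only [id, mem_insert, mem_singleton] at hzf
      rcases hzf with h' | h'
      · exact hzu h'
      · exact hza h'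
    · exact hz (mem_biUnion.mpr ⟨f, hf, hzf⟩)
  have h2 := matGd_insert h1.1 hv hbA hvb
    (key v huv.symm (fun hva => hv' (hva ▸ haC)) (fun hz => hv' (hsub v hz)))
    (key b (fun hbu => hu' (hbu ▸ hbC)) hab.symm (hnot b (by simp)))
  refine ⟨_, h2.1, ?_⟩
  rw [h2.2, h1.2, card_erase_of_mem he]
  have := card_pos.mpr ⟨_, he⟩
  omega

theorem mat_step {G : SimpleGraph V} {A : Finset V} {x : ℕ}
    (h : ∀ v ∈ A, x + dg G v A + 1 ≤ A.card) (h2 : 2 * x ≤ A.card)
    {Mt : Finset (Finset V)} (hM : MatGd G A Mt) (hx : Mt.card < x) :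
    ∃ Mt', MatGd G A Mt' ∧ Mt'.card = Mt.card + 1 := by
  set C := Mt.biUnion id with hC
  have hCA : C ⊆ A := by
    intro z hz
    rw [hC, mem_biUnion] at hz
    obtain ⟨f, hf, hzf⟩ := hz
    exact (hM.1 f hf).1 hzf
  have hCc : C.card = 2 * Mt.card := by
    have h0 := card_biUnion (s := Mt) (t := id) (fun i hi j hj hij => hM.2 i hi j hj hij)
    have h0' : ∑ u ∈ Mt, (id u : Finset V).card = ∑ u ∈ Mt, 2 :=
      sum_congr rfl (fun i hi => (hM.1 i hi).2.1)
    rw [hC, h0, h0', sum_const, smul_eq_mul, mul_comm]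
  have h3 : 1 < (A \ C).card := by
    rw [card_sdiff_of_subset hCA]
    omega
  obtain ⟨u, hu, v, hv, huv⟩ := one_lt_card.mp h3
  rw [mem_sdiff] at hu hv
  by_cases hHu : ∃ z ∈ A \ C, HA G u z
  · obtain ⟨z, hz, hz'⟩ := hHu
    rw [mem_sdiff] at hz
    have := matGd_insert hM hu.1 hz.1 hz' hu.2 hz.2
    exact ⟨_, this.1, this.2⟩
  by_cases hHv : ∃ z ∈ A \ C, HA G v z
  · obtain ⟨z, hz, hz'⟩ := hHv
    rw [mem_sdiff] at hz
    have := matGd_insert hM hv.1 hz.1 hz' hv.2 hz.2
    exact ⟨_, this.1, this.2⟩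
  push Not at hHu hHv
  have cnt : ∀ w ∈ A, (∀ z ∈ A \ C, ¬ HA G w z) →
      x ≤ ∑ e ∈ Mt, (e.filter (fun z => HA G w z)).card := by
    intro w hw hno
    have h4 := card_HA_add_of_mem (G := G) hw
    have h5 := h w hw
    have h6 : (A.filter (fun z => HA G w z)) ⊆ Mt.biUnion (fun e => e.filter (fun z => HA G w z)) := by
      intro z hz
      rw [mem_filter] at hz
      have hzC : z ∈ C := by
        by_contra hzC
        exact hno z (mem_sdiff.mpr ⟨hz.1, hzC⟩) hz.2
      rw [hC, mem_biUnion] at hzC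
      obtain ⟨f, hf, hzf⟩ := hzC
      exact mem_biUnion.mpr ⟨f, hf, mem_filter.mpr ⟨hzf, hz.2⟩⟩
    have h7 := (card_le_card h6).trans card_biUnion_le
    omega
  have hcu := cnt u hu.1 hHu
  have hcv := cnt v hv.1 hHv
  have hsum : ∑ e ∈ Mt, 2 < ∑ e ∈ Mt, ((e.filter (fun z => HA G u z)).card +
      (e.filter (fun z => HA G v z)).card) := by
    rw [sum_add_distrib, sum_const, smul_eq_mul]
    omega
  obtain ⟨e, he, hlt⟩ := exists_lt_of_sum_lt hsum
  obtain ⟨a, b, hab, rfl⟩ := card_eq_two.mp (hM.1 e he).2.1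
  have hba : ({a, b} : Finset V) = {b, a} := pair_comm a b
  have hcard : ∀ w : V, (({a, b} : Finset V).filter (fun z => HA G w z)).card =
      (if HA G w a then 1 else 0) + (if HA G w b then 1 else 0) := by
    intro w
    rw [filter_insert, filter_singleton]
    split_ifs with h1 h2
    · rw [card_insert_of_notMem (by simpa using hab), card_singleton]
    · simp
    · simp
    · simp
  rw [hcard u, hcard v] at hlt
  by_cases hua : HA G u a
  · by_cases hvb : HA G v b
    · exact mat_exch hM hu.1 hv.1 huv hu.2 hv.2 hab he hua hvb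
    · have hub : HA G u b := by
        by_contra hub
        rw [if_neg hub, if_neg hvb] at hlt
        split_ifs at hlt <;> omega
      have hva : HA G v a := by
        by_contra hva
        rw [if_neg hva, if_neg hvb] at hlt
        split_ifs at hlt <;> omega
      exact mat_exch hM hu.1 hv.1 huv hu.2 hv.2 hab.symm (hba ▸ he) hub hva
  · have hub : HA G u b := by
      by_contra hub
      rw [if_neg hua, if_neg hub] at hlt
      split_ifs at hlt <;> omega
    have hva : HA G v a := by
      by_contra hva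
      rw [if_neg hua, if_neg hva] at hlt
      split_ifs at hlt <;> omega
    exact mat_exch hM hu.1 hv.1 huv hu.2 hv.2 hab.symm (hba ▸ he) hub hva

theorem mat (G : SimpleGraph V) (A : Finset V) (x : ℕ) (h : ∀ v ∈ A, x + dg G v A + 1 ≤ A.card)
    (h2 : 2 * x ≤ A.card) :
    ∃ Mt : Finset (Finset V), Mt.card = x ∧ (∀ e ∈ Mt, e ⊆ A ∧ e.card = 2 ∧ Ind G e) ∧
      ∀ e ∈ Mt, ∀ e' ∈ Mt, e ≠ e' → Disjoint e e' := by
  have key : ∀ y ≤ x, ∃ Mt : Finset (Finset V), MatGd G A Mt ∧ Mt.card = y := by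
    intro y
    induction y with
    | zero =>
      intro _
      exact ⟨∅, ⟨fun e he => absurd he (notMem_empty e), fun e he => absurd he (notMem_empty e)⟩,
        card_empty⟩
    | succ y ih =>
      intro hy
      obtain ⟨Mt, hM, hc⟩ := ih (by omega)
      obtain ⟨Mt', hM', hc'⟩ := mat_step h h2 hM (by omega)
      exact ⟨Mt', hM', by omega⟩
  obtain ⟨Mt, hM, hc⟩ := key x le_rfl
  exact ⟨Mt, hc, hM.1, hM.2⟩

theorem pm_clique (G : SimpleGraph V) (D : Finset V) (m : ℕ) (hm : D.card = 2 * m)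
    (h : ∀ v ∈ D, m + dg G v D + 1 ≤ D.card) : Tl G 2 m D := by
  obtain ⟨Mt, hc, h1, h2⟩ := mat G D m h (by omega)
  have h3 := tl_of_family (G := G) (s := 2) Mt (fun T hT => (h1 T hT).2.1)
    (fun T hT => (h1 T hT).2.2) h2
  have h4 : Mt.biUnion id = D := by
    refine eq_of_subset_of_card_le ?_ ?_
    · intro z hz
      rw [mem_biUnion] at hz
      obtain ⟨f, hf, hzf⟩ := hz
      exact (h1 f hf).1 hzf
    · rw [tl_card h3, hc, hm]
  rw [hc, h4] at h3
  exact h3

end Pool.Agent.Helper64.BX
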