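import Pool.Agent.Helper64.BX.Basic

/-! BEC exact P3 (MP_436ed3_co), piece Fin1.  Paper: /team-store/BECX_P3_paper.md, (B1), (B2).
Hall (`Finset.all_card_le_biUnion_card_iff_exists_injective`): if every element is related to at least half of the other side there is a perfect matching. Then induction on the number of
classes already joined: incomplete tiles `T : Fin M → Finset V` of size s + i; class A_i; `a` is bad for at most dg a (union of the tiles) ≤ M/(2q) tiles, a tile is bad for at most
∑_{x in tile} dg x (A_i) ≤ q M/(2q) elements of A_i.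
-/

set_option autoImplicit false

namespace Pool.Agent.Helper64.BX

open Finset Classical

variable {V : Type}

theorem hall_half {α β : Type} [Fintype α] [Fintype β] (r : α → β → Prop)
    (hc : Fintype.card α = Fintype.card β)
    (h1 : ∀ a, Fintype.card β ≤ 2 * (univ.filter fun b => r a b).card)
    (h2 : ∀ b, Fintype.card α ≤ 2 * (univ.filter fun a => r a b).card) :
    ∃ f : α ≃ β, ∀ a, r a (f a) := by
  obtain ⟨f, hf, hr⟩ := (Finset.all_card_le_biUnion_card_iff_exists_injective
    (fun a : α => univ.filter fun b : β => r a b)).1 (by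
      intro S
      rcases S.eq_empty_or_nonempty with rfl | ⟨a, ha⟩
      · simp
      · by_cases hS : 2 * S.card ≤ Fintype.card β
        · have h3 : (univ.filter fun b : β => r a b).card ≤
              (S.biUnion fun a : α => univ.filter fun b : β => r a b).card :=
            card_le_card (subset_biUnion_of_mem (fun a : α => univ.filter fun b : β => r a b) ha)
          have := h1 a
          omega
        · have h4 : (S.biUnion fun a : α => univ.filter fun b : β => r a b) = univ := by
            ext b
            simp only [mem_biUnion, mem_filter, mem_univ, true_and, iff_true]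
            by_contra hno
            push Not at hno
            have h5 : Disjoint S (univ.filter fun a => r a b) := by
              rw [disjoint_left]
              intro x hx hx'
              rw [mem_filter] at hx'
              exact hno x hx hx'.2
            have h6 := card_union_of_disjoint h5
            have h7 : (S ∪ univ.filter fun a => r a b).card ≤ Fintype.card α :=
              card_le_univ _
            have := h2 b
            omega
          rw [h4, card_univ, ← hc]
          exact card_le_univ _)
  refine ⟨Equiv.ofBijective f ((Fintype.bijective_iff_injective_and_card f).2 ⟨hf, hc⟩), ?_⟩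
  intro a
  have := hr a
  rw [mem_filter] at this
  exact this.2

/-- one more class is joined to the tiles -/
theorem fin1_step (G : SimpleGraph V) (s M : ℕ) (U A : Finset V) (hU : Tl G s M U)
    (hd : Disjoint A U) (hc : A.card = M)
    (h1 : ∀ v ∈ A, 2 * dg G v U ≤ M)
    (h2 : ∀ T ⊆ U, T.card = s → 2 * (∑ v ∈ T, dg G v A) ≤ M) :
    Tl G (s + 1) M (A ∪ U) := by
  obtain ⟨T, hT1, hT2, hT3, hT4⟩ := hU
  have hTU : ∀ j, T j ⊆ U := fun j => hT4 ▸ subset_biUnion_of_mem T (mem_univ j)
  obtain ⟨f, hf⟩ := hall_half (α := A) (β := Fin M)
    (fun a j => ∀ x ∈ T j, ¬ G.Adj (a : V) x) (by simp [hc])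
    (by
      intro a
      rw [Fintype.card_fin]
      have h3 : (univ.filter fun j : Fin M => ¬ ∀ x ∈ T j, ¬ G.Adj (a : V) x).card ≤
          dg G (a : V) U := by
        -- choose a neighbour in each bad tile
        have h4 : ∀ j : Fin M, ∃ x : V, (¬ ∀ x ∈ T j, ¬ G.Adj (a : V) x) →
            x ∈ T j ∧ G.Adj (a : V) x := by
          intro j
          by_cases h : ∀ x ∈ T j, ¬ G.Adj (a : V) x
          · exact ⟨a, fun h' => (h' h).elim⟩
          · push Not at h
            obtain ⟨x, hx, hx'⟩ := h
            exact ⟨x, fun _ => ⟨hx, hx'⟩⟩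
        choose g hg using h4
        unfold dg
        refine card_le_card_of_injOn g ?_ ?_
        · intro j hj
          rw [mem_coe, mem_filter] at hj
          have := hg j hj.2
          rw [mem_coe, mem_filter]
          exact ⟨hTU j this.1, this.2⟩
        · intro j hj j' hj' hjj
          rw [mem_coe, mem_filter] at hj hj'
          by_contra hne
          have h5 := hg j hj.2
          have h6 := hg j' hj'.2
          rw [← hjj] at h6
          exact (disjoint_left.1 (hT3 j j' hne)) h5.1 h6.1
      have h7 := card_filter_add_card_filter_not (s := (univ : Finset (Fin M)))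
        (fun j => ∀ x ∈ T j, ¬ G.Adj (a : V) x)
      rw [card_univ, Fintype.card_fin] at h7
      have h8 := h1 a a.2
      have h9 : (univ.filter fun b : Fin M => ∀ x ∈ T b, ¬ G.Adj (a : V) x).card +
          (univ.filter fun j : Fin M => ¬ ∀ x ∈ T j, ¬ G.Adj (a : V) x).card = M := h7
      have h10 : M ≤ 2 * (univ.filter fun b : Fin M => ∀ x ∈ T b, ¬ G.Adj (a : V) x).card := by
        omega
      convert h10)
    (by
      intro j
      rw [Fintype.card_coe, hc]
      have h3 : (univ.filter fun a : A => ¬ ∀ x ∈ T j, ¬ G.Adj (a : V) x).card ≤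
          ∑ v ∈ T j, dg G v A := by
        have h4 : (univ.filter fun a : A => ¬ ∀ x ∈ T j, ¬ G.Adj (a : V) x).card ≤
            ((T j).biUnion fun v => A.filter fun u => G.Adj v u).card := by
          refine card_le_card_of_injOn (fun a : A => (a : V)) ?_ ?_
          · intro a ha
            rw [mem_coe, mem_filter] at ha
            have h5 := ha.2
            push Not at h5
            obtain ⟨x, hx, hx'⟩ := h5
            rw [mem_coe, mem_biUnion]
            exact ⟨x, hx, by rw [mem_filter]; exact ⟨a.2, hx'.symm⟩⟩
          · intro a _ b _ hab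
            exact Subtype.ext hab
        exact h4.trans card_biUnion_le
      have h7 := card_filter_add_card_filter_not (s := (univ : Finset A))
        (fun a => ∀ x ∈ T j, ¬ G.Adj (a : V) x)
      rw [card_univ, Fintype.card_coe, hc] at h7
      have h8 := h2 (T j) (hTU j) (hT1 j)
      have h9 : (univ.filter fun a : A => ∀ x ∈ T j, ¬ G.Adj (a : V) x).card +
          (univ.filter fun a : A => ¬ ∀ x ∈ T j, ¬ G.Adj (a : V) x).card = M := h7
      have h10 : M ≤ 2 * (univ.filter fun a : A => ∀ x ∈ T j, ¬ G.Adj (a : V) x).card := by
        omega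
      convert h10)
  -- the new tiles
  have hnot : ∀ j, ((f.symm j : A) : V) ∉ T j := by
    intro j hj
    exact (disjoint_left.1 hd) (f.symm j).2 (hTU j hj)
  refine ⟨fun j => insert ((f.symm j : A) : V) (T j), ?_, ?_, ?_, ?_⟩
  · intro j
    simp only
    rw [card_insert_of_notMem (hnot j), hT1 j]
  · intro j
    have h3 := hf (f.symm j)
    rw [Equiv.apply_symm_apply] at h3
    intro x hx y hy
    rw [mem_insert] at hx hy
    rcases hx with rfl | hx <;> rcases hy with rfl | hy
    · exact G.irrefl
    · exact h3 y hy
    · exact fun h => h3 x hx h.symm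
    · exact hT2 j x hx y hy
  · intro i j hij
    simp only
    rw [disjoint_insert_left, disjoint_insert_right]
    refine ⟨?_, ?_, hT3 i j hij⟩
    · intro h
      rw [mem_insert] at h
      rcases h with h | h
      · exact hij (f.symm.injective (Subtype.ext h))
      · exact (disjoint_left.1 hd) (f.symm i).2 (hTU j h)
    · intro h
      exact (disjoint_left.1 hd) (f.symm j).2 (hTU i h)
  · ext x
    simp only [mem_biUnion, mem_univ, true_and, mem_insert, mem_union]
    constructor
    · rintro ⟨j, rfl | hj⟩
      · exact Or.inl (f.symm j).2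
      · exact Or.inr (hTU j hj)
    · rintro (hx | hx)
      · exact ⟨f ⟨x, hx⟩, Or.inl (by simp)⟩
      · rw [← hT4, mem_biUnion] at hx
        obtain ⟨j, -, hj⟩ := hx
        exact ⟨j, Or.inr hj⟩

theorem fin1 (G : SimpleGraph V) (t s M : ℕ) (A : Fin t → Finset V) (B : Finset V)
    (hd : ∀ i j, i ≠ j → Disjoint (A i) (A j)) (hdB : ∀ i, Disjoint (A i) B)
    (hc : ∀ i, (A i).card = M) (hB : Tl G s M B)
    (hA : ∀ i, ∀ v ∈ A i, 2 * (t + s) * dg G v ((univ.biUnion A ∪ B) \ A i) ≤ M)
    (hBA : ∀ v ∈ B, ∀ i, 2 * (t + s) * dg G v (A i) ≤ M) :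
    Tl G (t + s) M (univ.biUnion A ∪ B) := by
  have key : ∀ i : ℕ, i ≤ t →
      Tl G (i + s) M ((univ.filter fun l : Fin t => l.val < i).biUnion A ∪ B) := by
    intro i
    induction i with
    | zero =>
      intro _
      have : (univ.filter fun l : Fin t => l.val < 0) = ∅ := by
        ext l; simp
      rw [this, biUnion_empty, empty_union, Nat.zero_add]
      exact hB
    | succ i ih =>
      intro hi
      have hlt : i < t := hi
      have hUeq : (univ.filter fun l : Fin t => l.val < i + 1).biUnion A ∪ B =
          A ⟨i, hlt⟩ ∪ ((univ.filter fun l : Fin t => l.val < i).biUnion A ∪ B) := by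
        ext x
        simp only [mem_union, mem_biUnion, mem_filter, mem_univ, true_and]
        constructor
        · rintro (⟨l, hl, hx⟩ | hx)
          · rcases Nat.lt_succ_iff_lt_or_eq.1 hl with h | h
            · exact Or.inr (Or.inl ⟨l, h, hx⟩)
            · left
              have : l = ⟨i, hlt⟩ := Fin.ext h
              rwa [← this]
          · exact Or.inr (Or.inr hx)
        · rintro (hx | ⟨l, hl, hx⟩ | hx)
          · exact Or.inl ⟨⟨i, hlt⟩, by simp, hx⟩
          · exact Or.inl ⟨l, by omega, hx⟩
          · exact Or.inr hx
      have hUd : Disjoint (A ⟨i, hlt⟩)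
          ((univ.filter fun l : Fin t => l.val < i).biUnion A ∪ B) := by
        rw [disjoint_union_right]
        refine ⟨?_, hdB _⟩
        rw [disjoint_biUnion_right]
        intro l hl
        rw [mem_filter] at hl
        refine hd _ _ (fun h => ?_)
        have h' := congrArg Fin.val h
        simp only at h'
        omega
      have hsub : ((univ.filter fun l : Fin t => l.val < i).biUnion A ∪ B) ⊆
          (univ.biUnion A ∪ B) \ A ⟨i, hlt⟩ := by
        intro x hx
        rw [mem_sdiff]
        refine ⟨?_, fun h => (disjoint_left.1 hUd) h hx⟩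
        rw [mem_union, mem_biUnion] at hx ⊢
        rcases hx with ⟨l, _, hl⟩ | hx
        · exact Or.inl ⟨l, mem_univ l, hl⟩
        · exact Or.inr hx
      rw [hUeq, show i + 1 + s = (i + s) + 1 by ring]
      refine fin1_step G (i + s) M _ _ (ih (by omega)) hUd (hc _) ?_ ?_
      · intro v hv
        have h1 := hA ⟨i, hlt⟩ v hv
        have h2 := dg_mono (G := G) (v := v) hsub
        have h3 : 1 ≤ t + s := by omega
        calc 2 * dg G v _ ≤ 2 * dg G v ((univ.biUnion A ∪ B) \ A ⟨i, hlt⟩) := by omega
          _ ≤ 2 * (t + s) * dg G v ((univ.biUnion A ∪ B) \ A ⟨i, hlt⟩) := by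
            apply Nat.mul_le_mul_right
            omega
          _ ≤ M := h1
      · intro T hT hTc
        have h1 : ∀ v ∈ T, 2 * (t + s) * dg G v (A ⟨i, hlt⟩) ≤ M := by
          intro v hv
          have hv' := hT hv
          rw [mem_union, mem_biUnion] at hv'
          rcases hv' with ⟨l, hl, hvl⟩ | hvB
          · rw [mem_filter] at hl
            have hne : l ≠ ⟨i, hlt⟩ := by
              intro h
              have h' := congrArg Fin.val h
              simp only at h'
              omega
            refine le_trans (Nat.mul_le_mul_left _ (dg_mono ?_)) (hA l v hvl)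
            intro x hx
            rw [mem_sdiff, mem_union, mem_biUnion]
            exact ⟨Or.inl ⟨_, mem_univ _, hx⟩, fun h => (disjoint_left.1 (hd _ _ hne)) h hx⟩
          · exact hBA v hvB _
        have h2 : 2 * (t + s) * ∑ v ∈ T, dg G v (A ⟨i, hlt⟩) ≤ (t + s) * M := by
          rw [mul_sum]
          calc ∑ v ∈ T, 2 * (t + s) * dg G v (A ⟨i, hlt⟩) ≤ ∑ v ∈ T, M := sum_le_sum h1
            _ = T.card * M := by simp
            _ = (i + s) * M := by rw [hTc]
            _ ≤ (t + s) * M := by
              apply Nat.mul_le_mul_right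
              omega
        have h3 : 0 < t + s := by omega
        have h4 : (t + s) * (2 * ∑ v ∈ T, dg G v (A ⟨i, hlt⟩)) ≤ (t + s) * M := by
          calc (t + s) * (2 * ∑ v ∈ T, dg G v (A ⟨i, hlt⟩))
              = 2 * (t + s) * ∑ v ∈ T, dg G v (A ⟨i, hlt⟩) := by ring
            _ ≤ (t + s) * M := h2
        exact Nat.le_of_mul_le_mul_left h4 h3
  have h := key t le_rfl
  have heq : (univ.filter fun l : Fin t => l.val < t) = univ := by
    ext l; simp
  rw [heq] at h
  exact h

end Pool.Agent.Helper64.BX
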