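import Pool.Agent.Helper64.BX.Basic

/-! BEC exact P3 (MP_436ed3_co), piece Pick.  Paper: /team-store/BECX_P3_paper.md, tile building.
`pickB`: choose the h vertices one after the other; every chosen vertex v excludes itself and its `dg G v D` neighbours (≤ b in total). `pickA`: induction on the finset I: in A i avoid
A i \ AT i (≤ cd q n), X (≤ cd q n), the G-neighbours of S and those of the vertices already chosen (they lie in AT j, j ≠ i, so ≤ cd q n each, at most q - 1 of them).
-/

set_option autoImplicit false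

namespace Pool.Agent.Helper64.BX

open Finset Classical

variable {V : Type}

/-- the elements of `D` with a neighbour in `S` -/
theorem pick_nb_card (G : SimpleGraph V) (S D : Finset V) :
    (D.filter fun u => ∃ x ∈ S, G.Adj x u).card ≤ ∑ x ∈ S, dg G x D := by
  have h : (D.filter fun u => ∃ x ∈ S, G.Adj x u) ⊆ S.biUnion fun x => D.filter fun u => G.Adj x u := by
    intro u hu
    rw [mem_filter] at hu
    obtain ⟨hu1, x, hx, hxu⟩ := hu
    rw [mem_biUnion]
    exact ⟨x, hx, mem_filter.2 ⟨hu1, hxu⟩⟩
  exact (card_le_card h).trans card_biUnion_le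

theorem pick_ind_insert {G : SimpleGraph V} {S : Finset V} {v : V} (hS : Ind G S)
    (hv : ∀ x ∈ S, ¬ G.Adj x v) : Ind G (insert v S) := by
  intro x hx y hy
  rw [mem_insert] at hx hy
  rcases hx with rfl | hx <;> rcases hy with rfl | hy
  · exact G.irrefl
  · exact fun h => hv y hy h.symm
  · exact hv x hx
  · exact hS x hx y hy

theorem pickB (G : SimpleGraph V) (D S X : Finset V) (b h : ℕ) (hS : Ind G S)
    (hb : ∀ v ∈ D, dg G v D + 1 ≤ b)
    (hc : h = 0 ∨ ∑ x ∈ S, dg G x D + X.card + S.card + (h - 1) * b < D.card) :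
    ∃ Y : Finset V, Y ⊆ D \ X ∧ Disjoint Y S ∧ Y.card = h ∧ Ind G (S ∪ Y) := by
  induction h generalizing S with
  | zero => exact ⟨∅, empty_subset _, disjoint_empty_left _, card_empty, by simpa using hS⟩
  | succ h ih =>
    have hc' : ∑ x ∈ S, dg G x D + X.card + S.card + h * b < D.card := by
      rcases hc with hc | hc
      · omega
      · simpa using hc
    have h1 : ((D.filter fun u => ∃ x ∈ S, G.Adj x u) ∪ X ∪ S).card < D.card := by
      have h2 := pick_nb_card G S D
      have h3 := card_union_le ((D.filter fun u => ∃ x ∈ S, G.Adj x u) ∪ X) S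
      have h4 := card_union_le (D.filter fun u => ∃ x ∈ S, G.Adj x u) X
      have h5 : 0 ≤ h * b := Nat.zero_le _
      omega
    obtain ⟨v, hvD, hv⟩ := exists_mem_notMem_of_card_lt_card h1
    simp only [mem_union, mem_filter, not_or, not_and, not_exists] at hv
    obtain ⟨⟨hv1, hvX⟩, hvS⟩ := hv
    have hv1' : ∀ x ∈ S, ¬ G.Adj x v := fun x hx => hv1 hvD x hx
    have hc2 : h = 0 ∨ ∑ x ∈ insert v S, dg G x D + X.card + (insert v S).card + (h - 1) * b
        < D.card := by
      rcases h with _ | h
      · exact Or.inl rfl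
      · refine Or.inr ?_
        rw [sum_insert hvS, card_insert_of_notMem hvS]
        have h6 := hb v hvD
        have h7 : (h + 1 - 1) * b + b = (h + 1) * b := by
          rw [Nat.add_sub_cancel]; ring
        omega
    obtain ⟨Y, hY1, hY2, hY3, hY4⟩ := ih (insert v S) (pick_ind_insert hS hv1') hc2
    rw [disjoint_insert_right] at hY2
    refine ⟨insert v Y, ?_, ?_, ?_, ?_⟩
    · intro u hu
      rw [mem_insert] at hu
      rcases hu with rfl | hu
      · exact mem_sdiff.2 ⟨hvD, hvX⟩
      · exact hY1 hu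
    · rw [disjoint_insert_left]
      exact ⟨hvS, hY2.2⟩
    · rw [card_insert_of_notMem hY2.1, hY3]
    · have h8 : S ∪ insert v Y = insert v S ∪ Y := by
        ext u; simp only [mem_union, mem_insert]; tauto
      rw [h8]; exact hY4

theorem pickA [Fintype V] {G : SimpleGraph V} {q t s d N : ℕ} {w : ℝ} {A AT : Fin t → Finset V}
    {B BT : Finset V} (hC : Cls G q t s d N w A AT B BT) (I : Finset (Fin t)) (S X : Finset V)
    (hS : Ind G S) (hSI : ∀ i ∈ I, Disjoint S (A i))
    (hX : (X.card : ℝ) ≤ cd q * Fintype.card V)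
    (hg : ∀ i ∈ I, (∑ x ∈ S, (dg G x (A i) : ℝ)) + (q + 2) * (cd q * Fintype.card V) <
      (A i).card) :
    ∃ Y : Finset V, Disjoint Y X ∧ Disjoint Y S ∧ Y.card = I.card ∧
      (∀ i ∈ I, (Y ∩ A i).card = 1) ∧ (∀ v ∈ Y, ∃ i ∈ I, v ∈ AT i) ∧ Ind G (S ∪ Y) := by
  have hcn : (0 : ℝ) ≤ cd q * Fintype.card V := le_trans (Nat.cast_nonneg _) hX
  induction I using Finset.induction_on with
  | empty =>
    exact ⟨∅, disjoint_empty_left _, disjoint_empty_left _, rfl, by simp, by simp, by simpa using hS⟩
  | insert i I hiI ih =>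
    obtain ⟨Y, hY1, hY2, hY3, hY4, hY5, hY6⟩ := ih (fun j hj => hSI j (mem_insert_of_mem hj))
      (fun j hj => hg j (mem_insert_of_mem hj))
    -- elements of Y lie in A j, j in I
    have hYj : ∀ y ∈ Y, ∃ j ∈ I, y ∈ AT j ∧ y ∈ A j := by
      intro y hy
      obtain ⟨j, hj, hyj⟩ := hY5 y hy
      exact ⟨j, hj, hyj, hC.subA j hyj⟩
    have hne : ∀ j ∈ I, j ≠ i := fun j hj h => hiI (h ▸ hj)
    have hYi : Disjoint Y (A i) := by
      rw [disjoint_left]
      intro y hy hyi
      obtain ⟨j, hj, -, hyj⟩ := hYj y hy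
      exact disjoint_left.1 (hC.disjA j i (hne j hj)) hyj hyi
    -- degrees of the elements of Y into A i
    have hdY : ∀ y ∈ Y, (dg G y (A i) : ℝ) ≤ cd q * Fintype.card V := by
      intro y hy
      obtain ⟨j, hj, hyT, -⟩ := hYj y hy
      have h1 := hC.typA j y hyT
      have h2 : dg G y (A i) ≤ dg G y (univ \ A j) := by
        apply dg_mono
        intro u hu
        rw [mem_sdiff]
        exact ⟨mem_univ _, fun h => disjoint_left.1 (hC.disjA j i (hne j hj)) h hu⟩
      have h3 : (dg G y (A i) : ℝ) ≤ dg G y (univ \ A j) := by exact_mod_cast h2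
      linarith
    have hYc : (Y.card : ℝ) + 1 ≤ q := by
      have h1 : (insert i I).card ≤ t := by
        have := card_le_univ (insert i I)
        simpa using this
      rw [card_insert_of_notMem hiI] at h1
      have h2 := hC.ts
      have h3 : Y.card + 1 ≤ q := by omega
      exact_mod_cast h3
    have hsY : (∑ y ∈ Y, (dg G y (A i) : ℝ)) ≤ Y.card * (cd q * Fintype.card V) := by
      have := sum_le_card_nsmul Y (fun y => (dg G y (A i) : ℝ)) (cd q * Fintype.card V) hdY
      simpa [nsmul_eq_mul] using this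
    have h1 : (((A i).filter fun u => ∃ x ∈ S ∪ Y, G.Adj x u) ∪ X ∪ (A i \ AT i)).card
        < (A i).card := by
      have h2 := pick_nb_card G (S ∪ Y) (A i)
      have h3 := card_union_le (((A i).filter fun u => ∃ x ∈ S ∪ Y, G.Adj x u) ∪ X) (A i \ AT i)
      have h4 := card_union_le ((A i).filter fun u => ∃ x ∈ S ∪ Y, G.Adj x u) X
      have h5 := hC.smA i
      have h6 := hC.w1
      have h7 := hg i (mem_insert_self _ _)
      rw [sum_union hY2.symm] at h2
      have h8 : (((A i).filter fun u => ∃ x ∈ S ∪ Y, G.Adj x u).card : ℝ) ≤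
          (∑ x ∈ S, (dg G x (A i) : ℝ)) + ∑ y ∈ Y, (dg G y (A i) : ℝ) := by exact_mod_cast h2
      have h9 : ((((A i).filter fun u => ∃ x ∈ S ∪ Y, G.Adj x u) ∪ X ∪ (A i \ AT i)).card : ℝ) ≤
          (((A i).filter fun u => ∃ x ∈ S ∪ Y, G.Adj x u) ∪ X).card + (A i \ AT i).card := by
        exact_mod_cast h3
      have h10 : ((((A i).filter fun u => ∃ x ∈ S ∪ Y, G.Adj x u) ∪ X).card : ℝ) ≤
          ((A i).filter fun u => ∃ x ∈ S ∪ Y, G.Adj x u).card + X.card := by exact_mod_cast h4
      have h11 : w * (Fintype.card V : ℝ) ≤ cd q * Fintype.card V :=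
        mul_le_mul_of_nonneg_right h6 (Nat.cast_nonneg _)
      have h12 : (Y.card : ℝ) * (cd q * Fintype.card V) ≤ (q - 1) * (cd q * Fintype.card V) :=
        mul_le_mul_of_nonneg_right (by linarith) hcn
      have h13 : ((((A i).filter fun u => ∃ x ∈ S ∪ Y, G.Adj x u) ∪ X ∪ (A i \ AT i)).card : ℝ)
          < (A i).card := by nlinarith
      exact_mod_cast h13
    obtain ⟨v, hvA, hv⟩ := exists_mem_notMem_of_card_lt_card h1
    simp only [mem_union, mem_filter, mem_sdiff, not_or, not_and, not_exists, not_not] at hv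
    obtain ⟨⟨hv1, hvX⟩, hvT⟩ := hv
    have hvT' : v ∈ AT i := hvT hvA
    have hvS : v ∉ S := fun h => disjoint_left.1 (hSI i (mem_insert_self _ _)) h hvA
    have hvY : v ∉ Y := fun h => disjoint_left.1 hYi h hvA
    refine ⟨insert v Y, ?_, ?_, ?_, ?_, ?_, ?_⟩
    · rw [disjoint_insert_left]; exact ⟨hvX, hY1⟩
    · rw [disjoint_insert_left]; exact ⟨hvS, hY2⟩
    · rw [card_insert_of_notMem hvY, card_insert_of_notMem hiI, hY3]
    · intro j hj
      rw [mem_insert] at hj
      rcases hj with rfl | hj
      · have : insert v Y ∩ A j = {v} := by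
          ext u
          simp only [mem_inter, mem_insert, mem_singleton]
          constructor
          · rintro ⟨rfl | hu, hu2⟩
            · rfl
            · exact (disjoint_left.1 hYi hu hu2).elim
          · rintro rfl; exact ⟨Or.inl rfl, hvA⟩
        rw [this, card_singleton]
      · have : insert v Y ∩ A j = Y ∩ A j := by
          ext u
          simp only [mem_inter, mem_insert]
          constructor
          · rintro ⟨rfl | hu, hu2⟩
            · exact (disjoint_left.1 (hC.disjA j i (hne j hj)) hu2 hvA).elim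
            · exact ⟨hu, hu2⟩
          · rintro ⟨hu, hu2⟩; exact ⟨Or.inr hu, hu2⟩
        rw [this]; exact hY4 j hj
    · intro u hu
      rw [mem_insert] at hu
      rcases hu with rfl | hu
      · exact ⟨i, mem_insert_self _ _, hvT'⟩
      · obtain ⟨j, hj, huj⟩ := hY5 u hu
        exact ⟨j, mem_insert_of_mem hj, huj⟩
    · have h8 : S ∪ insert v Y = insert v (S ∪ Y) := by
        ext u; simp only [mem_union, mem_insert]; tauto
      rw [h8]
      apply pick_ind_insert hY6
      intro x hx
      exact hv1 hvA x (mem_union.1 hx)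

end Pool.Agent.Helper64.BX
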