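import Pool.Agent.Helper64.BX.Basic
import Pool.Agent.Helper64.BX.St.Pick

/-! BEC exact P3 (MP_436ed3_co), piece Tile.  Paper: /team-store/BECX_P3_paper.md, (T1)-(T5): single tiles.
B-part by `pickB` (b = d + 1), then A-part by `pickA`. Numerics: n = card V, N ≥ n/q - 1, cc q = 1/(100 q²), cd q = cc q/(32 q), q ≤ cd q n. `tileV`: v ∈ B arbitrary (flx), `tileE`: {a,b} ⊆ A j.
In `tileK` the B-part K is given (for (T4), (T5), s = 2b): all its elements but possibly one are in BT.
-/

set_option autoImplicit false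

namespace Pool.Agent.Helper64.BX

open Finset Classical

variable {V : Type}

/-- numeric facts about the constants -/
theorem tile_num [Fintype V] {G : SimpleGraph V} {q t s d N : ℕ} {w : ℝ} {A AT : Fin t → Finset V}
    {B BT : Finset V} (hC : Cls G q t s d N w A AT B BT) :
    (0 : ℝ) < cd q * Fintype.card V ∧ cc q * (Fintype.card V : ℝ) = 32 * q * (cd q * Fintype.card V) ∧
      3200 * (q : ℝ) ^ 2 * (cd q * Fintype.card V) ≤ N + cd q * Fintype.card V ∧
      w * (Fintype.card V : ℝ) ≤ cd q * Fintype.card V := by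
  have hq : (2 : ℝ) ≤ q := by exact_mod_cast hC.q2
  have hq0 : (0 : ℝ) < q := by linarith
  have hbig := hC.big
  have hpos : (0 : ℝ) < cd q * Fintype.card V := by linarith
  have hn : (Fintype.card V : ℝ) < q * (N + 1) := by
    have h1 := hC.hN
    have h2 : Fintype.card V < q * (Fintype.card V / q + 1) :=
      Nat.lt_mul_div_succ _ (by have := hC.q2; omega)
    rw [← h1] at h2
    exact_mod_cast h2
  have hcd : cd q * (3200 * (q : ℝ) ^ 3) = 1 := by
    unfold cd cc
    field_simp
    norm_num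
  refine ⟨hpos, ?_, ?_, mul_le_mul_of_nonneg_right hC.w1 (Nat.cast_nonneg _)⟩
  · have : cc q = 32 * q * cd q := by
      unfold cd
      field_simp
    rw [this]; ring
  · have h3 : (Fintype.card V : ℝ) = 3200 * (q : ℝ) ^ 3 * (cd q * Fintype.card V) := by
      calc (Fintype.card V : ℝ) = (cd q * (3200 * (q : ℝ) ^ 3)) * Fintype.card V := by
            rw [hcd, one_mul]
        _ = _ := by ring
    have h4 : (q : ℝ) * (3200 * (q : ℝ) ^ 2 * (cd q * Fintype.card V)) < q * (N + 1) := by
      calc (q : ℝ) * (3200 * (q : ℝ) ^ 2 * (cd q * Fintype.card V))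
          = 3200 * (q : ℝ) ^ 3 * (cd q * Fintype.card V) := by ring
        _ = (Fintype.card V : ℝ) := h3.symm
        _ < _ := hn
    have h5 := lt_of_mul_lt_mul_left h4 hq0.le
    linarith

/-- sum of the degrees of a set of typical vertices, one of them exceptional -/
theorem tile_sum {G : SimpleGraph V} (K D : Finset V) (v : V) (c : ℝ) (hc : 0 ≤ c)
    (hK : ∀ x ∈ K, x = v ∨ (dg G x D : ℝ) ≤ c) :
    ∑ x ∈ K, (dg G x D : ℝ) ≤ dg G v D + K.card * c := by
  have h1 : ∑ x ∈ K, (dg G x D : ℝ) ≤ ∑ x ∈ K, ((if x = v then (dg G v D : ℝ) else 0) + c) := by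
    refine sum_le_sum fun x hx => ?_
    rcases hK x hx with rfl | h
    · rw [if_pos rfl]; linarith
    · split_ifs
      · have : (0 : ℝ) ≤ dg G v D := Nat.cast_nonneg _
        linarith
      · linarith
  refine h1.trans ?_
  rw [sum_add_distrib, sum_const, nsmul_eq_mul]
  have h2 : ∑ x ∈ K, (if x = v then (dg G v D : ℝ) else 0) ≤ dg G v D := by
    rw [sum_ite_eq']
    split_ifs
    · exact le_refl _
    · exact Nat.cast_nonneg _
  linarith

/-- A-part for a given B-part `K ⊆ B`, all of whose elements but possibly `v` are typical -/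
theorem tileK [Fintype V] {G : SimpleGraph V} {q t s d N : ℕ} {w : ℝ} {A AT : Fin t → Finset V}
    {B BT : Finset V} (hC : Cls G q t s d N w A AT B BT) (I : Finset (Fin t)) (K X : Finset V)
    (hK : Ind G K) (hKc : K.card ≤ q + 1) (v : V) (hv : v ∈ B) (hKB : ∀ x ∈ K, x = v ∨ x ∈ BT)
    (hX : (X.card : ℝ) ≤ cd q * Fintype.card V) :
    ∃ Y : Finset V, K ⊆ Y ∧ Disjoint (Y \ K) X ∧ Y.card = K.card + I.card ∧ Y ∩ B = K ∧
      (∀ i ∈ I, (Y ∩ A i).card = 1) ∧ (∀ i, i ∉ I → Disjoint Y (A i)) ∧ Ind G Y := by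
  obtain ⟨hpos, hcc, hN, hw⟩ := tile_num hC
  have hq : (2 : ℝ) ≤ q := by exact_mod_cast hC.q2
  have hKs : ∀ x ∈ K, x ∈ B := by
    intro x hx
    rcases hKB x hx with rfl | h
    · exact hv
    · exact hC.subB h
  have hBA : ∀ x ∈ B, ∀ i, x ∉ A i := fun x hx i h => disjoint_left.1 (hC.disjB i) h hx
  obtain ⟨Y, hY1, hY2, hY3, hY4, hY5, hY6⟩ := pickA hC I K X hK
    (fun i _ => disjoint_left.2 fun x hx => hBA x (hKs x hx) i) hX (by
      intro i _
      have h1 := tile_sum (G := G) K (A i) v (cd q * Fintype.card V) hpos.le (by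
        intro x hx
        rcases hKB x hx with h | h
        · exact Or.inl h
        · exact Or.inr (hC.typB x h i))
      have h2 : (K.card : ℝ) ≤ q + 1 := by exact_mod_cast hKc
      have h3 := hC.flx v hv i
      have h4 : (K.card : ℝ) * (cd q * Fintype.card V) ≤ (q + 1) * (cd q * Fintype.card V) :=
        mul_le_mul_of_nonneg_right h2 hpos.le
      have h5 : cc q / 2 * (Fintype.card V : ℝ) = 16 * q * (cd q * Fintype.card V) := by
        linarith
      nlinarith)
  have hYA : ∀ x ∈ Y, ∃ i ∈ I, x ∈ A i := by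
    intro x hx
    obtain ⟨i, hi, hxi⟩ := hY5 x hx
    exact ⟨i, hi, hC.subA i hxi⟩
  refine ⟨K ∪ Y, subset_union_left, ?_, ?_, ?_, ?_, ?_, hY6⟩
  · rw [union_sdiff_left]
    exact hY1.mono_left sdiff_subset
  · rw [card_union_of_disjoint hY2.symm, hY3]
  · ext x
    simp only [mem_inter, mem_union]
    constructor
    · rintro ⟨hx | hx, hxB⟩
      · exact hx
      · obtain ⟨i, -, hi⟩ := hYA x hx
        exact (hBA x hxB i hi).elim
    · intro hx
      exact ⟨Or.inl hx, hKs x hx⟩
  · intro i hi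
    rw [← hY4 i hi]
    congr 1
    ext x
    simp only [mem_inter, mem_union]
    constructor
    · rintro ⟨hx | hx, hxA⟩
      · exact (hBA x (hKs x hx) i hxA).elim
      · exact ⟨hx, hxA⟩
    · rintro ⟨hx, hxA⟩
      exact ⟨Or.inr hx, hxA⟩
  · intro i hi
    rw [disjoint_left]
    intro x hx hxA
    rw [mem_union] at hx
    rcases hx with hx | hx
    · exact hBA x (hKs x hx) i hxA
    · obtain ⟨j, hj, hxj⟩ := hYA x hx
      have hij : j ≠ i := fun h => hi (h ▸ hj)
      exact disjoint_left.1 (hC.disjA j i hij) hxj hxA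

/-- (T1) -/
theorem tileV [Fintype V] {G : SimpleGraph V} {q t s d N : ℕ} {w : ℝ} {A AT : Fin t → Finset V}
    {B BT : Finset V} (hC : Cls G q t s d N w A AT B BT) (hs : 1 ≤ s) (v : V) (hv : v ∈ B)
    (X : Finset V) (hX : (X.card : ℝ) ≤ cd q * Fintype.card V) :
    ∃ Y : Finset V, v ∈ Y ∧ Disjoint (Y.erase v) X ∧ Y.card = q ∧ (Y ∩ B).card = s ∧
      (Y ∩ B).erase v ⊆ BT ∧ (∀ i, (Y ∩ A i).card = 1) ∧ Ind G Y := by
  obtain ⟨hpos, hcc, hN, hw⟩ := tile_num hC
  have hq : (2 : ℝ) ≤ q := by exact_mod_cast hC.q2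
  have hBA : ∀ x ∈ B, ∀ i, x ∉ A i := fun x hx i h => disjoint_left.1 (hC.disjB i) h hx
  obtain ⟨K, hK1, hK2, hK3, hK4⟩ := pickB G BT {v} X (d + 1) (s - 1) (ind_singleton v)
    (fun x _ => Nat.add_le_add_right ((dg_mono (subset_univ _)).trans (hC.deg x)) 1) (by
      rcases Nat.lt_or_ge s 2 with h | h
      · left; omega
      · right
        rw [sum_singleton, card_singleton]
        have h1 : dg G v BT ≤ d := (dg_mono (subset_univ _)).trans (hC.deg v)
        obtain ⟨s', rfl⟩ : ∃ s', s = s' + 2 := ⟨s - 2, by omega⟩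
        have h2 : (B.card : ℝ) = BT.card + (B \ BT).card := by
          have := card_sdiff_add_card_eq_card hC.subB
          have h3 : (((B \ BT).card + BT.card : ℕ) : ℝ) = B.card := by rw [this]
          push_cast at h3
          linarith
        have h3 := hC.smB
        have h4 := hC.cardB1
        have h5 : (d : ℝ) ≤ N := by exact_mod_cast hC.dN
        have h6 : ((s' + 2 : ℕ) : ℝ) ≤ q := by
          have := hC.ts
          exact_mod_cast (show s' + 2 ≤ q by omega)
        have h7 := hC.big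
        have h8 : (dg G v BT : ℝ) ≤ d := by exact_mod_cast h1
        have h9 : (4 : ℝ) ≤ (q : ℝ) ^ 2 := by nlinarith
        have h10 : 3200 * 4 * (cd q * (Fintype.card V : ℝ)) ≤
            3200 * (q : ℝ) ^ 2 * (cd q * Fintype.card V) :=
          mul_le_mul_of_nonneg_right (by linarith) hpos.le
        have h11 : (dg G v BT : ℝ) + X.card + 1 + (s' : ℝ) * (d + 1) < BT.card := by
          push_cast at h4 h6
          have h12 : (s' : ℝ) * (d + 1) ≤ s' * (N + 1) :=
            mul_le_mul_of_nonneg_left (by linarith) (Nat.cast_nonneg _)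
          nlinarith
        have h13 : ((dg G v BT + X.card + 1 + (s' + 2 - 1 - 1) * (d + 1) : ℕ) : ℝ) < BT.card := by
          rw [show s' + 2 - 1 - 1 = s' by omega]
          push_cast
          exact h11
        exact_mod_cast h13)
  have hvK : v ∉ K := fun h => disjoint_left.1 hK2 h (mem_singleton_self v)
  have hKc : ({v} ∪ K : Finset V).card = s := by
    rw [card_union_of_disjoint hK2.symm, card_singleton, hK3]; omega
  obtain ⟨Y, hY1, hY2, hY3, hY4, hY5, hY6, hY7⟩ := tileK hC univ ({v} ∪ K) X hK4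
    (by rw [hKc]; have := hC.ts; omega) v hv (by
      intro x hx
      rw [mem_union, mem_singleton] at hx
      rcases hx with hx | hx
      · exact Or.inl hx
      · exact Or.inr (mem_sdiff.1 (hK1 hx)).1) hX
  refine ⟨Y, hY1 (by simp), ?_, ?_, ?_, ?_, fun i => hY5 i (mem_univ i), hY7⟩
  · rw [disjoint_left]
    intro x hx hxX
    rw [mem_erase] at hx
    by_cases hxK : x ∈ K
    · exact (mem_sdiff.1 (hK1 hxK)).2 hxX
    · refine disjoint_left.1 hY2 ?_ hxX
      rw [mem_sdiff, mem_union, mem_singleton]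
      exact ⟨hx.2, fun h => h.elim hx.1 hxK⟩
  · rw [hY3, hKc, card_univ, Fintype.card_fin]
    have := hC.ts
    omega
  · rw [hY4, hKc]
  · rw [hY4]
    intro x hx
    rw [mem_erase, mem_union, mem_singleton] at hx
    rcases hx.2 with h | h
    · exact (hx.1 h).elim
    · exact (mem_sdiff.1 (hK1 h)).1

/-- (T2), (T3): tile through a given H-edge `e` of the class `A j`; `D = BT`, or a nearly complete part of `BT` -/
theorem tileE [Fintype V] {G : SimpleGraph V} {q t s d N : ℕ} {w : ℝ} {A AT : Fin t → Finset V}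
    {B BT : Finset V} (hC : Cls G q t s d N w A AT B BT) (j : Fin t) (e : Finset V)
    (he : e ⊆ A j) (hec : e.card = 2) (hei : Ind G e) (I : Finset (Fin t)) (hj : j ∉ I) (h : ℕ)
    (D : Finset V) (hD : D ⊆ BT) (b : ℕ) (hb : ∀ v ∈ D, dg G v D + 1 ≤ b)
    (hDc : h = 0 ∨ (h - 1 : ℝ) * b + (4 * cc q + 2 * cd q) * Fintype.card V < D.card) (hh : h ≤ q)
    (X : Finset V) (hX : (X.card : ℝ) ≤ cd q * Fintype.card V) :
    ∃ Y : Finset V, e ⊆ Y ∧ Disjoint (Y \ e) X ∧ Y.card = 2 + h + I.card ∧ (Y ∩ B).card = h ∧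
      Y ∩ B ⊆ D ∧ Y ∩ A j = e ∧ (∀ i ∈ I, (Y ∩ A i).card = 1) ∧
      (∀ i, i ∉ I → i ≠ j → Disjoint Y (A i)) ∧ Ind G Y := by
  obtain ⟨hpos, hcc, hN, hw⟩ := tile_num hC
  have hq : (2 : ℝ) ≤ q := by exact_mod_cast hC.q2
  have hbig := hC.big
  have hBA : ∀ x ∈ B, ∀ i, x ∉ A i := fun x hx i h => disjoint_left.1 (hC.disjB i) h hx
  have hec' : (e.card : ℝ) = 2 := by exact_mod_cast hec
  -- degrees of the two ends of e outside A j
  have hde : ∀ S : Finset V, Disjoint S (A j) →
      ∑ x ∈ e, (dg G x S : ℝ) ≤ 4 * cc q * Fintype.card V := by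
    intro S hS
    have h1 : ∀ x ∈ e, (dg G x S : ℝ) ≤ 2 * cc q * Fintype.card V := by
      intro x hx
      refine le_trans ?_ (hC.bnd j x (he hx))
      have : dg G x S ≤ dg G x (univ \ A j) := by
        apply dg_mono
        intro u hu
        rw [mem_sdiff]
        exact ⟨mem_univ _, fun h => disjoint_left.1 hS hu h⟩
      exact_mod_cast this
    have h2 := sum_le_card_nsmul e (fun x => (dg G x S : ℝ)) _ h1
    rw [nsmul_eq_mul, hec'] at h2
    linarith
  have hDB : D ⊆ B := hD.trans hC.subB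
  obtain ⟨K, hK1, hK2, hK3, hK4⟩ := pickB G D e X b h hei hb (by
      rcases Nat.eq_zero_or_pos h with h0 | h0
      · exact Or.inl h0
      · right
        rcases hDc with hh0 | hDc
        · omega
        obtain ⟨h', rfl⟩ : ∃ h', h = h' + 1 := ⟨h - 1, by omega⟩
        have h1 := hde D (disjoint_left.2 fun x hx hxA => hBA x (hDB hx) j hxA)
        rw [Nat.add_sub_cancel]
        push_cast at hDc
        have h2 : ((∑ x ∈ e, dg G x D + X.card + e.card + h' * b : ℕ) : ℝ) < D.card := by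
          push_cast
          rw [hec']
          have h3 : ((h' : ℝ) + 1 - 1) * b = h' * b := by ring
          rw [h3] at hDc
          linarith
        exact_mod_cast h2)
  have hKB : ∀ x ∈ K, x ∈ BT := fun x hx => hD (mem_sdiff.1 (hK1 hx)).1
  have hKX : Disjoint K X := disjoint_left.2 fun x hx hxX => (mem_sdiff.1 (hK1 hx)).2 hxX
  have hsum : ∀ S : Finset V, ∑ x ∈ e ∪ K, (dg G x S : ℝ) =
      ∑ x ∈ e, (dg G x S : ℝ) + ∑ x ∈ K, (dg G x S : ℝ) := fun S => sum_union hK2.symm
  have hne : ∀ i ∈ I, i ≠ j := fun i hi hij => hj (hij ▸ hi)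
  have heA : ∀ x ∈ e, ∀ i, i ≠ j → x ∉ A i := fun x hx i hij hxi =>
    disjoint_left.1 (hC.disjA i j hij) hxi (he hx)
  obtain ⟨Y, hY1, hY2, hY3, hY4, hY5, hY6⟩ := pickA hC I (e ∪ K) X hK4
    (by
      intro i hi
      rw [disjoint_left]
      intro x hx hxA
      rw [mem_union] at hx
      rcases hx with hx | hx
      · exact heA x hx i (hne i hi) hxA
      · exact hBA x (hC.subB (hKB x hx)) i hxA) hX (by
      intro i hi
      rw [hsum]
      have h1 := hde (A i) (hC.disjA i j (hne i hi))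
      have h2 : ∑ x ∈ K, (dg G x (A i) : ℝ) ≤ h * (cd q * Fintype.card V) := by
        have := sum_le_card_nsmul K (fun x => (dg G x (A i) : ℝ)) (cd q * Fintype.card V)
          (fun x hx => hC.typB x (hKB x hx) i)
        rwa [nsmul_eq_mul, hK3] at this
      have h3 : (h : ℝ) * (cd q * Fintype.card V) ≤ q * (cd q * Fintype.card V) :=
        mul_le_mul_of_nonneg_right (by exact_mod_cast hh) hpos.le
      have h4 := hC.cardA1 i
      have h5 : 4 * cc q * (Fintype.card V : ℝ) = 128 * (q * (cd q * Fintype.card V)) := by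
        linarith
      have h6 : 2 * (q * (cd q * (Fintype.card V : ℝ))) ≤ (q : ℝ) ^ 2 * (cd q * Fintype.card V) := by
        have : 2 * (q : ℝ) ≤ (q : ℝ) ^ 2 := by nlinarith
        have := mul_le_mul_of_nonneg_right this hpos.le
        linarith
      have h7 : 2 * (cd q * (Fintype.card V : ℝ)) ≤ q * (cd q * Fintype.card V) :=
        mul_le_mul_of_nonneg_right hq hpos.le
      nlinarith)
  have hYA : ∀ x ∈ Y, ∃ i ∈ I, x ∈ A i := by
    intro x hx
    obtain ⟨i, hi, hxi⟩ := hY5 x hx
    exact ⟨i, hi, hC.subA i hxi⟩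
  refine ⟨e ∪ K ∪ Y, ?_, ?_, ?_, ?_, ?_, ?_, ?_, ?_, hY6⟩
  · intro x hx
    simp [hx]
  · rw [disjoint_left]
    intro x hx hxX
    simp only [mem_sdiff, mem_union] at hx
    obtain ⟨(hx1 | hx1) | hx1, hx2⟩ := hx
    · exact hx2 hx1
    · exact disjoint_left.1 hKX hx1 hxX
    · exact disjoint_left.1 hY1 hx1 hxX
  · rw [card_union_of_disjoint hY2.symm, card_union_of_disjoint hK2.symm, hec, hK3, hY3]
  · rw [← hK3]
    congr 1
    ext x
    simp only [mem_inter, mem_union]
    constructor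
    · rintro ⟨(hx | hx) | hx, hxB⟩
      · exact (hBA x hxB j (he hx)).elim
      · exact hx
      · obtain ⟨i, -, hi⟩ := hYA x hx
        exact (hBA x hxB i hi).elim
    · intro hx
      exact ⟨Or.inl (Or.inr hx), hC.subB (hKB x hx)⟩
  · intro x hx
    simp only [mem_inter, mem_union] at hx
    obtain ⟨(hx | hx) | hx, hxB⟩ := hx
    · exact (hBA x hxB j (he hx)).elim
    · exact (mem_sdiff.1 (hK1 hx)).1
    · obtain ⟨i, -, hi⟩ := hYA x hx
      exact (hBA x hxB i hi).elim
  · ext x
    simp only [mem_inter, mem_union]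
    constructor
    · rintro ⟨(hx | hx) | hx, hxA⟩
      · exact hx
      · exact (hBA x (hC.subB (hKB x hx)) j hxA).elim
      · obtain ⟨i, hi, hxi⟩ := hYA x hx
        exact (disjoint_left.1 (hC.disjA i j (hne i hi)) hxi hxA).elim
    · intro hx
      exact ⟨Or.inl (Or.inl hx), he hx⟩
  · intro i hi
    rw [← hY4 i hi]
    congr 1
    ext x
    simp only [mem_inter, mem_union]
    constructor
    · rintro ⟨(hx | hx) | hx, hxA⟩
      · exact (heA x hx i (hne i hi) hxA).elim
      · exact (hBA x (hC.subB (hKB x hx)) i hxA).elim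
      · exact ⟨hx, hxA⟩
    · rintro ⟨hx, hxA⟩
      exact ⟨Or.inr hx, hxA⟩
  · intro i hi hij
    rw [disjoint_left]
    intro x hx hxA
    simp only [mem_union] at hx
    rcases hx with (hx | hx) | hx
    · exact heA x hx i hij hxA
    · exact hBA x (hC.subB (hKB x hx)) i hxA
    · obtain ⟨l, hl, hxl⟩ := hYA x hx
      have hli : l ≠ i := fun h => hi (h ▸ hl)
      exact disjoint_left.1 (hC.disjA l i hli) hxl hxA

end Pool.Agent.Helper64.BX
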