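import Pool.Agent.Helper64.BX.Basic
import Pool.Agent.Helper64.BX.St.Tile
import Pool.Agent.Helper64.BX.St.Fin1

/-! BEC exact P3 (MP_436ed3_co), piece Rem.  Paper: /team-store/BECX_P3_paper.md, (D) removal lemma, s ≥ 1.
Induction on p. p = 0: all |A i \ U| = m, |B \ U| = s m, B \ U ⊆ BT; hFB and `fin1` (with A i \ U, B \ U). p > 0: if some v ∈ (B \ BT) \ U: `tileV`. Otherwise some class has positive and another
one negative excess (the excesses sum to 0, and if all positive parts vanish we are in the case p = 0 again): `tileE` with D = BT, b = d + 1, or `hK` + `tileK`. Avoid X = U ∪ ⋃ Mt. Then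
`tl_one`, `tl_union`. If all excesses vanish although p > 0 apply the induction hypothesis for p - 1.
-/

set_option autoImplicit false

namespace Pool.Agent.Helper64.BX

open Finset Classical

variable {V : Type}

/-- the vertices of the reserved pairs -/
private noncomputable def rv {t : ℕ} (Mt : Fin t → Finset (Finset V)) : Finset V :=
  univ.biUnion fun i => (Mt i).biUnion id

private theorem mem_rv {t : ℕ} {Mt : Fin t → Finset (Finset V)} {x : V} :
    x ∈ rv Mt ↔ ∃ i, ∃ e ∈ Mt i, x ∈ e := by
  simp [rv]

private theorem card_rv {G : SimpleGraph V} {t : ℕ} {A : Fin t → Finset V} {U : Finset V}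
    {Mt : Fin t → Finset (Finset V)} (h : Res G A U Mt) : (rv Mt).card ≤ 2 * ∑ i, (Mt i).card := by
  unfold rv
  refine card_biUnion_le.trans ?_
  rw [mul_sum]
  refine sum_le_sum fun i _ => ?_
  refine card_biUnion_le.trans ?_
  have h2 : ∑ e ∈ Mt i, (id e : Finset V).card = ∑ e ∈ Mt i, 2 :=
    sum_congr rfl (fun e he => (h.1 i e he).2.1)
  rw [h2, sum_const, smul_eq_mul, mul_comm]

private theorem sum_sdiff [Fintype V] {G : SimpleGraph V} {q t s d N : ℕ} {w : ℝ}
    {A AT : Fin t → Finset V} {B BT : Finset V} (hC : Cls G q t s d N w A AT B BT)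
    (U : Finset V) : (univ \ U).card = ∑ i, (A i \ U).card + (B \ U).card := by
  have h1 : univ \ U = (univ.biUnion fun i => A i \ U) ∪ (B \ U) := by
    ext x
    have hx := hC.cov
    have hx' : x ∈ univ.biUnion A ∪ B := by rw [hx]; exact mem_univ x
    simp only [mem_sdiff, mem_univ, true_and, mem_union, mem_biUnion] at hx' ⊢
    constructor
    · intro h
      rcases hx' with ⟨i, hi⟩ | hB
      · exact Or.inl ⟨i, hi, h⟩
      · exact Or.inr ⟨hB, h⟩
    · rintro (⟨i, _, h⟩ | ⟨_, h⟩) <;> exact h
  rw [h1, card_union_of_disjoint, card_biUnion]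
  · intro i _ j _ hij
    exact (hC.disjA i j hij).mono sdiff_subset sdiff_subset
  · rw [disjoint_biUnion_left]
    intro i _
    exact (hC.disjB i).mono sdiff_subset sdiff_subset

private theorem m_lower [Fintype V] {q m : ℕ} {U : Finset V} (hq : 2 ≤ q)
    (h1 : (univ \ U).card = q * m) (h2 : (U.card : ℝ) ≤ cd q * Fintype.card V) :
    (Fintype.card V : ℝ) ≤ 2 * q * m := by
  have h3 : (univ \ U).card + U.card = Fintype.card V := by
    rw [card_sdiff_add_card, union_eq_left.2 (subset_univ U), card_univ]
  have h4 : (Fintype.card V : ℝ) = q * m + U.card := by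
    rw [← h3, h1]; push_cast; ring
  have h5 : cd q ≤ 1 / 2 := by
    unfold cd cc
    have hq' : (2 : ℝ) ≤ q := by exact_mod_cast hq
    rw [div_div, div_le_div_iff₀ (by positivity) (by norm_num)]
    nlinarith [pow_pos (show (0 : ℝ) < q by linarith) 2, pow_pos (show (0 : ℝ) < q by linarith) 3]
  have h6 : (0 : ℝ) ≤ Fintype.card V := Nat.cast_nonneg _
  nlinarith

/-- the final step: all classes have the right size -/
private theorem rem_end [Fintype V] {G : SimpleGraph V} {q t s d N : ℕ} {w : ℝ}
    {A AT : Fin t → Finset V} {B BT : Finset V} (hC : Cls G q t s d N w A AT B BT)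
    (U : Finset V) (m : ℕ) (h1 : (univ \ U).card = q * m)
    (h2 : (U.card : ℝ) ≤ cd q * Fintype.card V) (hB : Tl G s m (B \ U)) (hBT : B \ U ⊆ BT)
    (hA : ∀ i, (A i \ U).card = m) : Tl G q m (univ \ U) := by
  have hm := m_lower hC.q2 h1 h2
  have h3 : univ \ U = univ.biUnion (fun i => A i \ U) ∪ (B \ U) := by
    ext x
    have hx' : x ∈ univ.biUnion A ∪ B := by rw [hC.cov]; exact mem_univ x
    simp only [mem_sdiff, mem_univ, true_and, mem_union, mem_biUnion] at hx' ⊢
    constructor
    · intro h
      rcases hx' with ⟨i, hi⟩ | hxB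
      · exact Or.inl ⟨i, hi, h⟩
      · exact Or.inr ⟨hxB, h⟩
    · rintro (⟨i, _, h⟩ | ⟨_, h⟩)
      · exact h
      · exact h
  rw [h3]
  have hq' : (2 : ℝ) ≤ q := by exact_mod_cast hC.q2
  have h9 : cc q * (q : ℝ) ^ 2 = 1 / 100 := by
    unfold cc
    field_simp
  have hcc0 : 0 ≤ cc q := by unfold cc; positivity
  have h10 : 2 * (q : ℝ) * (2 * cc q * Fintype.card V) ≤ m := by
    calc 2 * (q : ℝ) * (2 * cc q * Fintype.card V)
        ≤ 2 * (q : ℝ) * (2 * cc q * (2 * q * m)) := by
          gcongr
      _ = 8 * m * (cc q * (q : ℝ) ^ 2) := by ring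
      _ = 8 * m * (1 / 100) := by rw [h9]
      _ ≤ m := by
        have : (0 : ℝ) ≤ m := Nat.cast_nonneg _
        linarith
  have hcd : cd q ≤ 2 * cc q := by
    unfold cd
    rw [div_le_iff₀ (by positivity)]
    nlinarith
  have h4 := fin1 G t s m (fun i => A i \ U) (B \ U)
    (fun i j hij => (hC.disjA i j hij).mono sdiff_subset sdiff_subset)
    (fun i => (hC.disjB i).mono sdiff_subset sdiff_subset) hA hB
    (by
      intro i v hv
      have hvA : v ∈ A i := (mem_sdiff.1 hv).1
      have h5 := hC.bnd i v hvA
      have h6 : dg G v ((univ.biUnion (fun i => A i \ U) ∪ (B \ U)) \ (A i \ U)) ≤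
          dg G v (univ \ A i) := by
        refine dg_mono ?_
        rw [← h3]
        intro x hx
        rw [mem_sdiff] at hx ⊢
        exact ⟨mem_univ x, fun hxi => hx.2 (mem_sdiff.2 ⟨hxi, (mem_sdiff.1 hx.1).2⟩)⟩
      have h7 : (dg G v ((univ.biUnion (fun i => A i \ U) ∪ (B \ U)) \ (A i \ U)) : ℝ) ≤
          2 * cc q * Fintype.card V := le_trans (by exact_mod_cast h6) h5
      have h8 : 2 * (q : ℝ) * (dg G v ((univ.biUnion (fun i => A i \ U) ∪ (B \ U)) \ (A i \ U)) : ℝ)
          ≤ m := by
        refine le_trans ?_ h10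
        gcongr
      rw [hC.ts]
      exact_mod_cast h8)
    (by
      intro v hv i
      have h5 := hC.typB v (hBT hv) i
      have h6 : dg G v (A i \ U) ≤ dg G v (A i) := dg_mono sdiff_subset
      have h7 : (dg G v (A i \ U) : ℝ) ≤ 2 * cc q * Fintype.card V :=
        le_trans (by exact_mod_cast h6) (h5.trans
          (mul_le_mul_of_nonneg_right hcd (Nat.cast_nonneg _)))
      have h8 : 2 * (q : ℝ) * (dg G v (A i \ U) : ℝ) ≤ m := by
        refine le_trans ?_ h10
        gcongr
      rw [hC.ts]
      exact_mod_cast h8)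
  rw [hC.ts] at h4
  exact h4

/-- numerics for `tileE` -/
private theorem hDc_aux [Fintype V] {G : SimpleGraph V} {q t s d N : ℕ} {w : ℝ}
    {A AT : Fin t → Finset V} {B BT : Finset V} (hC : Cls G q t s d N w A AT B BT) (h : ℕ)
    (h1 : 1 ≤ h) (h2 : h ≤ s) :
    ((h : ℝ) - 1) * ((d + 1 : ℕ) : ℝ) + (4 * cc q + 2 * cd q) * Fintype.card V < BT.card := by
  obtain ⟨hpos, hcc, hN, hw⟩ := tile_num hC
  have hq : (2 : ℝ) ≤ q := by exact_mod_cast hC.q2
  have hbig := hC.big
  have h3 : (B.card : ℝ) = BT.card + (B \ BT).card := by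
    have := card_sdiff_add_card_eq_card hC.subB
    have h3 : (((B \ BT).card + BT.card : ℕ) : ℝ) = B.card := by rw [this]
    push_cast at h3
    linarith
  have h4 := hC.smB
  have h5 := hC.cardB1
  have h6 : (d : ℝ) ≤ N := by exact_mod_cast hC.dN
  have h7 : (s : ℝ) ≤ q := by
    have := hC.ts
    exact_mod_cast (show s ≤ q by omega)
  have h8 : (1 : ℝ) ≤ h := by exact_mod_cast h1
  have h9 : (h : ℝ) ≤ s := by exact_mod_cast h2
  have h10 : ((h : ℝ) - 1) * ((d + 1 : ℕ) : ℝ) ≤ ((s : ℝ) - 1) * (N + 1) := by
    push_cast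
    apply mul_le_mul (by linarith) (by linarith) (by positivity) (by linarith)
  have h11 : (4 : ℝ) * q * (cd q * Fintype.card V) ≤ 2 * (q : ℝ) ^ 2 * (cd q * Fintype.card V) := by
    apply mul_le_mul_of_nonneg_right _ hpos.le
    nlinarith
  have h12 : (4 : ℝ) * (cd q * Fintype.card V) ≤ (q : ℝ) ^ 2 * (cd q * Fintype.card V) := by
    apply mul_le_mul_of_nonneg_right _ hpos.le
    nlinarith
  nlinarith

/-- one step does not destroy the reserved pairs -/
private theorem res_step {G : SimpleGraph V} {t : ℕ} {A : Fin t → Finset V} {U Y : Finset V}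
    {Mt Mt' : Fin t → Finset (Finset V)} (h : Res G A U Mt) (hs : ∀ i, Mt' i ⊆ Mt i)
    (hd : ∀ i, ∀ e ∈ Mt' i, Disjoint e Y) : Res G A (U ∪ Y) Mt' := by
  refine ⟨fun i e he => ?_, fun i e he e' he' hne => h.2 i e (hs i he) e' (hs i he') hne⟩
  obtain ⟨h1, h2, h3⟩ := h.1 i e (hs i he)
  refine ⟨fun x hx => ?_, h2, h3⟩
  have h4 := mem_sdiff.1 (h1 hx)
  rw [mem_sdiff, mem_union]
  refine ⟨h4.1, ?_⟩
  rintro (h5 | h5)
  · exact h4.2 h5
  · exact (disjoint_left.1 (hd i e he)) hx h5

private theorem card_sdiff_step {S U Y : Finset V} (hY : Disjoint Y U) :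
    (S \ (U ∪ Y)).card + (Y ∩ S).card = (S \ U).card := by
  have h1 : S \ U = (S \ (U ∪ Y)) ∪ (Y ∩ S) := by
    ext x
    simp only [mem_sdiff, mem_union, mem_inter, not_or]
    constructor
    · rintro ⟨h1, h2⟩
      by_cases h3 : x ∈ Y
      · exact Or.inr ⟨h3, h1⟩
      · exact Or.inl ⟨h1, h2, h3⟩
    · rintro (⟨h1, h2, _⟩ | ⟨h1, h2⟩)
      · exact ⟨h1, h2⟩
      · exact ⟨h2, (disjoint_left.1 hY) h1⟩
  rw [h1, card_union_of_disjoint]
  rw [disjoint_left]
  intro x hx hx'
  rw [mem_sdiff, mem_union] at hx
  rw [mem_inter] at hx'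
  exact hx.2 (Or.inr hx'.1)

/-- adding the new tile -/
private theorem tl_step [Fintype V] {G : SimpleGraph V} {q m : ℕ} {U Y : Finset V}
    (hY : Disjoint Y U) (hYc : Y.card = q) (hYi : Ind G Y)
    (h : Tl G q m (univ \ (U ∪ Y))) : Tl G q (m + 1) (univ \ U) := by
  have h1 := tl_union h (tl_one hYc hYi) (by
    rw [disjoint_left]
    intro x hx hx'
    rw [mem_sdiff, mem_union] at hx
    exact hx.2 (Or.inr hx'))
  convert h1 using 1
  ext x
  simp only [mem_sdiff, mem_univ, true_and, mem_union, not_or]
  constructor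
  · intro h2
    by_cases h3 : x ∈ Y
    · exact Or.inr h3
    · exact Or.inl ⟨h2, h3⟩
  · rintro (⟨h2, _⟩ | h2)
    · exact h2
    · exact (disjoint_left.1 hY) h2

theorem rem [Fintype V] {G : SimpleGraph V} {q t s d N : ℕ} {w : ℝ} {A AT : Fin t → Finset V}
    {B BT : Finset V} (hC : Cls G q t s d N w A AT B BT) (hs : 1 ≤ s) (κ : ℝ) (hκ0 : 0 < κ)
    (hκ1 : κ ≤ cd q)
    (hFB : ∀ (B' : Finset V) (M : ℕ), B' ⊆ BT → B'.card = s * M →
      ((BT \ B').card : ℝ) ≤ κ * Fintype.card V → Tl G s M B')
    (hK : ∀ X : Finset V, (X.card : ℝ) ≤ κ * Fintype.card V →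
      ∃ K : Finset V, K ⊆ BT \ X ∧ K.card = s + 1 ∧ Ind G K) (p : ℕ) :
    ∀ (U : Finset V) (m : ℕ) (Mt : Fin t → Finset (Finset V)),
      (univ \ U).card = q * m → Res G A U Mt → (∀ i, (A i \ U).card ≤ m + (Mt i).card) →
      ((B \ BT) \ U).card + ∑ i, ((A i \ U).card - m) + ((B \ U).card - s * m) ≤ p →
      (U.card : ℝ) + q * p + 2 * ∑ i, ((Mt i).card : ℝ) ≤ κ * Fintype.card V →
      Tl G q m (univ \ U) := by
  have hq2 := hC.q2
  have hts := hC.ts
  induction p with
  | zero =>
    intro U m Mt h1 hR hM hp hb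
    have hs1 := sum_sdiff hC U
    have hBT0 : ((B \ BT) \ U).card = 0 := by omega
    have hpos : ∑ i, ((A i \ U).card - m) = 0 := by omega
    have hBm : (B \ U).card ≤ s * m := by omega
    have hle : ∀ i, (A i \ U).card ≤ m := by
      intro i
      have := (sum_eq_zero_iff.1 hpos) i (mem_univ i)
      omega
    have hqm : q * m = t * m + s * m := by rw [← hts]; ring
    have hsle : ∑ i, (A i \ U).card ≤ t * m := by
      calc ∑ i, (A i \ U).card ≤ ∑ i : Fin t, m := sum_le_sum fun i _ => hle i
        _ = t * m := by simp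
    have heq : ∀ i, (A i \ U).card = m := by
      have h2 : ∑ i, (A i \ U).card = ∑ i : Fin t, m := by
        rw [sum_const, card_univ, Fintype.card_fin, smul_eq_mul]
        omega
      intro i
      exact (sum_eq_sum_iff_of_le (fun i _ => hle i)).1 h2 i (mem_univ i)
    have hBc : (B \ U).card = s * m := by omega
    have hBsub : B \ U ⊆ BT := by
      intro x hx
      by_contra hxT
      have hx2 := mem_sdiff.1 hx
      have : x ∈ (B \ BT) \ U := mem_sdiff.2 ⟨mem_sdiff.2 ⟨hx2.1, hxT⟩, hx2.2⟩
      rw [card_eq_zero.1 hBT0] at this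
      exact notMem_empty _ this
    have h3 : (0 : ℝ) ≤ ∑ i, ((Mt i).card : ℝ) := sum_nonneg fun i _ => Nat.cast_nonneg _
    have hUc : (U.card : ℝ) ≤ κ * Fintype.card V := by
      push_cast at hb
      linarith
    have hBTl := hFB (B \ U) m hBsub hBc (by
      refine le_trans ?_ hUc
      have : (BT \ (B \ U)).card ≤ U.card := by
        apply card_le_card
        intro x hx
        rw [mem_sdiff, mem_sdiff] at hx
        by_contra hxU
        exact hx.2 ⟨hC.subB hx.1, hxU⟩
      exact_mod_cast this)
    exact rem_end hC U m h1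
      (hUc.trans (mul_le_mul_of_nonneg_right hκ1 (Nat.cast_nonneg _))) hBTl hBsub heq
  | succ p ih =>
    intro U m Mt h1 hR hM hp hb
    have hs1 := sum_sdiff hC U
    have h30 : (0 : ℝ) ≤ ∑ i, ((Mt i).card : ℝ) := sum_nonneg fun i _ => Nat.cast_nonneg _
    have hXκ : ((U ∪ rv Mt).card : ℝ) ≤ κ * Fintype.card V := by
      have h4 : (U ∪ rv Mt).card ≤ U.card + 2 * ∑ i, (Mt i).card :=
        (card_union_le _ _).trans (Nat.add_le_add_left (card_rv hR) _)
      have h5 : ((U ∪ rv Mt).card : ℝ) ≤ U.card + 2 * ∑ i, ((Mt i).card : ℝ) := by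
        exact_mod_cast h4
      have h6 : (0 : ℝ) ≤ q * ((p + 1 : ℕ) : ℝ) := by positivity
      linarith
    have hX : ((U ∪ rv Mt).card : ℝ) ≤ cd q * Fintype.card V :=
      hXκ.trans (mul_le_mul_of_nonneg_right hκ1 (Nat.cast_nonneg _))
    by_cases hend : ((B \ BT) \ U).card + ∑ i, ((A i \ U).card - m) + ((B \ U).card - s * m) ≤ p
    · refine ih U m Mt h1 hR hM hend ?_
      have : (0 : ℝ) ≤ q := Nat.cast_nonneg _
      push_cast at hb ⊢
      nlinarith
    -- a common ending of the cases
    have step : ∀ (Y : Finset V) (m' : ℕ) (Mt' : Fin t → Finset (Finset V)), m = m' + 1 →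
        Disjoint Y U → Y.card = q → Ind G Y → (∀ i, Mt' i ⊆ Mt i) →
        (∀ i, ∀ e ∈ Mt' i, Disjoint e Y) →
        (∀ i, (A i \ (U ∪ Y)).card ≤ m' + (Mt' i).card) →
        ((B \ BT) \ (U ∪ Y)).card + ∑ i, ((A i \ (U ∪ Y)).card - m') +
          ((B \ (U ∪ Y)).card - s * m') ≤ p →
        Tl G q m (univ \ U) := by
      intro Y m' Mt' hm hYU hYc hYi hs1 hs2 hs3 hs4
      subst hm
      refine tl_step hYU hYc hYi (ih (U ∪ Y) m' Mt' ?_ (res_step hR hs1 hs2) hs3 hs4 ?_)
      · have h5 := card_sdiff_step (S := univ) hYU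
        rw [inter_univ, hYc, h1] at h5
        have h6 : q * (m' + 1) = q * m' + q := by ring
        omega
      · have h5 : ((U ∪ Y).card : ℝ) = U.card + q := by
          rw [card_union_of_disjoint hYU.symm, hYc]
          push_cast
          ring
        have h6 : ∑ i, ((Mt' i).card : ℝ) ≤ ∑ i, ((Mt i).card : ℝ) :=
          sum_le_sum fun i _ => by exact_mod_cast card_le_card (hs1 i)
        rw [h5]
        push_cast at hb
        nlinarith
    have hBsubU : ((B \ BT) \ U).card ≤ (B \ U).card :=
      card_le_card (sdiff_subset_sdiff sdiff_subset Subset.rfl)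
    have hm0 : m ≠ 0 := by
      intro hm
      subst hm
      rw [Nat.mul_zero] at h1
      have h7 : ∀ i, (A i \ U).card = 0 := by
        intro i
        have : (A i \ U).card ≤ ∑ i, (A i \ U).card :=
          single_le_sum (f := fun i => (A i \ U).card) (fun _ _ => Nat.zero_le _) (mem_univ i)
        omega
      apply hend
      rw [sum_eq_zero fun i _ => by rw [h7 i, Nat.zero_sub]]
      omega
    obtain ⟨m', rfl⟩ : ∃ m', m = m' + 1 := ⟨m - 1, by omega⟩
    have hsm : s * (m' + 1) = s * m' + s := by ring
    have hqm : q * (m' + 1) = t * (m' + 1) + s * (m' + 1) := by rw [← hts]; ring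
    have hmain : ∀ (Y : Finset V), Disjoint Y U →
        (∀ i, (A i \ (U ∪ Y)).card + (Y ∩ A i).card = (A i \ U).card) ∧
        ((B \ (U ∪ Y)).card + (Y ∩ B).card = (B \ U).card) ∧
        (((B \ BT) \ (U ∪ Y)).card + (Y ∩ (B \ BT)).card = ((B \ BT) \ U).card) :=
      fun Y hYU => ⟨fun i => card_sdiff_step hYU, card_sdiff_step hYU, card_sdiff_step hYU⟩
    by_cases hBU : ((B \ BT) \ U).card = 0
    · by_cases hj : ∃ j, m' + 1 < (A j \ U).card
      · -- an edge of the class A j
        obtain ⟨j, hj⟩ := hj
        have hMj : 0 < (Mt j).card := by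
          have := hM j
          omega
        obtain ⟨e, he⟩ := card_pos.1 hMj
        obtain ⟨he1, he2, he3⟩ := hR.1 j e he
        -- common part
        have common : ∀ (I : Finset (Fin t)) (h : ℕ) (Y : Finset V), j ∉ I →
            e ⊆ Y → Disjoint (Y \ e) (U ∪ rv Mt) → Y.card = 2 + h + I.card → 2 + h + I.card = q →
            (Y ∩ B).card = h → Y ∩ A j = e → (∀ i ∈ I, (Y ∩ A i).card = 1) →
            (∀ i, i ∉ I → i ≠ j → Disjoint Y (A i)) → Ind G Y →
            (∀ i, i ∉ I → i ≠ j → (A i \ U).card ≤ m') →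
            ((B \ U).card - h - s * m' ≤ (B \ U).card - s * (m' + 1)) →
            Tl G q (m' + 1) (univ \ U) := by
          intro I h Y hjI hY1 hY2 hY3 hY3' hY4 hY6 hY7 hY8 hY9 hl hB
          have hYU : Disjoint Y U := by
            rw [disjoint_left]
            intro x hx hxU
            by_cases hxe : x ∈ e
            · exact (mem_sdiff.1 (he1 hxe)).2 hxU
            · exact (disjoint_left.1 hY2) (mem_sdiff.2 ⟨hx, hxe⟩) (mem_union_left _ hxU)
          have hYj : (Y ∩ A j).card = 2 := by rw [hY6, he2]
          obtain ⟨hcs, hcB, hcB2⟩ := hmain Y hYU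
          have hYl : ∀ i, i ∉ I → i ≠ j → (Y ∩ A i).card = 0 := by
            intro i hi hij
            rw [card_eq_zero, ← disjoint_iff_inter_eq_empty]
            exact hY8 i hi hij
          refine step Y m' (fun i => if i = j then (Mt j).erase e else Mt i) rfl hYU (hY3.trans hY3')
            hY9 ?_ ?_ ?_ ?_
          · intro i
            split_ifs with h
            · subst h
              exact erase_subset _ _
            · exact Subset.rfl
          · intro i e' he'
            have hmem : e' ∈ Mt i ∧ Disjoint e' e := by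
              split_ifs at he' with h
              · subst h
                rw [mem_erase] at he'
                exact ⟨he'.2, hR.2 i e' he'.2 e he he'.1⟩
              · refine ⟨he', ?_⟩
                exact (hC.disjA i j h).mono ((hR.1 i e' he').1.trans sdiff_subset)
                  (he1.trans sdiff_subset)
            rw [disjoint_left]
            intro x hx hxY
            by_cases hxe : x ∈ e
            · exact (disjoint_left.1 hmem.2) hx hxe
            · exact (disjoint_left.1 hY2) (mem_sdiff.2 ⟨hxY, hxe⟩)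
                (mem_union_right _ (mem_rv.2 ⟨i, e', hmem.1, hx⟩))
          · intro i
            have h9 := hcs i
            have h10 := hM i
            split_ifs with h
            · subst h
              rw [card_erase_of_mem he]
              omega
            · by_cases hiI : i ∈ I
              · have := hY7 i hiI
                omega
              · have := hl i hiI h
                omega
          · have h11 : ∑ i, ((A i \ (U ∪ Y)).card - m') < ∑ i, ((A i \ U).card - (m' + 1)) := by
              refine sum_lt_sum (fun i _ => ?_) ⟨j, mem_univ j, ?_⟩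
              · have h9 := hcs i
                by_cases hij : i = j
                · subst hij
                  omega
                · by_cases hiI : i ∈ I
                  · have := hY7 i hiI
                    omega
                  · have := hl i hiI hij
                    omega
              · have h9 := hcs j
                omega
            omega
        have hbd : ∀ v ∈ BT, dg G v BT + 1 ≤ d + 1 := fun v _ =>
          Nat.add_le_add_right ((dg_mono (subset_univ _)).trans (hC.deg v)) 1
        by_cases hl : ∃ l, (A l \ U).card < m' + 1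
        · obtain ⟨l, hl⟩ := hl
          have hjl : j ≠ l := by
            rintro rfl
            omega
          have hIc : ((univ.erase j).erase l : Finset (Fin t)).card = t - 1 - 1 := by
            rw [card_erase_of_mem (mem_erase.2 ⟨hjl.symm, mem_univ l⟩),
              card_erase_of_mem (mem_univ j), card_univ, Fintype.card_fin]
          have ht2 : 2 ≤ t := by
            have h5 := j.isLt
            have h6 := l.isLt
            have h7 : j.val ≠ l.val := fun h => hjl (Fin.ext h)
            omega
          obtain ⟨Y, hY1, hY2, hY3, hY4, hY5, hY6, hY7, hY8, hY9⟩ := tileE hC j e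
            (he1.trans sdiff_subset) he2 he3 ((univ.erase j).erase l)
            (by simp) s BT Subset.rfl (d + 1) hbd
            (Or.inr (hDc_aux hC s hs le_rfl)) (by omega) (U ∪ rv Mt) hX
          refine common ((univ.erase j).erase l) s Y (by simp) hY1 hY2 hY3 (by rw [hIc]; omega)
            hY4 hY6 hY7 hY8 hY9 ?_ ?_
          · intro i hi hij
            have : i = l := by
              by_contra hil
              exact hi (mem_erase.2 ⟨hil, mem_erase.2 ⟨hij, mem_univ i⟩⟩)
            subst this
            omega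
          · omega
        · push Not at hl
          have h8 : ∑ i : Fin t, (m' + 1) < ∑ i, (A i \ U).card :=
            sum_lt_sum (fun i _ => hl i) ⟨j, mem_univ j, hj⟩
          rw [sum_const, card_univ, Fintype.card_fin, smul_eq_mul] at h8
          have hBlt : (B \ U).card < s * (m' + 1) := by omega
          have hIc : (univ.erase j : Finset (Fin t)).card = t - 1 := by
            rw [card_erase_of_mem (mem_univ j), card_univ, Fintype.card_fin]
          have ht1 : 1 ≤ t := by
            have h5 := j.isLt
            omega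
          obtain ⟨Y, hY1, hY2, hY3, hY4, hY5, hY6, hY7, hY8, hY9⟩ := tileE hC j e
            (he1.trans sdiff_subset) he2 he3 (univ.erase j)
            (by simp) (s - 1) BT Subset.rfl (d + 1) hbd
            (by
              rcases Nat.lt_or_ge s 2 with h | h
              · left; omega
              · right
                exact hDc_aux hC (s - 1) (by omega) (by omega))
            (by omega) (U ∪ rv Mt) hX
          refine common (univ.erase j) (s - 1) Y (by simp) hY1 hY2 hY3 (by rw [hIc]; omega)
            hY4 hY6 hY7 hY8 hY9 ?_ ?_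
          · intro i hi hij
            exact (hi (mem_erase.2 ⟨hij, mem_univ i⟩)).elim
          · omega
      · -- a clique of size s + 1 in BT
        push Not at hj
        have hpos0 : ∑ i, ((A i \ U).card - (m' + 1)) = 0 :=
          sum_eq_zero fun i _ => by have := hj i; omega
        have hBgt : s * (m' + 1) < (B \ U).card := by omega
        have hl : ∃ l, (A l \ U).card < m' + 1 := by
          by_contra hno
          push Not at hno
          have h8 : ∑ i : Fin t, (m' + 1) ≤ ∑ i, (A i \ U).card :=
            sum_le_sum (fun i _ => hno i)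
          rw [sum_const, card_univ, Fintype.card_fin, smul_eq_mul] at h8
          omega
        obtain ⟨l, hl⟩ := hl
        obtain ⟨K, hK1, hK2, hK3⟩ := hK (U ∪ rv Mt) hXκ
        obtain ⟨v, hvK⟩ : K.Nonempty := card_pos.1 (by omega)
        have hvB : v ∈ B := hC.subB (mem_sdiff.1 (hK1 hvK)).1
        obtain ⟨Y, hY1, hY2, hY3, hY4, hY5, hY6, hY7⟩ := tileK hC (univ.erase l) K (U ∪ rv Mt)
          hK3 (by omega) v hvB (fun x hx => Or.inr (mem_sdiff.1 (hK1 hx)).1) hX
        have ht1 : 1 ≤ t := by
          have h5 := l.isLt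
          omega
        have hYX : Disjoint Y (U ∪ rv Mt) := by
          rw [disjoint_left]
          intro x hx hxU
          by_cases hxK : x ∈ K
          · exact (mem_sdiff.1 (hK1 hxK)).2 hxU
          · exact (disjoint_left.1 hY2) (mem_sdiff.2 ⟨hx, hxK⟩) hxU
        have hYU : Disjoint Y U := hYX.mono_right subset_union_left
        have hYc : Y.card = q := by
          rw [hY3, hK2, card_erase_of_mem (mem_univ l), card_univ, Fintype.card_fin]
          omega
        have hYA : ∀ i, i ≠ l → (Y ∩ A i).card = 1 := fun i hil =>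
          hY5 i (mem_erase.2 ⟨hil, mem_univ i⟩)
        obtain ⟨hcs, hcB, hcB2⟩ := hmain Y hYU
        rw [hY4, hK2] at hcB
        refine step Y m' Mt rfl hYU hYc hY7 (fun i => Subset.rfl) ?_ ?_ ?_
        · intro i e' he'
          rw [disjoint_left]
          intro x hx hxY
          exact (disjoint_left.1 hYX) hxY (mem_union_right _ (mem_rv.2 ⟨i, e', he', hx⟩))
        · intro i
          have h9 := hcs i
          have h10 := hM i
          by_cases hil : i = l
          · subst hil
            omega
          · have := hYA i hil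
            omega
        · have h11 : ∑ i, ((A i \ (U ∪ Y)).card - m') ≤ ∑ i, ((A i \ U).card - (m' + 1)) := by
            refine sum_le_sum (fun i _ => ?_)
            have h9 := hcs i
            by_cases hil : i = l
            · subst hil
              omega
            · have := hYA i hil
              omega
          omega
    · -- an atypical vertex
      obtain ⟨v, hv⟩ := card_pos.1 (Nat.pos_of_ne_zero hBU)
      have hvB' : v ∈ B \ BT := (mem_sdiff.1 hv).1
      have hvB : v ∈ B := (mem_sdiff.1 hvB').1
      have hvU : v ∉ U := (mem_sdiff.1 hv).2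
      obtain ⟨Y, hY1, hY2, hY3, hY4, hY5, hY6, hY7⟩ := tileV hC hs v hvB (U ∪ rv Mt) hX
      have hYU : Disjoint Y U := by
        rw [disjoint_left]
        intro x hx hxU
        by_cases hxv : x = v
        · subst hxv
          exact hvU hxU
        · exact (disjoint_left.1 hY2) (mem_erase.2 ⟨hxv, hx⟩) (mem_union_left _ hxU)
      obtain ⟨hcs, hcB, hcB2⟩ := hmain Y hYU
      have hv1 : 0 < (Y ∩ (B \ BT)).card := card_pos.2 ⟨v, mem_inter.2 ⟨hY1, hvB'⟩⟩
      refine step Y m' Mt rfl hYU hY3 hY7 (fun i => Subset.rfl) ?_ ?_ ?_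
      · intro i e' he'
        rw [disjoint_left]
        intro x hx hxY
        by_cases hxv : x = v
        · subst hxv
          exact (disjoint_left.1 (hC.disjB i)) (mem_sdiff.1 ((hR.1 i e' he').1 hx)).1 hvB
        · exact (disjoint_left.1 hY2) (mem_erase.2 ⟨hxv, hxY⟩)
            (mem_union_right _ (mem_rv.2 ⟨i, e', he', hx⟩))
      · intro i
        have h9 := hcs i
        have h10 := hM i
        have := hY6 i
        omega
      · have h11 : ∑ i, ((A i \ (U ∪ Y)).card - m') ≤ ∑ i, ((A i \ U).card - (m' + 1)) := by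
          refine sum_le_sum (fun i _ => ?_)
          have h9 := hcs i
          have := hY6 i
          omega
        omega

end Pool.Agent.Helper64.BX
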