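import Pool.Agent.Helper64.BX.Basic
import Pool.Agent.Helper64.BEC.Final

/-! BEC exact P3 (MP_436ed3_co), piece Split.  Paper: /team-store/BECX_P3_paper.md, (B5).
`Pool.Agent.Helper64.BEC.exact_exists` (prescribed class sizes: degrees ≤ r, sizes ≤ c, (r+1) c ≤ |X|+1, here r = q-1, c = e). (a) sizes e (t times) and 1. (b) among colourings as in (a) with
class sizes ≥ e instead of = e take one with the maximal number of coloured vertices. (c) equitable: with c₀ = |W| mod q add a clique K_{q-c₀} (on W ⊕ Fin (q-c₀)), all classes of size |W|/q + 1
(or |W|/q if c₀ = 0); if e ≤ |W|/q done; otherwise e = |W|/q + 1 and q e = |W| + 1, and `exact_exists` with sizes e (i ≠ i0), e - 1 (i0) applies directly.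
-/

set_option autoImplicit false

namespace Pool.Agent.Helper64.BX

open Finset Classical

variable {V : Type}

theorem rsA {W : Type} [Fintype W] (R : SimpleGraph W) (q t e : ℕ) (ht : t + 1 ≤ q)
    (hdeg : ∀ a, dg R a univ + 1 ≤ q) (he : q * e ≤ Fintype.card W + 1) :
    ∃ col : W → Option (Fin t), (∀ a b, R.Adj a b → col a = col b → col a = none) ∧
      ∀ i, (univ.filter fun a => col a = some i).card = e := by
  by_cases h0 : e = 0
  · subst h0
    refine ⟨fun _ => none, fun a b _ _ => rfl, fun i => ?_⟩
    simp
  have h1 : (t + 1) * e ≤ q * e := Nat.mul_le_mul_right e ht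
  have h2 : (t + 1) * e = t * e + e := by ring
  have hte : t * e ≤ Fintype.card W := by omega
  have hJsum : ∑ i ∈ (univ : Finset (Fin t)).disjSum (range (Fintype.card W - t * e)),
      (Sum.elim (fun _ => e) (fun _ => 1) i : ℕ) = (univ : Finset W).card := by
    rw [sum_disjSum]
    simp only [Sum.elim_inl, Sum.elim_inr, sum_const, card_univ, Fintype.card_fin, card_range,
      smul_eq_mul, mul_one]
    omega
  obtain ⟨f, hf⟩ := BEC.exact_exists (ι := Fin t ⊕ ℕ) (Sum.elim (fun _ => e) (fun _ => 1)) e
    (univ : Finset W).card R univ (univ.disjSum (range (Fintype.card W - t * e))) (q - 1) rfl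
    (by
      intro v _
      have h3 := hdeg v
      have h4 : (BEC.nbs R univ v).card = dg R v univ := by
        unfold BEC.nbs dg
        rfl
      omega) hJsum
    (by
      intro i _
      rcases i with i | i
      · simp
      · simp only [Sum.elim_inr]
        omega)
    (by
      rw [card_univ]
      have h5 : q - 1 + 1 = q := by omega
      rw [h5]
      exact he)
  refine ⟨fun a => Sum.elim some (fun _ => none) (f a), ?_, ?_⟩
  · intro a b hab hc
    rcases hfa : f a with i | n
    · exfalso
      simp only [hfa, Sum.elim_inl] at hc
      rcases hfb : f b with j | m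
      · simp only [hfb, Sum.elim_inl, Option.some.injEq] at hc
        exact hf.proper a (mem_univ a) b (mem_univ b) hab (by rw [hfa, hfb, hc])
      · simp [hfb] at hc
    · simp only [hfa, Sum.elim_inr]
  · intro i
    have h6 := hf.card (Sum.inl i) (by simp)
    simp only [Sum.elim_inl] at h6
    rw [← h6]
    congr 1
    ext a
    rw [BEC.mem_cl]
    simp only [mem_filter, mem_univ, true_and]
    rcases hfa : f a with j | n
    · simp
    · simp

theorem rsB {W : Type} [Fintype W] (R : SimpleGraph W) (q t e : ℕ) (ht : t + 1 ≤ q)
    (hdeg : ∀ a, dg R a univ + 1 ≤ q) (he : q * e ≤ Fintype.card W + 1) :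
    ∃ col : W → Option (Fin t), (∀ a b, R.Adj a b → col a = col b → col a = none) ∧
      (∀ i, e ≤ (univ.filter fun a => col a = some i).card) ∧
      ∀ a, col a = none → dg R a (univ.filter fun b => col b = none) + t + 1 ≤ q := by
  obtain ⟨col0, h01, h02⟩ := rsA R q t e ht hdeg he
  have hne : ((univ : Finset (W → Option (Fin t))).filter fun col =>
      (∀ a b, R.Adj a b → col a = col b → col a = none) ∧
      (∀ i, e ≤ (univ.filter fun a => col a = some i).card)).Nonempty := by
    refine ⟨col0, ?_⟩
    rw [mem_filter]
    exact ⟨mem_univ _, h01, fun i => (h02 i).ge⟩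
  have hex : ∃ col ∈ ((univ : Finset (W → Option (Fin t))).filter fun col =>
      (∀ a b, R.Adj a b → col a = col b → col a = none) ∧
      (∀ i, e ≤ (univ.filter fun a => col a = some i).card)),
      ∀ col' ∈ ((univ : Finset (W → Option (Fin t))).filter fun col =>
      (∀ a b, R.Adj a b → col a = col b → col a = none) ∧
      (∀ i, e ≤ (univ.filter fun a => col a = some i).card)),
      (univ.filter fun a => col' a ≠ none).card ≤ (univ.filter fun a => col a ≠ none).card :=
    exists_max_image _ (fun col : W → Option (Fin t) => (univ.filter fun a => col a ≠ none).card)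
      hne
  obtain ⟨col, hcol, hmax⟩ := hex
  rw [mem_filter] at hcol
  obtain ⟨-, hc1, hc2⟩ := hcol
  refine ⟨col, hc1, hc2, ?_⟩
  intro a ha
  have key : ∀ i : Fin t, ∃ b, R.Adj a b ∧ col b = some i := by
    intro i
    by_contra hno
    push Not at hno
    have hmem : Function.update col a (some i) ∈
        ((univ : Finset (W → Option (Fin t))).filter fun col =>
          (∀ a b, R.Adj a b → col a = col b → col a = none) ∧
          (∀ i, e ≤ (univ.filter fun a => col a = some i).card)) := by
      rw [mem_filter]
      refine ⟨mem_univ _, ?_, ?_⟩
      · intro x y hxy hxy2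
        by_cases hx : x = a
        · subst hx
          have hyx : y ≠ x := fun h => R.irrefl (h ▸ hxy)
          rw [Function.update_self, Function.update_of_ne hyx] at hxy2
          exact absurd hxy2.symm (hno y hxy)
        · by_cases hy : y = a
          · subst hy
            rw [Function.update_self, Function.update_of_ne hx] at hxy2
            exact absurd hxy2 (hno x hxy.symm)
          · rw [Function.update_of_ne hx, Function.update_of_ne hy] at hxy2
            rw [Function.update_of_ne hx]
            exact hc1 x y hxy hxy2
      · intro j
        refine (hc2 j).trans (card_le_card ?_)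
        intro x hx
        rw [mem_filter] at hx ⊢
        refine ⟨mem_univ _, ?_⟩
        have hxa : x ≠ a := by
          rintro rfl
          rw [ha] at hx
          exact absurd hx.2 (by simp)
        rw [Function.update_of_ne hxa]
        exact hx.2
    have h1 := hmax _ hmem
    have h2 : (univ.filter fun x => col x ≠ none).card + 1 ≤
        (univ.filter fun x => Function.update col a (some i) x ≠ none).card := by
      have h3 : a ∉ univ.filter fun x => col x ≠ none := by simp [ha]
      rw [← card_insert_of_notMem h3]
      refine card_le_card ?_
      intro x hx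
      rw [mem_insert] at hx
      rw [mem_filter]
      refine ⟨mem_univ _, ?_⟩
      by_cases hxa : x = a
      · subst hxa
        rw [Function.update_self]
        simp
      · rw [Function.update_of_ne hxa]
        exact (mem_filter.mp (hx.resolve_left hxa)).2
    omega
  choose b hb1 hb2 using key
  have hbinj : Function.Injective b := by
    intro i j hij
    have h1 := hb2 i
    rw [hij, hb2 j] at h1
    exact (Option.some.inj h1).symm
  have h1 : dg R a (univ.filter fun b => col b = none) + t ≤ dg R a univ := by
    have h2 : (univ.image b).card = t := by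
      rw [card_image_of_injective _ hbinj, card_univ, Fintype.card_fin]
    have h3 : Disjoint ((univ.filter fun b => col b = none).filter fun u => R.Adj a u)
        (univ.image b) := by
      rw [disjoint_left]
      intro x hx1 hx2
      rw [mem_image] at hx2
      obtain ⟨i, -, rfl⟩ := hx2
      rw [mem_filter, mem_filter] at hx1
      rw [hb2 i] at hx1
      exact absurd hx1.1.2 (by simp)
    have h4 : (((univ.filter fun b => col b = none).filter fun u => R.Adj a u) ∪
        (univ.image b)).card ≤ (univ.filter fun u => R.Adj a u).card := by
      refine card_le_card ?_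
      intro x hx
      rw [mem_filter]
      refine ⟨mem_univ _, ?_⟩
      rw [mem_union] at hx
      rcases hx with hx | hx
      · exact (mem_filter.mp hx).2
      · rw [mem_image] at hx
        obtain ⟨i, -, rfl⟩ := hx
        exact hb1 i
    rw [card_union_of_disjoint h3, h2] at h4
    unfold dg
    exact h4
  have h3 := hdeg a
  omega

/-- disjoint union with a complete graph -/
def addClq {W : Type} (R : SimpleGraph W) (m : ℕ) : SimpleGraph (W ⊕ Fin m) where
  Adj x y := match x, y with
    | Sum.inl a, Sum.inl b => R.Adj a b
    | Sum.inr i, Sum.inr j => i ≠ j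
    | _, _ => False
  symm := ⟨by
    intro x y h
    rcases x with a | i <;> rcases y with b | j
    · exact SimpleGraph.Adj.symm (G := R) h
    · exact h
    · exact h
    · exact Ne.symm h⟩
  loopless := ⟨by
    intro x h
    rcases x with a | i
    · exact R.irrefl h
    · exact h rfl⟩

theorem rsC {W : Type} [Fintype W] (R : SimpleGraph W) (q e : ℕ) (hq : 1 ≤ q)
    (hdeg : ∀ a, dg R a univ + 1 ≤ q) (he : q * e ≤ Fintype.card W + 1) :
    (∃ col : W → Fin q, (∀ a b, R.Adj a b → col a ≠ col b) ∧
      ∀ i, e ≤ (univ.filter fun a => col a = i).card) ∨
    (q * e = Fintype.card W + 1 ∧ ∀ i0 : Fin q, ∃ col : W → Fin q,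
      (∀ a b, R.Adj a b → col a ≠ col b) ∧
      (∀ i, i ≠ i0 → e ≤ (univ.filter fun a => col a = i).card) ∧
      e ≤ (univ.filter fun a => col a = i0).card + 1) := by
  by_cases hcase : q * e = Fintype.card W + 1
  · right
    refine ⟨hcase, fun i0 => ?_⟩
    have he1 : 1 ≤ e := by
      rcases Nat.eq_zero_or_pos e with h | h
      · subst h
        simp at hcase
      · exact h
    have : Nonempty (Fin q) := ⟨i0⟩
    have hsum : ∑ i : Fin q, (if i = i0 then e - 1 else e) = (univ : Finset W).card := by
      have h1 : ∑ i : Fin q, ((if i = i0 then e - 1 else e) + (if i = i0 then 1 else 0)) =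
          ∑ _i : Fin q, e := by
        refine sum_congr rfl fun i _ => ?_
        by_cases h : i = i0
        · simp only [h, if_true]
          omega
        · simp [h]
      rw [sum_add_distrib, sum_ite_eq' univ i0, if_pos (mem_univ i0), sum_const, card_univ,
        Fintype.card_fin, smul_eq_mul] at h1
      rw [card_univ]
      omega
    obtain ⟨f, hf⟩ := BEC.exact_exists (ι := Fin q) (fun i => if i = i0 then e - 1 else e) e
      (univ : Finset W).card R univ univ (q - 1) rfl
      (by
        intro v _
        have h3 := hdeg v
        have h4 : (BEC.nbs R univ v).card = dg R v univ := rfl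
        omega) hsum
      (by
        intro i _
        by_cases h : i = i0
        · simp [h]
        · simp [h])
      (by
        rw [card_univ]
        have h5 : q - 1 + 1 = q := by omega
        rw [h5]
        exact he)
    refine ⟨f, fun a b hab => hf.proper a (mem_univ a) b (mem_univ b) hab, ?_, ?_⟩
    · intro i hi
      have h6 := hf.card i (mem_univ i)
      rw [if_neg hi] at h6
      have h7 : (BEC.cl univ f i).card = (univ.filter fun a => f a = i).card := by
        congr 1
        ext x
        simp [BEC.mem_cl]
      omega
    · have h6 := hf.card i0 (mem_univ i0)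
      rw [if_pos rfl] at h6
      have h7 : (BEC.cl univ f i0).card = (univ.filter fun a => f a = i0).card := by
        congr 1
        ext x
        simp [BEC.mem_cl]
      omega
  · left
    set k := Fintype.card W / q with hk
    set c0 := Fintype.card W % q with hc0
    have hw : q * k + c0 = Fintype.card W := Nat.div_add_mod _ _
    have hc0q : c0 < q := Nat.mod_lt _ hq
    have hek : e ≤ k := by
      rw [hk, Nat.le_div_iff_mul_le hq, mul_comm]
      omega
    have : Nonempty (Fin q) := ⟨⟨0, hq⟩⟩
    have hcardX : (univ : Finset (W ⊕ Fin (q - c0))).card = q * (k + 1) := by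
      rw [card_univ, Fintype.card_sum, Fintype.card_fin, mul_add, mul_one]
      omega
    obtain ⟨f, hf⟩ := BEC.exact_exists (ι := Fin q) (fun _ => k + 1) (k + 1)
      (univ : Finset (W ⊕ Fin (q - c0))).card (addClq R (q - c0)) univ univ (q - 1) rfl
      (by
        intro v _
        rcases v with a | i
        · have h1 : BEC.nbs (addClq R (q - c0)) univ (Sum.inl a) ⊆
              (univ.filter fun u => R.Adj a u).image Sum.inl := by
            intro x hx
            rw [BEC.mem_nbs] at hx
            rw [mem_image]
            rcases x with b | j
            · exact ⟨b, by rw [mem_filter]; exact ⟨mem_univ _, hx.2⟩, rfl⟩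
            · exact absurd hx.2 (fun h => h)
          have h2 := card_le_card h1
          rw [card_image_of_injective _ Sum.inl_injective] at h2
          have h3 := hdeg a
          unfold dg at h3
          omega
        · have h1 : BEC.nbs (addClq R (q - c0)) univ (Sum.inr i) ⊆
              (univ.erase i).image Sum.inr := by
            intro x hx
            rw [BEC.mem_nbs] at hx
            rw [mem_image]
            rcases x with b | j
            · exact absurd hx.2 (fun h => h)
            · refine ⟨j, ?_, rfl⟩
              rw [mem_erase]
              exact ⟨fun h => hx.2 h.symm, mem_univ _⟩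
          have h2 := card_le_card h1
          rw [card_image_of_injective _ Sum.inr_injective, card_erase_of_mem (mem_univ i),
            card_univ, Fintype.card_fin] at h2
          omega)
      (by
        rw [hcardX]
        simp)
      (by
        intro i _
        exact le_rfl)
      (by
        rw [hcardX]
        have h5 : q - 1 + 1 = q := by omega
        rw [h5]
        omega)
    refine ⟨fun a => f (Sum.inl a), fun a b hab => hf.proper (Sum.inl a) (mem_univ _)
      (Sum.inl b) (mem_univ _) hab, ?_⟩
    intro i
    have h6 := hf.card i (mem_univ i)
    have h7 : BEC.cl univ f i ⊆ (univ.filter fun a => f (Sum.inl a) = i).image Sum.inl ∪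
        (univ.filter fun j : Fin (q - c0) => f (Sum.inr j) = i).image Sum.inr := by
      intro x hx
      rw [BEC.mem_cl] at hx
      rw [mem_union, mem_image, mem_image]
      rcases x with a | j
      · left
        exact ⟨a, by rw [mem_filter]; exact ⟨mem_univ _, hx.2⟩, rfl⟩
      · right
        exact ⟨j, by rw [mem_filter]; exact ⟨mem_univ _, hx.2⟩, rfl⟩
    have h8 : (univ.filter fun j : Fin (q - c0) => f (Sum.inr j) = i).card ≤ 1 := by
      rw [card_le_one]
      intro j hj j' hj'
      rw [mem_filter] at hj hj'
      by_contra hne
      exact hf.proper (Sum.inr j) (mem_univ _) (Sum.inr j') (mem_univ _) hne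
        (hj.2.trans hj'.2.symm)
    have h9 := (card_le_card h7).trans (card_union_le _ _)
    rw [card_image_of_injective _ Sum.inl_injective, card_image_of_injective _ Sum.inr_injective,
      h6] at h9
    change e ≤ (univ.filter fun a => f (Sum.inl a) = i).card
    omega

end Pool.Agent.Helper64.BX
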