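import Pool.Agent.Helper64.BX.Basic
import Pool.Agent.Helper64.BX.St.Rem
import Pool.Agent.Helper64.BX.St.Split
import Pool.Agent.Helper64.BX.St.Emb
import Pool.Agent.Helper64.BX.St.Mat

/-! BEC exact P3 (MP_436ed3_co), piece Stage.  Paper: /team-store/BECX_P3_paper.md, stage, s ≥ 1.
e = d + 1 - m (natural subtraction; d + 1 ≤ m + e, q e ≤ |W| + 1). `rsB` (t + 1 ≤ q), x_i = |A i| - |V_i| - m, `mat` for the positive ones (2 x_i ≤ |A i| since x_i ≤ w n + |W|), `embR` avoiding
⋃ Mt, U = image of f, `rem`. Budget: r + q (w n + (q+1)(w n + r)) + 2 q (w n + r) ≤ κ n from the hypotheses 6 q² w ≤ κ, 6 q² r ≤ κ n.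
-/

set_option autoImplicit false

namespace Pool.Agent.Helper64.BX

open Finset Classical

variable {V : Type}

theorem stage [Fintype V] {G : SimpleGraph V} {q t s d N : ℕ} {w : ℝ} {A AT : Fin t → Finset V}
    {B BT : Finset V} (hC : Cls G q t s d N w A AT B BT) (hs : 1 ≤ s) (κ : ℝ) (hκ0 : 0 < κ)
    (hκ1 : κ ≤ cd q) (hw : 6 * (q : ℝ) ^ 2 * w ≤ κ)
    (hFB : ∀ (B' : Finset V) (M : ℕ), B' ⊆ BT → B'.card = s * M →
      ((BT \ B').card : ℝ) ≤ κ * Fintype.card V → Tl G s M B')
    (hK : ∀ X : Finset V, (X.card : ℝ) ≤ κ * Fintype.card V →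
      ∃ K : Finset V, K ⊆ BT \ X ∧ K.card = s + 1 ∧ Ind G K)
    {W : Type} [Fintype W] (R : SimpleGraph W) (m : ℕ) (hdeg : ∀ a, dg R a univ + 1 ≤ q)
    (hm : Fintype.card V = q * m + Fintype.card W) (hqd : q * (d + 1) ≤ Fintype.card V + 1)
    (hr : 6 * (q : ℝ) ^ 2 * Fintype.card W ≤ κ * Fintype.card V) : Pack3 G q m R := by
  have hts := hC.ts
  have hq2' := hC.q2
  have he : q * (d + 1 - m) ≤ Fintype.card W + 1 := by
    rcases Nat.le_total (d + 1) m with h | h
    · rw [Nat.sub_eq_zero_of_le h, mul_zero]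
      omega
    · rw [Nat.mul_sub]
      omega
  obtain ⟨col, hcol, hcol2, hcol3⟩ := rsB R q t (d + 1 - m) (by omega) hdeg he
  have hq2 : (2 : ℝ) ≤ q := by exact_mod_cast hC.q2
  set n : ℝ := (Fintype.card V : ℝ) with hn
  set r : ℝ := (Fintype.card W : ℝ) with hrr
  have hn0 : 0 ≤ n := Nat.cast_nonneg _
  have hr0 : 0 ≤ r := Nat.cast_nonneg _
  have hw0 := hC.w0
  have hwn : 0 ≤ w * n := mul_nonneg hw0 hn0
  have hcd : cd q = 1 / (3200 * (q : ℝ) ^ 3) := by
    unfold cd cc
    field_simp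
    norm_num
  have hcd0 : 0 < cd q := by rw [hcd]; positivity
  have hq0 : (0 : ℝ) < q := by linarith
  have hκn : κ * n ≤ cd q * n := mul_le_mul_of_nonneg_right hκ1 hn0
  -- the two budgets
  have hb1 : 6 * (q : ℝ) ^ 2 * (w * n) ≤ κ * n := by
    calc 6 * (q : ℝ) ^ 2 * (w * n) = 6 * (q : ℝ) ^ 2 * w * n := by ring
      _ ≤ κ * n := mul_le_mul_of_nonneg_right hw hn0
  have hqN : (q : ℝ) * N ≤ q * m + r := by
    have h1 : q * N ≤ q * m + Fintype.card W := by
      rw [hC.hN, ← hm]
      exact Nat.mul_div_le _ _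
    rw [hrr]
    exact_mod_cast h1
  have hNm : (N : ℝ) ≤ m + r / q := by
    have h1 : (q : ℝ) * N ≤ q * (m + r / q) := by
      rw [mul_add, mul_div_cancel₀ _ hq0.ne']
      exact hqN
    exact le_of_mul_le_mul_left h1 hq0
  have hrq0 : 0 ≤ r / q := div_nonneg hr0 hq0.le
  have hrq1 : r / q ≤ r := div_le_self hr0 (by linarith)
  have hNn : n ≤ q * N + q := by
    have h1 : Fintype.card V < q * (N + 1) := by
      rw [hC.hN]
      have := Nat.lt_mul_div_succ (Fintype.card V) (show 0 < q by omega)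
      exact this
    have h2 : (Fintype.card V : ℝ) < q * (N + 1) := by exact_mod_cast h1
    rw [hn]
    linarith
  -- the excess
  let c : Fin t → ℕ := fun i => (univ.filter fun a => col a = some i).card
  let x : Fin t → ℕ := fun i => (A i).card - c i - m
  have hx : ∀ i, (x i : ℝ) ≤ r / q + w * n := by
    intro i
    rcases Nat.lt_or_ge (c i + m) (A i).card with h | h
    · have h1 : x i + c i + m = (A i).card := by
        change (A i).card - c i - m + c i + m = (A i).card
        omega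
      have h2 : (x i : ℝ) + c i + m = (A i).card := by exact_mod_cast h1
      have h3 := hC.cardA2 i
      have h4 : (0 : ℝ) ≤ c i := Nat.cast_nonneg _
      linarith
    · have h1 : x i = 0 := by
        change (A i).card - c i - m = 0
        omega
      rw [h1]
      push_cast
      linarith
  have hsmall : 3 * (w * n) + 2 * r ≤ N := by
    have h1 : (q : ℝ) ≤ cd q * n := hC.big
    have h4 : (4 : ℝ) ≤ (q : ℝ) ^ 2 := by nlinarith
    have h2 : 24 * (w * n) ≤ cd q * n := by nlinarith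
    have h3 : 24 * r ≤ cd q * n := by nlinarith
    have h5 : (q : ℝ) * (3 * (w * n) + 2 * r) ≤ q * N := by
      have h6 : (q : ℝ) * (cd q * n) + cd q * n ≤ n := by
        rw [hcd]
        have h7 : (q : ℝ) * (1 / (3200 * (q : ℝ) ^ 3) * n) + 1 / (3200 * (q : ℝ) ^ 3) * n =
            ((q + 1) / (3200 * (q : ℝ) ^ 3)) * n := by ring
        rw [h7]
        have h8 : ((q : ℝ) + 1) / (3200 * (q : ℝ) ^ 3) ≤ 1 := by
          rw [div_le_one (by positivity)]
          nlinarith [mul_nonneg (sub_nonneg.2 hq2) (sub_nonneg.2 h4)]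
        nlinarith
      have h9 : 3 * (w * n) + 2 * r ≤ cd q * n := by linarith
      nlinarith
    exact le_of_mul_le_mul_left h5 hq0
  -- the matchings
  have hMt : ∀ i, ∃ Mt : Finset (Finset V), Mt.card = x i ∧
      (∀ e ∈ Mt, e ⊆ A i ∧ e.card = 2 ∧ Ind G e) ∧
      ∀ e ∈ Mt, ∀ e' ∈ Mt, e ≠ e' → Disjoint e e' := by
    intro i
    rcases Nat.lt_or_ge (c i + m) (A i).card with h | h
    · apply mat
      · intro v hv
        have h1 : d + 1 ≤ c i + m := by
          have h' := hcol2 i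
          change d + 1 - m ≤ c i at h'
          omega
        have h2 : dg G v (A i) ≤ d := (dg_mono (subset_univ _)).trans (hC.deg v)
        change (A i).card - c i - m + dg G v (A i) + 1 ≤ (A i).card
        omega
      · have h1 := hx i
        have h2 := hC.cardA1 i
        have h3 : (2 : ℝ) * x i ≤ (A i).card := by linarith
        exact_mod_cast h3
    · refine ⟨∅, ?_, by simp, by simp⟩
      change (∅ : Finset (Finset V)).card = (A i).card - c i - m
      rw [card_empty]
      omega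
  choose Mt hMc hMe hMd using hMt
  have htq : (t : ℝ) ≤ q := by
    have : t ≤ q := by omega
    exact_mod_cast this
  have hxs : ∑ i, (x i : ℝ) ≤ r + q * (w * n) := by
    calc ∑ i, (x i : ℝ) ≤ ∑ _i : Fin t, (r / q + w * n) := sum_le_sum fun i _ => hx i
      _ = t * (r / q + w * n) := by rw [sum_const, card_univ, Fintype.card_fin, nsmul_eq_mul]
      _ ≤ q * (r / q + w * n) := mul_le_mul_of_nonneg_right htq (by linarith)
      _ = r + q * (w * n) := by rw [mul_add, mul_div_cancel₀ _ hq0.ne']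
  set X : Finset V := univ.biUnion fun i => (Mt i).biUnion id with hX
  have hXc : (X.card : ℝ) ≤ 2 * (r + q * (w * n)) := by
    have h1 : X.card ≤ ∑ i, 2 * x i := by
      rw [hX]
      refine card_biUnion_le.trans (sum_le_sum fun i _ => ?_)
      refine card_biUnion_le.trans ?_
      have h2 : ∑ e ∈ Mt i, (id e : Finset V).card = ∑ _e ∈ Mt i, 2 :=
        sum_congr rfl fun e he => (hMe i e he).2.1
      rw [h2, sum_const, smul_eq_mul, hMc i, mul_comm]
    calc (X.card : ℝ) ≤ ((∑ i, 2 * x i : ℕ) : ℝ) := by exact_mod_cast h1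
      _ = 2 * ∑ i, (x i : ℝ) := by push_cast; rw [mul_sum]
      _ ≤ 2 * (r + q * (w * n)) := by linarith
  have hqq : 2 * (q : ℝ) ≤ (q : ℝ) ^ 2 := by nlinarith
  have hqr : 2 * (q * r) ≤ (q : ℝ) ^ 2 * r := by
    calc 2 * (q * r) = 2 * (q : ℝ) * r := by ring
      _ ≤ (q : ℝ) ^ 2 * r := mul_le_mul_of_nonneg_right hqq hr0
  have hqw : 2 * (q * (w * n)) ≤ (q : ℝ) ^ 2 * (w * n) := by
    calc 2 * (q * (w * n)) = 2 * (q : ℝ) * (w * n) := by ring
      _ ≤ (q : ℝ) ^ 2 * (w * n) := mul_le_mul_of_nonneg_right hqq hwn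
  have hqr2 : 2 * r ≤ q * r := mul_le_mul_of_nonneg_right hq2 hr0
  have hqw2 : 2 * (w * n) ≤ q * (w * n) := mul_le_mul_of_nonneg_right hq2 hwn
  obtain ⟨f, hfi, hfX, hfA, hfB, hfR⟩ := embR hC R col hcol hdeg
    (fun a ha => by
      have := hcol3 a ha
      omega) X (by
      change (X.card : ℝ) + r ≤ cd q * n
      linarith)
  refine ⟨f, hfi, hfR, ?_⟩
  set U : Finset V := univ.image f with hU
  have hUc : U.card = Fintype.card W := by
    rw [hU, card_image_of_injective _ hfi, card_univ]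
  have hAU : ∀ i, (A i \ U).card ≤ m + x i := by
    intro i
    have h1 : (univ.filter fun a => col a = some i).image f ⊆ A i ∩ U := by
      intro v hv
      rw [mem_image] at hv
      obtain ⟨a, ha, rfl⟩ := hv
      rw [mem_inter]
      refine ⟨hC.subA i (hfA a i (mem_filter.1 ha).2), ?_⟩
      rw [hU]
      exact mem_image_of_mem f (mem_univ a)
    have h2 := card_le_card h1
    rw [card_image_of_injective _ hfi] at h2
    have h3 := card_sdiff_add_card_inter (A i) U
    change c i ≤ _ at h2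
    change (A i \ U).card ≤ m + ((A i).card - c i - m)
    omega
  refine rem hC hs κ hκ0 hκ1 hFB hK
    (((B \ BT) \ U).card + ∑ i, ((A i \ U).card - m) + ((B \ U).card - s * m)) U m Mt ?_ ?_ ?_
    le_rfl ?_
  · rw [card_sdiff_of_subset (subset_univ _), card_univ, hUc]
    omega
  · refine ⟨fun i e he => ⟨?_, (hMe i e he).2⟩, hMd⟩
    intro v hv
    rw [mem_sdiff]
    refine ⟨(hMe i e he).1 hv, fun hvU => ?_⟩
    rw [hU, mem_image] at hvU
    obtain ⟨a, -, rfl⟩ := hvU
    apply hfX a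
    rw [hX, mem_biUnion]
    refine ⟨i, mem_univ i, ?_⟩
    rw [mem_biUnion]
    exact ⟨e, he, hv⟩
  · intro i
    rw [hMc i]
    exact hAU i
  · have hBT : ((((B \ BT) \ U).card : ℕ) : ℝ) ≤ w * n := by
      have h1 := hC.smB
      have h2 : (((B \ BT) \ U).card : ℝ) ≤ (B \ BT).card := by
        exact_mod_cast card_le_card sdiff_subset
      exact h2.trans h1
    have hBc : ((((B \ U).card - s * m) : ℕ) : ℝ) ≤ r + w * n := by
      rcases Nat.le_total (B \ U).card (s * m) with h | h
      · rw [Nat.sub_eq_zero_of_le h]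
        push_cast
        linarith
      · rw [Nat.cast_sub h]
        have h1 := hC.cardB2
        have h2 : ((B \ U).card : ℝ) ≤ B.card := by exact_mod_cast card_le_card sdiff_subset
        have h3 : (s : ℝ) ≤ q := by
          have : s ≤ q := by omega
          exact_mod_cast this
        have h4 : (s : ℝ) * N ≤ s * (m + r / q) :=
          mul_le_mul_of_nonneg_left hNm (Nat.cast_nonneg _)
        have h5 : (s : ℝ) * (r / q) ≤ q * (r / q) := mul_le_mul_of_nonneg_right h3 hrq0
        rw [mul_div_cancel₀ _ hq0.ne'] at h5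
        push_cast
        linarith
    have hAc : ((∑ i, ((A i \ U).card - m) : ℕ) : ℝ) ≤ r + q * (w * n) := by
      calc ((∑ i, ((A i \ U).card - m) : ℕ) : ℝ) ≤ ((∑ i, x i : ℕ) : ℝ) := by
            exact_mod_cast sum_le_sum fun i _ => by have := hAU i; omega
        _ = ∑ i, (x i : ℝ) := by push_cast; rfl
        _ ≤ r + q * (w * n) := hxs
    have hMs : ∑ i, ((Mt i).card : ℝ) ≤ r + q * (w * n) := by
      calc ∑ i, ((Mt i).card : ℝ) = ∑ i, (x i : ℝ) := sum_congr rfl fun i _ => by rw [hMc i]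
        _ ≤ r + q * (w * n) := hxs
    rw [hUc]
    change r + q * ((((B \ BT) \ U).card + ∑ i, ((A i \ U).card - m) +
      ((B \ U).card - s * m) : ℕ) : ℝ) + 2 * ∑ i, ((Mt i).card : ℝ) ≤ κ * n
    rw [Nat.cast_add, Nat.cast_add]
    have h1 : (q : ℝ) * (((((B \ BT) \ U).card : ℕ) : ℝ) +
        ((∑ i, ((A i \ U).card - m) : ℕ) : ℝ) + ((((B \ U).card - s * m) : ℕ) : ℝ)) ≤
        q * (w * n + (r + q * (w * n)) + (r + w * n)) :=
      mul_le_mul_of_nonneg_left (add_le_add (add_le_add hBT hAc) hBc) hq0.le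
    have h2 : q * (w * n + (r + q * (w * n)) + (r + w * n)) =
        2 * (q * (w * n)) + 2 * (q * r) + (q : ℝ) ^ 2 * (w * n) := by ring
    linarith

end Pool.Agent.Helper64.BX
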