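import Pool.Agent.Helper64.BX.Basic
import Pool.Agent.Helper64.BX.St.Tile
import Pool.Agent.Helper64.BX.St.Stage2A

/-! BEC exact P3 (MP_436ed3_co), piece Cover2.  Paper: /team-store/BECX_P3_paper.md, (E) special tiles, mixed vertex.
`cover2`: induction on S: u ∈ S has ≥ |D1| + |D2| - d ≥ N - (2w+κ) n - 1 H-neighbours in D1 ∪ D2; take b among them outside U ∪ X and the previous tiles, then `tileK` with K = {u,b}, I = univ.
`mixed`: see the paper (D1f = D1 ∪ {u ∈ B \ (D1 ∪ D2) with an H-neighbour in D1}, D2f the rest of B; |D2f| ≤ d, so |D1f| ≥ d + 1).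
-/

set_option autoImplicit false

namespace Pool.Agent.Helper64.BX

open Finset Classical

variable {V : Type}

/-- a tile through a vertex `u` of `B` outside `D1 ∪ D2` -/
theorem cover_one [Fintype V] {G : SimpleGraph V} {q t d N : ℕ} {w : ℝ} {A AT : Fin t → Finset V}
    {B BT : Finset V} (hC : Cls G q t 2 d N w A AT B BT) (D1 D2 : Finset V) (hD1 : D1 ⊆ BT)
    (hD2 : D2 ⊆ BT) (hdis : Disjoint D1 D2) (κ : ℝ) (hκ1 : κ ≤ cd q)
    (hDD : ((BT \ (D1 ∪ D2)).card : ℝ) ≤ κ * Fintype.card V) (u : V) (hu : u ∈ B)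
    (huD : u ∉ D1 ∪ D2) (X : Finset V) (hX : (X.card : ℝ) ≤ cd q * Fintype.card V) :
    ∃ (b : V) (Y : Finset V), b ∈ D1 ∪ D2 ∧ b ∉ X ∧ u ∈ Y ∧ Disjoint (Y.erase u) X ∧
      Y.card = q ∧ Y ∩ B = {u, b} ∧ (∀ i, (Y ∩ A i).card = 1) ∧ Ind G Y ∧ u ≠ b := by
  have hq : (2 : ℝ) ≤ q := by exact_mod_cast hC.q2
  have hbase := cls_N hC
  have hBT := cls_BT hC
  have hn0 : (0 : ℝ) ≤ Fintype.card V := Nat.cast_nonneg _
  have hwx : w * Fintype.card V ≤ cd q * Fintype.card V := mul_le_mul_of_nonneg_right hC.w1 hn0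
  have hκx : κ * Fintype.card V ≤ cd q * Fintype.card V := mul_le_mul_of_nonneg_right hκ1 hn0
  have hx0 : 0 ≤ cd q * Fintype.card V := le_trans (Nat.cast_nonneg _) hX
  have hbig := hC.big
  have hdN : (d : ℝ) ≤ N := by exact_mod_cast hC.dN
  -- a partner
  have h1 : (((D1 ∪ D2).filter fun v => G.Adj u v) ∪ X).card < (D1 ∪ D2).card := by
    have h2 := card_union_le ((D1 ∪ D2).filter fun v => G.Adj u v) X
    have h3 : ((D1 ∪ D2).filter fun v => G.Adj u v).card ≤ d :=
      (dg_mono (subset_univ (D1 ∪ D2))).trans (hC.deg u)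
    have h4 : BT.card ≤ (BT \ (D1 ∪ D2)).card + (D1 ∪ D2).card := by
      have h5 : BT ⊆ (BT \ (D1 ∪ D2)) ∪ (D1 ∪ D2) := by
        intro x hx
        by_cases h : x ∈ D1 ∪ D2
        · exact mem_union_right _ h
        · exact mem_union_left _ (mem_sdiff.2 ⟨hx, h⟩)
      exact (card_le_card h5).trans (card_union_le _ _)
    have h4' : (BT.card : ℝ) ≤ (BT \ (D1 ∪ D2)).card + (D1 ∪ D2).card := by exact_mod_cast h4
    have h2' : ((((D1 ∪ D2).filter fun v => G.Adj u v) ∪ X).card : ℝ) ≤ d + X.card := by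
      exact_mod_cast h2.trans (by omega)
    have h6 : (8 : ℝ) * (cd q * Fintype.card V) ≤
        3000 * (q : ℝ) ^ 2 * (cd q * Fintype.card V) := by
      have : (8 : ℝ) ≤ 3000 * (q : ℝ) ^ 2 := by nlinarith
      exact mul_le_mul_of_nonneg_right this hx0
    push_cast at hBT
    have h7 : ((((D1 ∪ D2).filter fun v => G.Adj u v) ∪ X).card : ℝ) < (D1 ∪ D2).card := by
      linarith
    exact_mod_cast h7
  obtain ⟨b, hbD, hb⟩ := exists_mem_notMem_of_card_lt_card h1
  rw [mem_union, not_or, mem_filter, not_and] at hb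
  have hub : ¬ G.Adj u b := hb.1 hbD
  have hne : u ≠ b := fun h => huD (h ▸ hbD)
  have hbT : b ∈ BT := by
    rw [mem_union] at hbD
    rcases hbD with h | h
    · exact hD1 h
    · exact hD2 h
  have hKc : ({u, b} : Finset V).card = 2 := card_pair hne
  obtain ⟨Y, hY1, hY2, hY3, hY4, hY5, -, hY7⟩ := tileK hC univ {u, b} X
    (by
      intro p hp r hr
      rw [mem_insert, mem_singleton] at hp hr
      rcases hp with rfl | rfl <;> rcases hr with rfl | rfl
      · exact G.irrefl
      · exact hub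
      · exact fun h => hub h.symm
      · exact G.irrefl)
    (by rw [hKc]; have := hC.q2; omega) u hu
    (by
      intro p hp
      rw [mem_insert, mem_singleton] at hp
      rcases hp with rfl | rfl
      · exact Or.inl rfl
      · exact Or.inr hbT) hX
  refine ⟨b, Y, hbD, hb.2, hY1 (mem_insert_self _ _), ?_, ?_, hY4, fun i => hY5 i (mem_univ _),
    hY7, hne⟩
  · rw [disjoint_left]
    intro x hx hxX
    rw [mem_erase] at hx
    by_cases hxb : x = b
    · exact hb.2 (hxb ▸ hxX)
    · refine disjoint_left.1 hY2 (mem_sdiff.2 ⟨hx.2, ?_⟩) hxX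
      rw [mem_insert, mem_singleton, not_or]
      exact ⟨hx.1, hxb⟩
  · rw [hY3, hKc, card_univ, Fintype.card_fin]
    have := hC.ts
    omega

theorem cover2 [Fintype V] {G : SimpleGraph V} {q t d N : ℕ} {w : ℝ} {A AT : Fin t → Finset V}
    {B BT : Finset V} (hC : Cls G q t 2 d N w A AT B BT) (D1 D2 : Finset V) (hD1 : D1 ⊆ BT)
    (hD2 : D2 ⊆ BT) (hD1n : D1.Nonempty) (hD2n : D2.Nonempty) (hdis : Disjoint D1 D2)
    (hcross : ∀ x ∈ D1, ∀ y ∈ D2, G.Adj x y) (κ : ℝ) (hκ0 : 0 < κ) (hκ1 : κ ≤ cd q)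
    (hDD : ((BT \ (D1 ∪ D2)).card : ℝ) ≤ κ * Fintype.card V) (S : Finset V) (hS : S ⊆ B)
    (hSD : Disjoint S (D1 ∪ D2)) (X : Finset V) (hSX : Disjoint S X)
    (hX : (X.card : ℝ) + q * S.card ≤ cd q * Fintype.card V) :
    ∃ Y : Finset V, S ⊆ Y ∧ Disjoint Y X ∧ Tl G q S.card Y ∧
      (∀ i, (Y ∩ A i).card = S.card) ∧ (Y ∩ B).card = 2 * S.card ∧ Y ∩ B ⊆ S ∪ (D1 ∪ D2) := by
  induction S using Finset.induction_on generalizing X with
  | empty =>
    exact ⟨∅, empty_subset _, disjoint_empty_left _, by simpa using tl_zero q, by simp, by simp,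
      by simp⟩
  | insert u S huS ih =>
    have hq2 := hC.q2
    have hq : (2 : ℝ) ≤ q := by exact_mod_cast hq2
    rw [disjoint_insert_left] at hSD hSX
    rw [card_insert_of_notMem huS] at hX ⊢
    push_cast at hX
    have huB : u ∈ B := hS (mem_insert_self _ _)
    obtain ⟨Y', h1, h2, h3, h4, h5, h6⟩ := ih ((subset_insert _ _).trans hS) hSD.2 (insert u X)
      (by rw [disjoint_insert_right]; exact ⟨huS, hSX.2⟩)
      (by
        have : ((insert u X).card : ℝ) ≤ X.card + 1 := by exact_mod_cast card_insert_le u X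
        linarith)
    rw [disjoint_insert_right] at h2
    have hY'c : (Y'.card : ℝ) = q * S.card := by
      rw [tl_card h3]; push_cast; ring
    obtain ⟨b, Yu, g1, g2, g3, g4, g5, g6, g7, g8, g9⟩ := cover_one hC D1 D2 hD1 hD2 hdis κ hκ1
      hDD u huB hSD.1 (X ∪ Y') (by
        have : ((X ∪ Y').card : ℝ) ≤ X.card + Y'.card := by exact_mod_cast card_union_le _ _
        rw [hY'c] at this
        linarith)
    have hd1 : Disjoint Yu (X ∪ Y') := by
      rw [disjoint_left]
      intro x hx hx'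
      by_cases hxu : x = u
      · rw [mem_union] at hx'
        rcases hx' with h | h
        · exact hSX.1 (hxu ▸ h)
        · exact h2.1 (hxu ▸ h)
      · exact disjoint_left.1 g4 (mem_erase.2 ⟨hxu, hx⟩) hx'
    have hdY : Disjoint Yu Y' := hd1.mono_right subset_union_right
    refine ⟨Yu ∪ Y', ?_, ?_, ?_, ?_, ?_, ?_⟩
    · intro x hx
      rw [mem_insert] at hx
      rcases hx with rfl | hx
      · exact mem_union_left _ g3
      · exact mem_union_right _ (h1 hx)
    · rw [disjoint_union_left]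
      exact ⟨hd1.mono_right subset_union_left, h2.2⟩
    · have := tl_union (tl_one g5 g8) h3 hdY
      rwa [add_comm] at this
    · intro i
      rw [union_inter_distrib_right, card_union_of_disjoint, g7 i, h4 i]
      · ring
      · exact (hdY.mono_left inter_subset_left).mono_right inter_subset_left
    · rw [union_inter_distrib_right, card_union_of_disjoint, g6, h5, card_pair g9]
      · ring
      · exact (hdY.mono_left inter_subset_left).mono_right inter_subset_left
    · rw [union_inter_distrib_right, g6]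
      intro x hx
      rw [mem_union, mem_insert, mem_singleton] at hx
      rcases hx with (rfl | rfl) | hx
      · exact mem_union_left _ (mem_insert_self _ _)
      · exact mem_union_right _ g1
      · have := h6 hx
        rw [mem_union] at this
        rcases this with h | h
        · exact mem_union_left _ (mem_insert_of_mem h)
        · exact mem_union_right _ h

theorem mixed [Fintype V] {G : SimpleGraph V} {q t d N : ℕ} {w : ℝ} {A AT : Fin t → Finset V}
    {B BT : Finset V} (hC : Cls G q t 2 d N w A AT B BT) (D1 D2 : Finset V) (hD1 : D1 ⊆ BT)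
    (hD2 : D2 ⊆ BT) (hD1n : D1.Nonempty) (hD2n : D2.Nonempty) (hdis : Disjoint D1 D2)
    (hcross : ∀ x ∈ D1, ∀ y ∈ D2, G.Adj x y) (hB : 2 * d + 1 ≤ B.card) :
    ∃ u ∈ B \ (D1 ∪ D2), ∃ a1 ∈ D1, ∃ a2 ∈ D2, HA G u a1 ∧ HA G u a2 := by
  obtain ⟨x0, hx0⟩ := hD1n
  obtain ⟨y0, hy0⟩ := hD2n
  have hD1B : D1 ⊆ B := hD1.trans hC.subB
  have hD2B : D2 ⊆ B := hD2.trans hC.subB
  -- vertices of `B` with an H-neighbour in `D1`, or in `D1`
  set F : Finset V := B.filter fun u => u ∈ D1 ∨ (u ∉ D2 ∧ ∃ a ∈ D1, ¬ G.Adj u a) with hF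
  have hrest : B \ F ⊆ univ.filter fun u => G.Adj x0 u := by
    intro u hu
    rw [hF, mem_sdiff, mem_filter, not_and] at hu
    have h1 := hu.2 hu.1
    push Not at h1
    rw [mem_filter]
    refine ⟨mem_univ _, ?_⟩
    by_cases huD : u ∈ D2
    · exact hcross x0 hx0 u huD
    · exact (h1.2 huD x0 hx0).symm
  have hrc : (B \ F).card ≤ d := (card_le_card hrest).trans (hC.deg x0)
  have hFB : F ⊆ B := filter_subset _ _
  have hFc : d + 1 ≤ F.card := by
    have h1 := card_sdiff_add_card_eq_card hFB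
    omega
  -- an element of `F` which is not adjacent to `y0`
  have hlt : (univ.filter fun u => G.Adj y0 u).card < F.card := by
    have h1 : (univ.filter fun u => G.Adj y0 u).card ≤ d := hC.deg y0
    omega
  obtain ⟨u, huF, hu⟩ := exists_mem_notMem_of_card_lt_card hlt
  have huy : ¬ G.Adj u y0 := fun h => hu (mem_filter.2 ⟨mem_univ _, h.symm⟩)
  rw [hF, mem_filter] at huF
  obtain ⟨huB, huF⟩ := huF
  have huD1 : u ∉ D1 := fun h => huy (hcross u h y0 hy0)
  rcases huF with h | ⟨huD2, a1, ha1, hua1⟩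
  · exact absurd h huD1
  · refine ⟨u, ?_, a1, ha1, y0, hy0, ⟨?_, hua1⟩, ⟨?_, huy⟩⟩
    · rw [mem_sdiff, mem_union, not_or]
      exact ⟨huB, huD1, huD2⟩
    · rintro rfl; exact huD1 ha1
    · rintro rfl; exact huD2 hy0

end Pool.Agent.Helper64.BX
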