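import Pool.Agent.Helper64.BX.Basic
import Pool.Agent.Helper64.BX.St.Tile
import Pool.Agent.Helper64.BX.St.Fin1
import Pool.Agent.Helper64.BX.St.Mat

/-! BEC exact P3 (MP_436ed3_co), piece Rem2.  Paper: /team-store/BECX_P3_paper.md, (E) removal lemma, s = 2b.
D1, D2: |D_i| ≤ d (cross edges), so |D_i| ≥ N - (2w+κ) n and dg v D_i ≤ (2w+κ) n + 1 for v ∈ D_i. As `rem`, but the B-part (size 1, 2 or 3) of every tile is taken inside D1 or inside D2
(`pickB`, `tileE`, `tileK`). Parity: if after the step |B \ U| = 2 m, choose the side so that |D1 \ U| becomes even (a B-part of size 1 or 3 changes the parity of the side it is taken from; if the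
B-part has size 2, x_B did not change and |D1 \ U| was even already). End: |D1 \ U|, |D2 \ U| even: `pm_clique` and `fin1`.
-/

set_option autoImplicit false

namespace Pool.Agent.Helper64.BX

open Finset Classical

variable {V : Type}

/-- the vertices of the reserved pairs -/
private noncomputable def rv {t : ℕ} (Mt : Fin t → Finset (Finset V)) : Finset V :=
  univ.biUnion fun i => (Mt i).biUnion id

private theorem mem_rv {t : ℕ} {Mt : Fin t → Finset (Finset V)} {x : V} :
    x ∈ rv Mt ↔ ∃ i, ∃ e ∈ Mt i, x ∈ e := by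
  simp [rv]

private theorem card_rv {G : SimpleGraph V} {t : ℕ} {A : Fin t → Finset V} {U : Finset V}
    {Mt : Fin t → Finset (Finset V)} (h : Res G A U Mt) : (rv Mt).card ≤ 2 * ∑ i, (Mt i).card := by
  unfold rv
  refine card_biUnion_le.trans ?_
  rw [mul_sum]
  refine sum_le_sum fun i _ => ?_
  refine card_biUnion_le.trans ?_
  have h2 : ∑ e ∈ Mt i, (id e : Finset V).card = ∑ e ∈ Mt i, 2 :=
    sum_congr rfl (fun e he => (h.1 i e he).2.1)
  rw [h2, sum_const, smul_eq_mul, mul_comm]

private theorem sum_sdiff [Fintype V] {G : SimpleGraph V} {q t s d N : ℕ} {w : ℝ}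
    {A AT : Fin t → Finset V} {B BT : Finset V} (hC : Cls G q t s d N w A AT B BT)
    (U : Finset V) : (univ \ U).card = ∑ i, (A i \ U).card + (B \ U).card := by
  have h1 : univ \ U = (univ.biUnion fun i => A i \ U) ∪ (B \ U) := by
    ext x
    have hx := hC.cov
    have hx' : x ∈ univ.biUnion A ∪ B := by rw [hx]; exact mem_univ x
    simp only [mem_sdiff, mem_univ, true_and, mem_union, mem_biUnion] at hx' ⊢
    constructor
    · intro h
      rcases hx' with ⟨i, hi⟩ | hB
      · exact Or.inl ⟨i, hi, h⟩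
      · exact Or.inr ⟨hB, h⟩
    · rintro (⟨i, _, h⟩ | ⟨_, h⟩) <;> exact h
  rw [h1, card_union_of_disjoint, card_biUnion]
  · intro i _ j _ hij
    exact (hC.disjA i j hij).mono sdiff_subset sdiff_subset
  · rw [disjoint_biUnion_left]
    intro i _
    exact (hC.disjB i).mono sdiff_subset sdiff_subset

private theorem m_lower [Fintype V] {q m : ℕ} {U : Finset V} (hq : 2 ≤ q)
    (h1 : (univ \ U).card = q * m) (h2 : (U.card : ℝ) ≤ cd q * Fintype.card V) :
    (Fintype.card V : ℝ) ≤ 2 * q * m := by
  have h3 : (univ \ U).card + U.card = Fintype.card V := by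
    rw [card_sdiff_add_card, union_eq_left.2 (subset_univ U), card_univ]
  have h4 : (Fintype.card V : ℝ) = q * m + U.card := by
    rw [← h3, h1]; push_cast; ring
  have h5 : cd q ≤ 1 / 2 := by
    unfold cd cc
    have hq' : (2 : ℝ) ≤ q := by exact_mod_cast hq
    rw [div_div, div_le_div_iff₀ (by positivity) (by norm_num)]
    nlinarith [pow_pos (show (0 : ℝ) < q by linarith) 2, pow_pos (show (0 : ℝ) < q by linarith) 3]
  have h6 : (0 : ℝ) ≤ Fintype.card V := Nat.cast_nonneg _
  nlinarith


private theorem dnum [Fintype V] {G : SimpleGraph V} {q t d N : ℕ} {w : ℝ}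
    {A AT : Fin t → Finset V} {B BT : Finset V} (hC : Cls G q t 2 d N w A AT B BT)
    (D1 D2 : Finset V) (hD1 : D1 ⊆ BT)
    (hD2 : D2 ⊆ BT) (hD1n : D1.Nonempty) (hD2n : D2.Nonempty) (hdis : Disjoint D1 D2)
    (hcross : ∀ x ∈ D1, ∀ y ∈ D2, G.Adj x y) (κ : ℝ) (hκ1 : κ ≤ cd q)
    (hDD : ((BT \ (D1 ∪ D2)).card : ℝ) ≤ κ * Fintype.card V) :
    ((N : ℝ) ≤ D1.card + 3 * (cd q * Fintype.card V)) ∧
      ((N : ℝ) ≤ D2.card + 3 * (cd q * Fintype.card V)) ∧
      (∀ v ∈ D1, (dg G v D1 : ℝ) ≤ 3 * (cd q * Fintype.card V)) ∧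
      (∀ v ∈ D2, (dg G v D2 : ℝ) ≤ 3 * (cd q * Fintype.card V)) := by
  obtain ⟨hpos, hcc, hN, hw⟩ := tile_num hC
  have hκ : κ * (Fintype.card V : ℝ) ≤ cd q * Fintype.card V :=
    mul_le_mul_of_nonneg_right hκ1 (Nat.cast_nonneg _)
  have h12 : ∀ x ∈ D1, dg G x D2 = D2.card := by
    intro x hx
    unfold dg
    rw [filter_true_of_mem fun y hy => hcross x hx y hy]
  have h21 : ∀ y ∈ D2, dg G y D1 = D1.card := by
    intro y hy
    unfold dg
    rw [filter_true_of_mem fun x hx => (hcross x hx y hy).symm]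
  have hc1 : D2.card ≤ d := by
    obtain ⟨x, hx⟩ := hD1n
    rw [← h12 x hx]
    exact (dg_mono (subset_univ _)).trans (hC.deg x)
  have hc2 : D1.card ≤ d := by
    obtain ⟨y, hy⟩ := hD2n
    rw [← h21 y hy]
    exact (dg_mono (subset_univ _)).trans (hC.deg y)
  have hBT : (BT.card : ℝ) = (BT \ (D1 ∪ D2)).card + (D1.card + D2.card) := by
    have h1 := card_sdiff_add_card_eq_card (union_subset hD1 hD2)
    rw [card_union_of_disjoint hdis] at h1
    rw [← h1]
    push_cast
    ring
  have hBc : (B.card : ℝ) = (B \ BT).card + BT.card := by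
    have h1 := card_sdiff_add_card_eq_card hC.subB
    rw [← h1]
    push_cast
    ring
  have hs1 := hC.smB
  have hs2 := hC.cardB1
  have hdN : (d : ℝ) ≤ N := by exact_mod_cast hC.dN
  have hc1' : (D2.card : ℝ) ≤ d := by exact_mod_cast hc1
  have hc2' : (D1.card : ℝ) ≤ d := by exact_mod_cast hc2
  have hlow1 : (N : ℝ) ≤ D1.card + 3 * (cd q * Fintype.card V) := by
    push_cast at hs2
    linarith
  have hlow2 : (N : ℝ) ≤ D2.card + 3 * (cd q * Fintype.card V) := by
    push_cast at hs2
    linarith
  refine ⟨hlow1, hlow2, ?_, ?_⟩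
  · intro v hv
    have h1 : dg G v D1 + dg G v D2 ≤ d := by
      rw [← dg_union_disj v hdis]
      exact (dg_mono (subset_univ _)).trans (hC.deg v)
    rw [h12 v hv] at h1
    have h2 : (dg G v D1 : ℝ) + D2.card ≤ d := by exact_mod_cast h1
    linarith
  · intro v hv
    have h1 : dg G v D1 + dg G v D2 ≤ d := by
      rw [← dg_union_disj v hdis]
      exact (dg_mono (subset_univ _)).trans (hC.deg v)
    rw [h21 v hv] at h1
    have h2 : (D1.card : ℝ) + dg G v D2 ≤ d := by exact_mod_cast h1
    linarith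

/-- matching the rest of a nearly complete part -/
private theorem pm_part [Fintype V] {G : SimpleGraph V} {q t d N : ℕ} {w : ℝ}
    {A AT : Fin t → Finset V} {B BT : Finset V} (hC : Cls G q t 2 d N w A AT B BT)
    (D U : Finset V) (hlow : (N : ℝ) ≤ D.card + 3 * (cd q * Fintype.card V))
    (hdg : ∀ v ∈ D, (dg G v D : ℝ) ≤ 3 * (cd q * Fintype.card V))
    (hU : (U.card : ℝ) ≤ cd q * Fintype.card V) (r : ℕ) (hr : (D \ U).card = 2 * r) :
    Tl G 2 r (D \ U) := by
  obtain ⟨hpos, hcc, hN, hw⟩ := tile_num hC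
  have hq : (2 : ℝ) ≤ q := by exact_mod_cast hC.q2
  have hbig := hC.big
  refine pm_clique G (D \ U) r hr fun v hv => ?_
  have hvD := (mem_sdiff.1 hv).1
  have h1 := hdg v hvD
  have h2 : (dg G v (D \ U) : ℝ) ≤ dg G v D := by exact_mod_cast dg_mono sdiff_subset
  have h3 : (D.card : ℝ) ≤ (D \ U).card + U.card := by
    exact_mod_cast card_le_card_sdiff_add_card (s := D) (t := U)
  rw [hr] at h3 ⊢
  push_cast at h3
  have h4 : 3200 * 4 * (cd q * (Fintype.card V : ℝ)) ≤
      3200 * (q : ℝ) ^ 2 * (cd q * Fintype.card V) :=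
    mul_le_mul_of_nonneg_right (by nlinarith) hpos.le
  have h5 : (r : ℝ) + dg G v (D \ U) + 1 ≤ 2 * r := by linarith
  exact_mod_cast h5

/-- the final step: all classes have size `m` -/
private theorem rem2_end [Fintype V] {G : SimpleGraph V} {q t d N : ℕ} {w : ℝ}
    {A AT : Fin t → Finset V} {B BT : Finset V} (hC : Cls G q t 2 d N w A AT B BT)
    (D1 D2 : Finset V) (hD1 : D1 ⊆ BT) (hD2 : D2 ⊆ BT) (hdis : Disjoint D1 D2)
    (hl1 : (N : ℝ) ≤ D1.card + 3 * (cd q * Fintype.card V))
    (hl2 : (N : ℝ) ≤ D2.card + 3 * (cd q * Fintype.card V))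
    (hg1 : ∀ v ∈ D1, (dg G v D1 : ℝ) ≤ 3 * (cd q * Fintype.card V))
    (hg2 : ∀ v ∈ D2, (dg G v D2 : ℝ) ≤ 3 * (cd q * Fintype.card V))
    (U : Finset V) (m : ℕ) (h1 : (univ \ U).card = q * m)
    (h2 : (U.card : ℝ) ≤ cd q * Fintype.card V) (hBD : B \ U ⊆ D1 ∪ D2)
    (hB : (B \ U).card = 2 * m) (hev : Even ((D1 \ U).card))
    (hA : ∀ i, (A i \ U).card = m) : Tl G q m (univ \ U) := by
  obtain ⟨hpos, hcc, hN, hw⟩ := tile_num hC
  have hm := m_lower hC.q2 h1 h2
  have hBe : B \ U = (D1 \ U) ∪ (D2 \ U) := by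
    ext x
    simp only [mem_sdiff, mem_union]
    constructor
    · rintro ⟨hxB, hxU⟩
      have := hBD (mem_sdiff.2 ⟨hxB, hxU⟩)
      rw [mem_union] at this
      rcases this with h | h
      · exact Or.inl ⟨h, hxU⟩
      · exact Or.inr ⟨h, hxU⟩
    · rintro (⟨h, hxU⟩ | ⟨h, hxU⟩)
      · exact ⟨hC.subB (hD1 h), hxU⟩
      · exact ⟨hC.subB (hD2 h), hxU⟩
  have hdU : Disjoint (D1 \ U) (D2 \ U) := hdis.mono sdiff_subset sdiff_subset
  have hTl : Tl G 2 m (B \ U) := by
    obtain ⟨r1, hr1⟩ := hev
    have hr1' : (D1 \ U).card = 2 * r1 := by omega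
    have hsum : (D1 \ U).card + (D2 \ U).card = 2 * m := by
      rw [← card_union_of_disjoint hdU, ← hBe, hB]
    obtain ⟨r2, hr2⟩ : ∃ r2, (D2 \ U).card = 2 * r2 := ⟨m - r1, by omega⟩
    have ht1 := pm_part hC D1 U hl1 hg1 h2 r1 hr1'
    have ht2 := pm_part hC D2 U hl2 hg2 h2 r2 hr2
    have h3 := tl_union ht1 ht2 hdU
    rw [← hBe] at h3
    have hmm : r1 + r2 = m := by omega
    rwa [hmm] at h3
  have h3 : univ \ U = univ.biUnion (fun i => A i \ U) ∪ (B \ U) := by
    ext x
    have hx' : x ∈ univ.biUnion A ∪ B := by rw [hC.cov]; exact mem_univ x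
    simp only [mem_sdiff, mem_univ, true_and, mem_union, mem_biUnion] at hx' ⊢
    constructor
    · intro h
      rcases hx' with ⟨i, hi⟩ | hxB
      · exact Or.inl ⟨i, hi, h⟩
      · exact Or.inr ⟨hxB, h⟩
    · rintro (⟨i, _, h⟩ | ⟨_, h⟩) <;> exact h
  have hq' : (2 : ℝ) ≤ q := by exact_mod_cast hC.q2
  have hcc0 : 0 ≤ cc q := by unfold cc; positivity
  have hts : t + 2 = q := hC.ts
  have hm2 : 2 * (q : ℝ) * (2 * cc q * Fintype.card V) ≤ m := by
    have h9 : cc q * (q : ℝ) ^ 2 = 1 / 100 := by
      unfold cc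
      field_simp
    calc 2 * (q : ℝ) * (2 * cc q * Fintype.card V)
        ≤ 2 * (q : ℝ) * (2 * cc q * (2 * q * m)) := by gcongr
      _ = 8 * m * (cc q * (q : ℝ) ^ 2) := by ring
      _ = 8 * m * (1 / 100) := by rw [h9]
      _ ≤ m := by
        have : (0 : ℝ) ≤ m := Nat.cast_nonneg _
        linarith
  rw [h3, ← hts]
  refine fin1 G t 2 m (fun i => A i \ U) (B \ U)
    (fun i j hij => (hC.disjA i j hij).mono sdiff_subset sdiff_subset)
    (fun i => (hC.disjB i).mono sdiff_subset sdiff_subset) hA hTl ?_ ?_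
  · intro i v hv
    have hvA : v ∈ A i := (mem_sdiff.1 hv).1
    have h5 := hC.bnd i v hvA
    have h6 : dg G v ((univ.biUnion (fun i => A i \ U) ∪ (B \ U)) \ (A i \ U)) ≤
        dg G v (univ \ A i) := by
      refine dg_mono ?_
      intro x hx
      rw [← h3] at hx
      simp only [mem_sdiff, mem_univ, true_and, not_and, not_not] at hx ⊢
      intro hxi
      exact hx.1 (hx.2 hxi)
    have h7 : (dg G v ((univ.biUnion (fun i => A i \ U) ∪ (B \ U)) \ (A i \ U)) : ℝ) ≤
        2 * cc q * Fintype.card V := le_trans (by exact_mod_cast h6) h5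
    have h8 : 2 * (q : ℝ) *
        (dg G v ((univ.biUnion (fun i => A i \ U) ∪ (B \ U)) \ (A i \ U)) : ℝ) ≤ m := by
      refine le_trans ?_ hm2
      gcongr
    rw [hts]
    exact_mod_cast h8
  · intro v hv i
    have hvT : v ∈ BT := by
      have := hBD hv
      rw [mem_union] at this
      rcases this with h | h
      · exact hD1 h
      · exact hD2 h
    have h5 := hC.typB v hvT i
    have h6 : (dg G v (A i \ U) : ℝ) ≤ dg G v (A i) := by exact_mod_cast dg_mono sdiff_subset
    have h7 : cd q * (Fintype.card V : ℝ) ≤ 2 * cc q * Fintype.card V := by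
      have h9 : (0 : ℝ) ≤ (q - 2) * (cd q * Fintype.card V) :=
        mul_nonneg (by linarith) hpos.le
      have h10 : cc q * (Fintype.card V : ℝ) = 32 * (q * (cd q * Fintype.card V)) := by
        rw [hcc]; ring
      nlinarith
    have h8 : 2 * (q : ℝ) * (dg G v (A i \ U) : ℝ) ≤ m := by
      refine le_trans ?_ hm2
      have : (dg G v (A i \ U) : ℝ) ≤ 2 * cc q * Fintype.card V := by linarith
      gcongr
    rw [hts]
    exact_mod_cast h8

/-- one step does not destroy the reserved pairs -/
private theorem res_step {G : SimpleGraph V} {t : ℕ} {A : Fin t → Finset V} {U Y : Finset V}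
    {Mt Mt' : Fin t → Finset (Finset V)} (h : Res G A U Mt) (hs : ∀ i, Mt' i ⊆ Mt i)
    (hd : ∀ i, ∀ e ∈ Mt' i, Disjoint e Y) : Res G A (U ∪ Y) Mt' := by
  refine ⟨fun i e he => ?_, fun i e he e' he' hne => h.2 i e (hs i he) e' (hs i he') hne⟩
  obtain ⟨h1, h2, h3⟩ := h.1 i e (hs i he)
  refine ⟨fun x hx => ?_, h2, h3⟩
  have h4 := mem_sdiff.1 (h1 hx)
  rw [mem_sdiff, mem_union]
  refine ⟨h4.1, ?_⟩
  rintro (h5 | h5)
  · exact h4.2 h5
  · exact (disjoint_left.1 (hd i e he)) hx h5

private theorem card_sdiff_step {S U Y : Finset V} (hY : Disjoint Y U) :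
    (S \ (U ∪ Y)).card + (Y ∩ S).card = (S \ U).card := by
  have h1 : S \ U = (S \ (U ∪ Y)) ∪ (Y ∩ S) := by
    ext x
    simp only [mem_sdiff, mem_union, mem_inter, not_or]
    constructor
    · rintro ⟨h1, h2⟩
      by_cases h3 : x ∈ Y
      · exact Or.inr ⟨h3, h1⟩
      · exact Or.inl ⟨h1, h2, h3⟩
    · rintro (⟨h1, h2, _⟩ | ⟨h1, h2⟩)
      · exact ⟨h1, h2⟩
      · exact ⟨h2, (disjoint_left.1 hY) h1⟩
  rw [h1, card_union_of_disjoint]
  rw [disjoint_left]
  intro x hx hx'
  rw [mem_sdiff, mem_union] at hx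
  rw [mem_inter] at hx'
  exact hx.2 (Or.inr hx'.1)

/-- adding the new tile -/
private theorem tl_step [Fintype V] {G : SimpleGraph V} {q m : ℕ} {U Y : Finset V}
    (hY : Disjoint Y U) (hYc : Y.card = q) (hYi : Ind G Y)
    (h : Tl G q m (univ \ (U ∪ Y))) : Tl G q (m + 1) (univ \ U) := by
  have h1 := tl_union h (tl_one hYc hYi) (by
    rw [disjoint_left]
    intro x hx hx'
    rw [mem_sdiff, mem_union] at hx
    exact hx.2 (Or.inr hx'))
  convert h1 using 1
  ext x
  simp only [mem_sdiff, mem_univ, true_and, mem_union, not_or]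
  constructor
  · intro h2
    by_cases h3 : x ∈ Y
    · exact Or.inr h3
    · exact Or.inl ⟨h2, h3⟩
  · rintro (⟨h2, _⟩ | h2)
    · exact h2
    · exact (disjoint_left.1 hY) h2

theorem rem2 [Fintype V] {G : SimpleGraph V} {q t d N : ℕ} {w : ℝ} {A AT : Fin t → Finset V}
    {B BT : Finset V} (hC : Cls G q t 2 d N w A AT B BT) (D1 D2 : Finset V) (hD1 : D1 ⊆ BT)
    (hD2 : D2 ⊆ BT) (hD1n : D1.Nonempty) (hD2n : D2.Nonempty) (hdis : Disjoint D1 D2)
    (hcross : ∀ x ∈ D1, ∀ y ∈ D2, G.Adj x y) (κ : ℝ) (hκ0 : 0 < κ) (hκ1 : κ ≤ cd q)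
    (hDD : ((BT \ (D1 ∪ D2)).card : ℝ) ≤ κ * Fintype.card V) (p : ℕ) :
    ∀ (U : Finset V) (m : ℕ) (Mt : Fin t → Finset (Finset V)),
      (univ \ U).card = q * m → B \ U ⊆ D1 ∪ D2 → Res G A U Mt →
      (∀ i, (A i \ U).card ≤ m + (Mt i).card) →
      ((B \ U).card ≠ 2 * m ∨ Even ((D1 \ U).card)) →
      ∑ i, ((A i \ U).card - m) + ((B \ U).card - 2 * m) ≤ p →
      (U.card : ℝ) + q * p + 2 * ∑ i, ((Mt i).card : ℝ) ≤ cd q * Fintype.card V →
      Tl G q m (univ \ U) := by
  have hq2 := hC.q2
  have hts := hC.ts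
  obtain ⟨hpos, hcc, hN, hw⟩ := tile_num hC
  have hq : (2 : ℝ) ≤ q := by exact_mod_cast hC.q2
  have hbig := hC.big
  obtain ⟨hl1, hl2, hg1, hg2⟩ := dnum hC D1 D2 hD1 hD2 hD1n hD2n hdis hcross κ hκ1 hDD
  have hD1B : D1 ⊆ B := hD1.trans hC.subB
  have hD2B : D2 ⊆ B := hD2.trans hC.subB
  -- both parts in one statement
  have hD : ∀ k : Bool, ∃ D : Finset V, D = (if k then D1 else D2) ∧ D ⊆ BT ∧
      ((N : ℝ) ≤ D.card + 3 * (cd q * Fintype.card V)) ∧
      (∀ v ∈ D, (dg G v D : ℝ) ≤ 3 * (cd q * Fintype.card V)) := by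
    intro k
    cases k
    · exact ⟨D2, by simp, hD2, hl2, hg2⟩
    · exact ⟨D1, by simp, hD1, hl1, hg1⟩
  set b : ℕ := ⌊3 * (cd q * (Fintype.card V : ℝ))⌋₊ + 1 with hbdef
  have hb1 : (b : ℝ) ≤ 3 * (cd q * Fintype.card V) + 1 := by
    rw [hbdef]
    push_cast
    have := Nat.floor_le (show (0 : ℝ) ≤ 3 * (cd q * (Fintype.card V : ℝ)) by linarith)
    linarith
  have hb2 : ∀ D : Finset V, (∀ v ∈ D, (dg G v D : ℝ) ≤ 3 * (cd q * Fintype.card V)) →
      ∀ v ∈ D, dg G v D + 1 ≤ b := by
    intro D hDg v hv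
    rw [hbdef]
    exact Nat.add_le_add_right (Nat.le_floor (hDg v hv)) 1
  have h4q : 3200 * 2 * (q * (cd q * (Fintype.card V : ℝ))) ≤
      3200 * (q : ℝ) ^ 2 * (cd q * Fintype.card V) := by
    have : 3200 * 2 * (q * (cd q * (Fintype.card V : ℝ))) =
        3200 * 2 * q * (cd q * (Fintype.card V : ℝ)) := by ring
    rw [this]
    exact mul_le_mul_of_nonneg_right (by nlinarith) hpos.le
  have h2q : 2 * (cd q * (Fintype.card V : ℝ)) ≤ q * (cd q * Fintype.card V) :=
    mul_le_mul_of_nonneg_right hq hpos.le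
  have h4cc : 4 * cc q * (Fintype.card V : ℝ) = 128 * (q * (cd q * Fintype.card V)) := by
    linarith
  induction p with
  | zero =>
    intro U m Mt h1 hBD hR hM hpar hp hb
    have hs := sum_sdiff hC U
    have hBU : (B \ U).card ≤ 2 * m := by omega
    have hpos' : ∑ i, ((A i \ U).card - m) = 0 := by omega
    have hle : ∀ i, (A i \ U).card ≤ m := by
      intro i
      have := (sum_eq_zero_iff.1 hpos') i (mem_univ i)
      omega
    have hsle : ∑ i, (A i \ U).card ≤ t * m := by
      have := sum_le_sum (s := (univ : Finset (Fin t))) fun i _ => hle i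
      rw [sum_const, card_univ, Fintype.card_fin, smul_eq_mul] at this
      exact this
    have hqm : q * m = t * m + 2 * m := by rw [← hts]; ring
    have hBe : (B \ U).card = 2 * m := by omega
    have heq : ∀ i, (A i \ U).card = m := by
      have h2 : ∑ i, (A i \ U).card = ∑ i : Fin t, m := by
        rw [sum_const, card_univ, Fintype.card_fin, smul_eq_mul]
        omega
      intro i
      exact (sum_eq_sum_iff_of_le (fun i _ => hle i)).1 h2 i (mem_univ i)
    refine rem2_end hC D1 D2 hD1 hD2 hdis hl1 hl2 hg1 hg2 U m h1 ?_ hBD hBe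
      (hpar.resolve_left (fun h => h hBe)) heq
    have h3 : (0 : ℝ) ≤ ∑ i, ((Mt i).card : ℝ) := sum_nonneg fun i _ => Nat.cast_nonneg _
    push_cast at hb
    linarith
  | succ p ih =>
    intro U m Mt h1 hBD hR hM hpar hp hb
    have hs := sum_sdiff hC U
    have h30 : (0 : ℝ) ≤ ∑ i, ((Mt i).card : ℝ) := sum_nonneg fun i _ => Nat.cast_nonneg _
    have hX : ((U ∪ rv Mt).card : ℝ) ≤ cd q * Fintype.card V := by
      have h4 : (U ∪ rv Mt).card ≤ U.card + 2 * ∑ i, (Mt i).card :=
        (card_union_le _ _).trans (Nat.add_le_add_left (card_rv hR) _)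
      have h5 : ((U ∪ rv Mt).card : ℝ) ≤ U.card + 2 * ∑ i, ((Mt i).card : ℝ) := by
        exact_mod_cast h4
      have h6 : (0 : ℝ) ≤ q * ((p + 1 : ℕ) : ℝ) := by positivity
      linarith
    have hqm : q * m = t * m + 2 * m := by rw [← hts]; ring
    by_cases hend : ∑ i, ((A i \ U).card - m) + ((B \ U).card - 2 * m) ≤ p
    · refine ih U m Mt h1 hBD hR hM hpar hend ?_
      have : (0 : ℝ) ≤ q := Nat.cast_nonneg _
      push_cast at hb ⊢
      nlinarith
    -- a common ending of the three cases
    have step : ∀ (Y : Finset V) (m' : ℕ) (Mt' : Fin t → Finset (Finset V)), m = m' + 1 →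
        Disjoint Y U → Y.card = q → Ind G Y → (∀ i, Mt' i ⊆ Mt i) →
        (∀ i, ∀ e ∈ Mt' i, Disjoint e Y) →
        (∀ i, (A i \ (U ∪ Y)).card ≤ m' + (Mt' i).card) →
        ((B \ (U ∪ Y)).card ≠ 2 * m' ∨ Even ((D1 \ (U ∪ Y)).card)) →
        ∑ i, ((A i \ (U ∪ Y)).card - m') + ((B \ (U ∪ Y)).card - 2 * m') ≤ p →
        Tl G q m (univ \ U) := by
      intro Y m' Mt' hm hYU hYc hYi hs1 hs2 hs3 hs5 hs4
      subst hm
      refine tl_step hYU hYc hYi (ih (U ∪ Y) m' Mt' ?_ ?_ (res_step hR hs1 hs2) hs3 hs5 hs4 ?_)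
      · have h5 := card_sdiff_step (S := univ) hYU
        rw [inter_univ, hYc, h1] at h5
        have h6 : q * (m' + 1) = q * m' + q := by ring
        omega
      · refine Subset.trans ?_ hBD
        exact sdiff_subset_sdiff Subset.rfl subset_union_left
      · have h5 : ((U ∪ Y).card : ℝ) = U.card + q := by
          rw [card_union_of_disjoint hYU.symm, hYc]
          push_cast
          ring
        have h6 : ∑ i, ((Mt' i).card : ℝ) ≤ ∑ i, ((Mt i).card : ℝ) :=
          sum_le_sum fun i _ => by exact_mod_cast card_le_card (hs1 i)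
        rw [h5]
        push_cast at hb
        nlinarith
    have hm0 : m ≠ 0 := by
      intro hm
      subst hm
      rw [Nat.mul_zero] at h1
      have h7 : ∀ i, (A i \ U).card = 0 := by
        intro i
        have : (A i \ U).card ≤ ∑ i, (A i \ U).card :=
          single_le_sum (f := fun i => (A i \ U).card) (fun _ _ => Nat.zero_le _) (mem_univ i)
        omega
      apply hend
      rw [sum_eq_zero fun i _ => by rw [h7 i, Nat.zero_sub]]
      omega
    obtain ⟨m', rfl⟩ : ∃ m', m = m' + 1 := ⟨m - 1, by omega⟩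
    -- numbers of elements of `Y` in `D1`, when the B-part lies in one of the parts
    have hYD1 : ∀ (k : Bool) (Y : Finset V) (h : ℕ), (Y ∩ B).card = h →
        Y ∩ B ⊆ (if k then D1 else D2) → (Y ∩ D1).card = if k then h else 0 := by
      intro k Y h hYB hYs
      cases k
      · simp only [Bool.false_eq_true, if_false] at hYs ⊢
        rw [card_eq_zero, ← disjoint_iff_inter_eq_empty, disjoint_left]
        intro x hx hxD
        exact (disjoint_left.1 hdis) hxD (hYs (mem_inter.2 ⟨hx, hD1B hxD⟩))
      · simp only [if_true] at hYs ⊢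
        rw [← hYB]
        congr 1
        ext x
        simp only [mem_inter]
        exact ⟨fun hx => ⟨hx.1, hD1B hx.2⟩, fun hx => ⟨hx.1, hYs (mem_inter.2 hx)⟩⟩
    by_cases hj : ∃ j, m' + 1 < (A j \ U).card
    · obtain ⟨j, hj⟩ := hj
      have hMj : 0 < (Mt j).card := by
        have := hM j
        omega
      obtain ⟨e, he⟩ := card_pos.1 hMj
      obtain ⟨he1, he2, he3⟩ := hR.1 j e he
      -- facts common to (T2) and (T3)
      have common : ∀ (k : Bool) (h : ℕ) (I : Finset (Fin t)), 1 ≤ h → h ≤ 2 → j ∉ I →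
          ∃ Y : Finset V, Disjoint Y U ∧ Y.card = 2 + h + I.card ∧ (Y ∩ B).card = h ∧
            Y ∩ B ⊆ (if k then D1 else D2) ∧ (Y ∩ A j).card = 2 ∧
            (∀ i ∈ I, (Y ∩ A i).card = 1) ∧ (∀ i, i ∉ I → i ≠ j → (Y ∩ A i).card = 0) ∧
            Ind G Y ∧ ∀ i, ∀ e' ∈ (if i = j then (Mt j).erase e else Mt i), Disjoint e' Y := by
        intro k h I hh1 hh2 hjI
        obtain ⟨D, hDe, hDBT, hDl, hDg⟩ := hD k
        obtain ⟨Y, hY1, hY2, hY3, hY4, hY5, hY6, hY7, hY8, hY9⟩ := tileE hC j e
          (he1.trans sdiff_subset) he2 he3 I hjI h D hDBT b (hb2 D hDg)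
          (Or.inr (by
            have h5 : ((h : ℝ) - 1) * b ≤ 1 * b := by
              apply mul_le_mul_of_nonneg_right _ (Nat.cast_nonneg _)
              have : (h : ℝ) ≤ 2 := by exact_mod_cast hh2
              linarith
            have h6 : (4 * cc q + 2 * cd q) * (Fintype.card V : ℝ) =
                4 * cc q * Fintype.card V + 2 * (cd q * Fintype.card V) := by ring
            rw [h6, h4cc]
            linarith)) (by omega) (U ∪ rv Mt) hX
        refine ⟨Y, ?_, hY3, hY4, ?_, ?_, hY7, ?_, hY9, ?_⟩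
        · rw [disjoint_left]
          intro x hx hxU
          by_cases hxe : x ∈ e
          · exact (mem_sdiff.1 (he1 hxe)).2 hxU
          · exact (disjoint_left.1 hY2) (mem_sdiff.2 ⟨hx, hxe⟩) (mem_union_left _ hxU)
        · rw [← hDe]; exact hY5
        · rw [hY6, he2]
        · intro i hi hij
          rw [card_eq_zero, ← disjoint_iff_inter_eq_empty]
          exact hY8 i hi hij
        · intro i e' he'
          have hmem : e' ∈ Mt i ∧ Disjoint e' e := by
            split_ifs at he' with h
            · subst h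
              rw [mem_erase] at he'
              exact ⟨he'.2, hR.2 i e' he'.2 e he he'.1⟩
            · refine ⟨he', ?_⟩
              exact (hC.disjA i j h).mono ((hR.1 i e' he').1.trans sdiff_subset)
                (he1.trans sdiff_subset)
          rw [disjoint_left]
          intro x hx hxY
          by_cases hxe : x ∈ e
          · exact (disjoint_left.1 hmem.2) hx hxe
          · exact (disjoint_left.1 hY2) (mem_sdiff.2 ⟨hxY, hxe⟩)
              (mem_union_right _ (mem_rv.2 ⟨i, e', hmem.1, hx⟩))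
      have hsub : ∀ i, (if i = j then (Mt j).erase e else Mt i) ⊆ Mt i := by
        intro i
        split_ifs with h
        · subst h
          exact erase_subset _ _
        · exact Subset.rfl
      by_cases hl : ∃ l, (A l \ U).card < m' + 1
      · -- (T2)
        obtain ⟨l, hl⟩ := hl
        have hjl : j ≠ l := by
          rintro rfl
          omega
        obtain ⟨Y, hYU, hY3, hY4, hY5, hYj, hY7, hY8, hY9, hYM⟩ := common true 2
          ((univ.erase j).erase l) (by norm_num) le_rfl (by simp)
        have hIc : ((univ.erase j).erase l : Finset (Fin t)).card = t - 1 - 1 := by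
          rw [card_erase_of_mem (mem_erase.2 ⟨hjl.symm, mem_univ l⟩),
            card_erase_of_mem (mem_univ j), card_univ, Fintype.card_fin]
        have ht2 : 2 ≤ t := by
          have h5 := j.2
          have h6 := l.2
          have h7 : j.val ≠ l.val := fun h => hjl (Fin.ext h)
          omega
        have hYc : Y.card = q := by
          rw [hY3, hIc]
          omega
        have hYA : ∀ i, i ≠ j → i ≠ l → (Y ∩ A i).card = 1 := fun i hij hil =>
          hY7 i (mem_erase.2 ⟨hil, mem_erase.2 ⟨hij, mem_univ i⟩⟩)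
        have hYl : (Y ∩ A l).card = 0 := hY8 l (by simp) hjl.symm
        have hcs : ∀ i, (A i \ (U ∪ Y)).card + (Y ∩ A i).card = (A i \ U).card :=
          fun i => card_sdiff_step hYU
        have hcB : (B \ (U ∪ Y)).card + (Y ∩ B).card = (B \ U).card := card_sdiff_step hYU
        have hcD : (D1 \ (U ∪ Y)).card + (Y ∩ D1).card = (D1 \ U).card := card_sdiff_step hYU
        have hYD := hYD1 true Y 2 hY4 hY5
        simp only [if_true] at hYD
        refine step Y m' (fun i => if i = j then (Mt j).erase e else Mt i) rfl hYU hYc hY9 hsub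
          hYM ?_ ?_ ?_
        · intro i
          have h9 := hcs i
          have h10 := hM i
          split_ifs with h
          · subst h
            rw [card_erase_of_mem he]
            omega
          · by_cases hil : i = l
            · subst hil
              omega
            · have := hYA i h hil
              omega
        · rcases hpar with h | h
          · left
            omega
          · right
            have h9 : (D1 \ U).card = (D1 \ (U ∪ Y)).card + 2 := by omega
            rw [h9] at h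
            rw [Nat.even_iff] at h ⊢
            omega
        · have h11 : ∑ i, ((A i \ (U ∪ Y)).card - m') < ∑ i, ((A i \ U).card - (m' + 1)) := by
            refine sum_lt_sum (fun i _ => ?_) ⟨j, mem_univ j, ?_⟩
            · have h9 := hcs i
              by_cases hij : i = j
              · subst hij
                omega
              · by_cases hil : i = l
                · subst hil
                  omega
                · have := hYA i hij hil
                  omega
            · have h9 := hcs j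
              omega
          omega
      · -- (T3)
        push Not at hl
        have hBlt : (B \ U).card < 2 * (m' + 1) := by
          have h8 : ∑ i : Fin t, (m' + 1) < ∑ i, (A i \ U).card :=
            sum_lt_sum (fun i _ => hl i) ⟨j, mem_univ j, hj⟩
          rw [sum_const, card_univ, Fintype.card_fin, smul_eq_mul] at h8
          omega
        obtain ⟨Y, hYU, hY3, hY4, hY5, hYj, hY7, hY8, hY9, hYM⟩ := common
          (decide ((D1 \ U).card % 2 = 1)) 1 (univ.erase j) le_rfl (by norm_num) (by simp)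
        have hIc : (univ.erase j : Finset (Fin t)).card = t - 1 := by
          rw [card_erase_of_mem (mem_univ j), card_univ, Fintype.card_fin]
        have ht1 : 1 ≤ t := by
          have h5 := j.2
          omega
        have hYc : Y.card = q := by
          rw [hY3, hIc]
          omega
        have hYA : ∀ i, i ≠ j → (Y ∩ A i).card = 1 := fun i hij =>
          hY7 i (mem_erase.2 ⟨hij, mem_univ i⟩)
        have hcs : ∀ i, (A i \ (U ∪ Y)).card + (Y ∩ A i).card = (A i \ U).card :=
          fun i => card_sdiff_step hYU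
        have hcB : (B \ (U ∪ Y)).card + (Y ∩ B).card = (B \ U).card := card_sdiff_step hYU
        have hcD : (D1 \ (U ∪ Y)).card + (Y ∩ D1).card = (D1 \ U).card := card_sdiff_step hYU
        have hYD := hYD1 _ Y 1 hY4 hY5
        refine step Y m' (fun i => if i = j then (Mt j).erase e else Mt i) rfl hYU hYc hY9 hsub
          hYM ?_ ?_ ?_
        · intro i
          have h9 := hcs i
          have h10 := hM i
          split_ifs with h
          · subst h
            rw [card_erase_of_mem he]
            omega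
          · have := hYA i h
            omega
        · right
          rw [Nat.even_iff]
          simp only [decide_eq_true_eq] at hYD
          split_ifs at hYD with h <;> omega
        · have h11 : ∑ i, ((A i \ (U ∪ Y)).card - m') < ∑ i, ((A i \ U).card - (m' + 1)) := by
            refine sum_lt_sum (fun i _ => ?_) ⟨j, mem_univ j, ?_⟩
            · have h9 := hcs i
              by_cases hij : i = j
              · subst hij
                omega
              · have := hYA i hij
                omega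
            · have h9 := hcs j
              omega
          omega
    · -- (T4)
      push Not at hj
      have h0 : ∑ i, ((A i \ U).card - (m' + 1)) = 0 :=
        sum_eq_zero fun i _ => by have := hj i; omega
      have hBgt : 2 * (m' + 1) < (B \ U).card := by omega
      have hl : ∃ l, (A l \ U).card < m' + 1 := by
        by_contra hno
        push Not at hno
        have h8 : ∑ i : Fin t, (m' + 1) ≤ ∑ i, (A i \ U).card :=
          sum_le_sum (fun i _ => hno i)
        rw [sum_const, card_univ, Fintype.card_fin, smul_eq_mul] at h8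
        omega
      obtain ⟨l, hl⟩ := hl
      obtain ⟨D, hDe, hDBT, hDl, hDg⟩ := hD (decide ((D1 \ U).card % 2 = 1))
      obtain ⟨K, hK1, -, hK3, hK4⟩ := pickB G D ∅ (U ∪ rv Mt) b 3 ind_empty (hb2 D hDg)
        (Or.inr (by
          rw [sum_empty, card_empty]
          have h5 : ((0 + (U ∪ rv Mt).card + 0 + (3 - 1) * b : ℕ) : ℝ) < D.card := by
            push_cast
            norm_num
            linarith
          exact_mod_cast h5))
      rw [empty_union] at hK4
      obtain ⟨v, hv⟩ := hD1n
      obtain ⟨Y, hY1, hY2, hY3, hY4, hY5, hY6, hY7⟩ := tileK hC (univ.erase l) K (U ∪ rv Mt)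
        hK4 (by rw [hK3]; omega) v (hD1B hv)
        (fun x hx => Or.inr (hDBT (mem_sdiff.1 (hK1 hx)).1)) hX
      have hKU : ∀ x ∈ K, x ∉ U ∪ rv Mt := fun x hx => (mem_sdiff.1 (hK1 hx)).2
      have hYX : ∀ x ∈ Y, x ∉ U ∪ rv Mt := by
        intro x hx
        by_cases hxK : x ∈ K
        · exact hKU x hxK
        · exact (disjoint_left.1 hY2) (mem_sdiff.2 ⟨hx, hxK⟩)
      have hYU : Disjoint Y U := disjoint_left.2 fun x hx hxU =>
        hYX x hx (mem_union_left _ hxU)
      have ht1 : 1 ≤ t := by
        have h5 := l.2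
        omega
      have hYc : Y.card = q := by
        rw [hY3, hK3, card_erase_of_mem (mem_univ l), card_univ, Fintype.card_fin]
        omega
      have hYA : ∀ i, i ≠ l → (Y ∩ A i).card = 1 := fun i hil =>
        hY5 i (mem_erase.2 ⟨hil, mem_univ i⟩)
      have hYl : (Y ∩ A l).card = 0 := by
        rw [card_eq_zero, ← disjoint_iff_inter_eq_empty]
        exact hY6 l (by simp)
      have hcs : ∀ i, (A i \ (U ∪ Y)).card + (Y ∩ A i).card = (A i \ U).card :=
        fun i => card_sdiff_step hYU
      have hcB : (B \ (U ∪ Y)).card + (Y ∩ B).card = (B \ U).card := card_sdiff_step hYU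
      have hcD : (D1 \ (U ∪ Y)).card + (Y ∩ D1).card = (D1 \ U).card := card_sdiff_step hYU
      rw [hY4, hK3] at hcB
      have hYD := hYD1 (decide ((D1 \ U).card % 2 = 1)) Y 3 (by rw [hY4, hK3])
        (by rw [hY4, ← hDe]; exact fun x hx => (mem_sdiff.1 (hK1 hx)).1)
      refine step Y m' Mt rfl hYU hYc hY7 (fun i => Subset.rfl) ?_ ?_ ?_ ?_
      · intro i e' he'
        rw [disjoint_left]
        intro x hx hxY
        exact hYX x hxY (mem_union_right _ (mem_rv.2 ⟨i, e', he', hx⟩))
      · intro i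
        have h9 := hcs i
        have h10 := hM i
        by_cases hil : i = l
        · subst hil
          omega
        · have := hYA i hil
          omega
      · right
        rw [Nat.even_iff]
        simp only [decide_eq_true_eq] at hYD
        split_ifs at hYD with h <;> omega
      · have h11 : ∑ i, ((A i \ (U ∪ Y)).card - m') ≤ ∑ i, ((A i \ U).card - (m' + 1)) := by
          refine sum_le_sum (fun i _ => ?_)
          have h9 := hcs i
          by_cases hil : i = l
          · subst hil
            omega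
          · have := hYA i hil
            omega
        omega

end Pool.Agent.Helper64.BX
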