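import Pool.Agent.Helper64.BX.Basic
import Pool.Agent.Helper64.BX.St.Stage2A
import Pool.Agent.Helper64.BX.St.Rem2

/-! BEC exact P3 (MP_436ed3_co), piece Stage2, part B: the end -/

set_option autoImplicit false

namespace Pool.Agent.Helper64.BX

open Finset Classical

variable {V : Type}

theorem N_le_m [Fintype V] {G : SimpleGraph V} {q t s d N : ℕ} {w : ℝ}
    {A AT : Fin t → Finset V} {B BT : Finset V} (hC : Cls G q t s d N w A AT B BT) {m r : ℕ}
    (hm : Fintype.card V = q * m + r) : N ≤ m + r ∧ m ≤ N := by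
  have hq := hC.q2
  rw [hC.hN]
  constructor
  · have h1 : Fintype.card V ≤ q * (m + r) := by
      rw [hm, mul_add]
      have : r ≤ q * r := Nat.le_mul_of_pos_left r (by omega)
      omega
    calc Fintype.card V / q ≤ q * (m + r) / q := Nat.div_le_div_right h1
      _ = m + r := Nat.mul_div_cancel_left _ (by omega)
  · rw [Nat.le_div_iff_mul_le (by omega), hm, mul_comm]
    omega

theorem card_inter_sdiff (S U : Finset V) : (S \ U).card + (S ∩ U).card = S.card :=
  card_sdiff_add_card_inter S U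

theorem stage2_fin [Fintype V] {G : SimpleGraph V} {q t d N : ℕ} {w : ℝ}
    {A AT : Fin t → Finset V}
    {B BT : Finset V} (hC : Cls G q t 2 d N w A AT B BT) (D1 D2 : Finset V) (hD1 : D1 ⊆ BT)
    (hD2 : D2 ⊆ BT) (hD1n : D1.Nonempty) (hD2n : D2.Nonempty) (hdis : Disjoint D1 D2)
    (hcross : ∀ x ∈ D1, ∀ y ∈ D2, G.Adj x y) (κ : ℝ) (hκ0 : 0 < κ)
    (hκ1 : 20 * (q : ℝ) ^ 2 * κ ≤ cd q) (hw : w ≤ κ)
    (hDD : ((BT \ (D1 ∪ D2)).card : ℝ) ≤ κ * Fintype.card V)
    {W : Type} [Fintype W] (R : SimpleGraph W) (m e rB : ℕ)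
    (hm : Fintype.card V = q * m + Fintype.card W)
    (hr : (Fintype.card W : ℝ) ≤ κ * Fintype.card V)
    (f : W → V) (hf : Function.Injective f) (hfR : ∀ a b, R.Adj a b → ¬ G.Adj (f a) (f b))
    (hfA : ∀ i, (A i ∩ univ.image f).card = e) (hfB : (B ∩ univ.image f).card = rB)
    (Mt : Fin t → Finset (Finset V)) (hMt : Res G A (univ.image f) Mt)
    (hMc : ∀ i, (A i).card ≤ m + e + (Mt i).card)
    (hMs : ∑ i, ((Mt i).card : ℝ) ≤ 2 * q * (κ * Fintype.card V))
    (Y : Finset V) (l : ℕ) (hYT : Tl G q l Y) (hYU : Disjoint Y (univ.image f))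
    (hYM : ∀ i, ∀ e ∈ Mt i, Disjoint Y e) (hYA : ∀ i, (Y ∩ A i).card = l)
    (hYB : (Y ∩ B).card = 2 * l) (hcov : B \ (univ.image f ∪ Y) ⊆ D1 ∪ D2)
    (hpar : B.card ≠ rB + 2 * m ∨ Even ((D1 \ (univ.image f ∪ Y)).card))
    (hl : (q : ℝ) * l ≤ (2 * q + 1) * (κ * Fintype.card V)) : Pack3 G q m R := by
  have hq2 := hC.q2
  have hq : (2 : ℝ) ≤ q := by exact_mod_cast hq2
  set U0 : Finset V := univ.image f with hU0
  set x : ℝ := κ * Fintype.card V with hx
  have hn0 : (0 : ℝ) ≤ Fintype.card V := Nat.cast_nonneg _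
  have hx0 : 0 ≤ x := by positivity
  have hwx : w * Fintype.card V ≤ x := mul_le_mul_of_nonneg_right hw hn0
  have hU0c : U0.card = Fintype.card W := by
    rw [hU0, card_image_of_injective _ hf, card_univ]
  have hYc : Y.card = q * l := tl_card hYT
  -- l ≤ m
  have hUc : (univ \ U0).card = q * m := by
    rw [card_sdiff_of_subset (subset_univ _), card_univ, hU0c, hm]
    omega
  have hlm : l ≤ m := by
    have h1 : Y ⊆ univ \ U0 := by
      intro y hy
      rw [mem_sdiff]
      exact ⟨mem_univ _, fun h => disjoint_left.1 hYU hy h⟩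
    have h2 := card_le_card h1
    rw [hYc, hUc] at h2
    exact Nat.le_of_mul_le_mul_left h2 (by omega)
  obtain ⟨hNm, hmN⟩ := N_le_m hC hm
  set U : Finset V := U0 ∪ Y with hU
  have hUcard : U.card = Fintype.card W + q * l := by
    rw [hU, card_union_of_disjoint hYU.symm, hU0c, hYc]
  have hUc' : (univ \ U).card = q * (m - l) := by
    rw [card_sdiff_of_subset (subset_univ _), card_univ, hUcard, hm, Nat.mul_sub]
    omega
  -- counts
  have hAU : ∀ i, (A i \ U).card + e + l = (A i).card := by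
    intro i
    have h1 := card_inter_sdiff (A i) U
    have h2 : (A i ∩ U).card = e + l := by
      rw [hU, inter_union_distrib_left, card_union_of_disjoint, hfA i, inter_comm, hYA i]
      exact (hYU.symm.mono_left inter_subset_right).mono_right inter_subset_right
    omega
  have hBU : (B \ U).card + rB + 2 * l = B.card := by
    have h1 := card_inter_sdiff B U
    have h2 : (B ∩ U).card = rB + 2 * l := by
      rw [hU, inter_union_distrib_left, card_union_of_disjoint, hfB, inter_comm B Y, hYB]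
      exact (hYU.symm.mono_left inter_subset_right).mono_right inter_subset_right
    omega
  have hRes : Res G A U Mt := by
    refine ⟨?_, hMt.2⟩
    intro i ed hed
    obtain ⟨h1, h2, h3⟩ := hMt.1 i ed hed
    refine ⟨?_, h2, h3⟩
    intro v hv
    have h4 := h1 hv
    rw [mem_sdiff] at h4 ⊢
    refine ⟨h4.1, ?_⟩
    rw [hU, mem_union]
    rintro (h5 | h5)
    · exact h4.2 h5
    · exact disjoint_left.1 (hYM i ed hed) h5 hv
  have hAm : ∀ i, (A i \ U).card ≤ (m - l) + (Mt i).card := by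
    intro i
    have h1 := hAU i
    have h2 := hMc i
    omega
  have hpar' : (B \ U).card ≠ 2 * (m - l) ∨ Even ((D1 \ U).card) := by
    rcases hpar with h | h
    · left; omega
    · right; exact h
  set p : ℕ := ∑ i, ((A i \ U).card - (m - l)) + ((B \ U).card - 2 * (m - l)) with hp
  have hp1 : ((∑ i, ((A i \ U).card - (m - l)) : ℕ) : ℝ) ≤ 2 * q * x := by
    refine le_trans ?_ hMs
    rw [Nat.cast_sum]
    refine sum_le_sum (fun i _ => ?_)
    have h1 := hAm i
    exact_mod_cast (by omega : (A i \ U).card - (m - l) ≤ (Mt i).card)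
  have hp2 : (((B \ U).card - 2 * (m - l) : ℕ) : ℝ) ≤ 3 * x := by
    have h1 : (B \ U).card - 2 * (m - l) + 2 * m ≤ B.card ∨
        (B \ U).card - 2 * (m - l) = 0 := by omega
    rcases h1 with h1 | h1
    · have h2 : (((B \ U).card - 2 * (m - l) : ℕ) : ℝ) + 2 * m ≤ B.card := by exact_mod_cast h1
      have h3 := hC.cardB2
      have h4 : (N : ℝ) ≤ m + Fintype.card W := by exact_mod_cast hNm
      push_cast at h3
      linarith
    · rw [h1]
      push_cast
      linarith
  have hpx : (p : ℝ) ≤ (2 * q + 3) * x := by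
    rw [hp, Nat.cast_add]
    linarith
  have hbud : (U.card : ℝ) + q * p + 2 * ∑ i, ((Mt i).card : ℝ) ≤ cd q * Fintype.card V := by
    have h1 : (U.card : ℝ) ≤ x + (2 * q + 1) * x := by
      rw [hUcard]
      push_cast
      linarith
    have h2 : (q : ℝ) * p ≤ q * ((2 * q + 3) * x) := mul_le_mul_of_nonneg_left hpx (by linarith)
    have h3 : 20 * (q : ℝ) ^ 2 * κ * Fintype.card V ≤ cd q * Fintype.card V :=
      mul_le_mul_of_nonneg_right hκ1 hn0
    have h4 : 20 * (q : ℝ) ^ 2 * κ * Fintype.card V = 20 * (q : ℝ) ^ 2 * x := by rw [hx]; ring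
    rw [h4] at h3
    have h5 : x + (2 * q + 1) * x + q * ((2 * q + 3) * x) + 2 * (2 * q * x) ≤
        20 * (q : ℝ) ^ 2 * x := by
      nlinarith [mul_nonneg hx0 (by linarith : (0 : ℝ) ≤ q - 2), mul_nonneg hx0
        (by nlinarith : (0 : ℝ) ≤ (q : ℝ) ^ 2 - 4)]
    linarith
  have hκ2 : κ ≤ cd q := by
    have : (1 : ℝ) ≤ 20 * (q : ℝ) ^ 2 := by nlinarith
    nlinarith
  have hT := rem2 hC D1 D2 hD1 hD2 hD1n hD2n hdis hcross κ hκ0 hκ2 hDD p U (m - l) Mt hUc' hcov
    hRes hAm hpar' hp.ge hbud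
  refine ⟨f, hf, hfR, ?_⟩
  have hfin := tl_union hT hYT (by
    rw [disjoint_left]
    intro y hy hy'
    rw [mem_sdiff] at hy
    exact hy.2 (mem_union_right _ hy'))
  have h1 : m - l + l = m := by omega
  rw [h1] at hfin
  convert hfin using 1
  ext y
  simp only [mem_sdiff, mem_univ, true_and, mem_union, hU]
  constructor
  · intro h
    by_cases hy : y ∈ Y
    · exact Or.inr hy
    · left
      rintro (h2 | h2)
      · exact h h2
      · exact hy h2
  · rintro (h | h)
    · exact fun h2 => h (Or.inl h2)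
    · exact fun h2 => disjoint_left.1 hYU h h2

end Pool.Agent.Helper64.BX
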