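import Pool.Agent.Helper64.BX.Basic
import Pool.Agent.Helper64.BX.St.Stage2B
import Pool.Agent.Helper64.BX.St.Cover2
import Pool.Agent.Helper64.BX.St.Split
import Pool.Agent.Helper64.BX.St.Emb
import Pool.Agent.Helper64.BX.St.Mat

/-! BEC exact P3 (MP_436ed3_co), piece Stage2, part C: embedding and covering -/

set_option autoImplicit false

namespace Pool.Agent.Helper64.BX

open Finset Classical

variable {V : Type}

/-- the matchings for the classes with positive excess -/
theorem mats [Fintype V] {G : SimpleGraph V} {q t s d N : ℕ} {w : ℝ}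
    {A AT : Fin t → Finset V} {B BT : Finset V} (hC : Cls G q t s d N w A AT B BT) {m e : ℕ}
    (he : d + 1 ≤ m + e) (hA : ∀ i, (A i).card ≤ 2 * m) :
    ∃ Mt : Fin t → Finset (Finset V), Res G A ∅ Mt ∧ ∀ i, (Mt i).card = (A i).card - (m + e) := by
  have h : ∀ i, ∃ Mt : Finset (Finset V), Mt.card = (A i).card - (m + e) ∧
      (∀ e ∈ Mt, e ⊆ A i ∧ e.card = 2 ∧ Ind G e) ∧
      ∀ e ∈ Mt, ∀ e' ∈ Mt, e ≠ e' → Disjoint e e' := by
    intro i
    refine mat G (A i) _ ?_ ?_
    · intro v hv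
      have h1 : dg G v (A i) ≤ d := (dg_mono (subset_univ _)).trans (hC.deg v)
      have h2 := card_HA_add_of_mem (G := G) hv
      omega
    · have := hA i
      omega
  choose Mt h1 h2 h3 using h
  refine ⟨Mt, ⟨?_, ?_⟩, h1⟩
  · intro i e he
    obtain ⟨h4, h5, h6⟩ := h2 i e he
    exact ⟨by rw [sdiff_empty]; exact h4, h5, h6⟩
  · intro i e he e' he' hne
    exact h3 i e he e' he' hne

/-- union of the matchings -/
noncomputable def mU {t : ℕ} (Mt : Fin t → Finset (Finset V)) : Finset V :=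
  univ.biUnion fun i => (Mt i).biUnion id

theorem mem_mU {t : ℕ} {Mt : Fin t → Finset (Finset V)} {v : V} :
    v ∈ mU Mt ↔ ∃ i, ∃ e ∈ Mt i, v ∈ e := by
  simp [mU]

theorem mU_card {G : SimpleGraph V} {t : ℕ} {A : Fin t → Finset V} {U : Finset V}
    {Mt : Fin t → Finset (Finset V)} (h : Res G A U Mt) :
    (mU Mt).card ≤ 2 * ∑ i, (Mt i).card := by
  unfold mU
  refine card_biUnion_le.trans ?_
  rw [mul_sum]
  refine sum_le_sum (fun i _ => ?_)
  refine card_biUnion_le.trans ?_
  rw [mul_comm]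
  refine (sum_le_card_nsmul _ _ 2 (fun e he => ?_)).trans (by rw [smul_eq_mul])
  exact (h.1 i e he).2.1.le

theorem card_fiber_image {W : Type} [Fintype W] {f : W → V} (hf : Function.Injective f)
    (S : Finset V) : (S ∩ univ.image f).card = (univ.filter fun a => f a ∈ S).card := by
  rw [← card_image_of_injective _ hf]
  congr 1
  ext v
  simp only [mem_inter, mem_image, mem_univ, true_and, mem_filter]
  constructor
  · rintro ⟨h1, a, rfl⟩
    exact ⟨a, h1, rfl⟩
  · rintro ⟨a, h1, rfl⟩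
    exact ⟨h1, a, rfl⟩

theorem stage2_mid [Fintype V] {G : SimpleGraph V} {q t d N : ℕ} {w : ℝ}
    {A AT : Fin t → Finset V}
    {B BT : Finset V} (hC : Cls G q t 2 d N w A AT B BT) (D1 D2 : Finset V) (hD1 : D1 ⊆ BT)
    (hD2 : D2 ⊆ BT) (hD1n : D1.Nonempty) (hD2n : D2.Nonempty) (hdis : Disjoint D1 D2)
    (hcross : ∀ x ∈ D1, ∀ y ∈ D2, G.Adj x y) (κ : ℝ) (hκ0 : 0 < κ)
    (hκ1 : 20 * (q : ℝ) ^ 2 * κ ≤ cd q) (hw : w ≤ κ) (hbig : (q : ℝ) ≤ κ * Fintype.card V)
    (hDD : ((BT \ (D1 ∪ D2)).card : ℝ) ≤ κ * Fintype.card V)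
    {W : Type} [Fintype W] (R : SimpleGraph W) (m e : ℕ) (hdeg : ∀ a, dg R a univ + 1 ≤ q)
    (hm : Fintype.card V = q * m + Fintype.card W)
    (hr : (Fintype.card W : ℝ) ≤ κ * Fintype.card V)
    (he1 : d + 1 ≤ m + e) (he2 : q * e ≤ Fintype.card W + 1) (Z : Finset V)
    (hZc : Z.card ≤ 3) :
    ∃ (f : W → V) (Mt : Fin t → Finset (Finset V)) (Y : Finset V),
      Function.Injective f ∧ (∀ a b, R.Adj a b → ¬ G.Adj (f a) (f b)) ∧
      (∀ i, (A i ∩ univ.image f).card = e) ∧
      (B ∩ univ.image f).card + t * e = Fintype.card W ∧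
      Res G A (univ.image f) Mt ∧ (∀ i, (A i).card ≤ m + e + (Mt i).card) ∧
      ∑ i, ((Mt i).card : ℝ) ≤ 2 * q * (κ * Fintype.card V) ∧
      Tl G q ((B \ (D1 ∪ D2)) \ Z).card Y ∧ (B \ (D1 ∪ D2)) \ Z ⊆ Y ∧
      Disjoint Y (univ.image f) ∧ Disjoint Y Z ∧ Disjoint (univ.image f) Z ∧
      (∀ i, ∀ e ∈ Mt i, Disjoint Y e) ∧
      (∀ i, (Y ∩ A i).card = ((B \ (D1 ∪ D2)) \ Z).card) ∧
      (Y ∩ B).card = 2 * ((B \ (D1 ∪ D2)) \ Z).card ∧
      (((B \ (D1 ∪ D2)) \ Z).card : ℝ) ≤ 2 * (κ * Fintype.card V) := by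
  have hq2 := hC.q2
  have hts := hC.ts
  have hq : (2 : ℝ) ≤ q := by exact_mod_cast hq2
  have hbase := cls_N hC
  obtain ⟨hNm, hmN⟩ := N_le_m hC hm
  have hNm' : (N : ℝ) ≤ m + Fintype.card W := by exact_mod_cast hNm
  have hn0 : (0 : ℝ) ≤ Fintype.card V := Nat.cast_nonneg _
  have hwx : w * Fintype.card V ≤ κ * Fintype.card V := mul_le_mul_of_nonneg_right hw hn0
  have hcdx : 20 * (q : ℝ) ^ 2 * (κ * Fintype.card V) ≤ cd q * Fintype.card V := by
    have := mul_le_mul_of_nonneg_right hκ1 hn0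
    linarith
  obtain ⟨hDa, hDb, hDc, hDd, hDe, hDf⟩ := D_sizes hC D1 D2 hD1n hD2n hdis hcross κ hDD
  set y : ℝ := cd q * Fintype.card V with hy
  set x : ℝ := κ * Fintype.card V with hx
  have hx1 : 2 ≤ x := by linarith
  have hq4 : (4 : ℝ) ≤ (q : ℝ) ^ 2 := by nlinarith
  have hqq : 2 * (q : ℝ) ≤ (q : ℝ) ^ 2 := by nlinarith
  have hxq : 2 * (q * x) ≤ (q : ℝ) ^ 2 * x := by nlinarith
  have hxy : 80 * x ≤ y := by nlinarith
  have hNy : 12000 * y ≤ N := by nlinarith
  have hqy : 3000 * ((q : ℝ) ^ 2 * y) ≤ N := by linarith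
  have hqy1 : 2 * (q * y) ≤ (q : ℝ) ^ 2 * y := by nlinarith
  have hκ2 : κ ≤ cd q := by nlinarith
  -- splitting
  obtain ⟨col, hcol, hce⟩ := rsA R q t e (by omega) hdeg he2
  -- matchings
  have hA2 : ∀ i, (A i).card ≤ 2 * m := by
    intro i
    have h1 := hC.cardA2 i
    have h2 : ((A i).card : ℝ) ≤ 2 * m := by linarith
    exact_mod_cast h2
  obtain ⟨Mt, hMt, hMtc⟩ := mats hC he1 hA2
  have hMi : ∀ i, ((Mt i).card : ℝ) ≤ 2 * x := by
    intro i
    rw [hMtc i]
    rcases Nat.le_total (A i).card (m + e) with h1 | h1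
    · rw [Nat.sub_eq_zero_of_le h1]
      push_cast
      linarith
    · rw [Nat.cast_sub h1]
      push_cast
      have h2 := hC.cardA2 i
      have h3 : (0 : ℝ) ≤ e := Nat.cast_nonneg _
      linarith
  have hMs : ∑ i, ((Mt i).card : ℝ) ≤ 2 * q * x := by
    refine (sum_le_card_nsmul _ _ (2 * x) (fun i _ => hMi i)).trans ?_
    rw [nsmul_eq_mul, card_univ, Fintype.card_fin]
    have : (t : ℝ) ≤ q := by exact_mod_cast (by omega : t ≤ q)
    nlinarith
  have hmUc : ((mU Mt).card : ℝ) ≤ 4 * (q * x) := by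
    have h1 := mU_card hMt
    have h2 : ((mU Mt).card : ℝ) ≤ 2 * ∑ i, ((Mt i).card : ℝ) := by
      rw [← Nat.cast_sum]
      exact_mod_cast h1
    linarith
  have hmUA : ∀ v ∈ mU Mt, ∃ i, v ∈ A i := by
    intro v hv
    rw [mem_mU] at hv
    obtain ⟨i, ed, hed, hved⟩ := hv
    have := (hMt.1 i ed hed).1 hved
    rw [sdiff_empty] at this
    exact ⟨i, this⟩
  have hZc' : (Z.card : ℝ) ≤ 2 * x := by
    have h1 : (Z.card : ℝ) ≤ 3 := by exact_mod_cast hZc
    linarith
  -- embedding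
  have hX1 : (((mU Mt) ∪ Z).card : ℝ) + Fintype.card W ≤ y := by
    have h1 : (((mU Mt) ∪ Z).card : ℝ) ≤ (mU Mt).card + Z.card := by
      exact_mod_cast card_union_le _ _
    linarith
  obtain ⟨f, hf, hfX, hfS, hfN, hfR⟩ := embD hC R col hcol hdeg D1 hD1 (3 * x) (by linarith)
    (fun v hv => by
      have := hDe v hv
      linarith)
    (by nlinarith) (mU Mt ∪ Z) hX1
  have hfA : ∀ i, (A i ∩ univ.image f).card = e := by
    intro i
    rw [card_fiber_image hf, ← hce i]
    congr 1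
    ext a
    simp only [mem_filter, mem_univ, true_and]
    constructor
    · intro ha
      cases hca : col a with
      | none =>
        have h1 := hD1 (hfN a hca)
        exact absurd (hC.subB h1) (disjoint_left.1 (hC.disjB i) ha)
      | some j =>
        by_cases hij : i = j
        · rw [hij]
        · exact absurd (hC.subA j (hfS a j hca)) (disjoint_left.1 (hC.disjA i j hij) ha)
    · intro ha
      exact hC.subA i (hfS a i ha)
  have hcov0 : Fintype.card W = (univ.filter fun a => col a = none).card +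
      ∑ i : Fin t, (univ.filter fun a => col a = some i).card := by
    rw [← card_univ, ← card_biUnion, ← card_union_of_disjoint]
    · congr 1
      ext a
      simp only [mem_univ, mem_union, mem_filter, true_and, mem_biUnion, true_iff]
      cases hca : col a with
      | none => exact Or.inl rfl
      | some j => exact Or.inr ⟨j, rfl⟩
    · rw [disjoint_left]
      intro a ha ha'
      simp only [mem_filter, mem_univ, true_and, mem_biUnion] at ha ha'
      obtain ⟨i, hi⟩ := ha'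
      rw [ha] at hi
      cases hi
    · intro i _ j _ hij
      rw [Function.onFun, disjoint_left]
      intro a ha ha'
      simp only [mem_filter, mem_univ, true_and] at ha ha'
      rw [ha] at ha'
      exact hij (Option.some.inj ha')
  have hfB : (B ∩ univ.image f).card + t * e = Fintype.card W := by
    rw [hcov0, sum_congr rfl (fun i _ => hce i), sum_const, card_univ, Fintype.card_fin,
      smul_eq_mul, card_fiber_image hf]
    congr 1
    congr 1
    ext a
    simp only [mem_filter, mem_univ, true_and]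
    constructor
    · intro ha
      cases hca : col a with
      | none => rfl
      | some j => exact absurd ha (disjoint_left.1 (hC.disjB j) (hC.subA j (hfS a j hca)))
    · intro ha
      exact hC.subB (hD1 (hfN a ha))
  have hU0c : ((univ.image f).card : ℝ) ≤ x := by
    rw [card_image_of_injective _ hf, card_univ]
    exact hr
  have hfdis : ∀ v ∈ univ.image f, v ∉ mU Mt ∧ v ∉ Z := by
    intro v hv
    rw [mem_image] at hv
    obtain ⟨a, -, rfl⟩ := hv
    have := hfX a
    rw [mem_union, not_or] at this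
    exact this
  have hRes : Res G A (univ.image f) Mt := by
    refine ⟨?_, hMt.2⟩
    intro i ed hed
    obtain ⟨h1, h2, h3⟩ := hMt.1 i ed hed
    refine ⟨?_, h2, h3⟩
    intro v hv
    have h4 := h1 hv
    rw [sdiff_empty] at h4
    rw [mem_sdiff]
    exact ⟨h4, fun h5 => (hfdis v h5).1 (mem_mU.2 ⟨i, ed, hed, hv⟩)⟩
  -- covering
  set S : Finset V := (B \ (D1 ∪ D2)) \ Z with hS
  have hSB : S ⊆ B := sdiff_subset.trans sdiff_subset
  have hSc : (S.card : ℝ) ≤ 2 * x := by
    have h1 : S ⊆ (B \ BT) ∪ (BT \ (D1 ∪ D2)) := by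
      intro v hv
      rw [hS, mem_sdiff, mem_sdiff] at hv
      by_cases h : v ∈ BT
      · exact mem_union_right _ (mem_sdiff.2 ⟨h, hv.1.2⟩)
      · exact mem_union_left _ (mem_sdiff.2 ⟨hv.1.1, h⟩)
    have h2 : (S.card : ℝ) ≤ (B \ BT).card + (BT \ (D1 ∪ D2)).card := by
      exact_mod_cast (card_le_card h1).trans (card_union_le _ _)
    have h3 := hC.smB
    linarith
  have hSD : Disjoint S (D1 ∪ D2) := by
    rw [disjoint_left]
    intro v hv
    rw [hS, mem_sdiff, mem_sdiff] at hv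
    exact hv.1.2
  have hSX : Disjoint S (univ.image f ∪ (mU Mt ∪ Z)) := by
    rw [disjoint_left]
    intro v hv hv'
    rw [mem_union, mem_union] at hv'
    rcases hv' with h | h | h
    · rw [mem_image] at h
      obtain ⟨a, -, rfl⟩ := h
      cases hca : col a with
      | none =>
        exact disjoint_left.1 hSD hv (mem_union_left _ (hfN a hca))
      | some j =>
        exact disjoint_left.1 (hC.disjB j) (hC.subA j (hfS a j hca)) (hSB hv)
    · obtain ⟨i, hi⟩ := hmUA v h
      exact disjoint_left.1 (hC.disjB i) hi (hSB hv)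
    · rw [hS, mem_sdiff] at hv
      exact hv.2 h
  have hX2 : ((univ.image f ∪ (mU Mt ∪ Z)).card : ℝ) + q * S.card ≤ y := by
    have h1 : ((univ.image f ∪ (mU Mt ∪ Z)).card : ℝ) ≤
        (univ.image f).card + (mU Mt ∪ Z).card := by
      exact_mod_cast card_union_le _ _
    have h2 : (((mU Mt) ∪ Z).card : ℝ) ≤ (mU Mt).card + Z.card := by
      exact_mod_cast card_union_le _ _
    have h3 : (q : ℝ) * S.card ≤ 2 * (q * x) := by nlinarith
    linarith
  obtain ⟨Y, hY1, hY2, hY3, hY4, hY5, hY6⟩ := cover2 hC D1 D2 hD1 hD2 hD1n hD2n hdis hcross κ hκ0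
    hκ2 hDD S hSB hSD _ hSX hX2
  refine ⟨f, Mt, Y, hf, hfR, hfA, hfB, hRes, ?_, hMs, hY3, hY1, ?_, ?_, ?_, ?_, hY4, hY5, hSc⟩
  · intro i
    rw [hMtc i]
    omega
  · exact hY2.mono_right subset_union_left
  · exact hY2.mono_right (subset_union_right.trans subset_union_right)
  · rw [disjoint_left]
    intro v hv
    exact (hfdis v hv).2
  · intro i ed hed
    refine hY2.mono_right ?_
    intro v hv
    exact mem_union_right _ (mem_union_left _ (mem_mU.2 ⟨i, ed, hed, hv⟩))

end Pool.Agent.Helper64.BX
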