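import Pool.Agent.Helper64.BX.Basic
import Pool.Agent.Helper64.BX.St.Rem2
import Pool.Agent.Helper64.BX.St.Cover2
import Pool.Agent.Helper64.BX.St.Split
import Pool.Agent.Helper64.BX.St.Emb
import Pool.Agent.Helper64.BX.St.Mat
import Pool.Agent.Helper64.BX.St.Stage2C

/-! BEC exact P3 (MP_436ed3_co), piece Stage2.  Paper: /team-store/BECX_P3_paper.md, stage, s = 2b.
`rsA` (|V_i| = e, so the rest of R has ≥ 2e - 1 vertices: |W| - (q-2) e ≥ q e - 1 - (q-2) e), `mat`, if |B| - r_B = 2 m then |B| ≥ 2 d + 1 and `mixed` gives u, a1, a2 (reserve them); `embD` into D1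
avoiding ⋃ Mt, a1, a2, u; `cover2` for S = (B \ (D1 ∪ D2)) minus u (u kept only if |B| - r_B = 2m); then the tile of u with K = {u, a1} or {u, a2} (`tileK`), chosen so that |D1 \ U| becomes
even; `rem2`.
-/

set_option autoImplicit false

namespace Pool.Agent.Helper64.BX

open Finset Classical

variable {V : Type}

theorem stage2 [Fintype V] {G : SimpleGraph V} {q t d N : ℕ} {w : ℝ} {A AT : Fin t → Finset V}
    {B BT : Finset V} (hC : Cls G q t 2 d N w A AT B BT) (D1 D2 : Finset V) (hD1 : D1 ⊆ BT)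
    (hD2 : D2 ⊆ BT) (hD1n : D1.Nonempty) (hD2n : D2.Nonempty) (hdis : Disjoint D1 D2)
    (hcross : ∀ x ∈ D1, ∀ y ∈ D2, G.Adj x y) (κ : ℝ) (hκ0 : 0 < κ)
    (hκ1 : 20 * (q : ℝ) ^ 2 * κ ≤ cd q) (hw : w ≤ κ) (hbig : (q : ℝ) ≤ κ * Fintype.card V)
    (hDD : ((BT \ (D1 ∪ D2)).card : ℝ) ≤ κ * Fintype.card V)
    {W : Type} [Fintype W] (R : SimpleGraph W) (m : ℕ) (hdeg : ∀ a, dg R a univ + 1 ≤ q)
    (hm : Fintype.card V = q * m + Fintype.card W) (hqd : q * (d + 1) ≤ Fintype.card V + 1)
    (hr : (Fintype.card W : ℝ) ≤ κ * Fintype.card V) : Pack3 G q m R := by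
  have hq2 := hC.q2
  have hts := hC.ts
  have hq : (2 : ℝ) ≤ q := by exact_mod_cast hq2
  have hn0 : (0 : ℝ) ≤ Fintype.card V := Nat.cast_nonneg _
  have hcdx : 20 * (q : ℝ) ^ 2 * (κ * Fintype.card V) ≤ cd q * Fintype.card V := by
    have := mul_le_mul_of_nonneg_right hκ1 hn0
    linarith
  obtain ⟨e, he⟩ : ∃ e, e = d + 1 - m := ⟨_, rfl⟩
  have he1 : d + 1 ≤ m + e := by omega
  have he2 : q * e ≤ Fintype.card W + 1 := by
    rw [he, Nat.mul_sub]
    omega
  by_cases hP : B.card + t * e = Fintype.card W + 2 * m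
  · -- the exceptional case
    have hBd : 2 * d + 1 ≤ B.card := by
      have h1 : q * e = t * e + 2 * e := by rw [← hts]; ring
      omega
    obtain ⟨u, hu, a1, ha1, a2, ha2, hua1, hua2⟩ :=
      mixed hC D1 D2 hD1 hD2 hD1n hD2n hdis hcross hBd
    rw [mem_sdiff, mem_union, not_or] at hu
    obtain ⟨hu1, hu2, hu3⟩ := hu
    obtain ⟨f, Mt, Y, hf, hfR, hfA, hfB, hRes, hMc, hMs, hYT, hSY, hYU, hYZ, hUZ, hYM, hYA, hYB,
      hSc⟩ := stage2_mid hC D1 D2 hD1 hD2 hD1n hD2n hdis hcross κ hκ0 hκ1 hw hbig hDD R m e hdeg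
        hm hr he1 he2 {u, a1, a2} (card_le_three)
    set S : Finset V := (B \ (D1 ∪ D2)) \ {u, a1, a2} with hS
    set U1 : Finset V := univ.image f ∪ Y with hU1
    -- the partner of `u`
    obtain ⟨a, haZ, hua, haT, hapar⟩ : ∃ a, (a = a1 ∨ a = a2) ∧ HA G u a ∧ a ∈ BT ∧
        Even ((D1 \ (U1 ∪ {u, a})).card) := by
      have hu1' : u ∉ D1 \ U1 := fun h => hu2 (mem_sdiff.1 h).1
      have ha1U : a1 ∈ D1 \ U1 := by
        rw [mem_sdiff, hU1, mem_union, not_or]
        exact ⟨ha1, fun h => disjoint_left.1 hUZ h (by simp),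
          fun h => disjoint_left.1 hYZ h (by simp)⟩
      have h2 : D1 \ (U1 ∪ {u, a2}) = D1 \ U1 := by
        ext v
        simp only [mem_sdiff, mem_union, mem_insert, mem_singleton, not_or]
        constructor
        · rintro ⟨h3, h4, h5⟩
          exact ⟨h3, h4⟩
        · rintro ⟨h3, h4⟩
          refine ⟨h3, h4, ?_, ?_⟩
          · rintro rfl; exact hu2 h3
          · rintro rfl; exact disjoint_left.1 hdis h3 ha2
      have h3 : D1 \ (U1 ∪ {u, a1}) = (D1 \ U1).erase a1 := by
        ext v
        simp only [mem_sdiff, mem_union, mem_insert, mem_singleton, not_or, mem_erase]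
        constructor
        · rintro ⟨h3, h4, h5, h6⟩
          exact ⟨h6, h3, h4⟩
        · rintro ⟨h3, h4, h5⟩
          refine ⟨h4, h5, ?_, h3⟩
          rintro rfl; exact hu2 h4
      by_cases hev : Even ((D1 \ U1).card)
      · exact ⟨a2, Or.inr rfl, hua2, hD2 ha2, by rw [h2]; exact hev⟩
      · refine ⟨a1, Or.inl rfl, hua1, hD1 ha1, ?_⟩
        rw [h3, card_erase_of_mem ha1U]
        rw [Nat.not_even_iff_odd] at hev
        obtain ⟨c, hc⟩ := hev
        exact ⟨c, by omega⟩
    have haZ' : a ∈ ({u, a1, a2} : Finset V) := by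
      rcases haZ with h | h <;> rw [h] <;> simp
    have huZ' : u ∈ ({u, a1, a2} : Finset V) := by simp
    have haD : a ∈ D1 ∪ D2 := by
      rcases haZ with h | h <;> rw [h]
      · exact mem_union_left _ ha1
      · exact mem_union_right _ ha2
    have hKcard : ({u, a} : Finset V).card = 2 := card_pair hua.1
    -- the tile of `u`
    have hU0c : ((univ.image f).card : ℝ) ≤ κ * Fintype.card V := by
      rw [card_image_of_injective _ hf, card_univ]
      exact hr
    have hmUc : ((mU Mt).card : ℝ) ≤ 2 * (2 * q * (κ * Fintype.card V)) := by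
      have h1 := mU_card hRes
      have h2 : ((mU Mt).card : ℝ) ≤ 2 * ∑ i, ((Mt i).card : ℝ) := by
        rw [← Nat.cast_sum]
        exact_mod_cast h1
      linarith
    have hYc : (Y.card : ℝ) ≤ q * (2 * (κ * Fintype.card V)) := by
      rw [tl_card hYT, Nat.cast_mul]
      exact mul_le_mul_of_nonneg_left hSc (by linarith)
    set x : ℝ := κ * Fintype.card V with hx
    have hx0 : 0 ≤ x := by positivity
    have hXc : ((U1 ∪ mU Mt).card : ℝ) ≤ cd q * Fintype.card V := by
      have h1 : ((U1 ∪ mU Mt).card : ℝ) ≤ (univ.image f).card + Y.card + (mU Mt).card := by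
        have h2 := card_union_le U1 (mU Mt)
        have h3 : U1.card ≤ (univ.image f).card + Y.card := card_union_le _ _
        exact_mod_cast h2.trans (by omega)
      nlinarith
    obtain ⟨Yu, hKY, hYX, hYuc, hYuB, hYuA, -, hYui⟩ := tileK hC univ {u, a} (U1 ∪ mU Mt)
      (by
        intro p hp r hr
        rw [mem_insert, mem_singleton] at hp hr
        rcases hp with rfl | rfl <;> rcases hr with rfl | rfl
        · exact G.irrefl
        · exact hua.2
        · exact fun h => hua.2 h.symm
        · exact G.irrefl)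
      (by rw [hKcard]; omega) u hu1
      (by
        intro p hp
        rw [mem_insert, mem_singleton] at hp
        rcases hp with rfl | rfl
        · exact Or.inl rfl
        · exact Or.inr haT) hXc
    rw [hKcard, card_univ, Fintype.card_fin] at hYuc
    have hYuq : Yu.card = q := by omega
    -- elements of `Yu`
    have hYel : ∀ v ∈ Yu, v = u ∨ v = a ∨ (v ∉ U1 ∧ v ∉ mU Mt) := by
      intro v hv
      by_cases hvK : v ∈ ({u, a} : Finset V)
      · rw [mem_insert, mem_singleton] at hvK
        rcases hvK with h | h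
        · exact Or.inl h
        · exact Or.inr (Or.inl h)
      · right; right
        have := disjoint_left.1 hYX (mem_sdiff.2 ⟨hv, hvK⟩)
        rw [mem_union, not_or] at this
        exact this
    have hZU : ∀ v ∈ ({u, a1, a2} : Finset V), v ∉ U1 := by
      intro v hv h
      rw [hU1, mem_union] at h
      rcases h with h | h
      · exact disjoint_left.1 hUZ h hv
      · exact disjoint_left.1 hYZ h hv
    have hYuU1 : Disjoint Yu U1 := by
      rw [disjoint_left]
      intro v hv hv'
      rcases hYel v hv with h | h | h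
      · exact hZU u huZ' (h ▸ hv')
      · exact hZU a haZ' (h ▸ hv')
      · exact h.1 hv'
    have hB' : a ∈ B := hC.subB haT
    refine stage2_fin hC D1 D2 hD1 hD2 hD1n hD2n hdis hcross κ hκ0 hκ1 hw hDD R m e
      (B ∩ univ.image f).card hm hr f hf hfR hfA rfl Mt hRes hMc hMs (Y ∪ Yu) (S.card + 1)
      (tl_union hYT (tl_one hYuq hYui) ?_) ?_ ?_ ?_ ?_ ?_ ?_ ?_
    · exact (hYuU1.mono_right (subset_union_right)).symm
    · rw [disjoint_union_left]
      exact ⟨hYU, hYuU1.mono_right subset_union_left⟩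
    · intro i ed hed
      rw [disjoint_union_left]
      refine ⟨hYM i ed hed, ?_⟩
      rw [disjoint_left]
      intro v hv hv'
      have hvA : v ∈ A i := (mem_sdiff.1 ((hRes.1 i ed hed).1 hv')).1
      rcases hYel v hv with h | h | h
      · exact disjoint_left.1 (hC.disjB i) hvA (h ▸ hu1)
      · exact disjoint_left.1 (hC.disjB i) hvA (h ▸ hB')
      · exact h.2 (mem_mU.2 ⟨i, ed, hed, hv'⟩)
    · intro i
      rw [union_inter_distrib_right, card_union_of_disjoint, hYA i, hYuA i (mem_univ _)]
      exact ((hYuU1.mono_right (subset_union_right)).symm.mono_left inter_subset_left).mono_right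
        inter_subset_left
    · rw [union_inter_distrib_right, card_union_of_disjoint, hYB, hYuB, hKcard]
      · ring
      · exact ((hYuU1.mono_right (subset_union_right)).symm.mono_left
          inter_subset_left).mono_right inter_subset_left
    · intro v hv
      rw [mem_sdiff, mem_union, mem_union, not_or, not_or] at hv
      obtain ⟨hvB, hv1, hv2, hv3⟩ := hv
      by_contra hcon
      apply hv2
      apply hSY
      rw [hS, mem_sdiff, mem_sdiff]
      refine ⟨⟨hvB, hcon⟩, ?_⟩
      intro hvZ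
      rw [mem_insert, mem_insert, mem_singleton] at hvZ
      rcases hvZ with h | h | h
      · exact hv3 (hKY (by rw [h]; exact mem_insert_self _ _))
      · exact hcon (mem_union_left _ (h ▸ ha1))
      · exact hcon (mem_union_right _ (h ▸ ha2))
    · right
      have h1 : D1 \ (univ.image f ∪ (Y ∪ Yu)) = D1 \ (U1 ∪ {u, a}) := by
        ext v
        simp only [mem_sdiff, mem_union, mem_insert, mem_singleton, not_or, hU1]
        constructor
        · rintro ⟨h3, h4, h5, h6⟩
          refine ⟨h3, ⟨h4, h5⟩, ?_, ?_⟩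
          · intro h7
            exact h6 (hKY (by rw [h7]; exact mem_insert_self _ _))
          · intro h7
            exact h6 (hKY (by rw [h7]; exact mem_insert_of_mem (mem_singleton_self _)))
        · rintro ⟨h3, ⟨h4, h5⟩, h6, h7⟩
          refine ⟨h3, h4, h5, ?_⟩
          intro h8
          have h9 : v ∈ Yu ∩ B := mem_inter.2 ⟨h8, hC.subB (hD1 h3)⟩
          rw [hYuB, mem_insert, mem_singleton] at h9
          rcases h9 with h9 | h9
          · exact h6 h9
          · exact h7 h9
      rw [h1]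
      exact hapar
    · push_cast
      nlinarith
  · -- the ordinary case
    obtain ⟨f, Mt, Y, hf, hfR, hfA, hfB, hRes, hMc, hMs, hYT, hSY, hYU, hYZ, hUZ, hYM, hYA, hYB,
      hSc⟩ := stage2_mid hC D1 D2 hD1 hD2 hD1n hD2n hdis hcross κ hκ0 hκ1 hw hbig hDD R m e hdeg
        hm hr he1 he2 ∅ (by simp)
    refine stage2_fin hC D1 D2 hD1 hD2 hD1n hD2n hdis hcross κ hκ0 hκ1 hw hDD R m e
      (B ∩ univ.image f).card hm hr f hf hfR hfA rfl Mt hRes hMc hMs Y _ hYT hYU hYM hYA hYB
      ?_ (Or.inl (by omega)) ?_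
    · intro v hv
      rw [mem_sdiff, mem_union, not_or] at hv
      by_contra hcon
      apply hv.2.2
      apply hSY
      rw [sdiff_empty, mem_sdiff]
      exact ⟨hv.1, hcon⟩
    · have hx0 : 0 ≤ κ * Fintype.card V := by positivity
      nlinarith

end Pool.Agent.Helper64.BX
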