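import Pool.Agent.Helper64.BX.St.Prep
import Pool.Agent.Helper64.BX.St.Stage
import Pool.Agent.Helper64.BX.St.Pm
import Pool.Agent.Helper64.BX.St.Stage2

/-! BEC exact P3 (MP_436ed3_co), piece St2.  Paper: /team-store/BECX_P3_paper.md, parts D and E, s = 2.
κ₁ = min (cd q) (γ' / 16) for `prep`; γ₁ = min κ₁ (1/2), ε, M₀ from `pm`; κ ≤ κ₁ small compared with ε / q, 20 q² κ ≤ cd q; w = κ / (6 q²); μ = κ / (6 q²).
If hFB (for s = 2 and κ) holds: `stage`. Otherwise there is B' ⊆ BT, |B'| = 2 M, |BT \ B'| ≤ κ n without Tl 2 M B'; M ≥ N - (2 w + κ) n / 2, so the hypotheses of `pm` hold (a set Z ⊆ B' of size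
≥ (1 - γ₁) M has |Z| ≥ N - 2 κ₁ n, hence hn > 0 and an H-edge) and `pm` gives D1, D2: `stage2`.
-/

set_option autoImplicit false

namespace Pool.Agent.Helper64.BX

open Finset Classical

theorem cd_pos2 {q : ℕ} (hq : 2 ≤ q) : 0 < cd q := by
  have h : (0 : ℝ) < q := by
    have : 0 < q := by omega
    exact_mod_cast this
  unfold cd cc
  positivity

/-- The choice of a bad set: its half size `M` is close to `N`. -/
theorem st2_M {V : Type} [Fintype V] {G : SimpleGraph V} {q t d N : ℕ} {w : ℝ} {A AT : Fin t → Finset V}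
    {B BT : Finset V} (hC : Cls G q t 2 d N w A AT B BT) {κ : ℝ} (hw : 2 * w ≤ κ)
    {B' : Finset V} {M : ℕ} (hB' : B' ⊆ BT) (hM : B'.card = 2 * M)
    (hκ : ((BT \ B').card : ℝ) ≤ κ * Fintype.card V) :
    (N : ℝ) ≤ M + κ * Fintype.card V := by
  have h1 := hC.cardB1
  have h2 := hC.smB
  have h3 : ((B \ BT).card : ℝ) + BT.card = B.card := by
    exact_mod_cast card_sdiff_add_card_eq_card hC.subB
  have h4 : ((BT \ B').card : ℝ) + B'.card = BT.card := by
    exact_mod_cast card_sdiff_add_card_eq_card hB'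
  have h5 : (B'.card : ℝ) = 2 * M := by exact_mod_cast hM
  have h6 : 2 * w * Fintype.card V ≤ κ * Fintype.card V :=
    mul_le_mul_of_nonneg_right hw (Nat.cast_nonneg _)
  push_cast at h1
  linarith

theorem st2 (q t : ℕ) (hq : 2 ≤ q) (hts : t + 2 = q) : StageP q t 2 := by
  intro γ' hγ'
  have hq0 : (0 : ℝ) < q := by
    have : 0 < q := by omega
    exact_mod_cast this
  have hq2 : (2 : ℝ) ≤ q := by exact_mod_cast hq
  have hqq : (4 : ℝ) ≤ (q : ℝ) ^ 2 := by nlinarith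
  have hcd := cd_pos2 hq
  obtain ⟨κ₁, hκ₁⟩ : ∃ κ₁ : ℝ, κ₁ = min (cd q) (γ' / 16) := ⟨_, rfl⟩
  have hκ₁0 : 0 < κ₁ := by rw [hκ₁]; exact lt_min hcd (by positivity)
  have hκ₁1 : κ₁ ≤ cd q := by rw [hκ₁]; exact min_le_left _ _
  have hκ₁2 : 16 * κ₁ ≤ γ' := by
    have : κ₁ ≤ γ' / 16 := by rw [hκ₁]; exact min_le_right _ _
    linarith
  obtain ⟨γ₁, hγ₁⟩ : ∃ γ₁ : ℝ, γ₁ = min κ₁ (1 / 2) := ⟨_, rfl⟩
  have hγ₁0 : 0 < γ₁ := by rw [hγ₁]; exact lt_min hκ₁0 (by norm_num)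
  have hγ₁1 : γ₁ < 1 := by
    have : γ₁ ≤ 1 / 2 := by rw [hγ₁]; exact min_le_right _ _
    linarith
  have hγ₁κ : γ₁ ≤ κ₁ := by rw [hγ₁]; exact min_le_left _ _
  obtain ⟨ε, hε, M₀, hpm⟩ := pm γ₁ hγ₁0 hγ₁1
  obtain ⟨κ, hκ⟩ : ∃ κ : ℝ, κ = min (min κ₁ (cd q / (20 * (q : ℝ) ^ 2)))
    (min (ε / (4 * q)) (1 / (4 * q))) := ⟨_, rfl⟩
  have hκ0 : 0 < κ := by
    rw [hκ]
    exact lt_min (lt_min hκ₁0 (by positivity)) (lt_min (by positivity) (by positivity))
  have hκκ : κ ≤ κ₁ := by rw [hκ]; exact (min_le_left _ _).trans (min_le_left _ _)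
  have hκ1 : κ ≤ cd q := hκκ.trans hκ₁1
  have hκ20 : 20 * (q : ℝ) ^ 2 * κ ≤ cd q := by
    have h : κ ≤ cd q / (20 * (q : ℝ) ^ 2) := by
      rw [hκ]; exact (min_le_left _ _).trans (min_le_right _ _)
    rwa [le_div_iff₀' (by positivity)] at h
  have hκε : 4 * q * κ ≤ ε := by
    have h : κ ≤ ε / (4 * q) := by rw [hκ]; exact (min_le_right _ _).trans (min_le_left _ _)
    rwa [le_div_iff₀' (by positivity)] at h
  have hκq : 4 * q * κ ≤ 1 := by
    have h : κ ≤ 1 / (4 * q) := by rw [hκ]; exact (min_le_right _ _).trans (min_le_right _ _)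
    rwa [le_div_iff₀' (by positivity)] at h
  obtain ⟨w, hw⟩ : ∃ w : ℝ, w = κ / (6 * (q : ℝ) ^ 2) := ⟨_, rfl⟩
  have hw0 : 0 < w := by rw [hw]; positivity
  have hw6 : 6 * (q : ℝ) ^ 2 * w = κ := by rw [hw]; field_simp
  have hw2 : 2 * w ≤ κ := by nlinarith
  have hwκ : w ≤ κ := by linarith
  obtain ⟨γ, hγ, hγγ, n₀, h⟩ := prep q t 2 hq hts (by norm_num) γ' hγ' κ₁ hκ₁0 hκ₁1 hκ₁2
    w hw0 (by linarith)
  obtain ⟨n₁, hn₁⟩ := exists_nat_gt ((q : ℝ) / κ)
  refine ⟨γ, hγ, hγγ, w, hw0, max n₀ (max n₁ (4 * q * (M₀ + 1))), ?_⟩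
  intro V _ G d N A0 h1 h2 h3 h4 h5 h6 h7 hZ W _ R m h8 h9 h10
  have hn₀ : n₀ ≤ Fintype.card V := (le_max_left _ _).trans h1
  have hn₁' : n₁ ≤ Fintype.card V := ((le_max_left _ _).trans (le_max_right _ _)).trans h1
  have hnM : 4 * q * (M₀ + 1) ≤ Fintype.card V :=
    ((le_max_right _ _).trans (le_max_right _ _)).trans h1
  obtain ⟨A, AT, B, BT, hC, hne, hK⟩ := h V G d N A0 hn₀ h2 h3 h4 h5 h6 h7 (hZ (by norm_num))
  have hr : (Fintype.card W : ℝ) ≤ κ * Fintype.card V :=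
    h10.trans (mul_le_mul_of_nonneg_right hwκ (Nat.cast_nonneg _))
  have hr6 : 6 * (q : ℝ) ^ 2 * (Fintype.card W : ℝ) ≤ κ * Fintype.card V := by
    calc 6 * (q : ℝ) ^ 2 * (Fintype.card W : ℝ) ≤ 6 * (q : ℝ) ^ 2 * (w * Fintype.card V) :=
          mul_le_mul_of_nonneg_left h10 (by positivity)
      _ = (6 * (q : ℝ) ^ 2 * w) * Fintype.card V := by ring
      _ = κ * Fintype.card V := by rw [hw6]
  by_cases hFB : ∀ (B' : Finset V) (M : ℕ), B' ⊆ BT → B'.card = 2 * M →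
      ((BT \ B').card : ℝ) ≤ κ * Fintype.card V → Tl G 2 M B'
  · exact stage hC (by norm_num) κ hκ0 hκ1 hw6.le hFB
      (fun X hX => hK X (hX.trans (mul_le_mul_of_nonneg_right hκκ (Nat.cast_nonneg _))))
      R m h8 h9 h4 hr6
  · push Not at hFB
    obtain ⟨B', M, hB', hM, hBT, hTl⟩ := hFB
    have hNM := st2_M hC hw2 hB' hM hBT
    -- the size of `M`
    have hV : (0 : ℝ) ≤ Fintype.card V := Nat.cast_nonneg _
    have hNq : (Fintype.card V : ℝ) ≤ q * (N + 1) := by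
      have h11 : Fintype.card V < q * (N + 1) := by
        rw [h2, mul_comm]
        exact Nat.lt_mul_of_div_lt (Nat.lt_succ_self _) (by omega)
      exact_mod_cast h11.le
    have hnM' : 4 * q * ((M₀ : ℝ) + 1) ≤ Fintype.card V := by exact_mod_cast hnM
    -- `4 q M ≥ 2 n`, say
    have hM1 : 2 * (Fintype.card V : ℝ) ≤ 4 * q * M + Fintype.card V := by
      have a1 : (q : ℝ) * N ≤ q * (M + κ * Fintype.card V) :=
        mul_le_mul_of_nonneg_left hNM hq0.le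
      have a2 : 4 * q * κ * Fintype.card V ≤ 1 * Fintype.card V :=
        mul_le_mul_of_nonneg_right hκq hV
      have a3 : 4 * (q : ℝ) ≤ Fintype.card V := by
        have : (0 : ℝ) ≤ 4 * q * M₀ := by positivity
        linarith
      linarith
    have hM₀ : M₀ ≤ M := by
      have a1 : 4 * (q : ℝ) * M₀ ≤ 4 * q * M := by linarith
      have a2 : (M₀ : ℝ) ≤ M := le_of_mul_le_mul_left a1 (by positivity)
      exact_mod_cast a2
    have hκM : κ * Fintype.card V ≤ ε * M := by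
      have a1 : (Fintype.card V : ℝ) ≤ 4 * q * M := by linarith
      calc κ * Fintype.card V ≤ κ * (4 * q * M) := mul_le_mul_of_nonneg_left a1 hκ0.le
        _ = (4 * q * κ) * M := by ring
        _ ≤ ε * M := mul_le_mul_of_nonneg_right hκε (Nat.cast_nonneg _)
    have hdN : (d : ℝ) ≤ N := by exact_mod_cast hC.dN
    have hMn : (M : ℝ) ≤ Fintype.card V := by
      have a1 : 2 * M ≤ Fintype.card V := by rw [← hM]; exact card_le_univ _
      have a2 : M ≤ Fintype.card V := by omega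
      exact_mod_cast a2
    have hdeg' : ∀ v ∈ B', (dg G v B' : ℝ) ≤ (1 + ε) * M := by
      intro v _
      have a1 : (dg G v B' : ℝ) ≤ dg G v univ := by exact_mod_cast dg_mono (subset_univ _)
      have a2 : (dg G v univ : ℝ) ≤ d := by exact_mod_cast h3 v
      linarith
    have hedge : ∀ Z, Z ⊆ B' → (1 - γ₁) * (M : ℝ) ≤ Z.card → ∃ x ∈ Z, ∃ y ∈ Z, HA G x y := by
      intro Z hZ' hZc
      have a1 : γ₁ * M ≤ κ₁ * Fintype.card V :=
        mul_le_mul hγ₁κ hMn (Nat.cast_nonneg _) hκ₁0.le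
      have a2 : κ * Fintype.card V ≤ κ₁ * Fintype.card V := mul_le_mul_of_nonneg_right hκκ hV
      have a3 : (N : ℝ) - 2 * κ₁ * Fintype.card V ≤ Z.card := by linarith
      have a4 : 0 < hn G Z := by
        have b1 := hne Z (hZ'.trans hB') a3
        have b2 : (0 : ℝ) < Fintype.card V := by
          have : (0 : ℝ) < 4 * q * ((M₀ : ℝ) + 1) := by positivity
          linarith
        have b3 : 0 < γ' / 2 * (Fintype.card V : ℝ) ^ 2 := by positivity
        exact_mod_cast b3.trans_le b1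
      obtain ⟨p, hp⟩ := card_pos.mp a4
      rw [mem_filter, mem_product] at hp
      exact ⟨p.1, hp.1.1, p.2, hp.1.2, hp.2⟩
    rcases hpm V G B' M hM₀ hM hdeg' hedge with hT | hD
    · exact absurd hT hTl
    · obtain ⟨D1, D2, e1, e2, e3, e4, e5⟩ := hD
      have e6 : D1 ⊆ BT := (subset_union_left.trans e1.subset).trans hB'
      have e7 : D2 ⊆ BT := (subset_union_right.trans e1.subset).trans hB'
      have hbig : (q : ℝ) ≤ κ * Fintype.card V := by
        have a1 : (n₁ : ℝ) ≤ Fintype.card V := by exact_mod_cast hn₁'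
        have a2 : (q : ℝ) / κ ≤ Fintype.card V := hn₁.le.trans a1
        rwa [div_le_iff₀' hκ0] at a2
      exact stage2 hC D1 D2 e6 e7 e2 e3 e4 e5 κ hκ0 hκ20 hwκ hbig (by rw [e1]; exact hBT)
        R m h8 h9 h4 hr

end Pool.Agent.Helper64.BX
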