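import Pool.Agent.Helper64.BX.Defs
import Pool.Agent.Helper69.NE.Main

/-! BEC exact P3 (MP_436ed3_co), piece NeThm.  Paper: /team-store/BECX_P3_paper.md, (A), Theorem NE.
Proof: Pool/Agent/Helper69/NE.
-/

set_option autoImplicit false

namespace Pool.Agent.Helper64.BX

open Finset Classical

theorem ne_hn {V : Type} (G : SimpleGraph V) (Z : Finset V) :
    Pool.Agent.Helper69.NE.hn G Z = hn G Z := by
  unfold Pool.Agent.Helper69.NE.hn hn HA
  congr 1
  ext p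
  simp only [mem_filter]

theorem ne_theorem (s : ℕ) (hs : 3 ≤ s) (γ : ℝ) (h0 : 0 < γ) :
    ∃ ε : ℝ, 0 < ε ∧ ∃ M₀ : ℕ, ∀ (V : Type) (G : SimpleGraph V) (U : Finset V) (M : ℕ),
      M₀ ≤ M → U.card = s * M → (∀ v ∈ U, (dg G v U : ℝ) ≤ (1 + ε) * M) →
      (∀ Z, Z ⊆ U → (1 - γ) * (M : ℝ) ≤ Z.card → γ * (M : ℝ) ^ 2 ≤ hn G Z) →
      Tl G s M U := by
  obtain ⟨ε, hε, M0, h⟩ := Pool.Agent.Helper69.NE.ne_set s hs γ h0
  refine ⟨ε, hε, M0, ?_⟩
  intro V G U M hM hU hdeg hNE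
  obtain ⟨F, hF, hFU⟩ := h M hM V G U hU hdeg (fun Z hZ hc => by
    rw [ne_hn]
    exact hNE Z hZ hc)
  have hc := Pool.Agent.Helper69.NE.card_til hF
  rw [hFU, hU] at hc
  have hcF : F.card = M := (Nat.eq_of_mul_eq_mul_left (by omega) hc).symm
  let e : Fin M ≃ F := (finCongr hcF.symm).trans F.equivFin.symm
  refine ⟨fun i => (e i : Finset V), fun i => hF.card _ (e i).2, fun i => hF.ind _ (e i).2, ?_, ?_⟩
  · intro i j hij
    refine hF.disj _ (e i).2 _ (e j).2 ?_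
    intro heq
    exact hij (e.injective (Subtype.ext heq))
  · rw [← hFU]
    ext v
    simp only [mem_biUnion, mem_univ, true_and, id]
    constructor
    · rintro ⟨i, hi⟩
      exact ⟨_, (e i).2, hi⟩
    · rintro ⟨T, hT, hv⟩
      exact ⟨e.symm ⟨T, hT⟩, by simpa using hv⟩

end Pool.Agent.Helper64.BX
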