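import Pool.Agent.Helper64.BX.St.Prep
import Pool.Agent.Helper64.BX.St.Stage
import Pool.Agent.Helper64.BX.St.NeThm

/-! BEC exact P3 (MP_436ed3_co), piece St3.  Paper: /team-store/BECX_P3_paper.md, part D, s ≥ 3.
`prep` with small κ, w = κ / (6 q²), then `stage`, μ = κ / (6 q²). hFB from `ne_theorem s γ₁` for a small γ₁ (γ₁ ≤ γ' / 2, γ₁ ≤ κ₁ etc.): for B' ⊆ BT, |B'| = s M, |BT \ B'| ≤ κ n:
M ≥ N - (2 w + κ) n / s (so N ≤ (1+ε) M if κ is small compared with ε / q and n is large), M ≤ n, and Z ⊆ B', |Z| ≥ (1 - γ₁) M has |Z| ≥ N - 2 κ₁ n where κ₁ is the constant used in `prep`.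
Order of the choices: κ₁ = min (cd q) (γ' / 16); γ₁ = min (γ'/2) κ₁ (and ≤ 1/2); ε, M₀ from `ne_theorem`; κ ≤ κ₁ small compared with ε; w ≤ κ / (6 q²). `prep` is used with κ₁ and `stage`
with κ (hK for κ follows from hK for κ₁).
-/

set_option autoImplicit false

namespace Pool.Agent.Helper64.BX

open Finset Classical

theorem mul_div_self3 {q : ℕ} (hq : 2 ≤ q) (x : ℝ) :
    6 * (q : ℝ) ^ 2 * (x / (6 * (q : ℝ) ^ 2)) = x := by
  have h : (q : ℝ) ≠ 0 := by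
    have : q ≠ 0 := by omega
    exact_mod_cast this
  field_simp

/-- the tiling property of large subsets of `BT` -/
theorem hFB3 {V : Type} [Fintype V] {G : SimpleGraph V} {q t s d N : ℕ} {w : ℝ}
    {A AT : Fin t → Finset V} {B BT : Finset V} (hC : Cls G q t s d N w A AT B BT) (hs : 3 ≤ s)
    (γ' κ₁ γ₁ ε κ : ℝ) (hγ1 : γ₁ ≤ γ' / 2) (hγ0 : 0 < γ₁) (hγκ : γ₁ ≤ κ₁) (hε : 0 < ε)
    (hκ0 : 0 < κ) (hκκ : κ ≤ κ₁) (hκε : 4 * (q : ℝ) * κ ≤ ε) (hκq : 4 * (q : ℝ) * κ ≤ 1)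
    (hw : 24 * w ≤ κ) (M₀ : ℕ) (hn0 : 4 * (q : ℝ) * (M₀ + 1) ≤ Fintype.card V)
    (hM : ∀ (U : Finset V) (M : ℕ),
      M₀ ≤ M → U.card = s * M → (∀ v ∈ U, (dg G v U : ℝ) ≤ (1 + ε) * M) →
      (∀ Z, Z ⊆ U → (1 - γ₁) * (M : ℝ) ≤ Z.card → γ₁ * (M : ℝ) ^ 2 ≤ hn G Z) →
      Tl G s M U)
    (hne : ∀ Z, Z ⊆ BT → (N : ℝ) - 2 * κ₁ * Fintype.card V ≤ Z.card →
      γ' / 2 * (Fintype.card V : ℝ) ^ 2 ≤ hn G Z)
    (B' : Finset V) (M : ℕ) (hB : B' ⊆ BT) (hcard : B'.card = s * M)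
    (hsm : ((BT \ B').card : ℝ) ≤ κ * Fintype.card V) : Tl G s M B' := by
  have hq2 := hC.q2
  have hq0 : (0 : ℝ) < q := by
    have : 0 < q := by omega
    exact_mod_cast this
  have hs3 : (3 : ℝ) ≤ s := by exact_mod_cast hs
  obtain ⟨n, hn⟩ : ∃ n : ℝ, n = (Fintype.card V : ℝ) := ⟨_, rfl⟩
  have hM00 : (0 : ℝ) ≤ M₀ := Nat.cast_nonneg _
  have hnpos : 0 < n := by
    rw [hn]
    have : 0 < 4 * (q : ℝ) * (M₀ + 1) := by positivity
    linarith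
  have hw0 := hC.w0
  -- lower bound for `s * M`
  have e1 : (BT.card : ℝ) = (BT \ B').card + B'.card := by
    have h := card_sdiff_add_card_eq_card hB
    exact_mod_cast h.symm
  have e2 : (B.card : ℝ) = (B \ BT).card + BT.card := by
    have h := card_sdiff_add_card_eq_card hC.subB
    exact_mod_cast h.symm
  have e3 := hC.cardB1
  have e4 := hC.smB
  have e5 : (B'.card : ℝ) = s * M := by exact_mod_cast hcard
  rw [← hn] at e3 e4 hsm hn0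
  have e6 : (s : ℝ) * N ≤ s * M + (2 * w + κ) * n := by nlinarith
  -- divided by `s`
  have e7 : (N : ℝ) ≤ M + κ / 2 * n := by
    have h1 : (2 * w + κ) * n ≤ s * (κ / 2 * n) := by
      have h2 : (2 * w + κ) * n ≤ 3 * (κ / 2) * n := by
        apply mul_le_mul_of_nonneg_right _ hnpos.le
        linarith
      have h3 : 3 * (κ / 2 * n) ≤ s * (κ / 2 * n) :=
        mul_le_mul_of_nonneg_right hs3 (by positivity)
      linarith
    have h4 : (s : ℝ) * N ≤ s * (M + κ / 2 * n) := by linarith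
    exact le_of_mul_le_mul_left h4 (by linarith)
  -- `N` is large
  have e8 : n ≤ q * (N + 1) := by
    have h1 : Fintype.card V < q * (N + 1) := by
      rw [hC.hN]
      exact Nat.lt_mul_div_succ _ (by omega)
    rw [hn]
    exact_mod_cast h1.le
  have e9 : 4 * (q : ℝ) * (κ / 2 * n) ≤ n / 2 := by nlinarith
  have e10 : n ≤ 4 * q * M := by nlinarith
  have e11 : (M₀ : ℝ) + 1 ≤ M := by
    have h1 : 4 * (q : ℝ) * (M₀ + 1) ≤ 4 * q * M := hn0.trans e10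
    exact le_of_mul_le_mul_left h1 (by positivity)
  have e12 : M₀ ≤ M := by
    have h1 : (M₀ : ℝ) ≤ M := by linarith
    exact_mod_cast h1
  -- `M ≤ n`
  have e13 : (M : ℝ) ≤ n := by
    have h1 : B'.card ≤ Fintype.card V := card_le_univ _
    have h2 : M ≤ s * M := Nat.le_mul_of_pos_left _ (by omega)
    rw [hn]
    exact_mod_cast h2.trans (hcard ▸ h1)
  have hMpos : (0 : ℝ) ≤ M := Nat.cast_nonneg _
  refine hM B' M e12 hcard ?_ ?_
  · intro v _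
    have h1 : dg G v B' ≤ N := (dg_mono (subset_univ _)).trans ((hC.deg v).trans hC.dN)
    have h2 : (dg G v B' : ℝ) ≤ N := by exact_mod_cast h1
    have h3 : κ / 2 * n ≤ ε * M := by
      have h4 : κ / 2 * n ≤ κ / 2 * (4 * q * M) :=
        mul_le_mul_of_nonneg_left e10 (by positivity)
      have h5 : 4 * (q : ℝ) * κ * M ≤ ε * M := mul_le_mul_of_nonneg_right hκε hMpos
      have h6 : 0 ≤ 4 * (q : ℝ) * κ * M := by positivity
      nlinarith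
    linarith
  · intro Z hZ hZc
    have h1 : (N : ℝ) - 2 * κ₁ * n ≤ Z.card := by
      have h2 : γ₁ * M ≤ κ₁ * n := mul_le_mul hγκ e13 hMpos (by linarith)
      have h3 : κ / 2 * n ≤ κ₁ * n := mul_le_mul_of_nonneg_right (by linarith) hnpos.le
      linarith
    rw [hn] at h1
    have h4 := hne Z (hZ.trans hB) h1
    rw [← hn] at h4
    refine le_trans ?_ h4
    have h5 : (M : ℝ) ^ 2 ≤ n ^ 2 := by gcongr
    have h6 : γ₁ * (M : ℝ) ^ 2 ≤ γ₁ * n ^ 2 := mul_le_mul_of_nonneg_left h5 hγ0.le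
    have h7 : γ₁ * n ^ 2 ≤ γ' / 2 * n ^ 2 := mul_le_mul_of_nonneg_right hγ1 (by positivity)
    exact h6.trans h7

theorem st3 (q t s : ℕ) (hq : 2 ≤ q) (hts : t + s = q) (hs : 3 ≤ s) : StageP q t s := by
  intro γ' hγ'
  have hq0 : (0 : ℝ) < q := by
    have : 0 < q := by omega
    exact_mod_cast this
  have hq2 : (2 : ℝ) ≤ q := by exact_mod_cast hq
  have hcd : 0 < cd q := by
    unfold cd cc
    positivity
  -- the constants
  obtain ⟨κ₁, hκ₁⟩ : ∃ κ : ℝ, κ = min (cd q) (γ' / 16) := ⟨_, rfl⟩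
  have hκ₁0 : 0 < κ₁ := by rw [hκ₁]; exact lt_min hcd (by positivity)
  have hκ₁1 : κ₁ ≤ cd q := by rw [hκ₁]; exact min_le_left _ _
  have hκ₁2 : 16 * κ₁ ≤ γ' := by
    have : κ₁ ≤ γ' / 16 := by rw [hκ₁]; exact min_le_right _ _
    linarith
  have hκ₁3 : κ₁ ≤ γ' / 2 := by linarith
  obtain ⟨ε, hε, M₀, hM⟩ := ne_theorem s hs κ₁ hκ₁0
  obtain ⟨κ, hκ⟩ : ∃ κ : ℝ, κ = min κ₁ (min (ε / (4 * q)) (1 / (4 * q))) := ⟨_, rfl⟩
  have hκ0 : 0 < κ := by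
    rw [hκ]
    exact lt_min hκ₁0 (lt_min (by positivity) (by positivity))
  have hκκ : κ ≤ κ₁ := by rw [hκ]; exact min_le_left _ _
  have hκε : 4 * (q : ℝ) * κ ≤ ε := by
    have h1 : κ ≤ ε / (4 * q) := by rw [hκ]; exact (min_le_right _ _).trans (min_le_left _ _)
    rwa [le_div_iff₀' (by positivity)] at h1
  have hκq : 4 * (q : ℝ) * κ ≤ 1 := by
    have h1 : κ ≤ 1 / (4 * q) := by rw [hκ]; exact (min_le_right _ _).trans (min_le_right _ _)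
    rwa [le_div_iff₀' (by positivity)] at h1
  have hw0 : 0 < κ / (6 * (q : ℝ) ^ 2) := by positivity
  have hww := mul_div_self3 hq κ
  have hw24 : 24 * (κ / (6 * (q : ℝ) ^ 2)) ≤ κ := by
    have h1 : (24 : ℝ) ≤ 6 * (q : ℝ) ^ 2 := by nlinarith
    calc 24 * (κ / (6 * (q : ℝ) ^ 2)) ≤ 6 * (q : ℝ) ^ 2 * (κ / (6 * (q : ℝ) ^ 2)) :=
          mul_le_mul_of_nonneg_right h1 hw0.le
      _ = κ := hww
  obtain ⟨γ, hγ, hγγ, n₀, h⟩ := prep q t s hq hts (by omega) γ' hγ' κ₁ hκ₁0 hκ₁1 hκ₁2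
    (κ / (6 * (q : ℝ) ^ 2)) hw0 (hww.le.trans hκκ)
  refine ⟨γ, hγ, hγγ, κ / (6 * (q : ℝ) ^ 2), hw0, max n₀ (4 * q * (M₀ + 1)), ?_⟩
  intro V _ G d N A0 h1 h2 h3 h4 h5 h6 h7 hZ W _ R m h8 h9 h10
  obtain ⟨A, AT, B, BT, hC, hne, hK⟩ := h V G d N A0 ((le_max_left _ _).trans h1) h2 h3 h4 h5 h6
    h7 (hZ (by omega))
  have hn0 : 4 * (q : ℝ) * (M₀ + 1) ≤ Fintype.card V := by
    exact_mod_cast (le_max_right _ _).trans h1
  have hc : (0 : ℝ) ≤ Fintype.card V := Nat.cast_nonneg _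
  refine stage hC (by omega) κ hκ0 (hκκ.trans hκ₁1) hww.le ?_ ?_ R m h8 h9 h4 ?_
  · intro B' M hB' hcard hsm
    exact hFB3 hC hs γ' κ₁ κ₁ ε κ hκ₁3 hκ₁0 le_rfl hε hκ0 hκκ hκε hκq hw24 M₀ hn0
      (fun U M => hM V G U M) hne B' M hB' hcard hsm
  · intro X hX
    exact hK X (hX.trans (mul_le_mul_of_nonneg_right hκκ hc))
  · calc 6 * (q : ℝ) ^ 2 * (Fintype.card W : ℝ)
        ≤ 6 * (q : ℝ) ^ 2 * (κ / (6 * (q : ℝ) ^ 2) * Fintype.card V) :=
          mul_le_mul_of_nonneg_left h10 (by positivity)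
      _ = (6 * (q : ℝ) ^ 2 * (κ / (6 * (q : ℝ) ^ 2))) * Fintype.card V := by ring
      _ = κ * Fintype.card V := by rw [mul_div_self3 hq]

end Pool.Agent.Helper64.BX
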