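import Pool.Agent.Helper64.BX.Basic

/-! BEC exact P3 (MP_436ed3_co), piece ClsCount.  Paper: /team-store/BECX_P3_paper.md, (C), counting of exceptional vertices.
For a ∈ A0: dg a A0 + 1 + #(H-neighbours in A0) = N (`card_HA_add_of_mem`), so dg a (univ \ A0) ≤ d - dg a A0 ≤ 1 + #(H-neighbours in A0); sum over A0. Double counting for the second one. Markov.
-/

set_option autoImplicit false

namespace Pool.Agent.Helper64.BX

open Finset Classical

variable {V : Type}

theorem hn_eq (G : SimpleGraph V) (Z : Finset V) :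
    hn G Z = ∑ v ∈ Z, (Z.filter fun u => HA G v u).card := by
  unfold hn
  rw [card_filter, sum_product]
  refine sum_congr rfl fun v _ => ?_
  rw [card_filter]

/-- Markov inequality for finite sums. -/
theorem markov_le (S : Finset V) (f : V → ℕ) (x : ℝ) :
    x * ((S.filter fun a => x ≤ (f a : ℝ)).card : ℝ) ≤ ((∑ a ∈ S, f a : ℕ) : ℝ) := by
  have h1 : x * ((S.filter fun a => x ≤ (f a : ℝ)).card : ℝ) ≤
      ∑ a ∈ S.filter (fun a => x ≤ (f a : ℝ)), (f a : ℝ) := by
    have := Finset.card_nsmul_le_sum (S.filter fun a => x ≤ (f a : ℝ)) (fun a => (f a : ℝ)) x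
      (fun a ha => (mem_filter.1 ha).2)
    rw [nsmul_eq_mul, mul_comm] at this
    exact this
  have h2 : ∑ a ∈ S.filter (fun a => x ≤ (f a : ℝ)), (f a : ℝ) ≤ ∑ a ∈ S, (f a : ℝ) :=
    sum_le_sum_of_subset_of_nonneg (filter_subset _ _) (fun a _ _ => Nat.cast_nonneg _)
  push_cast
  exact h1.trans h2

theorem markov_lt (S : Finset V) (f : V → ℕ) (x : ℝ) (hx : 0 ≤ x) :
    x * ((S.filter fun a => x < (f a : ℝ)).card : ℝ) ≤ ((∑ a ∈ S, f a : ℕ) : ℝ) := by
  refine le_trans ?_ (markov_le S f x)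
  refine mul_le_mul_of_nonneg_left ?_ hx
  exact_mod_cast card_le_card (fun a ha => by
    rw [mem_filter] at ha ⊢
    exact ⟨ha.1, ha.2.le⟩)

theorem cross_le [Fintype V] (G : SimpleGraph V) (d N : ℕ) (A0 : Finset V)
    (hdeg : ∀ v, dg G v univ ≤ d) (hd : d ≤ N) (hc : A0.card = N) :
    ∑ a ∈ A0, dg G a (univ \ A0) ≤ N + hn G A0 := by
  rw [hn_eq]
  have h : ∀ a ∈ A0, dg G a (univ \ A0) ≤ 1 + (A0.filter fun u => HA G a u).card := by
    intro a ha
    have h1 := dg_sdiff_add (G := G) a (subset_univ A0)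
    have h2 := card_HA_add_of_mem (G := G) ha
    have h3 := hdeg a
    omega
  refine (sum_le_sum h).trans ?_
  rw [sum_add_distrib, sum_const, smul_eq_mul, mul_one, hc]

theorem cross_eq [Fintype V] (G : SimpleGraph V) (A0 : Finset V) :
    ∑ v ∈ univ \ A0, dg G v A0 = ∑ a ∈ A0, dg G a (univ \ A0) := by
  unfold dg
  simp_rw [card_filter]
  rw [sum_comm]
  refine sum_congr rfl fun a _ => sum_congr rfl fun v _ => ?_
  rw [G.adj_comm]

theorem few_in [Fintype V] (G : SimpleGraph V) (d N : ℕ) (A0 : Finset V)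
    (hdeg : ∀ v, dg G v univ ≤ d) (hd : d ≤ N) (hc : A0.card = N) (x : ℝ) (hx : 0 ≤ x) :
    x * ((A0.filter fun a => x < (dg G a (univ \ A0) : ℝ)).card : ℝ) ≤ N + hn G A0 := by
  refine (markov_lt A0 (fun a => dg G a (univ \ A0)) x hx).trans ?_
  exact_mod_cast cross_le G d N A0 hdeg hd hc

theorem few_out [Fintype V] (G : SimpleGraph V) (d N : ℕ) (A0 : Finset V)
    (hdeg : ∀ v, dg G v univ ≤ d) (hd : d ≤ N) (hc : A0.card = N) (x : ℝ) (hx : 0 ≤ x) :
    x * (((univ \ A0).filter fun v => x ≤ (dg G v A0 : ℝ)).card : ℝ) ≤ N + hn G A0 := by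
  refine (markov_le (univ \ A0) (fun a => dg G a A0) x).trans ?_
  rw [cross_eq]
  exact_mod_cast cross_le G d N A0 hdeg hd hc

theorem few_H (G : SimpleGraph V) (A0 : Finset V) (x : ℝ) (hx : 0 ≤ x) :
    x * ((A0.filter fun a => x < ((A0.filter fun u => HA G a u).card : ℝ)).card : ℝ) ≤
      hn G A0 := by
  refine (markov_lt A0 (fun a => (A0.filter fun u => HA G a u).card) x hx).trans ?_
  rw [hn_eq]

end Pool.Agent.Helper64.BX
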