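import Pool.Agent.Helper64.BX.Basic
import Pool.Agent.Helper64.BX.St.ClsCount

/-! BEC exact P3 (MP_436ed3_co), piece Classes.  Paper: /team-store/BECX_P3_paper.md, (C).
A i = {v | number of H-neighbours of v in A0 i is ≤ cc q * n} (disjoint: otherwise v has ≥ 2 (N - 1 - cc q n) G-neighbours), B = the rest. By `few_H` |A0 i \ A i| ≤ (γ / cc q) n; by `few_out`
(x = N - cc q n) |A i \ A0 i| ≤ (N + γ n²) / (N - cc q n); so both are ≤ w' n for any prescribed w' (γ small, n large). v ∈ A i has ≥ N - 1 - cc q n G-neighbours in A0 i, so bnd.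
AT i = {v ∈ A i | dg v (univ \ A i) ≤ cd q n}: for v ∈ A0 i use `few_in` (x = cd q n / 2). BT = {v ∈ B | ∀ i, dg v (A i) ≤ cd q n}: v ∈ B \ BT lies in some A0 j \ A j or has
dg v (A0 i) ≥ cd q n / 2 for some i (`few_out`). flx: v ∈ B has > cc q n H-neighbours in A0 i. cardB: |B| = n - ∑ |A i|, n = q N + (n mod q).
-/

set_option autoImplicit false

namespace Pool.Agent.Helper64.BX

open Finset Classical

theorem cls_dg_ge {V : Type} {G : SimpleGraph V} (v : V) (S : Finset V) :
    S.card ≤ (S.filter fun u => HA G v u).card + dg G v S + 1 := by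
  by_cases h : v ∈ S
  · exact (card_HA_add_of_mem h).ge
  · have := card_HA_add (G := G) h
    omega

theorem cls_dg_out {V : Type} [Fintype V] {G : SimpleGraph V} (v : V) (A A0 : Finset V) :
    dg G v (univ \ A) ≤ dg G v (univ \ A0) + (A0 \ A).card := by
  have h1 : univ \ A ⊆ (univ \ A0) ∪ (A0 \ A) := by
    intro x hx
    rw [mem_sdiff] at hx
    rw [mem_union, mem_sdiff, mem_sdiff]
    by_cases h : x ∈ A0
    · exact Or.inr ⟨h, hx.2⟩
    · exact Or.inl ⟨mem_univ _, h⟩
  calc dg G v (univ \ A) ≤ dg G v ((univ \ A0) ∪ (A0 \ A)) := dg_mono h1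
    _ ≤ dg G v (univ \ A0) + dg G v (A0 \ A) := dg_union_le _ _ _
    _ ≤ _ := by gcongr; exact dg_le_card _ _

theorem cls_dg_in {V : Type} {G : SimpleGraph V} (v : V) (A A0 : Finset V) :
    dg G v A ≤ dg G v A0 + (A \ A0).card := by
  have h1 : A ⊆ A0 ∪ (A \ A0) := by
    intro x hx
    rw [mem_union, mem_sdiff]
    by_cases h : x ∈ A0
    · exact Or.inl h
    · exact Or.inr ⟨hx, h⟩
  calc dg G v A ≤ dg G v (A0 ∪ (A \ A0)) := dg_mono h1
    _ ≤ dg G v A0 + dg G v (A \ A0) := dg_union_le _ _ _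
    _ ≤ _ := by gcongr; exact dg_le_card _ _

/-- the class of one nearly independent set -/
noncomputable def clsA {V : Type} [Fintype V] (G : SimpleGraph V) (A0 : Finset V) (x : ℝ) :
    Finset V :=
  univ.filter fun v => ((A0.filter fun u => HA G v u).card : ℝ) ≤ x

theorem mem_clsA {V : Type} [Fintype V] {G : SimpleGraph V} {A0 : Finset V} {x : ℝ} {v : V} :
    v ∈ clsA G A0 x ↔ ((A0.filter fun u => HA G v u).card : ℝ) ≤ x := by
  unfold clsA
  simp

theorem cls_single {V : Type} [Fintype V] (G : SimpleGraph V) (d N : ℕ) (A0 : Finset V)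
    (c c1 w' g n : ℝ) (hn : 0 < n) (hc1 : 0 < c1)
    (hg : 0 ≤ g)
    (h2 : c1 * n / 2 ≤ N - c * n) (h3 : (N : ℝ) + g * n ^ 2 ≤ (c1 * n / 2) * (w' * n))
    (h4 : c1 ≤ c) (h5 : w' ≤ c1 / 2) (h6 : 1 ≤ c * n / 2)
    (hdN : d ≤ N) (hdeg : ∀ v, dg G v univ ≤ d) (hcard : A0.card = N)
    (hhn : (BX.hn G A0 : ℝ) ≤ g * n ^ 2) :
    ((A0 \ clsA G A0 (c * n)).card : ℝ) ≤ w' * n ∧
    ((clsA G A0 (c * n) \ A0).card : ℝ) ≤ w' * n ∧
    (∀ v ∈ clsA G A0 (c * n), (dg G v (univ \ clsA G A0 (c * n)) : ℝ) ≤ 2 * c * n) ∧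
    ((((clsA G A0 (c * n)).filter fun v =>
      c1 * n < (dg G v (univ \ clsA G A0 (c * n)) : ℝ)).card : ℝ) ≤ 2 * w' * n) ∧
    ((((univ \ clsA G A0 (c * n)).filter fun v =>
      c1 * n < (dg G v (clsA G A0 (c * n)) : ℝ)).card : ℝ) ≤ 2 * w' * n) ∧
    (∀ v, v ∉ clsA G A0 (c * n) →
      c / 2 * n + dg G v (clsA G A0 (c * n)) ≤ ((clsA G A0 (c * n)).card : ℝ)) := by
  set A := clsA G A0 (c * n) with hA
  have hc : 0 < c := lt_of_lt_of_le hc1 h4
  have hN0 : (0 : ℝ) ≤ N := Nat.cast_nonneg _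
  have hx1 : 0 < c1 * n / 2 := by positivity
  have hw'n : 0 ≤ w' * n := by
    have h7 : 0 ≤ (c1 * n / 2) * (w' * n) := le_trans (by positivity) h3
    exact (mul_nonneg_iff_of_pos_left hx1).mp h7
  have hNh : (N : ℝ) + BX.hn G A0 ≤ (c1 * n / 2) * (w' * n) := by linarith
  -- F1
  have F1 : ((A0 \ A).card : ℝ) ≤ w' * n := by
    have h := few_H G A0 (c * n) (by positivity)
    have e : (A0.filter fun a => c * n < ((A0.filter fun u => HA G a u).card : ℝ)) = A0 \ A := by
      ext a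
      rw [mem_filter, mem_sdiff, hA, mem_clsA, not_le]
    rw [e] at h
    have h8 : (c * n) * ((A0 \ A).card : ℝ) ≤ (c * n) * (w' * n) := by
      calc (c * n) * ((A0 \ A).card : ℝ) ≤ BX.hn G A0 := h
        _ ≤ (c1 * n / 2) * (w' * n) := by linarith
        _ ≤ (c * n) * (w' * n) := by
          apply mul_le_mul_of_nonneg_right _ hw'n
          have : c1 * n ≤ c * n := mul_le_mul_of_nonneg_right h4 hn.le
          linarith
    exact le_of_mul_le_mul_left h8 (by positivity)
  have F2 : ((A \ A0).card : ℝ) ≤ w' * n := by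
    have h := few_out G d N A0 hdeg hdN hcard (N - c * n) (by linarith)
    have e : A \ A0 ⊆ ((univ \ A0).filter fun v => (N : ℝ) - c * n ≤ (dg G v A0 : ℝ)) := by
      intro v hv
      rw [mem_sdiff, hA, mem_clsA] at hv
      rw [mem_filter, mem_sdiff]
      refine ⟨⟨mem_univ _, hv.2⟩, ?_⟩
      have h9 := card_HA_add (G := G) hv.2
      have h10 : (((A0.filter fun u => HA G v u).card : ℕ) : ℝ) + dg G v A0 = N := by
        rw [← hcard]; exact_mod_cast h9
      linarith [hv.1]
    have h11 : ((A \ A0).card : ℝ) ≤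
        (((univ \ A0).filter fun v => (N : ℝ) - c * n ≤ (dg G v A0 : ℝ)).card : ℝ) := by
      exact_mod_cast card_le_card e
    have h12 : (c1 * n / 2) * ((A \ A0).card : ℝ) ≤ (c1 * n / 2) * (w' * n) := by
      calc (c1 * n / 2) * ((A \ A0).card : ℝ) ≤ (N - c * n) * ((A \ A0).card : ℝ) :=
            mul_le_mul_of_nonneg_right h2 (Nat.cast_nonneg _)
        _ ≤ (N - c * n) *
            (((univ \ A0).filter fun v => (N : ℝ) - c * n ≤ (dg G v A0 : ℝ)).card : ℝ) :=
            mul_le_mul_of_nonneg_left h11 (by linarith)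
        _ ≤ N + BX.hn G A0 := h
        _ ≤ _ := hNh
    exact le_of_mul_le_mul_left h12 hx1
  have hw2 : w' * n ≤ c1 * n / 2 := by
    have := mul_le_mul_of_nonneg_right h5 hn.le
    linarith
  have hcn : c1 * n ≤ c * n := mul_le_mul_of_nonneg_right h4 hn.le
  refine ⟨F1, F2, ?_, ?_, ?_, ?_⟩
  · -- bound
    intro v hv
    rw [hA, mem_clsA] at hv
    have h7 : (A0.card : ℝ) ≤ ((A0.filter fun u => HA G v u).card : ℝ) + dg G v A0 + 1 := by
      exact_mod_cast cls_dg_ge (G := G) v A0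
    have h8 : (dg G v (univ \ A0) : ℝ) + dg G v A0 = dg G v univ := by
      exact_mod_cast dg_sdiff_add (G := G) v (subset_univ A0)
    have h9 : (dg G v univ : ℝ) ≤ N := by
      exact_mod_cast (hdeg v).trans hdN
    have h10 : (dg G v (univ \ A) : ℝ) ≤ dg G v (univ \ A0) + ((A0 \ A).card : ℝ) := by
      exact_mod_cast cls_dg_out (G := G) v A A0
    rw [hcard] at h7
    nlinarith
  · have h := few_in G d N A0 hdeg hdN hcard (c1 * n / 2) (by positivity)
    have e : (A.filter fun v => c1 * n < (dg G v (univ \ A) : ℝ)) ⊆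
        (A \ A0) ∪ (A0.filter fun a => c1 * n / 2 < (dg G a (univ \ A0) : ℝ)) := by
      intro v hv
      rw [mem_filter] at hv
      rw [mem_union, mem_sdiff, mem_filter]
      by_cases h0 : v ∈ A0
      · refine Or.inr ⟨h0, ?_⟩
        have h10 : (dg G v (univ \ A) : ℝ) ≤ dg G v (univ \ A0) + ((A0 \ A).card : ℝ) := by
          exact_mod_cast cls_dg_out (G := G) v A A0
        linarith [hv.2]
      · exact Or.inl ⟨hv.1, h0⟩
    have h7 : (((A.filter fun v => c1 * n < (dg G v (univ \ A) : ℝ)).card : ℕ) : ℝ) ≤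
        ((A \ A0).card : ℝ) +
          ((A0.filter fun a => c1 * n / 2 < (dg G a (univ \ A0) : ℝ)).card : ℝ) := by
      exact_mod_cast (card_le_card e).trans (card_union_le _ _)
    have h8 : ((A0.filter fun a => c1 * n / 2 < (dg G a (univ \ A0) : ℝ)).card : ℝ) ≤ w' * n :=
      le_of_mul_le_mul_left (h.trans hNh) hx1
    linarith
  · have h := few_out G d N A0 hdeg hdN hcard (c1 * n / 2) (by positivity)
    have e : ((univ \ A).filter fun v => c1 * n < (dg G v A : ℝ)) ⊆
        (A0 \ A) ∪ ((univ \ A0).filter fun v => c1 * n / 2 ≤ (dg G v A0 : ℝ)) := by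
      intro v hv
      rw [mem_filter, mem_sdiff] at hv
      rw [mem_union, mem_sdiff, mem_filter, mem_sdiff]
      by_cases h0 : v ∈ A0
      · exact Or.inl ⟨h0, hv.1.2⟩
      · refine Or.inr ⟨⟨mem_univ _, h0⟩, ?_⟩
        have h10 : (dg G v A : ℝ) ≤ dg G v A0 + ((A \ A0).card : ℝ) := by
          exact_mod_cast cls_dg_in (G := G) v A A0
        linarith [hv.2]
    have h7 : ((((univ \ A).filter fun v => c1 * n < (dg G v A : ℝ)).card : ℕ) : ℝ) ≤
        ((A0 \ A).card : ℝ) +
          (((univ \ A0).filter fun v => c1 * n / 2 ≤ (dg G v A0 : ℝ)).card : ℝ) := by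
      exact_mod_cast (card_le_card e).trans (card_union_le _ _)
    have h8 : (((univ \ A0).filter fun v => c1 * n / 2 ≤ (dg G v A0 : ℝ)).card : ℝ) ≤ w' * n :=
      le_of_mul_le_mul_left (h.trans hNh) hx1
    linarith
  · intro v hv
    have hv' : v ∉ A := hv
    rw [hA, mem_clsA, not_le] at hv
    have h7 := card_HA_add (G := G) hv'
    have h8 : (((A.filter fun u => HA G v u).card : ℕ) : ℝ) + dg G v A = A.card := by
      exact_mod_cast h7
    have e : (A0.filter fun u => HA G v u) ⊆ (A.filter fun u => HA G v u) ∪ (A0 \ A) := by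
      intro u hu
      rw [mem_filter] at hu
      rw [mem_union, mem_filter, mem_sdiff]
      by_cases h0 : u ∈ A
      · exact Or.inl ⟨h0, hu.2⟩
      · exact Or.inr ⟨hu.1, h0⟩
    have h9 : ((A0.filter fun u => HA G v u).card : ℝ) ≤
        ((A.filter fun u => HA G v u).card : ℝ) + ((A0 \ A).card : ℝ) := by
      exact_mod_cast (card_le_card e).trans (card_union_le _ _)
    linarith

theorem classes (q : ℕ) (hq : 2 ≤ q) (w : ℝ) (h0 : 0 < w) (h1 : w ≤ cd q) :
    ∃ γ : ℝ, 0 < γ ∧ ∃ n₀ : ℕ, ∀ (V : Type) [Fintype V] (G : SimpleGraph V) (t s d N : ℕ)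
      (A0 : Fin t → Finset V), n₀ ≤ Fintype.card V → t + s = q → N = Fintype.card V / q → d ≤ N →
      (∀ v, dg G v univ ≤ d) → (∀ i j, i ≠ j → Disjoint (A0 i) (A0 j)) →
      (∀ i, (A0 i).card = N) → (∀ i, (hn G (A0 i) : ℝ) ≤ γ * (Fintype.card V : ℝ) ^ 2) →
      ∃ (A AT : Fin t → Finset V) (B BT : Finset V), Cls G q t s d N w A AT B BT ∧
        ∀ i, (((A i \ A0 i) ∪ (A0 i \ A i)).card : ℝ) ≤ w * Fintype.card V := by
  have hq2 : (2 : ℝ) ≤ q := by exact_mod_cast hq
  have hq0 : (0 : ℝ) < q := by linarith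
  have hcq : cc q * (100 * (q : ℝ) ^ 2) = 1 := by
    unfold cc
    field_simp
  have hc : 0 < cc q := by unfold cc; positivity
  have hc1 : 0 < cd q := by unfold cd; positivity
  have hc1c : cd q * (32 * q) = cc q := by
    unfold cd
    field_simp
  have hcsm : cc q * q ≤ 1 / 200 := by
    have : cc q * q * (100 * q) = 1 := by rw [← hcq]; ring
    have h3 : 0 < cc q * q := by positivity
    nlinarith
  have hc1sm : cd q * 64 ≤ cc q := by
    rw [← hc1c]
    nlinarith
  have hc1q : cd q * q ≤ 1 / 6400 := by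
    have : cd q * q * 32 = cc q := by rw [← hc1c]; ring
    nlinarith
  have hcs : cc q ≤ 1 / 400 := by nlinarith
  obtain ⟨w', hw'⟩ : ∃ w' : ℝ, w' = w / (8 * q) := ⟨_, rfl⟩
  have hw0 : 0 < w' := by rw [hw']; positivity
  have hwq : w' * (8 * q) = w := by rw [hw']; field_simp
  have hww : w' ≤ cd q / 16 := by nlinarith
  refine ⟨cd q * w' / 4, by positivity, ⌈100 * q / (cd q * w')⌉₊, ?_⟩
  intro V _ G t s d N A0 hn0 hts hN hdN hdeg hdisj hcard hhn
  obtain ⟨n, hn⟩ : ∃ n : ℝ, n = (Fintype.card V : ℝ) := ⟨_, rfl⟩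
  have hn1 : 100 * q / (cd q * w') ≤ n := by
    rw [hn]
    exact (Nat.le_ceil _).trans (by exact_mod_cast hn0)
  have hn2 : 100 * q ≤ n * (cd q * w') := by
    rwa [div_le_iff₀ (by positivity)] at hn1
  have hcdw : cd q * w' ≤ w' := by nlinarith
  have hcdw2 : cd q * w' ≤ cd q := by nlinarith
  have hnpos : 0 < n := by
    by_contra h
    push Not at h
    have : n * (cd q * w') ≤ 0 := mul_nonpos_of_nonpos_of_nonneg h (by positivity)
    linarith
  have hn3 : 100 * q ≤ n * w' := hn2.trans (mul_le_mul_of_nonneg_left hcdw hnpos.le)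
  have hn4 : 100 * q ≤ n * cd q := hn2.trans (mul_le_mul_of_nonneg_left hcdw2 hnpos.le)
  have hNq : (N : ℝ) * q ≤ n := by
    rw [hn, hN]
    exact_mod_cast Nat.div_mul_le_self _ _
  have hNq2 : n ≤ (N : ℝ) * q + q := by
    rw [hn, hN]
    have h3 := Nat.div_add_mod (Fintype.card V) q
    have h5 := Nat.mod_lt (Fintype.card V) (show 0 < q by omega)
    have h4 : Fintype.card V ≤ Fintype.card V / q * q + q := by
      rw [mul_comm q] at h3
      omega
    exact_mod_cast h4
  have hcn0 : 0 < cc q * n := by positivity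
  have hc1n0 : 0 < cd q * n := by positivity
  -- conditions of the single class lemma
  have c2 : cd q * n / 2 ≤ N - cc q * n := by
    have h5 : cd q * n ≤ cc q * n := by
      apply mul_le_mul_of_nonneg_right _ hnpos.le
      linarith
    have h6 : (cc q * n) * q ≤ n / 200 := by
      have := mul_le_mul_of_nonneg_right hcsm hnpos.le
      linarith
    have h7 : (2 * (cc q * n) + 1) * q ≤ (N : ℝ) * q := by
      nlinarith
    have h8 : 2 * (cc q * n) + 1 ≤ N := le_of_mul_le_mul_right h7 hq0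
    linarith
  have c3 : (N : ℝ) + cd q * w' / 4 * n ^ 2 ≤ (cd q * n / 2) * (w' * n) := by
    have h5 : (N : ℝ) ≤ n := by nlinarith [Nat.cast_nonneg (α := ℝ) N]
    have h6 : n * (100 * q) ≤ n * (n * (cd q * w')) := mul_le_mul_of_nonneg_left hn2 hnpos.le
    nlinarith
  have c4 : cd q ≤ cc q := by linarith
  have c5 : w' ≤ cd q / 2 := by linarith
  have c6 : 1 ≤ cc q * n / 2 := by nlinarith
  have key := fun i => cls_single G d N (A0 i) (cc q) (cd q) w' (cd q * w' / 4) n hnpos hc1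
    (by positivity) c2 c3 c4 c5 c6 hdN hdeg (hcard i) (by rw [hn]; exact hhn i)
  obtain ⟨A, hA⟩ : ∃ A : Fin t → Finset V, A = fun i => clsA G (A0 i) (cc q * n) := ⟨_, rfl⟩
  have hAi : ∀ i, clsA G (A0 i) (cc q * n) = A i := fun i => by rw [hA]
  have f1 : ∀ i, ((A0 i \ A i).card : ℝ) ≤ w' * n := fun i => by rw [← hAi]; exact (key i).1
  have f2 : ∀ i, ((A i \ A0 i).card : ℝ) ≤ w' * n := fun i => by rw [← hAi]; exact (key i).2.1
  have f3 : ∀ i, ∀ v ∈ A i, (dg G v (univ \ A i) : ℝ) ≤ 2 * cc q * n := fun i => by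
    rw [← hAi]; exact (key i).2.2.1
  have f4 : ∀ i, (((A i).filter fun v => cd q * n < (dg G v (univ \ A i) : ℝ)).card : ℝ) ≤
      2 * w' * n := fun i => by
    rw [← hAi]; exact (key i).2.2.2.1
  have f5 : ∀ i, (((univ \ A i).filter fun v => cd q * n < (dg G v (A i) : ℝ)).card : ℝ) ≤
      2 * w' * n := fun i => by
    rw [← hAi]; exact (key i).2.2.2.2.1
  have f6 : ∀ i, ∀ v, v ∉ A i → cc q / 2 * n + dg G v (A i) ≤ ((A i).card : ℝ) := fun i => by
    rw [← hAi]; exact (key i).2.2.2.2.2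
  have g1 : ∀ i, (N : ℝ) ≤ (A i).card + w' * n := by
    intro i
    have h5 : (A0 i).card ≤ (A i).card + (A0 i \ A i).card := by
      have h6 : A0 i ⊆ A i ∪ (A0 i \ A i) := by
        intro x hx
        rw [mem_union, mem_sdiff]
        by_cases h : x ∈ A i
        · exact Or.inl h
        · exact Or.inr ⟨hx, h⟩
      exact (card_le_card h6).trans (card_union_le _ _)
    have h7 : ((A0 i).card : ℝ) ≤ (A i).card + (A0 i \ A i).card := by exact_mod_cast h5
    rw [hcard] at h7
    linarith [f1 i]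
  have g2 : ∀ i, ((A i).card : ℝ) ≤ N + w' * n := by
    intro i
    have h5 : (A i).card ≤ (A0 i).card + (A i \ A0 i).card := by
      have h6 : A i ⊆ A0 i ∪ (A i \ A0 i) := by
        intro x hx
        rw [mem_union, mem_sdiff]
        by_cases h : x ∈ A0 i
        · exact Or.inl h
        · exact Or.inr ⟨hx, h⟩
      exact (card_le_card h6).trans (card_union_le _ _)
    have h7 : ((A i).card : ℝ) ≤ (A0 i).card + (A i \ A0 i).card := by exact_mod_cast h5
    rw [hcard] at h7
    linarith [f2 i]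
  have hdisjA : ∀ i j, i ≠ j → Disjoint (A i) (A j) := by
    intro i j hij
    rw [disjoint_left]
    intro v hvi hvj
    rw [← hAi, mem_clsA] at hvi hvj
    have h5 : ((A0 i).card : ℝ) ≤ (((A0 i).filter fun u => HA G v u).card : ℝ) + dg G v (A0 i) + 1 := by
      exact_mod_cast cls_dg_ge (G := G) v (A0 i)
    have h6 : ((A0 j).card : ℝ) ≤ (((A0 j).filter fun u => HA G v u).card : ℝ) + dg G v (A0 j) + 1 := by
      exact_mod_cast cls_dg_ge (G := G) v (A0 j)
    have h7 : (dg G v (A0 i) : ℝ) + dg G v (A0 j) ≤ N := by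
      have h8 : dg G v (A0 i) + dg G v (A0 j) ≤ d := by
        rw [← dg_union_disj v (hdisj i j hij)]
        exact (dg_mono (subset_univ _)).trans (hdeg v)
      exact_mod_cast h8.trans hdN
    rw [hcard] at h5 h6
    have h9 : (cc q * n) * q ≤ n / 200 := by
      have := mul_le_mul_of_nonneg_right hcsm hnpos.le
      linarith
    have h10 : (N : ℝ) ≤ 2 * (cc q * n) + 2 := by linarith
    have h11 : (N : ℝ) * q ≤ (2 * (cc q * n) + 2) * q := mul_le_mul_of_nonneg_right h10 hq0.le
    nlinarith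
  have hsum : (univ.biUnion A).card = ∑ i, (A i).card :=
    card_biUnion (fun i _ j _ hij => hdisjA i j hij)
  obtain ⟨B, hB⟩ : ∃ B : Finset V, B = univ \ univ.biUnion A := ⟨_, rfl⟩
  have hBmem : ∀ v, v ∈ B ↔ ∀ i, v ∉ A i := by
    intro v
    rw [hB, mem_sdiff, mem_biUnion]
    simp
  have hBc : B.card + ∑ i, (A i).card = Fintype.card V := by
    rw [← hsum, hB, card_sdiff_add_card_eq_card (subset_univ _), card_univ]
  have hBr : (B.card : ℝ) + ∑ i, ((A i).card : ℝ) = n := by
    rw [hn]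
    exact_mod_cast hBc
  have hs1 : ∑ i, ((A i).card : ℝ) ≤ t * (N + w' * n) := by
    calc ∑ i, ((A i).card : ℝ) ≤ ∑ i : Fin t, ((N : ℝ) + w' * n) := sum_le_sum fun i _ => g2 i
      _ = _ := by rw [sum_const, card_univ, Fintype.card_fin, nsmul_eq_mul]
  have hs2 : t * ((N : ℝ) - w' * n) ≤ ∑ i, ((A i).card : ℝ) := by
    calc t * ((N : ℝ) - w' * n) = ∑ i : Fin t, ((N : ℝ) - w' * n) := by
          rw [sum_const, card_univ, Fintype.card_fin, nsmul_eq_mul]
      _ ≤ _ := sum_le_sum fun i _ => by linarith [g1 i]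
  have hts' : (t : ℝ) + s = q := by exact_mod_cast hts
  have hs0 : (0 : ℝ) ≤ s := Nat.cast_nonneg _
  have ht0 : (0 : ℝ) ≤ t := Nat.cast_nonneg _
  have htq : (t : ℝ) ≤ q := by linarith
  have hw'n : 0 < w' * n := by positivity
  have htw : (t : ℝ) * (w' * n) ≤ w * n / 8 := by
    calc (t : ℝ) * (w' * n) ≤ q * (w' * n) := mul_le_mul_of_nonneg_right htq hw'n.le
      _ = w * n / 8 := by rw [← hwq]; ring
  have hwn : 0 < w * n := by positivity
  have hw16 : 16 * (w' * n) ≤ w * n := by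
    have : w' * n * 16 ≤ w' * n * (8 * q) := mul_le_mul_of_nonneg_left (by linarith) hw'n.le
    calc 16 * (w' * n) = w' * n * 16 := by ring
      _ ≤ w' * n * (8 * q) := this
      _ = w * n := by rw [← hwq]; ring
  have hqN : (q : ℝ) * N = t * N + s * N := by rw [← hts']; ring
  refine ⟨A, fun i => (A i).filter fun v => (dg G v (univ \ A i) : ℝ) ≤ cd q * n, B,
    B.filter fun v => ∀ i, (dg G v (A i) : ℝ) ≤ cd q * n, ?_, ?_⟩
  · refine ⟨hq, hts, hdN, hN, ?_, h0.le, h1, hdeg, hdisjA, ?_, ?_, ?_, ?_, ?_, ?_, ?_, ?_, ?_, ?_,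
      ?_, ?_, ?_, ?_⟩
    · rw [← hn]; linarith
    · intro i
      rw [disjoint_left]
      intro v hv hvB
      exact (hBmem v).mp hvB i hv
    · rw [hB, union_sdiff_of_subset (subset_univ _)]
    · intro i; exact filter_subset _ _
    · exact filter_subset _ _
    · intro i
      rw [← hn]
      linarith [g1 i]
    · intro i
      rw [← hn]
      linarith [g2 i]
    · rw [← hn]
      nlinarith
    · rw [← hn]
      nlinarith
    · intro i
      rw [← hn]
      have e : A i \ (A i).filter (fun v => (dg G v (univ \ A i) : ℝ) ≤ cd q * n) =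
          (A i).filter fun v => cd q * n < (dg G v (univ \ A i) : ℝ) := by
        ext v
        simp only [mem_sdiff, mem_filter, not_and, not_le]
        constructor
        · rintro ⟨h5, h6⟩
          exact ⟨h5, h6 h5⟩
        · rintro ⟨h5, h6⟩
          exact ⟨h5, fun _ => h6⟩
      rw [e]
      linarith [f4 i]
    · rw [← hn]
      have e : B \ B.filter (fun v => ∀ i, (dg G v (A i) : ℝ) ≤ cd q * n) ⊆
          univ.biUnion fun i => (univ \ A i).filter fun v => cd q * n < (dg G v (A i) : ℝ) := by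
        intro v hv
        rw [mem_sdiff, mem_filter, not_and, not_forall] at hv
        obtain ⟨h5, h6⟩ := hv
        obtain ⟨i, hi⟩ := h6 h5
        rw [mem_biUnion]
        refine ⟨i, mem_univ _, ?_⟩
        rw [mem_filter, mem_sdiff]
        exact ⟨⟨mem_univ _, (hBmem v).mp h5 i⟩, not_le.mp hi⟩
      have h5 : ((B \ B.filter (fun v => ∀ i, (dg G v (A i) : ℝ) ≤ cd q * n)).card : ℝ) ≤
          ∑ i, (((univ \ A i).filter fun v => cd q * n < (dg G v (A i) : ℝ)).card : ℝ) := by
        exact_mod_cast (card_le_card e).trans card_biUnion_le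
      have h6 : ∑ i, (((univ \ A i).filter fun v => cd q * n < (dg G v (A i) : ℝ)).card : ℝ) ≤
          t * (2 * w' * n) := by
        calc _ ≤ ∑ i : Fin t, (2 * w' * n) := sum_le_sum fun i _ => f5 i
          _ = _ := by rw [sum_const, card_univ, Fintype.card_fin, nsmul_eq_mul]
      nlinarith
    · intro i v hv
      rw [← hn]
      exact f3 i v hv
    · intro i v hv
      rw [mem_filter] at hv
      rw [← hn]
      exact hv.2
    · intro v hv i
      rw [← hn]
      exact f6 i v ((hBmem v).mp hv i)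
    · intro v hv i
      rw [mem_filter] at hv
      rw [← hn]
      exact hv.2 i
  · intro i
    rw [← hn]
    have h5 : (((A i \ A0 i) ∪ (A0 i \ A i)).card : ℝ) ≤
        ((A i \ A0 i).card : ℝ) + ((A0 i \ A i).card : ℝ) := by
      exact_mod_cast card_union_le _ _
    linarith [f1 i, f2 i]

end Pool.Agent.Helper64.BX
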