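import Pool.Agent.Helper64.BX.Basic
import Pool.Agent.Helper64.BX.St.Pick

/-! BEC exact P3 (MP_436ed3_co), piece CliqueB.  Paper: /team-store/BECX_P3_paper.md, (C6), (s+1)-cliques in BT.
`pickB` gives s - 1 vertices of BT \ X (b = d + 1); their common H-neighbourhood in BT \ X has ≥ N - 2 κ n elements, so it contains an H-edge.
-/

set_option autoImplicit false

namespace Pool.Agent.Helper64.BX

open Finset Classical

variable {V : Type}

theorem cliqueB [Fintype V] {G : SimpleGraph V} {q t s d N : ℕ} {w : ℝ} {A AT : Fin t → Finset V}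
    {B BT : Finset V} (hC : Cls G q t s d N w A AT B BT) (hs : 1 ≤ s) (κ : ℝ) (hκ0 : 0 < κ)
    (hκ1 : κ ≤ cd q) (hw : 3 * w ≤ κ) (hbig : (q : ℝ) ≤ w * Fintype.card V)
    (hNE : ∀ Z, Z ⊆ BT → (N : ℝ) - 2 * κ * Fintype.card V ≤ Z.card → ∃ x ∈ Z, ∃ y ∈ Z, HA G x y)
    (X : Finset V) (hX : (X.card : ℝ) ≤ κ * Fintype.card V) :
    ∃ K : Finset V, K ⊆ BT \ X ∧ K.card = s + 1 ∧ Ind G K := by
  set n : ℝ := (Fintype.card V : ℝ) with hn
  have hq2 : (2 : ℝ) ≤ q := by exact_mod_cast hC.q2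
  have hn0 : 0 ≤ n := Nat.cast_nonneg _
  have hsq : (s : ℝ) ≤ q := by
    have := hC.ts
    have h : s ≤ q := by omega
    exact_mod_cast h
  have hwn : 3 * (w * n) ≤ κ * n := by nlinarith
  have hdN : (d : ℝ) ≤ N := by exact_mod_cast hC.dN
  have hBT : (s : ℝ) * N - 2 * (w * n) ≤ BT.card := by
    have h1 := hC.cardB1
    have h2 := hC.smB
    have h3 : ((B \ BT).card : ℝ) + BT.card = B.card := by
      exact_mod_cast card_sdiff_add_card_eq_card hC.subB
    linarith
  have hdeg : ∀ v, dg G v BT ≤ d := fun v => (dg_mono (subset_univ _)).trans (hC.deg v)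
  -- n is large
  have hκn : κ * n * 4 ≤ N := by
    have h1 : ((Fintype.card V : ℕ) : ℝ) < q * (N + 1) := by
      have h2 : Fintype.card V < q * (N + 1) := by
        rw [hC.hN]
        exact Nat.lt_mul_div_succ _ (by have := hC.q2; omega)
      exact_mod_cast h2
    have h3 : κ * n ≤ cd q * n := mul_le_mul_of_nonneg_right hκ1 hn0
    have h4 := hC.big
    have h5 : cd q * n * (3200 * (q : ℝ) ^ 3) = n := by
      unfold cd cc
      field_simp
      ring
    have h6 : 0 ≤ cd q * n := le_trans (by positivity) h4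
    have h7 : (q : ℝ) ^ 3 = q * q ^ 2 := by ring
    have h8 : (4 : ℝ) ≤ (q : ℝ) ^ 2 := by nlinarith
    -- cd n * 3200 q^3 < q (N+1) ≤ q N + q
    have h9 : cd q * n * (3200 * (q : ℝ) ^ 2) < N + 1 := by
      have h10 : q * (cd q * n * (3200 * (q : ℝ) ^ 2)) < q * (N + 1) := by
        calc q * (cd q * n * (3200 * (q : ℝ) ^ 2)) = cd q * n * (3200 * (q : ℝ) ^ 3) := by ring
          _ = n := h5
          _ < q * (N + 1) := h1
      exact lt_of_mul_lt_mul_left h10 (by positivity)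
    have h11 : cd q * n * 4 ≤ cd q * n * (q : ℝ) ^ 2 := mul_le_mul_of_nonneg_left h8 h6
    nlinarith
  have hκp : 0 < κ * n := by nlinarith
  have hNp : (0 : ℝ) < N := by linarith
  obtain ⟨Y, hY1, -, hY3, hY4⟩ := pickB G BT ∅ X (d + 1) (s - 1) ind_empty
    (fun v _ => Nat.succ_le_succ (hdeg v)) (by
      rcases Nat.lt_or_ge s 2 with h | h
      · exact Or.inl (by omega)
      · refine Or.inr ?_
        rw [sum_empty, card_empty]
        have h1 : s - 1 - 1 = s - 2 := by omega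
        rw [h1]
        have h2 : (((0 + X.card + 0 + (s - 2) * (d + 1) : ℕ)) : ℝ) < BT.card := by
          push_cast [Nat.cast_sub h]
          have h3 : ((s : ℝ) - 2) * (d + 1) ≤ (s - 2) * (N + 1) := by
            apply mul_le_mul_of_nonneg_left (by linarith)
            have : (2 : ℝ) ≤ s := by exact_mod_cast h
            linarith
          nlinarith
        exact_mod_cast h2)
  rw [empty_union] at hY4
  have hs1 : ((s - 1 : ℕ) : ℝ) = (s : ℝ) - 1 := by push_cast [Nat.cast_sub hs]; ring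
  -- the common neighbourhood
  obtain ⟨x, hx, y, hy, hxy⟩ := hNE (BT \ ((BT.filter fun u => ∃ x ∈ Y, G.Adj x u) ∪ X ∪ Y))
    sdiff_subset (by
      have h1 := pick_nb_card G Y BT
      have h2 : ∑ x ∈ Y, dg G x BT ≤ (s - 1) * d := by
        have := sum_le_card_nsmul Y (fun x => dg G x BT) d (fun x _ => hdeg x)
        rwa [hY3, smul_eq_mul] at this
      have h3 := card_union_le ((BT.filter fun u => ∃ x ∈ Y, G.Adj x u) ∪ X) Y
      have h4 := card_union_le (BT.filter fun u => ∃ x ∈ Y, G.Adj x u) X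
      have h5 := le_card_sdiff ((BT.filter fun u => ∃ x ∈ Y, G.Adj x u) ∪ X ∪ Y) BT
      have h6 : BT.card ≤ (BT \ ((BT.filter fun u => ∃ x ∈ Y, G.Adj x u) ∪ X ∪ Y)).card +
          ((s - 1) * d + X.card + (s - 1)) := by omega
      have h7 : (BT.card : ℝ) ≤ (BT \ ((BT.filter fun u => ∃ x ∈ Y, G.Adj x u) ∪ X ∪ Y)).card +
          (((s : ℝ) - 1) * d + X.card + (s - 1)) := by
        rw [← hs1]; exact_mod_cast h6
      have h8 : ((s : ℝ) - 1) * d ≤ (s - 1) * N := by
        apply mul_le_mul_of_nonneg_left hdN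
        have : (1 : ℝ) ≤ s := by exact_mod_cast hs
        linarith
      nlinarith)
  have key : ∀ z ∈ BT \ ((BT.filter fun u => ∃ x ∈ Y, G.Adj x u) ∪ X ∪ Y),
      z ∈ BT \ X ∧ z ∉ Y ∧ ∀ u ∈ Y, ¬ G.Adj u z := by
    intro z hz
    simp only [mem_sdiff, mem_union, mem_filter, not_or, not_and, not_exists] at hz
    obtain ⟨h1, ⟨h2, h3⟩, h4⟩ := hz
    exact ⟨mem_sdiff.2 ⟨h1, h3⟩, h4, fun u hu => h2 h1 u hu⟩
  obtain ⟨hx1, hx2, hx3⟩ := key x hx
  obtain ⟨hy1, hy2, hy3⟩ := key y hy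
  have hyI : y ∉ insert x Y := by
    rw [mem_insert, not_or]
    exact ⟨fun h => hxy.1 h.symm, hy2⟩
  refine ⟨insert y (insert x Y), ?_, ?_, ?_⟩
  · intro z hz
    rw [mem_insert, mem_insert] at hz
    rcases hz with rfl | rfl | hz
    · exact hy1
    · exact hx1
    · exact hY1 hz
  · rw [card_insert_of_notMem hyI, card_insert_of_notMem hx2, hY3]
    omega
  · refine pick_ind_insert (pick_ind_insert hY4 hx3) ?_
    intro u hu
    rw [mem_insert] at hu
    rcases hu with rfl | hu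
    · exact hxy.2
    · exact hy3 u hu

end Pool.Agent.Helper64.BX
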