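import Pool.Agent.Helper64.BX.Basic

/-! BEC exact P3 (MP_436ed3_co), piece NeB.  Paper: /team-store/BECX_P3_paper.md, (C6).
BT ∩ A0 i ⊆ A0 i \ A i. Remove these (≤ q w n) from Z, extend (or cut) to a set of size N disjoint from all A0 i; each added vertex changes hn by at most 2 n.
-/

set_option autoImplicit false

namespace Pool.Agent.Helper64.BX

open Finset Classical

variable {V : Type}

theorem neB_hn_mono {G : SimpleGraph V} {S T : Finset V} (h : S ⊆ T) : hn G S ≤ hn G T :=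
  card_le_card (filter_subset_filter _ (product_subset_product h h))

theorem neB_hn_union {G : SimpleGraph V} (S Y : Finset V) :
    hn G (S ∪ Y) ≤ hn G S + 2 * (Y.card * (S ∪ Y).card) := by
  unfold hn
  have hsub : ((S ∪ Y) ×ˢ (S ∪ Y)).filter (fun p => HA G p.1 p.2) ⊆
      (S ×ˢ S).filter (fun p => HA G p.1 p.2) ∪ (Y ×ˢ (S ∪ Y) ∪ (S ∪ Y) ×ˢ Y) := by
    intro p hp
    rw [mem_filter, mem_product] at hp
    rw [mem_union, mem_union, mem_filter, mem_product, mem_product, mem_product]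
    by_cases h1 : p.1 ∈ Y
    · exact Or.inr (Or.inl ⟨h1, hp.1.2⟩)
    · by_cases h2 : p.2 ∈ Y
      · exact Or.inr (Or.inr ⟨hp.1.1, h2⟩)
      · left
        have h3 := (mem_union.mp hp.1.1).resolve_right h1
        have h4 := (mem_union.mp hp.1.2).resolve_right h2
        exact ⟨⟨h3, h4⟩, hp.2⟩
  calc _ ≤ ((S ×ˢ S).filter (fun p => HA G p.1 p.2) ∪ (Y ×ˢ (S ∪ Y) ∪ (S ∪ Y) ×ˢ Y)).card :=
        card_le_card hsub
    _ ≤ ((S ×ˢ S).filter (fun p => HA G p.1 p.2)).card + (Y ×ˢ (S ∪ Y) ∪ (S ∪ Y) ×ˢ Y).card :=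
        card_union_le _ _
    _ ≤ ((S ×ˢ S).filter (fun p => HA G p.1 p.2)).card +
        ((Y ×ˢ (S ∪ Y)).card + ((S ∪ Y) ×ˢ Y).card) := by
        have := card_union_le (Y ×ˢ (S ∪ Y)) ((S ∪ Y) ×ˢ Y)
        omega
    _ = _ := by
        rw [card_product, card_product]
        ring

theorem neB [Fintype V] {G : SimpleGraph V} {q t s d N : ℕ} {w : ℝ} {A AT : Fin t → Finset V}
    {B BT : Finset V} (hC : Cls G q t s d N w A AT B BT) (hs : 1 ≤ s) (A0 : Fin t → Finset V)
    (hA0 : ∀ i, (A0 i).card = N)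
    (hsym : ∀ i, (((A i \ A0 i) ∪ (A0 i \ A i)).card : ℝ) ≤ w * Fintype.card V)
    (γ κ : ℝ) (hκ0 : 0 ≤ κ) (hκ : 4 * (κ + q * w) ≤ γ)
    (hNE : ∀ Z : Finset V, (∀ i, Disjoint Z (A0 i)) → Z.card = N →
      γ * (Fintype.card V : ℝ) ^ 2 < hn G Z)
    (Z : Finset V) (hZ : Z ⊆ BT) (hZc : (N : ℝ) - κ * Fintype.card V ≤ Z.card) :
    γ / 2 * (Fintype.card V : ℝ) ^ 2 ≤ hn G Z := by
  obtain ⟨n, hn'⟩ : ∃ n : ℕ, n = Fintype.card V := ⟨_, rfl⟩
  rw [← hn'] at hZc ⊢
  have hNE' : ∀ Z : Finset V, (∀ i, Disjoint Z (A0 i)) → Z.card = N →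
      γ * (n : ℝ) ^ 2 < hn G Z := by
    rw [hn']
    exact hNE
  have hsym' : ∀ i, (((A i \ A0 i) ∪ (A0 i \ A i)).card : ℝ) ≤ w * n := by
    rw [hn']
    exact hsym
  have hw := hC.w0
  have hq0 : (0 : ℝ) ≤ q := Nat.cast_nonneg q
  have hn0 : (0 : ℝ) ≤ n := Nat.cast_nonneg n
  have hγ : 0 ≤ γ := by
    have := mul_nonneg hq0 hw
    linarith
  set U0 : Finset V := univ.biUnion A0 with hU0
  set Z1 : Finset V := Z \ U0 with hZ1
  have hZ1d : ∀ i, Disjoint Z1 (A0 i) := by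
    intro i
    rw [disjoint_left]
    intro x hx hx'
    rw [hZ1, mem_sdiff] at hx
    exact hx.2 (mem_biUnion.mpr ⟨i, mem_univ i, hx'⟩)
  -- what is removed
  have hrem : ((Z ∩ U0).card : ℝ) ≤ q * w * n := by
    have hsub : Z ∩ U0 ⊆ univ.biUnion fun i => A0 i \ A i := by
      intro x hx
      rw [mem_inter, hU0, mem_biUnion] at hx
      obtain ⟨hxZ, i, -, hxi⟩ := hx
      rw [mem_biUnion]
      refine ⟨i, mem_univ i, mem_sdiff.mpr ⟨hxi, fun hxA => ?_⟩⟩
      exact (disjoint_left.mp (hC.disjB i)) hxA (hC.subB (hZ hxZ))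
    have h1 : ((Z ∩ U0).card : ℝ) ≤ ∑ i : Fin t, ((A0 i \ A i).card : ℝ) := by
      have h2 : (Z ∩ U0).card ≤ ∑ i : Fin t, (A0 i \ A i).card :=
        (card_le_card hsub).trans card_biUnion_le
      exact_mod_cast h2
    have h3 : ∑ i : Fin t, ((A0 i \ A i).card : ℝ) ≤ ∑ _i : Fin t, w * n := by
      refine sum_le_sum fun i _ => le_trans ?_ (hsym' i)
      exact_mod_cast card_le_card subset_union_right
    rw [sum_const, card_univ, Fintype.card_fin, nsmul_eq_mul] at h3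
    have h4 : (t : ℝ) ≤ q := by
      have := hC.ts
      exact_mod_cast (show t ≤ q by omega)
    have h5 : (t : ℝ) * (w * n) ≤ q * (w * n) :=
      mul_le_mul_of_nonneg_right h4 (mul_nonneg hw hn0)
    linarith
  have hcardZ : (Z1.card : ℝ) + ((Z ∩ U0).card : ℝ) = Z.card := by
    have h1 : Z1.card + (Z ∩ U0).card = Z.card := by
      rw [hZ1]
      exact card_sdiff_add_card_inter Z U0
    exact_mod_cast h1
  have hmono : hn G Z1 ≤ hn G Z := neB_hn_mono sdiff_subset
  have hmono' : (hn G Z1 : ℝ) ≤ hn G Z := by exact_mod_cast hmono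
  rcases Nat.lt_or_ge Z1.card N with hlt | hge
  · -- extend
    have hNn : N * q ≤ n := by
      rw [hC.hN, hn']
      exact Nat.div_mul_le_self _ _
    have hUc : (U0 ∪ Z1).card + (N - Z1.card) ≤ n := by
      have h1 : U0.card ≤ t * N := by
        calc U0.card ≤ ∑ i : Fin t, (A0 i).card := card_biUnion_le
          _ = t * N := by simp [hA0]
      have h2 : (U0 ∪ Z1).card ≤ U0.card + Z1.card := card_union_le _ _
      have h3 : t * N + s * N = N * q := by rw [← hC.ts]; ring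
      have h4 : N ≤ s * N := Nat.le_mul_of_pos_left N hs
      omega
    obtain ⟨Y, hYsub, hYc⟩ : ∃ Y ⊆ univ \ (U0 ∪ Z1), Y.card = N - Z1.card := by
      apply exists_subset_card_eq
      rw [card_sdiff_of_subset (subset_univ _), card_univ, ← hn']
      omega
    have hYd : Disjoint Z1 Y := by
      rw [disjoint_left]
      intro x hx hx'
      have := hYsub hx'
      rw [mem_sdiff] at this
      exact this.2 (mem_union_right _ hx)
    have hZ2c : (Z1 ∪ Y).card = N := by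
      rw [card_union_of_disjoint hYd, hYc]
      omega
    have hZ2d : ∀ i, Disjoint (Z1 ∪ Y) (A0 i) := by
      intro i
      rw [disjoint_union_left]
      refine ⟨hZ1d i, ?_⟩
      rw [disjoint_left]
      intro x hx hx'
      have := hYsub hx
      rw [mem_sdiff] at this
      exact this.2 (mem_union_left _ (mem_biUnion.mpr ⟨i, mem_univ i, hx'⟩))
    have h1 := hNE' _ hZ2d hZ2c
    have h2 := neB_hn_union (G := G) Z1 Y
    rw [hZ2c] at h2
    have h3 : (hn G (Z1 ∪ Y) : ℝ) ≤ hn G Z1 + 2 * (Y.card * N) := by exact_mod_cast h2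
    have hYr : (Y.card : ℝ) ≤ (κ + q * w) * n := by
      have h4 : (Y.card : ℝ) + Z1.card = N := by
        have : Y.card + Z1.card = N := by omega
        exact_mod_cast this
      linarith
    have hNr : (N : ℝ) ≤ n := by
      have : N ≤ n := by
        have h5 : 1 ≤ q := by have := hC.q2; omega
        exact le_trans (Nat.le_mul_of_pos_right N h5) hNn
      exact_mod_cast this
    have hN0 : (0 : ℝ) ≤ N := Nat.cast_nonneg N
    have h4 : (Y.card : ℝ) * N ≤ ((κ + q * w) * n) * n :=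
      mul_le_mul hYr hNr hN0 (by positivity)
    have h5 : 4 * (κ + q * w) * (n : ℝ) ^ 2 ≤ γ * (n : ℝ) ^ 2 :=
      mul_le_mul_of_nonneg_right hκ (by positivity)
    nlinarith
  · obtain ⟨Z2, hZ2, hZ2c⟩ := exists_subset_card_eq hge
    have h1 := hNE' Z2 (fun i => (hZ1d i).mono_left hZ2) hZ2c
    have h2 : (hn G Z2 : ℝ) ≤ hn G Z1 := by exact_mod_cast neB_hn_mono hZ2
    have h3 : 0 ≤ γ * (n : ℝ) ^ 2 := by positivity
    linarith

end Pool.Agent.Helper64.BX
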