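import Pool.Agent.Helper64.BX.Glue
import Pool.Agent.Helper64.BX.St.Classes
import Pool.Agent.Helper64.BX.St.NeB
import Pool.Agent.Helper64.BX.St.CliqueB

/-! BEC exact P3 (MP_436ed3_co), piece Prep.  Paper: /team-store/BECX_P3_paper.md, part C.
`classes`, then `neB` with its κ replaced by 2 κ (4 (2 κ + q w) ≤ γ'), then `cliqueB` (an H-edge exists because hn > 0). d ≤ N follows from q (d + 1) ≤ card V + 1; γ = min of γ' and the one
from `classes`; n₀ large (also q ≤ w n).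
-/

set_option autoImplicit false

namespace Pool.Agent.Helper64.BX

open Finset Classical

theorem prep (q t s : ℕ) (hq : 2 ≤ q) (hts : t + s = q) (hs : 1 ≤ s) (γ' : ℝ) (h0 : 0 < γ')
    (κ : ℝ) (hκ0 : 0 < κ) (hκ1 : κ ≤ cd q) (hκ2 : 16 * κ ≤ γ') (w : ℝ) (hw0 : 0 < w)
    (hw : 6 * (q : ℝ) ^ 2 * w ≤ κ) :
    ∃ γ : ℝ, 0 < γ ∧ γ ≤ γ' ∧ ∃ n₀ : ℕ,
    ∀ (V : Type) [Fintype V] (G : SimpleGraph V) (d N : ℕ) (A0 : Fin t → Finset V),
      n₀ ≤ Fintype.card V → N = Fintype.card V / q → (∀ v, dg G v univ ≤ d) →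
      q * (d + 1) ≤ Fintype.card V + 1 → (∀ i j, i ≠ j → Disjoint (A0 i) (A0 j)) →
      (∀ i, (A0 i).card = N) → (∀ i, (hn G (A0 i) : ℝ) ≤ γ * (Fintype.card V : ℝ) ^ 2) →
      (∀ Z : Finset V, (∀ i, Disjoint Z (A0 i)) → Z.card = N →
        γ' * (Fintype.card V : ℝ) ^ 2 < hn G Z) →
      ∃ (A AT : Fin t → Finset V) (B BT : Finset V), Cls G q t s d N w A AT B BT ∧
        (∀ Z, Z ⊆ BT → (N : ℝ) - 2 * κ * Fintype.card V ≤ Z.card →
          γ' / 2 * (Fintype.card V : ℝ) ^ 2 ≤ hn G Z) ∧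
        ∀ X : Finset V, (X.card : ℝ) ≤ κ * Fintype.card V →
          ∃ K : Finset V, K ⊆ BT \ X ∧ K.card = s + 1 ∧ Ind G K := by
  have hq2 : (2 : ℝ) ≤ q := by exact_mod_cast hq
  have hqq : (0 : ℝ) ≤ (q : ℝ) * w := by positivity
  -- consequences of the choice of the constants
  have hqw : 12 * ((q : ℝ) * w) ≤ κ := by nlinarith
  have hw1 : 24 * w ≤ κ := by nlinarith
  have hwc : w ≤ cd q := by linarith
  obtain ⟨γ0, hγ0, n0, hcl⟩ := classes q hq w hw0 hwc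
  obtain ⟨n1, hn1⟩ := exists_nat_gt ((q : ℝ) / w)
  refine ⟨min γ' γ0, lt_min h0 hγ0, min_le_left _ _, max n0 (n1 + 1), ?_⟩
  intro V _ G d N A0 hcV hN hdeg hqd hdisj hcard hA0 hNE
  have hn0 : n0 ≤ Fintype.card V := (le_max_left _ _).trans hcV
  have hn1' : n1 + 1 ≤ Fintype.card V := (le_max_right _ _).trans hcV
  have hbig : (q : ℝ) ≤ w * Fintype.card V := by
    have h2 : (n1 : ℝ) ≤ Fintype.card V := by exact_mod_cast (Nat.le_succ n1).trans hn1'
    have h3 : (q : ℝ) / w ≤ Fintype.card V := hn1.le.trans h2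
    rwa [div_le_iff₀' hw0] at h3
  have hVpos : (0 : ℝ) < Fintype.card V := by
    have : 0 < Fintype.card V := by omega
    exact_mod_cast this
  have hdN : d ≤ N := by
    rw [hN, Nat.le_div_iff_mul_le (by omega)]
    have : q * (d + 1) = d * q + q := by ring
    omega
  obtain ⟨A, AT, B, BT, hC, hsym⟩ := hcl V G t s d N A0 hn0 hts hN hdN hdeg hdisj hcard
    (fun i => (hA0 i).trans (mul_le_mul_of_nonneg_right (min_le_right _ _) (by positivity)))
  have hne : ∀ Z, Z ⊆ BT → (N : ℝ) - 2 * κ * Fintype.card V ≤ Z.card →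
      γ' / 2 * (Fintype.card V : ℝ) ^ 2 ≤ hn G Z := fun Z hZ hZc =>
    neB hC hs A0 hcard hsym γ' (2 * κ) (by linarith) (by linarith) hNE Z hZ hZc
  refine ⟨A, AT, B, BT, hC, hne, fun X hX => ?_⟩
  refine cliqueB hC hs κ hκ0 hκ1 (by linarith) hbig (fun Z hZ hZc => ?_) X hX
  have h1 : 0 < hn G Z := by
    have h2 := hne Z hZ hZc
    have h3 : 0 < γ' / 2 * (Fintype.card V : ℝ) ^ 2 := by positivity
    exact_mod_cast h3.trans_le h2
  obtain ⟨p, hp⟩ := card_pos.mp h1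
  rw [mem_filter, mem_product] at hp
  exact ⟨p.1, hp.1.1, p.2, hp.1.2, hp.2⟩

end Pool.Agent.Helper64.BX
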