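import Pool.Agent.Helper64.BX.Basic
import Pool.Agent.Helper64.BX.St.Tile
import Pool.Agent.Helper64.BX.St.Fin1

/-! BEC exact P3 (MP_436ed3_co), piece Rem0.  Paper: /team-store/BECX_P3_paper.md, (D) removal lemma, s = 0.
As `rem`; every v ∈ B \ U is used to fill a class l with |A l \ U| < m (exists: ∑ (|A i \ U| - m) = -|B \ U| < 0): `tileK` with K = {v}, I = univ.erase l.
-/

set_option autoImplicit false

namespace Pool.Agent.Helper64.BX

open Finset Classical

variable {V : Type}

/-- the vertices of the reserved pairs -/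
private noncomputable def rv {t : ℕ} (Mt : Fin t → Finset (Finset V)) : Finset V :=
  univ.biUnion fun i => (Mt i).biUnion id

private theorem mem_rv {t : ℕ} {Mt : Fin t → Finset (Finset V)} {x : V} :
    x ∈ rv Mt ↔ ∃ i, ∃ e ∈ Mt i, x ∈ e := by
  simp [rv]

private theorem card_rv {G : SimpleGraph V} {t : ℕ} {A : Fin t → Finset V} {U : Finset V}
    {Mt : Fin t → Finset (Finset V)} (h : Res G A U Mt) : (rv Mt).card ≤ 2 * ∑ i, (Mt i).card := by
  unfold rv
  refine card_biUnion_le.trans ?_
  rw [mul_sum]
  refine sum_le_sum fun i _ => ?_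
  refine card_biUnion_le.trans ?_
  have h2 : ∑ e ∈ Mt i, (id e : Finset V).card = ∑ e ∈ Mt i, 2 :=
    sum_congr rfl (fun e he => (h.1 i e he).2.1)
  rw [h2, sum_const, smul_eq_mul, mul_comm]

private theorem sum_sdiff [Fintype V] {G : SimpleGraph V} {q t s d N : ℕ} {w : ℝ}
    {A AT : Fin t → Finset V} {B BT : Finset V} (hC : Cls G q t s d N w A AT B BT)
    (U : Finset V) : (univ \ U).card = ∑ i, (A i \ U).card + (B \ U).card := by
  have h1 : univ \ U = (univ.biUnion fun i => A i \ U) ∪ (B \ U) := by
    ext x
    have hx := hC.cov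
    have hx' : x ∈ univ.biUnion A ∪ B := by rw [hx]; exact mem_univ x
    simp only [mem_sdiff, mem_univ, true_and, mem_union, mem_biUnion] at hx' ⊢
    constructor
    · intro h
      rcases hx' with ⟨i, hi⟩ | hB
      · exact Or.inl ⟨i, hi, h⟩
      · exact Or.inr ⟨hB, h⟩
    · rintro (⟨i, _, h⟩ | ⟨_, h⟩) <;> exact h
  rw [h1, card_union_of_disjoint, card_biUnion]
  · intro i _ j _ hij
    exact (hC.disjA i j hij).mono sdiff_subset sdiff_subset
  · rw [disjoint_biUnion_left]
    intro i _
    exact (hC.disjB i).mono sdiff_subset sdiff_subset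

private theorem m_lower [Fintype V] {q m : ℕ} {U : Finset V} (hq : 2 ≤ q)
    (h1 : (univ \ U).card = q * m) (h2 : (U.card : ℝ) ≤ cd q * Fintype.card V) :
    (Fintype.card V : ℝ) ≤ 2 * q * m := by
  have h3 : (univ \ U).card + U.card = Fintype.card V := by
    rw [card_sdiff_add_card, union_eq_left.2 (subset_univ U), card_univ]
  have h4 : (Fintype.card V : ℝ) = q * m + U.card := by
    rw [← h3, h1]; push_cast; ring
  have h5 : cd q ≤ 1 / 2 := by
    unfold cd cc
    have hq' : (2 : ℝ) ≤ q := by exact_mod_cast hq
    rw [div_div, div_le_div_iff₀ (by positivity) (by norm_num)]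
    nlinarith [pow_pos (show (0 : ℝ) < q by linarith) 2, pow_pos (show (0 : ℝ) < q by linarith) 3]
  have h6 : (0 : ℝ) ≤ Fintype.card V := Nat.cast_nonneg _
  nlinarith

/-- the final step: all classes have size `m` -/
private theorem rem0_end [Fintype V] {G : SimpleGraph V} {q d N : ℕ} {w : ℝ}
    {A AT : Fin q → Finset V} {B BT : Finset V} (hC : Cls G q q 0 d N w A AT B BT)
    (U : Finset V) (m : ℕ) (h1 : (univ \ U).card = q * m)
    (h2 : (U.card : ℝ) ≤ cd q * Fintype.card V) (hB : B \ U = ∅)
    (hA : ∀ i, (A i \ U).card = m) : Tl G q m (univ \ U) := by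
  have hm := m_lower hC.q2 h1 h2
  have h3 : univ \ U = univ.biUnion (fun i => A i \ U) ∪ ∅ := by
    ext x
    have hx' : x ∈ univ.biUnion A ∪ B := by rw [hC.cov]; exact mem_univ x
    simp only [mem_sdiff, mem_univ, true_and, mem_union, mem_biUnion, notMem_empty, or_false]
      at hx' ⊢
    constructor
    · intro h
      rcases hx' with ⟨i, hi⟩ | hxB
      · exact ⟨i, hi, h⟩
      · exfalso
        have : x ∈ B \ U := mem_sdiff.2 ⟨hxB, h⟩
        rw [hB] at this
        exact notMem_empty _ this
    · rintro ⟨i, _, h⟩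
      exact h
  rw [h3]
  have h4 := fin1 G q 0 m (fun i => A i \ U) ∅
    (fun i j hij => (hC.disjA i j hij).mono sdiff_subset sdiff_subset)
    (fun i => disjoint_empty_right _) hA
    ⟨fun _ => ∅, fun _ => card_empty, fun _ => ind_empty, fun _ _ _ => disjoint_empty_left _,
      by ext x; simp⟩
    (by
      intro i v hv
      have hvA : v ∈ A i := (mem_sdiff.1 hv).1
      have h5 := hC.bnd i v hvA
      have h6 : dg G v ((univ.biUnion (fun i => A i \ U) ∪ ∅) \ (A i \ U)) ≤
          dg G v (univ \ A i) := by
        refine dg_mono ?_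
        intro x hx
        simp only [mem_sdiff, mem_union, mem_biUnion, mem_univ, true_and, notMem_empty,
          or_false, not_and] at hx ⊢
        obtain ⟨⟨j, hj, hxU⟩, h7⟩ := hx
        intro hxi
        exact hxU (by_contra fun h => h (by
          by_contra h8
          exact (h7 hxi) hxU))
      have h7 : (dg G v ((univ.biUnion (fun i => A i \ U) ∪ ∅) \ (A i \ U)) : ℝ) ≤
          2 * cc q * Fintype.card V := le_trans (by exact_mod_cast h6) h5
      have hq' : (2 : ℝ) ≤ q := by exact_mod_cast hC.q2
      have h8 : 2 * (q + 0) * (dg G v ((univ.biUnion (fun i => A i \ U) ∪ ∅) \ (A i \ U)) : ℝ)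
          ≤ m := by
        have h9 : cc q * (q : ℝ) ^ 2 = 1 / 100 := by
          unfold cc
          field_simp
        have h10 : 2 * (q : ℝ) * (2 * cc q * Fintype.card V) ≤ m := by
          calc 2 * (q : ℝ) * (2 * cc q * Fintype.card V)
              ≤ 2 * (q : ℝ) * (2 * cc q * (2 * q * m)) := by
                have : 0 ≤ cc q := by unfold cc; positivity
                gcongr
            _ = 8 * m * (cc q * (q : ℝ) ^ 2) := by ring
            _ = 8 * m * (1 / 100) := by rw [h9]
            _ ≤ m := by
              have : (0 : ℝ) ≤ m := Nat.cast_nonneg _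
              linarith
        refine le_trans ?_ h10
        rw [add_zero]
        gcongr
      exact_mod_cast h8)
    (by intro v hv; exact (notMem_empty _ hv).elim)
  simpa using h4

/-- one step does not destroy the reserved pairs -/
private theorem res_step {G : SimpleGraph V} {t : ℕ} {A : Fin t → Finset V} {U Y : Finset V}
    {Mt Mt' : Fin t → Finset (Finset V)} (h : Res G A U Mt) (hs : ∀ i, Mt' i ⊆ Mt i)
    (hd : ∀ i, ∀ e ∈ Mt' i, Disjoint e Y) : Res G A (U ∪ Y) Mt' := by
  refine ⟨fun i e he => ?_, fun i e he e' he' hne => h.2 i e (hs i he) e' (hs i he') hne⟩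
  obtain ⟨h1, h2, h3⟩ := h.1 i e (hs i he)
  refine ⟨fun x hx => ?_, h2, h3⟩
  have h4 := mem_sdiff.1 (h1 hx)
  rw [mem_sdiff, mem_union]
  refine ⟨h4.1, ?_⟩
  rintro (h5 | h5)
  · exact h4.2 h5
  · exact (disjoint_left.1 (hd i e he)) hx h5

private theorem card_sdiff_step {S U Y : Finset V} (hY : Disjoint Y U) :
    (S \ (U ∪ Y)).card + (Y ∩ S).card = (S \ U).card := by
  have h1 : S \ U = (S \ (U ∪ Y)) ∪ (Y ∩ S) := by
    ext x
    simp only [mem_sdiff, mem_union, mem_inter, not_or]
    constructor
    · rintro ⟨h1, h2⟩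
      by_cases h3 : x ∈ Y
      · exact Or.inr ⟨h3, h1⟩
      · exact Or.inl ⟨h1, h2, h3⟩
    · rintro (⟨h1, h2, _⟩ | ⟨h1, h2⟩)
      · exact ⟨h1, h2⟩
      · exact ⟨h2, (disjoint_left.1 hY) h1⟩
  rw [h1, card_union_of_disjoint]
  rw [disjoint_left]
  intro x hx hx'
  rw [mem_sdiff, mem_union] at hx
  rw [mem_inter] at hx'
  exact hx.2 (Or.inr hx'.1)

/-- adding the new tile -/
private theorem tl_step [Fintype V] {G : SimpleGraph V} {q m : ℕ} {U Y : Finset V}
    (hY : Disjoint Y U) (hYc : Y.card = q) (hYi : Ind G Y)
    (h : Tl G q m (univ \ (U ∪ Y))) : Tl G q (m + 1) (univ \ U) := by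
  have h1 := tl_union h (tl_one hYc hYi) (by
    rw [disjoint_left]
    intro x hx hx'
    rw [mem_sdiff, mem_union] at hx
    exact hx.2 (Or.inr hx'))
  convert h1 using 1
  ext x
  simp only [mem_sdiff, mem_univ, true_and, mem_union, not_or]
  constructor
  · intro h2
    by_cases h3 : x ∈ Y
    · exact Or.inr h3
    · exact Or.inl ⟨h2, h3⟩
  · rintro (⟨h2, _⟩ | h2)
    · exact h2
    · exact (disjoint_left.1 hY) h2

theorem rem0 [Fintype V] {G : SimpleGraph V} {q d N : ℕ} {w : ℝ} {A AT : Fin q → Finset V}
    {B BT : Finset V} (hC : Cls G q q 0 d N w A AT B BT) (p : ℕ) :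
    ∀ (U : Finset V) (m : ℕ) (Mt : Fin q → Finset (Finset V)),
      (univ \ U).card = q * m → Res G A U Mt → (∀ i, (A i \ U).card ≤ m + (Mt i).card) →
      (B \ U).card + ∑ i, ((A i \ U).card - m) ≤ p →
      (U.card : ℝ) + q * p + 2 * ∑ i, ((Mt i).card : ℝ) ≤ cd q * Fintype.card V →
      Tl G q m (univ \ U) := by
  have hq2 := hC.q2
  induction p with
  | zero =>
    intro U m Mt h1 hR hM hp hb
    have hs := sum_sdiff hC U
    have hBU : (B \ U).card = 0 := by omega
    have hpos : ∑ i, ((A i \ U).card - m) = 0 := by omega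
    have hle : ∀ i, (A i \ U).card ≤ m := by
      intro i
      have := (sum_eq_zero_iff.1 hpos) i (mem_univ i)
      omega
    have heq : ∀ i, (A i \ U).card = m := by
      have h2 : ∑ i, (A i \ U).card = ∑ i : Fin q, m := by
        rw [sum_const, card_univ, Fintype.card_fin, smul_eq_mul]
        omega
      intro i
      exact (sum_eq_sum_iff_of_le (fun i _ => hle i)).1 h2 i (mem_univ i)
    refine rem0_end hC U m h1 ?_ (card_eq_zero.1 hBU) heq
    have h3 : (0 : ℝ) ≤ ∑ i, ((Mt i).card : ℝ) := sum_nonneg fun i _ => Nat.cast_nonneg _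
    push_cast at hb
    linarith
  | succ p ih =>
    intro U m Mt h1 hR hM hp hb
    have hs := sum_sdiff hC U
    have h30 : (0 : ℝ) ≤ ∑ i, ((Mt i).card : ℝ) := sum_nonneg fun i _ => Nat.cast_nonneg _
    have hX : ((U ∪ rv Mt).card : ℝ) ≤ cd q * Fintype.card V := by
      have h4 : (U ∪ rv Mt).card ≤ U.card + 2 * ∑ i, (Mt i).card :=
        (card_union_le _ _).trans (Nat.add_le_add_left (card_rv hR) _)
      have h5 : ((U ∪ rv Mt).card : ℝ) ≤ U.card + 2 * ∑ i, ((Mt i).card : ℝ) := by
        exact_mod_cast h4
      have h6 : (0 : ℝ) ≤ q * ((p + 1 : ℕ) : ℝ) := by positivity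
      linarith
    by_cases hend : (B \ U).card + ∑ i, ((A i \ U).card - m) ≤ p
    · refine ih U m Mt h1 hR hM hend ?_
      have : (0 : ℝ) ≤ q := Nat.cast_nonneg _
      push_cast at hb ⊢
      nlinarith
    -- a common ending of the two cases
    have step : ∀ (Y : Finset V) (m' : ℕ) (Mt' : Fin q → Finset (Finset V)), m = m' + 1 →
        Disjoint Y U → Y.card = q → Ind G Y → (∀ i, Mt' i ⊆ Mt i) →
        (∀ i, ∀ e ∈ Mt' i, Disjoint e Y) →
        (∀ i, (A i \ (U ∪ Y)).card ≤ m' + (Mt' i).card) →
        (B \ (U ∪ Y)).card + ∑ i, ((A i \ (U ∪ Y)).card - m') ≤ p →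
        Tl G q m (univ \ U) := by
      intro Y m' Mt' hm hYU hYc hYi hs1 hs2 hs3 hs4
      subst hm
      refine tl_step hYU hYc hYi (ih (U ∪ Y) m' Mt' ?_ (res_step hR hs1 hs2) hs3 hs4 ?_)
      · have h5 := card_sdiff_step (S := univ) hYU
        rw [inter_univ, hYc, h1] at h5
        have h6 : q * (m' + 1) = q * m' + q := by ring
        omega
      · have h5 : ((U ∪ Y).card : ℝ) = U.card + q := by
          rw [card_union_of_disjoint hYU.symm, hYc]
          push_cast
          ring
        have h6 : ∑ i, ((Mt' i).card : ℝ) ≤ ∑ i, ((Mt i).card : ℝ) :=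
          sum_le_sum fun i _ => by exact_mod_cast card_le_card (hs1 i)
        rw [h5]
        push_cast at hb
        nlinarith
    have hm0 : m ≠ 0 := by
      intro hm
      subst hm
      rw [Nat.mul_zero] at h1
      have h7 : ∀ i, (A i \ U).card = 0 := by
        intro i
        have : (A i \ U).card ≤ ∑ i, (A i \ U).card :=
          single_le_sum (f := fun i => (A i \ U).card) (fun _ _ => Nat.zero_le _) (mem_univ i)
        omega
      apply hend
      rw [sum_eq_zero fun i _ => by rw [h7 i, Nat.zero_sub]]
      omega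
    obtain ⟨m', rfl⟩ : ∃ m', m = m' + 1 := ⟨m - 1, by omega⟩
    by_cases hBU : (B \ U).card = 0
    · -- (T2)
      have hj : ∃ j, m' + 1 < (A j \ U).card := by
        by_contra hno
        push Not at hno
        apply hend
        rw [hBU, sum_eq_zero fun i _ => by have := hno i; omega]
        omega
      obtain ⟨j, hj⟩ := hj
      have hl : ∃ l, (A l \ U).card < m' + 1 := by
        by_contra hno
        push Not at hno
        have h8 : ∑ i : Fin q, (m' + 1) < ∑ i, (A i \ U).card :=
          sum_lt_sum (fun i _ => hno i) ⟨j, mem_univ j, hj⟩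
        rw [sum_const, card_univ, Fintype.card_fin, smul_eq_mul] at h8
        omega
      obtain ⟨l, hl⟩ := hl
      have hjl : j ≠ l := by
        rintro rfl
        omega
      have hMj : 0 < (Mt j).card := by
        have := hM j
        omega
      obtain ⟨e, he⟩ := card_pos.1 hMj
      obtain ⟨he1, he2, he3⟩ := hR.1 j e he
      obtain ⟨Y, hY1, hY2, hY3, hY4, hY5, hY6, hY7, hY8, hY9⟩ := tileE hC j e
        (he1.trans sdiff_subset) he2 he3 ((univ.erase j).erase l)
        (by simp) 0 ∅ (empty_subset _) 0 (by intro v hv; exact (notMem_empty _ hv).elim)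
        (Or.inl rfl) (Nat.zero_le _) (U ∪ rv Mt) hX
      have hYU : Disjoint Y U := by
        rw [disjoint_left]
        intro x hx hxU
        by_cases hxe : x ∈ e
        · exact (mem_sdiff.1 (he1 hxe)).2 hxU
        · exact (disjoint_left.1 hY2) (mem_sdiff.2 ⟨hx, hxe⟩) (mem_union_left _ hxU)
      have hIc : ((univ.erase j).erase l : Finset (Fin q)).card = q - 1 - 1 := by
        rw [card_erase_of_mem (mem_erase.2 ⟨hjl.symm, mem_univ l⟩),
          card_erase_of_mem (mem_univ j), card_univ, Fintype.card_fin]
      have hYc : Y.card = q := by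
        rw [hY3, hIc]
        omega
      have hYA : ∀ i, i ≠ j → i ≠ l → (Y ∩ A i).card = 1 := fun i hij hil =>
        hY7 i (mem_erase.2 ⟨hil, mem_erase.2 ⟨hij, mem_univ i⟩⟩)
      have hYl : (Y ∩ A l).card = 0 := by
        rw [card_eq_zero, ← disjoint_iff_inter_eq_empty]
        exact hY8 l (by simp) hjl.symm
      have hYj : (Y ∩ A j).card = 2 := by rw [hY6, he2]
      have hcs : ∀ i, (A i \ (U ∪ Y)).card + (Y ∩ A i).card = (A i \ U).card :=
        fun i => card_sdiff_step hYU
      have hcB : (B \ (U ∪ Y)).card + (Y ∩ B).card = (B \ U).card := card_sdiff_step hYU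
      refine step Y m' (fun i => if i = j then (Mt j).erase e else Mt i) rfl hYU hYc hY9 ?_ ?_ ?_ ?_
      · intro i
        split_ifs with h
        · subst h
          exact erase_subset _ _
        · exact Subset.rfl
      · intro i e' he'
        have hmem : e' ∈ Mt i ∧ Disjoint e' e := by
          split_ifs at he' with h
          · subst h
            rw [mem_erase] at he'
            exact ⟨he'.2, hR.2 i e' he'.2 e he he'.1⟩
          · refine ⟨he', ?_⟩
            exact (hC.disjA i j h).mono ((hR.1 i e' he').1.trans sdiff_subset)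
              (he1.trans sdiff_subset)
        rw [disjoint_left]
        intro x hx hxY
        by_cases hxe : x ∈ e
        · exact (disjoint_left.1 hmem.2) hx hxe
        · exact (disjoint_left.1 hY2) (mem_sdiff.2 ⟨hxY, hxe⟩)
            (mem_union_right _ (mem_rv.2 ⟨i, e', hmem.1, hx⟩))
      · intro i
        have h9 := hcs i
        have h10 := hM i
        split_ifs with h
        · subst h
          rw [card_erase_of_mem he]
          omega
        · by_cases hil : i = l
          · subst hil
            omega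
          · have := hYA i h hil
            omega
      · have h11 : ∑ i, ((A i \ (U ∪ Y)).card - m') < ∑ i, ((A i \ U).card - (m' + 1)) := by
          refine sum_lt_sum (fun i _ => ?_) ⟨j, mem_univ j, ?_⟩
          · have h9 := hcs i
            by_cases hij : i = j
            · subst hij
              omega
            · by_cases hil : i = l
              · subst hil
                omega
              · have := hYA i hij hil
                omega
          · have h9 := hcs j
            omega
        omega
    · -- (T5)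
      obtain ⟨v, hv⟩ := card_pos.1 (Nat.pos_of_ne_zero hBU)
      have hvB : v ∈ B := (mem_sdiff.1 hv).1
      have hvU : v ∉ U := (mem_sdiff.1 hv).2
      have hl : ∃ l, (A l \ U).card < m' + 1 := by
        by_contra hno
        push Not at hno
        have h8 : ∑ i : Fin q, (m' + 1) ≤ ∑ i, (A i \ U).card :=
          sum_le_sum (fun i _ => hno i)
        rw [sum_const, card_univ, Fintype.card_fin, smul_eq_mul] at h8
        omega
      obtain ⟨l, hl⟩ := hl
      obtain ⟨Y, hY1, hY2, hY3, hY4, hY5, hY6, hY7⟩ := tileK hC (univ.erase l) {v} (U ∪ rv Mt)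
        (ind_singleton v) (by rw [card_singleton]; omega) v hvB
        (by intro x hx; exact Or.inl (mem_singleton.1 hx)) hX
      have hYU : Disjoint Y U := by
        rw [disjoint_left]
        intro x hx hxU
        by_cases hxv : x ∈ ({v} : Finset V)
        · rw [mem_singleton] at hxv
          subst hxv
          exact hvU hxU
        · exact (disjoint_left.1 hY2) (mem_sdiff.2 ⟨hx, hxv⟩) (mem_union_left _ hxU)
      have hYc : Y.card = q := by
        rw [hY3, card_singleton, card_erase_of_mem (mem_univ l), card_univ, Fintype.card_fin]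
        omega
      have hYA : ∀ i, i ≠ l → (Y ∩ A i).card = 1 := fun i hil =>
        hY5 i (mem_erase.2 ⟨hil, mem_univ i⟩)
      have hYl : (Y ∩ A l).card = 0 := by
        rw [card_eq_zero, ← disjoint_iff_inter_eq_empty]
        exact hY6 l (by simp)
      have hcs : ∀ i, (A i \ (U ∪ Y)).card + (Y ∩ A i).card = (A i \ U).card :=
        fun i => card_sdiff_step hYU
      have hcB : (B \ (U ∪ Y)).card + (Y ∩ B).card = (B \ U).card := card_sdiff_step hYU
      rw [hY4, card_singleton] at hcB
      refine step Y m' Mt rfl hYU hYc hY7 (fun i => Subset.rfl) ?_ ?_ ?_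
      · intro i e' he'
        rw [disjoint_left]
        intro x hx hxY
        by_cases hxv : x ∈ ({v} : Finset V)
        · rw [mem_singleton] at hxv
          subst hxv
          exact (disjoint_left.1 (hC.disjB i)) (mem_sdiff.1 ((hR.1 i e' he').1 hx)).1 hvB
        · exact (disjoint_left.1 hY2) (mem_sdiff.2 ⟨hxY, hxv⟩)
            (mem_union_right _ (mem_rv.2 ⟨i, e', he', hx⟩))
      · intro i
        have h9 := hcs i
        have h10 := hM i
        by_cases hil : i = l
        · subst hil
          omega
        · have := hYA i hil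
          omega
      · have h11 : ∑ i, ((A i \ (U ∪ Y)).card - m') ≤ ∑ i, ((A i \ U).card - (m' + 1)) := by
          refine sum_le_sum (fun i _ => ?_)
          have h9 := hcs i
          by_cases hil : i = l
          · subst hil
            omega
          · have := hYA i hil
            omega
        omega

end Pool.Agent.Helper64.BX
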