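import Pool.Agent.Helper64.BX.Basic
import Pool.Agent.Helper64.BX.St.Rem0
import Pool.Agent.Helper64.BX.St.Split
import Pool.Agent.Helper64.BX.St.Emb
import Pool.Agent.Helper64.BX.St.Mat

/-! BEC exact P3 (MP_436ed3_co), piece Stage0.  Paper: /team-store/BECX_P3_paper.md, stage, s = 0.
As `stage`, with `rsC` and `rem0`. In the second case of `rsC`: q e = |W| + 1, so q (m + e) = n + 1 > ∑ |A i| and some i0 has |A i0| ≤ m + e - 1, hence no positive excess at i0
(|V_i0| ≥ e - 1). (If e = 0 the second case is impossible.)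
-/

set_option autoImplicit false

namespace Pool.Agent.Helper64.BX

open Finset Classical

variable {V : Type}

/-- the colouring of `R`: in every class the excess is not positive or the matching exists -/
theorem stage0_col [Fintype V] {G : SimpleGraph V} {q d N : ℕ} {w : ℝ} {A AT : Fin q → Finset V}
    {B BT : Finset V} (hC : Cls G q q 0 d N w A AT B BT)
    {W : Type} [Fintype W] (R : SimpleGraph W) (m : ℕ) (hdeg : ∀ a, dg R a univ + 1 ≤ q)
    (hm : Fintype.card V = q * m + Fintype.card W) (hqd : q * (d + 1) ≤ Fintype.card V + 1) :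
    ∃ col : W → Fin q, (∀ a b, R.Adj a b → col a ≠ col b) ∧
      ∀ i, (A i).card ≤ (univ.filter fun a => col a = i).card + m ∨
        d + 1 ≤ (univ.filter fun a => col a = i).card + m := by
  have hq2 := hC.q2
  have he : q * (d + 1 - m) ≤ Fintype.card W + 1 := by
    rcases Nat.le_total (d + 1) m with h | h
    · rw [Nat.sub_eq_zero_of_le h, mul_zero]
      omega
    · rw [Nat.mul_sub]
      omega
  rcases rsC R q (d + 1 - m) (by omega) hdeg he with ⟨col, h1, h2⟩ | ⟨h1, h2⟩
  · refine ⟨col, h1, fun i => Or.inr ?_⟩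
    have := h2 i
    omega
  · have hsum : ∑ i, (A i).card ≤ Fintype.card V := by
      rw [← card_biUnion (fun i _ j _ hij => hC.disjA i j hij)]
      exact card_le_univ _
    obtain ⟨i0, hi0⟩ : ∃ i0, (A i0).card + 1 ≤ m + (d + 1 - m) := by
      by_contra hcon
      push Not at hcon
      have h3 : ∑ _i : Fin q, (m + (d + 1 - m)) ≤ ∑ i, (A i).card :=
        sum_le_sum fun i _ => by have := hcon i; omega
      rw [sum_const, card_univ, Fintype.card_fin, smul_eq_mul, Nat.mul_add] at h3
      omega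
    obtain ⟨col, h3, h4, h5⟩ := h2 i0
    refine ⟨col, h3, fun i => ?_⟩
    by_cases hi : i = i0
    · subst hi
      left
      omega
    · right
      have := h4 i hi
      omega

theorem stage0 [Fintype V] {G : SimpleGraph V} {q d N : ℕ} {w : ℝ} {A AT : Fin q → Finset V}
    {B BT : Finset V} (hC : Cls G q q 0 d N w A AT B BT) (hw : 6 * (q : ℝ) ^ 2 * w ≤ cd q)
    {W : Type} [Fintype W] (R : SimpleGraph W) (m : ℕ) (hdeg : ∀ a, dg R a univ + 1 ≤ q)
    (hm : Fintype.card V = q * m + Fintype.card W) (hqd : q * (d + 1) ≤ Fintype.card V + 1)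
    (hr : 6 * (q : ℝ) ^ 2 * Fintype.card W ≤ cd q * Fintype.card V) : Pack3 G q m R := by
  obtain ⟨col, hcol, hexc⟩ := stage0_col hC R m hdeg hm hqd
  have hq2 : (2 : ℝ) ≤ q := by exact_mod_cast hC.q2
  have hq2' := hC.q2
  set n : ℝ := (Fintype.card V : ℝ) with hn
  set r : ℝ := (Fintype.card W : ℝ) with hrr
  have hn0 : 0 ≤ n := Nat.cast_nonneg _
  have hr0 : 0 ≤ r := Nat.cast_nonneg _
  have hw0 := hC.w0
  have hwn : 0 ≤ w * n := mul_nonneg hw0 hn0
  have hcd : cd q = 1 / (3200 * (q : ℝ) ^ 3) := by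
    unfold cd cc
    field_simp
    norm_num
  have hcd0 : 0 < cd q := by rw [hcd]; positivity
  have hq0 : (0 : ℝ) < q := by linarith
  -- the two budgets
  have hb1 : 6 * (q : ℝ) ^ 2 * (w * n) ≤ cd q * n := by
    calc 6 * (q : ℝ) ^ 2 * (w * n) = 6 * (q : ℝ) ^ 2 * w * n := by ring
      _ ≤ cd q * n := mul_le_mul_of_nonneg_right hw hn0
  have hNm : (N : ℝ) ≤ m + r := by
    have h1 : N ≤ m + Fintype.card W := by
      rw [hC.hN, hm, Nat.mul_add_div (by omega)]
      exact Nat.add_le_add_left (Nat.div_le_self _ _) _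
    rw [hrr]
    exact_mod_cast h1
  have hNn : n ≤ q * N + q := by
    have h1 : Fintype.card V < q * (N + 1) := by
      rw [hC.hN]
      have := Nat.lt_mul_div_succ (Fintype.card V) (show 0 < q by omega)
      exact this
    have h2 : (Fintype.card V : ℝ) < q * (N + 1) := by exact_mod_cast h1
    rw [hn]
    linarith
  -- the excess
  let c : Fin q → ℕ := fun i => (univ.filter fun a => col a = i).card
  let x : Fin q → ℕ := fun i => (A i).card - c i - m
  have hx : ∀ i, (x i : ℝ) ≤ r + w * n := by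
    intro i
    rcases Nat.lt_or_ge (c i + m) (A i).card with h | h
    · have h1 : x i + c i + m = (A i).card := by
        change (A i).card - c i - m + c i + m = (A i).card
        omega
      have h2 : (x i : ℝ) + c i + m = (A i).card := by exact_mod_cast h1
      have h3 := hC.cardA2 i
      have h4 : (0 : ℝ) ≤ c i := Nat.cast_nonneg _
      linarith
    · have h1 : x i = 0 := by
        change (A i).card - c i - m = 0
        omega
      rw [h1]
      push_cast
      linarith
  have hsmall : 3 * (w * n) + 2 * r ≤ N := by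
    have h1 : (q : ℝ) ≤ cd q * n := hC.big
    have h4 : (4 : ℝ) ≤ (q : ℝ) ^ 2 := by nlinarith
    have h2 : 24 * (w * n) ≤ cd q * n := by nlinarith
    have h3 : 24 * r ≤ cd q * n := by nlinarith
    have h5 : (q : ℝ) * (3 * (w * n) + 2 * r) ≤ q * N := by
      have h6 : (q : ℝ) * (cd q * n) + cd q * n ≤ n := by
        rw [hcd]
        have h7 : (q : ℝ) * (1 / (3200 * (q : ℝ) ^ 3) * n) + 1 / (3200 * (q : ℝ) ^ 3) * n =
            ((q + 1) / (3200 * (q : ℝ) ^ 3)) * n := by ring
        rw [h7]
        have h8 : ((q : ℝ) + 1) / (3200 * (q : ℝ) ^ 3) ≤ 1 := by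
          rw [div_le_one (by positivity)]
          nlinarith [mul_nonneg (sub_nonneg.2 hq2) (sub_nonneg.2 h4)]
        nlinarith
      have h9 : 3 * (w * n) + 2 * r ≤ cd q * n := by linarith
      nlinarith
    exact le_of_mul_le_mul_left h5 hq0
  -- the matchings
  have hMt : ∀ i, ∃ Mt : Finset (Finset V), Mt.card = x i ∧
      (∀ e ∈ Mt, e ⊆ A i ∧ e.card = 2 ∧ Ind G e) ∧
      ∀ e ∈ Mt, ∀ e' ∈ Mt, e ≠ e' → Disjoint e e' := by
    intro i
    rcases Nat.lt_or_ge (c i + m) (A i).card with h | h
    · apply mat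
      · intro v hv
        have h1 : d + 1 ≤ c i + m := by
          rcases hexc i with h' | h'
          · exact absurd h' (not_le.2 h)
          · exact h'
        have h2 : dg G v (A i) ≤ d := (dg_mono (subset_univ _)).trans (hC.deg v)
        change (A i).card - c i - m + dg G v (A i) + 1 ≤ (A i).card
        omega
      · have h1 := hx i
        have h2 := hC.cardA1 i
        have h3 : (2 : ℝ) * x i ≤ (A i).card := by linarith
        exact_mod_cast h3
    · refine ⟨∅, ?_, by simp, by simp⟩
      change (∅ : Finset (Finset V)).card = (A i).card - c i - m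
      rw [card_empty]
      omega
  choose Mt hMc hMe hMd using hMt
  set X : Finset V := univ.biUnion fun i => (Mt i).biUnion id with hX
  have hXc : (X.card : ℝ) ≤ 2 * (q * (r + w * n)) := by
    have h1 : X.card ≤ ∑ i, 2 * x i := by
      rw [hX]
      refine card_biUnion_le.trans (sum_le_sum fun i _ => ?_)
      refine card_biUnion_le.trans ?_
      have h2 : ∑ e ∈ Mt i, (id e : Finset V).card = ∑ _e ∈ Mt i, 2 :=
        sum_congr rfl fun e he => (hMe i e he).2.1
      rw [h2, sum_const, smul_eq_mul, hMc i, mul_comm]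
    calc (X.card : ℝ) ≤ ((∑ i, 2 * x i : ℕ) : ℝ) := by exact_mod_cast h1
      _ = ∑ i, 2 * (x i : ℝ) := by push_cast; rfl
      _ ≤ ∑ _i : Fin q, 2 * (r + w * n) := sum_le_sum fun i _ => by linarith [hx i]
      _ = 2 * (q * (r + w * n)) := by
          rw [sum_const, card_univ, Fintype.card_fin, nsmul_eq_mul]; ring
  have hbud : (3 * (q : ℝ) ^ 2) * (r + w * n) ≤ cd q * n := by nlinarith
  have hq22 : 2 * (q : ℝ) ≤ (q : ℝ) ^ 2 := by nlinarith
  have hrw : 0 ≤ r + w * n := by linarith
  obtain ⟨f, hfi, hfX, hfA, -, hfR⟩ := embR hC R (fun a => some (col a))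
    (fun a b hab h => absurd (Option.some.inj h) (hcol a b hab)) hdeg
    (fun a h => absurd h (Option.some_ne_none _)) X (by
      change (X.card : ℝ) + r ≤ cd q * n
      nlinarith)
  refine ⟨f, hfi, hfR, ?_⟩
  set U : Finset V := univ.image f with hU
  have hUc : U.card = Fintype.card W := by
    rw [hU, card_image_of_injective _ hfi, card_univ]
  have hAU : ∀ i, (A i \ U).card ≤ m + x i := by
    intro i
    have h1 : (univ.filter fun a => col a = i).image f ⊆ A i ∩ U := by
      intro v hv
      rw [mem_image] at hv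
      obtain ⟨a, ha, rfl⟩ := hv
      rw [mem_inter]
      refine ⟨hC.subA i (hfA a i ?_), ?_⟩
      · rw [(mem_filter.1 ha).2]
      · rw [hU]
        exact mem_image_of_mem f (mem_univ a)
    have h2 := card_le_card h1
    rw [card_image_of_injective _ hfi] at h2
    have h3 := card_sdiff_add_card_inter (A i) U
    change c i ≤ _ at h2
    change (A i \ U).card ≤ m + ((A i).card - c i - m)
    omega
  refine rem0 hC ((B \ U).card + ∑ i, ((A i \ U).card - m)) U m Mt ?_ ?_ ?_ le_rfl ?_
  · rw [card_sdiff_of_subset (subset_univ _), card_univ, hUc]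
    omega
  · refine ⟨fun i e he => ⟨?_, (hMe i e he).2⟩, hMd⟩
    intro v hv
    rw [mem_sdiff]
    refine ⟨(hMe i e he).1 hv, fun hvU => ?_⟩
    rw [hU, mem_image] at hvU
    obtain ⟨a, -, rfl⟩ := hvU
    apply hfX a
    rw [hX, mem_biUnion]
    refine ⟨i, mem_univ i, ?_⟩
    rw [mem_biUnion]
    exact ⟨e, he, hv⟩
  · intro i
    rw [hMc i]
    exact hAU i
  · have hBc : ((B \ U).card : ℝ) ≤ w * n := by
      have h1 := hC.cardB2
      have h2 : ((B \ U).card : ℝ) ≤ B.card := by exact_mod_cast card_le_card sdiff_subset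
      push_cast at h1
      linarith
    have hAc : ((∑ i, ((A i \ U).card - m) : ℕ) : ℝ) ≤ q * (r + w * n) := by
      calc ((∑ i, ((A i \ U).card - m) : ℕ) : ℝ) ≤ ((∑ i, x i : ℕ) : ℝ) := by
            exact_mod_cast sum_le_sum fun i _ => by have := hAU i; omega
        _ = ∑ i, (x i : ℝ) := by push_cast; rfl
        _ ≤ ∑ _i : Fin q, (r + w * n) := sum_le_sum fun i _ => hx i
        _ = q * (r + w * n) := by rw [sum_const, card_univ, Fintype.card_fin, nsmul_eq_mul]
    have hMs : ∑ i, ((Mt i).card : ℝ) ≤ q * (r + w * n) := by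
      calc ∑ i, ((Mt i).card : ℝ) = ∑ i, (x i : ℝ) := sum_congr rfl fun i _ => by rw [hMc i]
        _ ≤ ∑ _i : Fin q, (r + w * n) := sum_le_sum fun i _ => hx i
        _ = q * (r + w * n) := by rw [sum_const, card_univ, Fintype.card_fin, nsmul_eq_mul]
    rw [hUc]
    change r + q * (((B \ U).card + ∑ i, ((A i \ U).card - m) : ℕ) : ℝ) +
      2 * ∑ i, ((Mt i).card : ℝ) ≤ cd q * n
    rw [Nat.cast_add]
    have h1 : (q : ℝ) * (((B \ U).card : ℝ) + ((∑ i, ((A i \ U).card - m) : ℕ) : ℝ)) ≤
        q * (w * n + q * (r + w * n)) :=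
      mul_le_mul_of_nonneg_left (add_le_add hBc hAc) hq0.le
    nlinarith
end Pool.Agent.Helper64.BX
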