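import Pool.Agent.Helper64.BX.St.Prep
import Pool.Agent.Helper64.BX.St.Stage
import Pool.Agent.Helper64.BX.St.Stage0

/-! BEC exact P3 (MP_436ed3_co), piece St01.  Paper: /team-store/BECX_P3_paper.md, part D, s = 0 and s = 1.
s = 0: `classes` with w = cd q / (6 q²), `stage0`, μ = cd q / (6 q²). s = 1: `prep` with κ = min (cd q) (γ' / 16), w = κ / (6 q²), then `stage` (hFB: `tl_singletons`), μ = κ / (6 q²).
-/

set_option autoImplicit false

namespace Pool.Agent.Helper64.BX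

open Finset Classical

theorem cd_pos01 {q : ℕ} (hq : 2 ≤ q) : 0 < cd q := by
  have h : (0 : ℝ) < q := by
    have : 0 < q := by omega
    exact_mod_cast this
  unfold cd cc
  positivity

theorem mul_div_self01 {q : ℕ} (hq : 2 ≤ q) (x : ℝ) :
    6 * (q : ℝ) ^ 2 * (x / (6 * (q : ℝ) ^ 2)) = x := by
  have h : (q : ℝ) ≠ 0 := by
    have : q ≠ 0 := by omega
    exact_mod_cast this
  field_simp

theorem d_le_N01 {q d n : ℕ} (hq : 2 ≤ q) (h : q * (d + 1) ≤ n + 1) : d ≤ n / q := by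
  rw [Nat.le_div_iff_mul_le (by omega)]
  have h1 : q * (d + 1) = d * q + q := by ring
  omega

theorem div_le01 {q : ℕ} (hq : 2 ≤ q) {x : ℝ} (hx : 0 ≤ x) : x / (6 * (q : ℝ) ^ 2) ≤ x := by
  apply div_le_self hx
  have h : (1 : ℝ) ≤ q := by
    have : 1 ≤ q := by omega
    exact_mod_cast this
  nlinarith

theorem st0 (q : ℕ) (hq : 2 ≤ q) : StageP q q 0 := by
  intro γ' hγ'
  have hq0 : (0 : ℝ) < q := by
    have : 0 < q := by omega
    exact_mod_cast this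
  have hcd := cd_pos01 hq
  have hw0 : 0 < cd q / (6 * (q : ℝ) ^ 2) := by positivity
  obtain ⟨γ, hγ, n₀, h⟩ := classes q hq (cd q / (6 * (q : ℝ) ^ 2)) hw0 (div_le01 hq hcd.le)
  refine ⟨min γ' γ, lt_min hγ' hγ, min_le_left _ _, cd q / (6 * (q : ℝ) ^ 2), hw0, n₀, ?_⟩
  intro V _ G d N A0 h1 h2 h3 h4 h5 h6 h7 _ W _ R m h8 h9 h10
  obtain ⟨A, AT, B, BT, hC, -⟩ := h V G q 0 d N A0 h1 (Nat.add_zero q) h2
    (by rw [h2]; exact d_le_N01 hq h4) h3 h5 h6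
    (fun i => (h7 i).trans (mul_le_mul_of_nonneg_right (min_le_right _ _) (by positivity)))
  refine stage0 hC (mul_div_self01 hq _).le R m h8 h9 h4 ?_
  calc 6 * (q : ℝ) ^ 2 * (Fintype.card W : ℝ)
      ≤ 6 * (q : ℝ) ^ 2 * (cd q / (6 * (q : ℝ) ^ 2) * Fintype.card V) :=
        mul_le_mul_of_nonneg_left h10 (by positivity)
    _ = (6 * (q : ℝ) ^ 2 * (cd q / (6 * (q : ℝ) ^ 2))) * Fintype.card V := by ring
    _ = cd q * Fintype.card V := by rw [mul_div_self01 hq]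

theorem st1 (q t : ℕ) (hq : 2 ≤ q) (hts : t + 1 = q) : StageP q t 1 := by
  intro γ' hγ'
  have hq0 : (0 : ℝ) < q := by
    have : 0 < q := by omega
    exact_mod_cast this
  have hcd := cd_pos01 hq
  obtain ⟨κ, hκ⟩ : ∃ κ : ℝ, κ = min (cd q) (γ' / 16) := ⟨_, rfl⟩
  have hκ0 : 0 < κ := by rw [hκ]; exact lt_min hcd (by positivity)
  have hκ1 : κ ≤ cd q := by rw [hκ]; exact min_le_left _ _
  have hκ2 : 16 * κ ≤ γ' := by
    have : κ ≤ γ' / 16 := by rw [hκ]; exact min_le_right _ _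
    linarith
  have hw0 : 0 < κ / (6 * (q : ℝ) ^ 2) := by positivity
  obtain ⟨γ, hγ, hγγ, n₀, h⟩ := prep q t 1 hq hts le_rfl γ' hγ' κ hκ0 hκ1 hκ2
    (κ / (6 * (q : ℝ) ^ 2)) hw0 (mul_div_self01 hq _).le
  refine ⟨γ, hγ, hγγ, κ / (6 * (q : ℝ) ^ 2), hw0, n₀, ?_⟩
  intro V _ G d N A0 h1 h2 h3 h4 h5 h6 h7 hZ W _ R m h8 h9 h10
  obtain ⟨A, AT, B, BT, hC, -, hK⟩ := h V G d N A0 h1 h2 h3 h4 h5 h6 h7 (hZ le_rfl)
  refine stage hC le_rfl κ hκ0 hκ1 (mul_div_self01 hq _).le ?_ hK R m h8 h9 h4 ?_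
  · intro B' M _ hcard _
    have hM : B'.card = M := by rw [hcard, one_mul]
    rw [← hM]
    exact tl_singletons B'
  · calc 6 * (q : ℝ) ^ 2 * (Fintype.card W : ℝ)
        ≤ 6 * (q : ℝ) ^ 2 * (κ / (6 * (q : ℝ) ^ 2) * Fintype.card V) :=
          mul_le_mul_of_nonneg_left h10 (by positivity)
      _ = (6 * (q : ℝ) ^ 2 * (κ / (6 * (q : ℝ) ^ 2))) * Fintype.card V := by ring
      _ = κ * Fintype.card V := by rw [mul_div_self01 hq]

end Pool.Agent.Helper64.BX
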